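import Mathlib
import Pool.Agent.H49.MMS.Grp

open Finset
open scoped BigOperators

namespace Pool.Agent.H49.M4

open Pool.Agent.H49.MMS

variable {κ : Type} [Fintype κ] [DecidableEq κ]

/-- pointwise Erdos-Littlewood-Offord bound, by Sperner -/
theorem elo_type {β : Type} [Fintype β] [DecidableEq β] (b : β → ℝ) (z W : ℝ) (hW : 0 ≤ W)
    (hb : ∀ j, W < |b j|) :
    ∑ J : Finset β, pw W (z - 2 * ∑ j ∈ J, b j) ≤
      ((Fintype.card β).choose (Fintype.card β / 2) : ℝ) := by
  set neg : Finset β := univ.filter (fun j => b j < 0) with hneg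
  set F : Finset (Finset β) := univ.filter (fun J => |z - 2 * ∑ j ∈ J, b j| ≤ W) with hF
  have h1 : ∑ J : Finset β, pw W (z - 2 * ∑ j ∈ J, b j) = (F.card : ℝ) := by
    unfold pw
    rw [Finset.sum_boole]
  rw [h1]
  set G : Finset (Finset β) := F.image (fun J => symmDiff J neg) with hG
  have hcard : G.card = F.card := by
    rw [hG]
    refine Finset.card_image_of_injective _ ?_
    exact symmDiff_left_injective neg
  have hsum : ∀ J : Finset β, ∑ j ∈ symmDiff J neg, |b j| = ∑ j ∈ J, b j + ∑ j ∈ neg, |b j| := by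
    intro J
    have e1 : symmDiff J neg = (J \ neg) ∪ (neg \ J) := rfl
    have e2 : ∑ j ∈ J, b j = ∑ j ∈ J \ neg, b j + ∑ j ∈ J ∩ neg, b j := by
      rw [add_comm]; exact (Finset.sum_inter_add_sum_sdiff J neg b).symm
    have e3 : ∑ j ∈ neg, |b j| = ∑ j ∈ neg \ J, |b j| + ∑ j ∈ neg ∩ J, |b j| := by
      rw [add_comm]; exact (Finset.sum_inter_add_sum_sdiff neg J (fun j => |b j|)).symm
    have hdisj : Disjoint (J \ neg) (neg \ J) := by
      rw [Finset.disjoint_left]
      intro i hi hi'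
      exact (Finset.mem_sdiff.1 hi).2 (Finset.mem_sdiff.1 hi').1
    rw [e1, Finset.sum_union hdisj, e2, e3]
    have e4 : ∑ j ∈ J \ neg, |b j| = ∑ j ∈ J \ neg, b j := by
      refine Finset.sum_congr rfl fun j hj => ?_
      have : j ∉ neg := (Finset.mem_sdiff.1 hj).2
      rw [hneg, Finset.mem_filter] at this
      push Not at this
      exact abs_of_nonneg (this (Finset.mem_univ _))
    have e5 : ∑ j ∈ neg ∩ J, |b j| = - ∑ j ∈ J ∩ neg, b j := by
      rw [Finset.inter_comm, ← Finset.sum_neg_distrib]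
      refine Finset.sum_congr rfl fun j hj => ?_
      have : j ∈ neg := (Finset.mem_inter.1 hj).2
      rw [hneg, Finset.mem_filter] at this
      exact abs_of_neg this.2
    rw [e4, e5]
    ring
  have hanti : IsAntichain (· ⊆ ·) (SetLike.coe G) := by
    intro J1 hJ1 J2 hJ2 hne hsub
    rw [SetLike.mem_coe, hG, Finset.mem_image] at hJ1 hJ2
    obtain ⟨I1, hI1, rfl⟩ := hJ1
    obtain ⟨I2, hI2, rfl⟩ := hJ2
    have a1 := (Finset.mem_filter.1 hI1).2
    have a2 := (Finset.mem_filter.1 hI2).2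
    have hss : symmDiff I1 neg ⊂ symmDiff I2 neg := Finset.ssubset_iff_subset_ne.2 ⟨hsub, hne⟩
    obtain ⟨i, hi2, hi1⟩ := Finset.exists_of_ssubset hss
    have hle : ∑ j ∈ symmDiff I1 neg, |b j| + |b i| ≤ ∑ j ∈ symmDiff I2 neg, |b j| := by
      have hins : insert i (symmDiff I1 neg) ⊆ symmDiff I2 neg := by
        rw [Finset.insert_subset_iff]
        exact ⟨hi2, hsub⟩
      have := Finset.sum_le_sum_of_subset_of_nonneg hins
        (f := fun j => |b j|) (fun j _ _ => abs_nonneg _)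
      rw [Finset.sum_insert hi1] at this
      linarith
    rw [hsum, hsum] at hle
    have := hb i
    rw [abs_le] at a1 a2
    linarith [a1.1, a1.2, a2.1, a2.2]
  have := hanti.sperner
  rw [hcard] at this
  exact_mod_cast this

/-- Erdos-Littlewood-Offord for a subset of large steps -/
theorem elo (B : Finset κ) (δ : κ → ℝ) (C W : ℝ) (hW : 0 ≤ W) (hB : ∀ j ∈ B, W < |δ j|) :
    𝔼 s : κ → Bool, pw W (C + ∑ j, sg (s j) * δ j) ≤
      ((B.card).choose (B.card / 2) : ℝ) / 2 ^ B.card := by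
  have h1 : ∀ J : Finset B, 𝔼 s : κ → Bool, pw W (C + ∑ j, sg (s j) * δ j -
      2 * ∑ j ∈ J.map (Function.Embedding.subtype _), sg (s j) * δ j) =
      𝔼 s : κ → Bool, pw W (C + ∑ j, sg (s j) * δ j) := fun J => flipJ _ δ C (pw W)
  have h2 : ∑ J : Finset B, (𝔼 s : κ → Bool, pw W (C + ∑ j, sg (s j) * δ j -
      2 * ∑ j ∈ J.map (Function.Embedding.subtype _), sg (s j) * δ j)) =
      2 ^ B.card * 𝔼 s : κ → Bool, pw W (C + ∑ j, sg (s j) * δ j) := by
    rw [Finset.sum_congr rfl fun J _ => h1 J, Finset.sum_const, Finset.card_univ,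
      Fintype.card_finset, Fintype.card_coe, nsmul_eq_mul]
    push_cast
    ring
  rw [← Finset.expect_sum_comm] at h2
  have h3 : 𝔼 s : κ → Bool, ∑ J : Finset B, pw W (C + ∑ j, sg (s j) * δ j -
      2 * ∑ j ∈ J.map (Function.Embedding.subtype _), sg (s j) * δ j) ≤
      ((B.card).choose (B.card / 2) : ℝ) := by
    calc _ ≤ 𝔼 _s : κ → Bool, ((B.card).choose (B.card / 2) : ℝ) := by
          refine Finset.expect_le_expect fun s _ => ?_
          have := elo_type (β := B) (fun j => sg (s j) * δ j) (C + ∑ j, sg (s j) * δ j) W hW (by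
            intro j
            rw [abs_mul]
            have : |sg (s j)| = 1 := by cases s j <;> simp [sg]
            rw [this, one_mul]
            exact hB j j.2)
          rw [Fintype.card_coe] at this
          simpa only [Finset.sum_map, Function.Embedding.subtype_apply] using this
      _ = _ := Fintype.expect_const _
  rw [h2] at h3
  rw [le_div_iff₀ (by positivity)]
  linarith

/-- central binomial coefficients are small -/
theorem central (j : ℕ) : (2 * j + 1) * ((2 * j).choose j) ^ 2 ≤ 16 ^ j := by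
  have h : ∀ j : ℕ, (2 * j + 1) * (Nat.centralBinom j) ^ 2 ≤ 16 ^ j := by
    intro j
    induction j with
    | zero => simp
    | succ j ih =>
      have h1 := Nat.succ_mul_centralBinom_succ j
      have h2 : (j + 1) ^ 2 * ((2 * (j + 1) + 1) * (Nat.centralBinom (j + 1)) ^ 2) ≤
          (j + 1) ^ 2 * 16 ^ (j + 1) := by
        calc (j + 1) ^ 2 * ((2 * (j + 1) + 1) * (Nat.centralBinom (j + 1)) ^ 2)
            = (2 * j + 3) * ((j + 1) * Nat.centralBinom (j + 1)) ^ 2 := by ring
          _ = (2 * j + 3) * (2 * (2 * j + 1) * Nat.centralBinom j) ^ 2 := by rw [h1]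
          _ = (4 * (2 * j + 3) * (2 * j + 1)) * ((2 * j + 1) * (Nat.centralBinom j) ^ 2) := by ring
          _ ≤ (4 * (2 * j + 3) * (2 * j + 1)) * 16 ^ j := Nat.mul_le_mul_left _ ih
          _ ≤ (16 * (j + 1) ^ 2) * 16 ^ j := by
              refine Nat.mul_le_mul_right _ ?_
              nlinarith
          _ = (j + 1) ^ 2 * 16 ^ (j + 1) := by ring
      exact Nat.le_of_mul_le_mul_left h2 (by positivity)
  exact h j

theorem central_lim (ε : ℝ) (hε : 0 < ε) :
    ∃ j : ℕ, (((2 * j).choose j : ℕ) : ℝ) / 2 ^ (2 * j) ≤ ε := by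
  obtain ⟨j, hj⟩ := exists_nat_gt (1 / ε ^ 2)
  refine ⟨j, ?_⟩
  have h : ((2 * j + 1 : ℕ) : ℝ) * (((2 * j).choose j : ℕ) : ℝ) ^ 2 ≤ 16 ^ j := by
    exact_mod_cast central j
  push_cast at h
  have h16 : (16 : ℝ) ^ j = (2 ^ (2 * j)) ^ 2 := by
    have : (16 : ℝ) = 2 ^ 4 := by norm_num
    rw [this, ← pow_mul, ← pow_mul]
    congr 1
    ring
  rw [h16] at h
  rw [div_le_iff₀ (by positivity)]
  set c : ℝ := (((2 * j).choose j : ℕ) : ℝ) with hc
  set t : ℝ := 2 ^ (2 * j) with ht
  have ht0 : 0 < t := by positivity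
  have hj' : 1 < ε ^ 2 * j := by
    rw [div_lt_iff₀ (by positivity)] at hj
    linarith
  have hsq : c ^ 2 ≤ (ε * t) ^ 2 := by
    have h1 : (2 * (j : ℝ) + 1) * c ^ 2 ≤ t ^ 2 := h
    have h2 : t ^ 2 ≤ (2 * (j : ℝ) + 1) * (ε * t) ^ 2 := by
      have : 1 ≤ (2 * (j : ℝ) + 1) * ε ^ 2 := by nlinarith [sq_nonneg ε]
      nlinarith [sq_nonneg t]
    have h3 : (2 * (j : ℝ) + 1) * c ^ 2 ≤ (2 * (j : ℝ) + 1) * (ε * t) ^ 2 := h1.trans h2
    exact le_of_mul_le_mul_left h3 (by positivity)
  exact (sq_le_sq₀ (by positivity) (by positivity)).1 hsq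

end Pool.Agent.H49.M4
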