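import Mathlib
import Pool.Agent.H49.M4.Elo

open Finset
open scoped BigOperators

namespace Pool.Agent.H49.M4

open Pool.Agent.H49.MMS

variable {κ : Type} [Fintype κ] [DecidableEq κ]

theorem sg_pow_odd (b : Bool) (m : ℕ) : sg b ^ (2 * m + 1) = sg b := by
  rw [pow_succ, pow_mul, sg_sq, one_pow, one_mul]

theorem sg_pow_even (b : Bool) (m : ℕ) : sg b ^ (2 * m) = 1 := by
  rw [pow_mul, sg_sq, one_pow]

theorem mom6 (J : Finset κ) (δ : κ → ℝ) :
    𝔼 s : κ → Bool, (∑ j ∈ J, sg (s j) * δ j) ^ 6 ≤ 15 * (∑ j ∈ J, δ j ^ 2) ^ 3 := by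
  induction J using Finset.induction_on with
  | empty => simp
  | insert i J hi ih =>
    have o1 := odd_zero i (fun s => 6 * δ i ^ 5 * ∑ j ∈ J, sg (s j) * δ j)
      (fun s => by rw [D_even J δ i hi s])
    have o3 := odd_zero i (fun s => 20 * δ i ^ 3 * (∑ j ∈ J, sg (s j) * δ j) ^ 3)
      (fun s => by rw [D_even J δ i hi s])
    have o5 := odd_zero i (fun s => 6 * δ i * (∑ j ∈ J, sg (s j) * δ j) ^ 5)
      (fun s => by rw [D_even J δ i hi s])
    have h1 : ∀ s : κ → Bool, (∑ j ∈ insert i J, sg (s j) * δ j) ^ 6 =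
        δ i ^ 6 + sg (s i) * (6 * δ i ^ 5 * ∑ j ∈ J, sg (s j) * δ j) +
          sg (s i) * (20 * δ i ^ 3 * (∑ j ∈ J, sg (s j) * δ j) ^ 3) +
          sg (s i) * (6 * δ i * (∑ j ∈ J, sg (s j) * δ j) ^ 5) +
          15 * δ i ^ 4 * (∑ j ∈ J, sg (s j) * δ j) ^ 2 +
          15 * δ i ^ 2 * (∑ j ∈ J, sg (s j) * δ j) ^ 4 +
          (∑ j ∈ J, sg (s j) * δ j) ^ 6 := by
      intro s
      rw [Finset.sum_insert hi]
      have h2 := sg_sq (s i)
      have h3 := sg_pow_odd (s i) 1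
      have h4 := sg_pow_even (s i) 2
      have h5 := sg_pow_odd (s i) 2
      have h6 := sg_pow_even (s i) 3
      norm_num at h3 h4 h5 h6
      set D := ∑ j ∈ J, sg (s j) * δ j
      linear_combination (15 * δ i ^ 2 * D ^ 4) * h2 + (20 * δ i ^ 3 * D ^ 3) * h3 +
        (15 * δ i ^ 4 * D ^ 2) * h4 + (6 * δ i ^ 5 * D) * h5 + δ i ^ 6 * h6
    simp only [h1]
    rw [Finset.expect_add_distrib, Finset.expect_add_distrib, Finset.expect_add_distrib,
      Finset.expect_add_distrib, Finset.expect_add_distrib, Finset.expect_add_distrib,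
      o1, o3, o5, Fintype.expect_const, ← Finset.mul_expect, ← Finset.mul_expect, mom2,
      Finset.sum_insert hi]
    have m4 := mom4 J δ
    have hq : 0 ≤ ∑ j ∈ J, δ j ^ 2 := Finset.sum_nonneg fun _ _ => sq_nonneg _
    set q := ∑ j ∈ J, δ j ^ 2
    set y := δ i ^ 2 with hy
    have hy0 : 0 ≤ y := sq_nonneg _
    have e4 : δ i ^ 4 = y ^ 2 := by rw [hy]; ring
    have e6 : δ i ^ 6 = y ^ 3 := by rw [hy]; ring
    rw [e4, e6]
    have k1 : 15 * y * (𝔼 s : κ → Bool, (∑ j ∈ J, sg (s j) * δ j) ^ 4) ≤ 15 * y * (3 * q ^ 2) :=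
      mul_le_mul_of_nonneg_left m4 (by positivity)
    have k2 : 0 ≤ y ^ 3 := by positivity
    have k3 : 0 ≤ q * y ^ 2 := by positivity
    nlinarith

theorem mom8 (J : Finset κ) (δ : κ → ℝ) :
    𝔼 s : κ → Bool, (∑ j ∈ J, sg (s j) * δ j) ^ 8 ≤ 105 * (∑ j ∈ J, δ j ^ 2) ^ 4 := by
  induction J using Finset.induction_on with
  | empty => simp
  | insert i J hi ih =>
    have o1 := odd_zero i (fun s => 8 * δ i ^ 7 * ∑ j ∈ J, sg (s j) * δ j)
      (fun s => by rw [D_even J δ i hi s])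
    have o3 := odd_zero i (fun s => 56 * δ i ^ 5 * (∑ j ∈ J, sg (s j) * δ j) ^ 3)
      (fun s => by rw [D_even J δ i hi s])
    have o5 := odd_zero i (fun s => 56 * δ i ^ 3 * (∑ j ∈ J, sg (s j) * δ j) ^ 5)
      (fun s => by rw [D_even J δ i hi s])
    have o7 := odd_zero i (fun s => 8 * δ i * (∑ j ∈ J, sg (s j) * δ j) ^ 7)
      (fun s => by rw [D_even J δ i hi s])
    have h1 : ∀ s : κ → Bool, (∑ j ∈ insert i J, sg (s j) * δ j) ^ 8 =
        δ i ^ 8 + sg (s i) * (8 * δ i ^ 7 * ∑ j ∈ J, sg (s j) * δ j) +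
          sg (s i) * (56 * δ i ^ 5 * (∑ j ∈ J, sg (s j) * δ j) ^ 3) +
          sg (s i) * (56 * δ i ^ 3 * (∑ j ∈ J, sg (s j) * δ j) ^ 5) +
          sg (s i) * (8 * δ i * (∑ j ∈ J, sg (s j) * δ j) ^ 7) +
          28 * δ i ^ 6 * (∑ j ∈ J, sg (s j) * δ j) ^ 2 +
          70 * δ i ^ 4 * (∑ j ∈ J, sg (s j) * δ j) ^ 4 +
          28 * δ i ^ 2 * (∑ j ∈ J, sg (s j) * δ j) ^ 6 +
          (∑ j ∈ J, sg (s j) * δ j) ^ 8 := by
      intro s
      rw [Finset.sum_insert hi]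
      have h2 := sg_sq (s i)
      have h3 := sg_pow_odd (s i) 1
      have h4 := sg_pow_even (s i) 2
      have h5 := sg_pow_odd (s i) 2
      have h6 := sg_pow_even (s i) 3
      have h7 := sg_pow_odd (s i) 3
      have h8 := sg_pow_even (s i) 4
      norm_num at h3 h4 h5 h6 h7 h8
      set D := ∑ j ∈ J, sg (s j) * δ j
      linear_combination (28 * δ i ^ 2 * D ^ 6) * h2 + (56 * δ i ^ 3 * D ^ 5) * h3 +
        (70 * δ i ^ 4 * D ^ 4) * h4 + (56 * δ i ^ 5 * D ^ 3) * h5 + (28 * δ i ^ 6 * D ^ 2) * h6 +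
        (8 * δ i ^ 7 * D) * h7 + δ i ^ 8 * h8
    simp only [h1]
    rw [Finset.expect_add_distrib, Finset.expect_add_distrib, Finset.expect_add_distrib,
      Finset.expect_add_distrib, Finset.expect_add_distrib, Finset.expect_add_distrib,
      Finset.expect_add_distrib, Finset.expect_add_distrib,
      o1, o3, o5, o7, Fintype.expect_const, ← Finset.mul_expect, ← Finset.mul_expect,
      ← Finset.mul_expect, mom2, Finset.sum_insert hi]
    have m4 := mom4 J δ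
    have m6 := mom6 J δ
    have hq : 0 ≤ ∑ j ∈ J, δ j ^ 2 := Finset.sum_nonneg fun _ _ => sq_nonneg _
    set q := ∑ j ∈ J, δ j ^ 2
    set y := δ i ^ 2 with hy
    have hy0 : 0 ≤ y := sq_nonneg _
    have e4 : δ i ^ 4 = y ^ 2 := by rw [hy]; ring
    have e6 : δ i ^ 6 = y ^ 3 := by rw [hy]; ring
    have e8 : δ i ^ 8 = y ^ 4 := by rw [hy]; ring
    rw [e4, e6, e8]
    have k1 : 70 * y ^ 2 * (𝔼 s : κ → Bool, (∑ j ∈ J, sg (s j) * δ j) ^ 4) ≤
        70 * y ^ 2 * (3 * q ^ 2) := mul_le_mul_of_nonneg_left m4 (by positivity)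
    have k2 : 28 * y * (𝔼 s : κ → Bool, (∑ j ∈ J, sg (s j) * δ j) ^ 6) ≤
        28 * y * (15 * q ^ 3) := mul_le_mul_of_nonneg_left m6 (by positivity)
    have k3 : 0 ≤ y ^ 4 := by positivity
    have k4 : 0 ≤ q * y ^ 3 := by positivity
    have k5 : 0 ≤ q ^ 2 * y ^ 2 := by positivity
    have e : 105 * (y + q) ^ 4 = 105 * y ^ 4 + 420 * (q * y ^ 3) + 630 * (q ^ 2 * y ^ 2) +
      420 * (q ^ 3 * y) + 105 * q ^ 4 := by ring
    rw [e]
    nlinarith

/-- anticoncentration from many disjoint groups of steps, general form -/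
theorem groupsE (m M0 : ℕ) (G : Fin m → Finset κ)
    (hG : ∀ g g', g ≠ g' → Disjoint (G g) (G g'))
    (δ : κ → ℝ) (C W : ℝ) (hW : 0 < W) (hq : ∀ g, 4 * W ^ 2 ≤ ∑ j ∈ G g, δ j ^ 2) :
    𝔼 s : κ → Bool, pw W (C + ∑ j, sg (s j) * δ j) ≤
      ((M0.choose (M0 / 2) : ℕ) : ℝ) / 2 ^ M0 + 16 ^ M0 * (257 / 320) ^ m := by
  set U : Finset κ := univ.biUnion G with hU
  have hT : ∀ (t : Fin m → Bool) (g : Fin m) (j : κ), j ∈ G g →
      (decide (∃ g, j ∈ G g ∧ t g = true)) = t g := by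
    intro t g j hj
    by_cases ht : t g = true
    · rw [ht]
      exact decide_eq_true ⟨g, hj, ht⟩
    · have : ¬ ∃ g, j ∈ G g ∧ t g = true := by
        rintro ⟨g', hg', ht'⟩
        by_cases h : g = g'
        · subst h; exact ht ht'
        · exact Finset.disjoint_left.1 (hG g g' h) hj hg'
      rw [decide_eq_false this]
      simp at ht
      exact ht.symm
  have hdec : ∀ (t : Fin m → Bool) (s : κ → Bool),
      ∑ j, sg (xor (s j) (decide (∃ g, j ∈ G g ∧ t g = true))) * δ j =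
      (∑ j ∈ Uᶜ, sg (s j) * δ j) + ∑ g, sg (t g) * ∑ j ∈ G g, sg (s j) * δ j := by
    intro t s
    rw [← Finset.sum_add_sum_compl U, add_comm]
    congr 1
    · refine Finset.sum_congr rfl fun j hj => ?_
      have : ¬ ∃ g, j ∈ G g ∧ t g = true := by
        rintro ⟨g, hg, _⟩
        rw [Finset.mem_compl, hU, Finset.mem_biUnion] at hj
        exact hj ⟨g, Finset.mem_univ _, hg⟩
      rw [decide_eq_false this, Bool.xor_false]
    · rw [hU, Finset.sum_biUnion (fun g _ g' _ h => hG g g' h)]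
      refine Finset.sum_congr rfl fun g _ => ?_
      rw [Finset.mul_sum]
      refine Finset.sum_congr rfl fun j hj => ?_
      rw [hT t g j hj, sg_xor]
      ring
  have hstep : ∀ t : Fin m → Bool, 𝔼 s : κ → Bool, pw W (C + ∑ j, sg (s j) * δ j) =
      𝔼 s : κ → Bool, pw W ((C + ∑ j ∈ Uᶜ, sg (s j) * δ j) +
        ∑ g, sg (t g) * ∑ j ∈ G g, sg (s j) * δ j) := by
    intro t
    rw [← flip_inv (fun j => decide (∃ g, j ∈ G g ∧ t g = true))
      (fun s => pw W (C + ∑ j, sg (s j) * δ j))]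
    refine Finset.expect_congr rfl fun s _ => ?_
    rw [hdec t s, add_assoc]
  have hpt : ∀ s : κ → Bool, 𝔼 t : Fin m → Bool, pw W ((C + ∑ j ∈ Uᶜ, sg (s j) * δ j) +
        ∑ g, sg (t g) * ∑ j ∈ G g, sg (s j) * δ j) ≤
      ((M0.choose (M0 / 2) : ℕ) : ℝ) / 2 ^ M0 + 16 ^ M0 *
      ∏ g, (if W ^ 2 < (∑ j ∈ G g, sg (s j) * δ j) ^ 2 then (1 / 16 : ℝ) else 1) := by
    intro s
    have hprod : ∏ g, (if W ^ 2 < (∑ j ∈ G g, sg (s j) * δ j) ^ 2 then (1 / 16 : ℝ) else 1) =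
        (1 / 16) ^ (univ.filter (fun g => W ^ 2 < (∑ j ∈ G g, sg (s j) * δ j) ^ 2)).card := by
      rw [Finset.prod_ite, Finset.prod_const, Finset.prod_const_one, mul_one]
    rw [hprod]
    by_cases h3 : M0 ≤ (univ.filter (fun g => W ^ 2 < (∑ j ∈ G g, sg (s j) * δ j) ^ 2)).card
    · obtain ⟨B, hB, hBc⟩ := Finset.exists_subset_card_eq h3
      have := elo B (fun g => ∑ j ∈ G g, sg (s j) * δ j) (C + ∑ j ∈ Uᶜ, sg (s j) * δ j) W
        hW.le (by
          intro g hg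
          have := (Finset.mem_filter.1 (hB hg)).2
          rw [sq_lt_sq, abs_of_pos hW] at this
          exact this)
      rw [hBc] at this
      have hnn : (0 : ℝ) ≤ 16 ^ M0 * (1 / 16) ^ (univ.filter
        (fun g => W ^ 2 < (∑ j ∈ G g, sg (s j) * δ j) ^ 2)).card := by positivity
      linarith
    · push Not at h3
      have h1 : 𝔼 t : Fin m → Bool, pw W ((C + ∑ j ∈ Uᶜ, sg (s j) * δ j) +
          ∑ g, sg (t g) * ∑ j ∈ G g, sg (s j) * δ j) ≤ 1 := by
        calc _ ≤ 𝔼 _t : Fin m → Bool, (1 : ℝ) :=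
              Finset.expect_le_expect fun t _ => pw_le_one _ _
          _ = 1 := Fintype.expect_const _
      have h2 : (1 / 16 : ℝ) ^ M0 ≤ (1 / 16) ^ (univ.filter
        (fun g => W ^ 2 < (∑ j ∈ G g, sg (s j) * δ j) ^ 2)).card :=
        pow_le_pow_of_le_one (by norm_num) (by norm_num) h3.le
      have h4 : (16 : ℝ) ^ M0 * (1 / 16) ^ M0 = 1 := by
        rw [← mul_pow]; norm_num
      have h5 : (16 : ℝ) ^ M0 * (1 / 16) ^ M0 ≤ 16 ^ M0 * (1 / 16) ^ (univ.filter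
        (fun g => W ^ 2 < (∑ j ∈ G g, sg (s j) * δ j) ^ 2)).card :=
        mul_le_mul_of_nonneg_left h2 (by positivity)
      rw [h4] at h5
      have h6 : (0 : ℝ) ≤ ((M0.choose (M0 / 2) : ℕ) : ℝ) / 2 ^ M0 := by positivity
      linarith
  have hind : 𝔼 s : κ → Bool, ∏ g,
      (if W ^ 2 < (∑ j ∈ G g, sg (s j) * δ j) ^ 2 then (1 / 16 : ℝ) else 1) ≤
      (257 / 320) ^ m := by
    rw [indep_prod univ G (fun g _ g' _ h => hG g g' h)
      (fun g s => if W ^ 2 < (∑ j ∈ G g, sg (s j) * δ j) ^ 2 then (1 / 16 : ℝ) else 1) ?_]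
    · calc ∏ g, 𝔼 s : κ → Bool,
            (if W ^ 2 < (∑ j ∈ G g, sg (s j) * δ j) ^ 2 then (1 / 16 : ℝ) else 1)
          ≤ ∏ _g : Fin m, (257 / 320 : ℝ) := by
            refine Finset.prod_le_prod (fun g _ => ?_) (fun g _ => ?_)
            · refine Finset.expect_nonneg fun s _ => ?_
              split_ifs <;> norm_num
            · have hp := pz (G g) δ (W ^ 2) (by positivity) (hq g)
              have h1 : ∀ s : κ → Bool,
                  (if W ^ 2 < (∑ j ∈ G g, sg (s j) * δ j) ^ 2 then (1 / 16 : ℝ) else 1) =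
                  1 - (15 / 16) *
                    (if W ^ 2 < (∑ j ∈ G g, sg (s j) * δ j) ^ 2 then (1 : ℝ) else 0) := by
                intro s
                split_ifs <;> norm_num
              rw [Finset.expect_congr rfl fun s _ => h1 s, Finset.expect_sub_distrib,
                Fintype.expect_const, ← Finset.mul_expect]
              linarith
        _ = _ := by rw [Finset.prod_const, Finset.card_univ, Fintype.card_fin]
    · intro g _ s s' hs
      have : ∑ j ∈ G g, sg (s j) * δ j = ∑ j ∈ G g, sg (s' j) * δ j :=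
        Finset.sum_congr rfl fun j hj => by rw [hs j hj]
      simp only [this]
  calc 𝔼 s : κ → Bool, pw W (C + ∑ j, sg (s j) * δ j)
      = 𝔼 _t : Fin m → Bool, 𝔼 s : κ → Bool, pw W (C + ∑ j, sg (s j) * δ j) := by
        rw [Fintype.expect_const]
    _ = 𝔼 t : Fin m → Bool, 𝔼 s : κ → Bool, pw W ((C + ∑ j ∈ Uᶜ, sg (s j) * δ j) +
        ∑ g, sg (t g) * ∑ j ∈ G g, sg (s j) * δ j) :=
        Finset.expect_congr rfl fun t _ => hstep t
    _ = 𝔼 s : κ → Bool, 𝔼 t : Fin m → Bool, pw W ((C + ∑ j ∈ Uᶜ, sg (s j) * δ j) +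
        ∑ g, sg (t g) * ∑ j ∈ G g, sg (s j) * δ j) := Finset.expect_comm _ _ _
    _ ≤ 𝔼 s : κ → Bool, (((M0.choose (M0 / 2) : ℕ) : ℝ) / 2 ^ M0 + 16 ^ M0 * ∏ g,
        (if W ^ 2 < (∑ j ∈ G g, sg (s j) * δ j) ^ 2 then (1 / 16 : ℝ) else 1)) :=
        Finset.expect_le_expect fun s _ => hpt s
    _ = ((M0.choose (M0 / 2) : ℕ) : ℝ) / 2 ^ M0 + 16 ^ M0 * 𝔼 s : κ → Bool, ∏ g,
        (if W ^ 2 < (∑ j ∈ G g, sg (s j) * δ j) ^ 2 then (1 / 16 : ℝ) else 1) := by
        rw [Finset.expect_add_distrib, Fintype.expect_const, ← Finset.mul_expect]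
    _ ≤ _ := by
        have : (0 : ℝ) ≤ 16 ^ M0 := by positivity
        have := mul_le_mul_of_nonneg_left hind this
        linarith

/-- general small ball estimate -/
theorem smallball (ε : ℝ) (hε : 0 < ε) : ∃ L : ℝ, 0 < L ∧
    ∀ (κ : Type) [Fintype κ] [DecidableEq κ] (δ : κ → ℝ) (C W : ℝ), 0 < W →
      L * W ^ 2 ≤ ∑ j, min (δ j ^ 2) (W ^ 2) →
      𝔼 s : κ → Bool, pw W (C + ∑ j, sg (s j) * δ j) ≤ ε := by
  obtain ⟨j0, hj0⟩ := central_lim (ε / 2) (by positivity)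
  obtain ⟨m, hm⟩ := exists_pow_lt_of_lt_one (x := ε / 2 / 16 ^ (2 * j0)) (y := (257 / 320 : ℝ))
    (by positivity) (by norm_num)
  have hm' : (16 : ℝ) ^ (2 * j0) * (257 / 320) ^ m ≤ ε / 2 := by
    rw [lt_div_iff₀ (by positivity)] at hm
    linarith
  refine ⟨2 * j0 + 20 * m + 1, by positivity, ?_⟩
  intro κ _ _ δ C W hW hL
  set big : Finset κ := univ.filter (fun j => W < |δ j|) with hbig
  set sm : Finset κ := univ.filter (fun j => ¬ W < |δ j|) with hsm
  have hsplit : ∑ j, min (δ j ^ 2) (W ^ 2) =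
      ∑ j ∈ big, min (δ j ^ 2) (W ^ 2) + ∑ j ∈ sm, min (δ j ^ 2) (W ^ 2) :=
    (Finset.sum_filter_add_sum_filter_not univ _ _).symm
  have h1 : ∑ j ∈ big, min (δ j ^ 2) (W ^ 2) ≤ big.card * W ^ 2 := by
    calc _ ≤ ∑ j ∈ big, W ^ 2 := Finset.sum_le_sum fun j _ => min_le_right _ _
      _ = _ := by rw [Finset.sum_const, nsmul_eq_mul]
  have h2 : ∑ j ∈ sm, min (δ j ^ 2) (W ^ 2) ≤ ∑ j ∈ sm, δ j ^ 2 :=
    Finset.sum_le_sum fun j _ => min_le_left _ _
  have hmid : (2 * j0) / 2 = j0 := by omega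
  by_cases hb : 2 * j0 ≤ big.card
  · obtain ⟨B, hB, hBc⟩ := Finset.exists_subset_card_eq hb
    have := elo B δ C W hW.le (fun j hj => (Finset.mem_filter.1 (hB hj)).2)
    rw [hBc, hmid] at this
    linarith
  · push Not at hb
    have hbR : (big.card : ℝ) ≤ 2 * j0 := by
      have : big.card ≤ 2 * j0 := hb.le
      exact_mod_cast this
    have hW2 : 0 < W ^ 2 := by positivity
    obtain ⟨G, _, g2, g3⟩ := greedy (fun j => δ j ^ 2) (W ^ 2) (by positivity) m sm (by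
      intro j hj
      have := (Finset.mem_filter.1 hj).2
      push Not at this
      have h3 : |δ j| ^ 2 ≤ W ^ 2 := by
        have := abs_nonneg (δ j)
        nlinarith
      rw [sq_abs] at h3
      linarith) (by nlinarith)
    have := groupsE m (2 * j0) G g2 δ C W hW g3
    rw [hmid] at this
    linarith

end Pool.Agent.H49.M4
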