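import Mathlib
import Pool.Agent.H49.MMS.Mom
import Pool.Agent.H49.M4.Small

open Finset
open scoped BigOperators

namespace Pool.Agent.H49.M4

open Pool.Agent.H49.MMS

variable {Λ α κ : Type} [Fintype Λ] [DecidableEq Λ] [Fintype α] [DecidableEq α]
  [Fintype κ] [DecidableEq κ]

/-- exchange the members of the pairs `j` with `s j = true` -/
def flK (s : κ → Bool) : Equiv.Perm (κ × Bool) :=
  Function.Involutive.toPerm (fun p : κ × Bool => (p.1, xor p.2 (s p.1))) (by
    rintro ⟨j, b⟩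
    simp)

/-- the flips on the positions `P` -/
noncomputable def fP (P : κ × Bool ↪ Λ) (s : κ → Bool) : Equiv.Perm Λ := (flK s).viaEmbedding P

omit [Fintype Λ] [DecidableEq Λ] [Fintype κ] [DecidableEq κ] in
theorem fP_apply (P : κ × Bool ↪ Λ) (s : κ → Bool) (j : κ) (b : Bool) :
    fP P s (P (j, b)) = P (j, xor b (s j)) := by
  unfold fP
  rw [Equiv.Perm.viaEmbedding_apply]
  rfl

omit [Fintype Λ] [DecidableEq Λ] [Fintype κ] [DecidableEq κ] in
theorem fP_out (P : κ × Bool ↪ Λ) (s : κ → Bool) (x : Λ) (hx : ∀ p, P p ≠ x) :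
    fP P s x = x := by
  unfold fP
  rw [Equiv.Perm.viaEmbedding_apply_of_notMem]
  rintro ⟨p, hp⟩
  exact hx p hp

theorem expect_flip (P : κ × Bool ↪ Λ) (F : (Λ ≃ α) → ℝ) :
    𝔼 e : Λ ≃ α, F e = 𝔼 e : Λ ≃ α, 𝔼 s : κ → Bool, F ((fP P s).trans e) := by
  calc 𝔼 e : Λ ≃ α, F e = 𝔼 _s : κ → Bool, 𝔼 e : Λ ≃ α, F e := by rw [Fintype.expect_const]
    _ = 𝔼 s : κ → Bool, 𝔼 e : Λ ≃ α, F ((fP P s).trans e) :=
        Finset.expect_congr rfl fun s _ => (expect_pre (fP P s) F).symm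
    _ = _ := Finset.expect_comm _ _ _

/-- the step of a pair -/
noncomputable def dP (P : κ × Bool ↪ Λ) (u : α → ℝ) (e : Λ ≃ α) (j : κ) : ℝ :=
  u (e (P (j, false))) - u (e (P (j, true)))

/-- the difference of the two sums -/
noncomputable def DP (P : κ × Bool ↪ Λ) (u : α → ℝ) (e : Λ ≃ α) : ℝ := ∑ j, dP P u e j

/-- the sum over one side -/
noncomputable def XP (P : κ × Bool ↪ Λ) (b : Bool) (u : α → ℝ) (e : Λ ≃ α) : ℝ :=
  ∑ j, u (e (P (j, b)))

omit [Fintype Λ] [DecidableEq Λ] [Fintype α] [DecidableEq α] [DecidableEq κ] in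
theorem DP_eq (P : κ × Bool ↪ Λ) (u : α → ℝ) (e : Λ ≃ α) :
    DP P u e = XP P false u e - XP P true u e := by
  unfold DP dP XP
  rw [Finset.sum_sub_distrib]

omit [Fintype Λ] [DecidableEq Λ] [Fintype α] [DecidableEq α] [DecidableEq κ] in
theorem DP_flip (P : κ × Bool ↪ Λ) (u : α → ℝ) (e : Λ ≃ α) (s : κ → Bool) :
    DP P u ((fP P s).trans e) = ∑ j, sg (s j) * dP P u e j := by
  unfold DP
  refine Finset.sum_congr rfl fun j _ => ?_
  unfold dP
  simp only [Equiv.trans_apply, fP_apply]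
  cases s j <;> simp [sg]

omit [Fintype Λ] [DecidableEq Λ] [Fintype α] [DecidableEq α] [DecidableEq κ] in
theorem SP_flip (P : κ × Bool ↪ Λ) (u : α → ℝ) (e : Λ ≃ α) (s : κ → Bool) :
    XP P false u ((fP P s).trans e) + XP P true u ((fP P s).trans e) =
      XP P false u e + XP P true u e := by
  unfold XP
  rw [← Finset.sum_add_distrib, ← Finset.sum_add_distrib]
  refine Finset.sum_congr rfl fun j _ => ?_
  simp only [Equiv.trans_apply, fP_apply]
  cases s j
  · simp
  · simp [add_comm]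

omit [Fintype Λ] [DecidableEq Λ] [Fintype α] [DecidableEq α] [DecidableEq κ] [Fintype κ] in
theorem out_flip (P : κ × Bool ↪ Λ) (e : Λ ≃ α) (s : κ → Bool) (x : Λ)
    (hx : ∀ p, P p ≠ x) : ((fP P s).trans e) x = e x := by
  rw [Equiv.trans_apply, fP_out P s x hx]

theorem expect_DP (P : κ × Bool ↪ Λ) (u : α → ℝ) (f : ℝ → ℝ) :
    𝔼 e : Λ ≃ α, f (DP P u e) =
      𝔼 e : Λ ≃ α, 𝔼 s : κ → Bool, f (0 + ∑ j, sg (s j) * dP P u e j) := by
  rw [expect_flip P (fun e => f (DP P u e))]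
  refine Finset.expect_congr rfl fun e _ => Finset.expect_congr rfl fun s _ => ?_
  rw [DP_flip, zero_add]

omit [Fintype Λ] [DecidableEq Λ] in
/-- sums over injected positions are bounded by total sums -/
theorem sum_pos_le {π : Type} [Fintype π] (P : π ↪ Λ) (e : Λ ≃ α) (f : α → ℝ)
    (hf : ∀ a, 0 ≤ f a) (T : Finset α) (hT : ∀ p, e (P p) ∈ T) :
    ∑ p, f (e (P p)) ≤ ∑ a ∈ T, f a := by
  have h : ∑ p, f (e (P p)) = ∑ a ∈ univ.map (P.trans e.toEmbedding), f a := by
    rw [Finset.sum_map]; rfl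
  rw [h]
  refine Finset.sum_le_sum_of_subset_of_nonneg ?_ (fun a _ _ => hf a)
  intro a ha
  obtain ⟨p, _, rfl⟩ := Finset.mem_map.1 ha
  exact hT p

omit [Fintype Λ] [DecidableEq Λ] [DecidableEq κ] in
theorem sum_dP_sq (P : κ × Bool ↪ Λ) (u : α → ℝ) (e : Λ ≃ α) (T : Finset α)
    (hT : ∀ p, e (P p) ∈ T) :
    ∑ j, dP P u e j ^ 2 ≤ 2 * ∑ a ∈ T, u a ^ 2 := by
  have h1 : ∑ j, dP P u e j ^ 2 ≤ 2 * ∑ p : κ × Bool, u (e (P p)) ^ 2 := by
    rw [Fintype.sum_prod_type, Finset.mul_sum]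
    refine Finset.sum_le_sum fun j _ => ?_
    rw [Fintype.sum_bool]
    unfold dP
    nlinarith [sq_nonneg (u (e (P (j, false))) + u (e (P (j, true))))]
  have h2 := sum_pos_le P e (fun a => u a ^ 2) (fun a => sq_nonneg _) T hT
  linarith

/-! ### quadratic variation -/

/-- sum of a function of the pairs -/
noncomputable def Qg (P : κ × Bool ↪ Λ) (g : α → α → ℝ) (e : Λ ≃ α) : ℝ :=
  ∑ j, g (e (P (j, false))) (e (P (j, true)))

theorem pair_ne (P : κ × Bool ↪ Λ) (j : κ) : P (j, false) ≠ P (j, true) := by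
  intro h
  have := congrArg Prod.snd (P.injective h)
  simp at this

theorem pair_ne' (P : κ × Bool ↪ Λ) {j l : κ} (h : j ≠ l) (b c : Bool) : P (j, b) ≠ P (l, c) := by
  intro h'
  exact h (congrArg Prod.fst (P.injective h'))

theorem Qg_one [Nonempty (Λ ≃ α)] (P : κ × Bool ↪ Λ) (g : α → α → ℝ) (hg0 : ∀ x, g x x = 0)
    (j : κ) : (𝔼 e : Λ ≃ α, g (e (P (j, false))) (e (P (j, true)))) =
      (∑ x, ∑ y, g x y) / ((Fintype.card α : ℝ) * ((Fintype.card α : ℝ) - 1)) := by
  rw [law_pair (pair_ne P j) g]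
  congr 1
  refine Finset.sum_congr rfl fun x _ => Finset.sum_congr rfl fun y _ => ?_
  split_ifs with h
  · subst h; rw [hg0]
  · rfl

theorem Qg_expect [Nonempty (Λ ≃ α)] (P : κ × Bool ↪ Λ) (g : α → α → ℝ)
    (hg0 : ∀ x, g x x = 0) :
    𝔼 e : Λ ≃ α, Qg P g e = (Fintype.card κ : ℝ) * (∑ x, ∑ y, g x y) /
        ((Fintype.card α : ℝ) * ((Fintype.card α : ℝ) - 1)) := by
  unfold Qg
  rw [Finset.expect_sum_comm, Finset.sum_congr rfl fun j _ => Qg_one P g hg0 j,
    Finset.sum_const, Finset.card_univ, nsmul_eq_mul]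
  ring

theorem Qg_sq [Nonempty (Λ ≃ α)] (P : κ × Bool ↪ Λ) (g : α → α → ℝ) (gm : ℝ)
    (hg0 : ∀ x, g x x = 0) (hgn : ∀ x y, 0 ≤ g x y) (hgm : ∀ x y, g x y ≤ gm) :
    𝔼 e : Λ ≃ α, Qg P g e ^ 2 ≤
      gm * ((Fintype.card κ : ℝ) * (∑ x, ∑ y, g x y) /
        ((Fintype.card α : ℝ) * ((Fintype.card α : ℝ) - 1))) +
      (Fintype.card κ : ℝ) * ((Fintype.card κ : ℝ) - 1) * ((∑ x, ∑ y, g x y) ^ 2 /
        ((Fintype.card α : ℝ) * ((Fintype.card α : ℝ) - 1) * ((Fintype.card α : ℝ) - 2) *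
          ((Fintype.card α : ℝ) - 3))) := by
  set G2 : ℝ := ∑ x, ∑ y, g x y with hG2
  set n : ℝ := (Fintype.card α : ℝ) with hn
  set K : ℝ := (Fintype.card κ : ℝ) with hK
  have h1 : ∀ j : κ, (𝔼 e : Λ ≃ α, g (e (P (j, false))) (e (P (j, true)))) = G2 / (n * (n - 1)) :=
    fun j => Qg_one P g hg0 j
  have h2 : ∀ j l : κ, 𝔼 e : Λ ≃ α,
      g (e (P (j, false))) (e (P (j, true))) * g (e (P (l, false))) (e (P (l, true))) ≤
      if j = l then gm * (G2 / (n * (n - 1))) else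
        G2 ^ 2 / (n * (n - 1) * (n - 2) * (n - 3)) := by
    intro j l
    split_ifs with h
    · subst h
      rw [← h1 j, Finset.mul_expect]
      refine Finset.expect_le_expect fun e _ => ?_
      exact mul_le_mul_of_nonneg_right (hgm _ _) (hgn _ _)
    · exact law_four (pair_ne P j) (pair_ne' P h _ _) (pair_ne' P h _ _) (pair_ne' P h _ _)
        (pair_ne' P h _ _) (pair_ne P l) g hgn
  calc 𝔼 e : Λ ≃ α, Qg P g e ^ 2
      = 𝔼 e : Λ ≃ α, ∑ j, ∑ l, g (e (P (j, false))) (e (P (j, true))) *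
          g (e (P (l, false))) (e (P (l, true))) := by
        refine Finset.expect_congr rfl fun e _ => ?_
        unfold Qg
        rw [pow_two, Finset.sum_mul_sum]
    _ = ∑ j, ∑ l, 𝔼 e : Λ ≃ α, g (e (P (j, false))) (e (P (j, true))) *
          g (e (P (l, false))) (e (P (l, true))) := by
        rw [Finset.expect_sum_comm]
        exact Finset.sum_congr rfl fun j _ => Finset.expect_sum_comm _ _ _
    _ ≤ ∑ j : κ, ∑ l : κ, (if j = l then gm * (G2 / (n * (n - 1))) else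
        G2 ^ 2 / (n * (n - 1) * (n - 2) * (n - 3))) :=
        Finset.sum_le_sum fun j _ => Finset.sum_le_sum fun l _ => h2 j l
    _ = ∑ _j : κ, (gm * (G2 / (n * (n - 1))) +
        (K - 1) * (G2 ^ 2 / (n * (n - 1) * (n - 2) * (n - 3)))) := by
        refine Finset.sum_congr rfl fun j _ => ?_
        have h3 : ∀ l : κ, (if j = l then gm * (G2 / (n * (n - 1))) else
          G2 ^ 2 / (n * (n - 1) * (n - 2) * (n - 3))) =
          G2 ^ 2 / (n * (n - 1) * (n - 2) * (n - 3)) + (if j = l then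
            gm * (G2 / (n * (n - 1))) - G2 ^ 2 / (n * (n - 1) * (n - 2) * (n - 3))
            else 0) := by
          intro l
          split_ifs <;> ring
        rw [Finset.sum_congr rfl fun l _ => h3 l, Finset.sum_add_distrib, Finset.sum_ite_eq,
          if_pos (Finset.mem_univ _), Finset.sum_const, Finset.card_univ, nsmul_eq_mul]
        ring
    _ = _ := by
        rw [Finset.sum_const, Finset.card_univ, nsmul_eq_mul]
        ring

/-- Chebyshev for the quadratic variation -/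
theorem Qg_cheb [Nonempty (Λ ≃ α)] (P : κ × Bool ↪ Λ) (g : α → α → ℝ) (gm : ℝ)
    (hg0 : ∀ x, g x x = 0) (hgn : ∀ x y, 0 ≤ g x y) (hgm : ∀ x y, g x y ≤ gm)
    (hn : (18 : ℝ) ≤ Fintype.card α) (μ q0 : ℝ)
    (hμ : μ = (Fintype.card κ : ℝ) * (∑ x, ∑ y, g x y) /
        ((Fintype.card α : ℝ) * ((Fintype.card α : ℝ) - 1)))
    (hμs : q0 < μ) :
    𝔼 e : Λ ≃ α, (if Qg P g e < q0 then (1 : ℝ) else 0) ≤
      (gm * μ + 5 / Fintype.card α * μ ^ 2) / (μ - q0) ^ 2 := by
  set n : ℝ := (Fintype.card α : ℝ) with hn'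
  have h1 := Qg_expect (α := α) P g hg0
  have h2 := Qg_sq (α := α) P g gm hg0 hgn hgm
  rw [← hn', ← hμ] at h1 h2
  set K : ℝ := (Fintype.card κ : ℝ) with hK
  have h3 : K * (K - 1) * ((∑ x, ∑ y, g x y) ^ 2 / (n * (n - 1) * (n - 2) * (n - 3))) ≤
      (1 + 5 / n) * μ ^ 2 := by
    by_cases hk : Fintype.card κ = 0
    · have hK0 : K = 0 := by rw [hK, hk]; simp
      have : μ = 0 := by rw [hμ, hK0]; simp
      rw [this, hK0]; simp
    have hk1 : (1 : ℝ) ≤ K := by
      rw [hK]; exact_mod_cast Nat.one_le_iff_ne_zero.2 hk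
    have hG : (∑ x, ∑ y, g x y) = μ * (n * (n - 1)) / K := by
      rw [hμ]
      have : K ≠ 0 := by linarith
      have : n ≠ 0 := by linarith
      have : n - 1 ≠ 0 := by linarith
      field_simp
    rw [hG]
    have e1 : K * (K - 1) * ((μ * (n * (n - 1)) / K) ^ 2 /
        (n * (n - 1) * (n - 2) * (n - 3))) =
        ((K - 1) / K) * ((n * (n - 1)) / ((n - 2) * (n - 3))) * μ ^ 2 := by
      have : K ≠ 0 := by linarith
      have : n ≠ 0 := by linarith
      have : n - 1 ≠ 0 := by linarith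
      have : n - 2 ≠ 0 := by linarith
      have : n - 3 ≠ 0 := by linarith
      field_simp
    rw [e1]
    refine mul_le_mul_of_nonneg_right ?_ (sq_nonneg _)
    have e2 : (K - 1) / K ≤ 1 := by
      rw [div_le_one (by linarith)]; linarith
    have e3 : (n * (n - 1)) / ((n - 2) * (n - 3)) ≤ 1 + 5 / n := by
      have : 1 + 5 / n = (n + 5) / n := by
        have : n ≠ 0 := by linarith
        field_simp
      rw [this, div_le_div_iff₀ (by nlinarith) (by linarith)]
      nlinarith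
    have e4 : 0 ≤ (n * (n - 1)) / ((n - 2) * (n - 3)) :=
      div_nonneg (by nlinarith) (by nlinarith)
    have e5 : 0 ≤ (K - 1) / K := div_nonneg (by linarith) (by linarith)
    nlinarith
  have hvar : 𝔼 e : Λ ≃ α, (Qg P g e - μ) ^ 2 ≤ gm * μ + 5 / n * μ ^ 2 := by
    have h5 : 𝔼 e : Λ ≃ α, (Qg P g e - μ) ^ 2 =
        (𝔼 e : Λ ≃ α, Qg P g e ^ 2) - 2 * μ * (𝔼 e : Λ ≃ α, Qg P g e) + μ ^ 2 := by
      rw [Finset.mul_expect, ← Finset.expect_sub_distrib,
        ← Fintype.expect_const (ι := Λ ≃ α) (μ ^ 2), ← Finset.expect_add_distrib]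
      refine Finset.expect_congr rfl fun e _ => ?_
      ring
    rw [h5, h1]
    nlinarith
  have hd : 0 < μ - q0 := by linarith
  rw [le_div_iff₀ (by positivity), Finset.expect_mul]
  refine le_trans (Finset.expect_le_expect fun e _ => ?_) hvar
  split_ifs with h
  · nlinarith
  · rw [zero_mul]; positivity

/-! ### nice pairs -/

/-- the point `a` lies in a pair whose other member is not in `B` -/
noncomputable def nice (P : κ × Bool ↪ Λ) (B : Finset α) (a : α) (e : Λ ≃ α) : ℝ :=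
  ∑ p : κ × Bool, (if e (P p) = a ∧ e (P (p.1, !p.2)) ∉ B then (1 : ℝ) else 0)

/-- the point `a` lies in a pair -/
noncomputable def inP (P : κ × Bool ↪ Λ) (a : α) (e : Λ ≃ α) : ℝ :=
  ∑ p : κ × Bool, (if e (P p) = a then (1 : ℝ) else 0)

omit [Fintype Λ] [DecidableEq Λ] [Fintype α] in
theorem nice_le_inP (P : κ × Bool ↪ Λ) (B : Finset α) (a : α) (e : Λ ≃ α) :
    nice P B a e ≤ inP P a e := by
  unfold nice inP
  refine Finset.sum_le_sum fun p _ => ?_
  by_cases h : e (P p) = a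
  · rw [if_pos h]; split_ifs <;> norm_num
  · rw [if_neg h, if_neg (fun h' => h h'.1)]

omit [Fintype Λ] [DecidableEq Λ] [Fintype α] in
theorem inP_le_one (P : κ × Bool ↪ Λ) (a : α) (e : Λ ≃ α) : inP P a e ≤ 1 := by
  unfold inP
  rw [Finset.sum_boole]
  have : (univ.filter (fun p : κ × Bool => e (P p) = a)).card ≤ 1 := by
    rw [Finset.card_le_one]
    intro p hp q hq
    have h1 := (Finset.mem_filter.1 hp).2
    have h2 := (Finset.mem_filter.1 hq).2
    exact P.injective (e.injective (h1.trans h2.symm))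
  exact_mod_cast this

omit [Fintype Λ] [DecidableEq Λ] [Fintype α] in
theorem nice_cases (P : κ × Bool ↪ Λ) (B : Finset α) (a : α) (e : Λ ≃ α) :
    nice P B a e = 0 ∨ ∃ p : κ × Bool, e (P p) = a ∧ e (P (p.1, !p.2)) ∉ B := by
  by_cases h : nice P B a e = 0
  · exact Or.inl h
  · right
    obtain ⟨p, _, hp⟩ := Finset.exists_ne_zero_of_sum_ne_zero h
    exact ⟨p, by by_contra hc; exact hp (if_neg hc)⟩

omit [Fintype Λ] [DecidableEq Λ] [Fintype α] in
theorem nice_nonneg (P : κ × Bool ↪ Λ) (B : Finset α) (a : α) (e : Λ ≃ α) :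
    0 ≤ nice P B a e := by
  unfold nice
  refine Finset.sum_nonneg fun p _ => ?_
  split_ifs <;> norm_num

theorem inP_expect [Nonempty (Λ ≃ α)] (P : κ × Bool ↪ Λ) (a : α) :
    𝔼 e : Λ ≃ α, inP P a e = 2 * Fintype.card κ / (Fintype.card α : ℝ) := by
  unfold inP
  rw [Finset.expect_sum_comm]
  have h1 : ∀ p : κ × Bool, (𝔼 e : Λ ≃ α, (if e (P p) = a then (1 : ℝ) else 0)) =
      1 / (Fintype.card α : ℝ) := by
    intro p
    rw [law_one (P p) (fun x => if x = a then (1 : ℝ) else 0)]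
    simp
  rw [Finset.sum_congr rfl fun p _ => h1 p, Finset.sum_const, Finset.card_univ,
    Fintype.card_prod, Fintype.card_bool, nsmul_eq_mul]
  push_cast
  ring

theorem nice_expect [Nonempty (Λ ≃ α)] (P : κ × Bool ↪ Λ) (B : Finset α) (a : α) (ha : a ∈ B) :
    𝔼 e : Λ ≃ α, nice P B a e = 2 * Fintype.card κ * ((Fintype.card α : ℝ) - B.card) /
        ((Fintype.card α : ℝ) * ((Fintype.card α : ℝ) - 1)) := by
  unfold nice
  rw [Finset.expect_sum_comm]
  have h1 : ∀ p : κ × Bool, (𝔼 e : Λ ≃ α,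
      (if e (P p) = a ∧ e (P (p.1, !p.2)) ∉ B then (1 : ℝ) else 0)) =
      ((Fintype.card α : ℝ) - B.card) /
        ((Fintype.card α : ℝ) * ((Fintype.card α : ℝ) - 1)) := by
    intro p
    have hne : P p ≠ P (p.1, !p.2) := by
      intro h
      have := congrArg Prod.snd (P.injective h)
      simp at this
    rw [law_pair hne (fun x y => if x = a ∧ y ∉ B then (1 : ℝ) else 0)]
    congr 1
    have h2 : ∀ x, (∑ y, if x = y then (0 : ℝ) else if x = a ∧ y ∉ B then (1 : ℝ) else 0) =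
        if x = a then (∑ y, if y ∉ B then (1 : ℝ) else 0) else 0 := by
      intro x
      split_ifs with hx
      · refine Finset.sum_congr rfl fun y _ => ?_
        by_cases hxy : x = y
        · rw [if_pos hxy, if_neg]
          rw [← hxy, hx]
          exact not_not.2 ha
        · rw [if_neg hxy]
          simp [hx]
      · refine Finset.sum_eq_zero fun y _ => ?_
        simp [hx]
    rw [Finset.sum_congr rfl fun x _ => h2 x, Finset.sum_ite_eq', if_pos (Finset.mem_univ a),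
      Finset.sum_boole]
    have h3 : univ.filter (fun y => y ∉ B) = Bᶜ := by
      ext y; simp
    rw [h3, Finset.card_compl, Nat.cast_sub (Finset.card_le_univ B)]
  rw [Finset.sum_congr rfl fun p _ => h1 p, Finset.sum_const, Finset.card_univ,
    Fintype.card_prod, Fintype.card_bool, nsmul_eq_mul]
  push_cast
  ring

end Pool.Agent.H49.M4
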