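import Mathlib
import Pool.Agent.H49.MMS.CL
import Pool.Agent.H49.M4.Pair

open Finset
open scoped BigOperators

namespace Pool.Agent.H49.M4

open Pool.Agent.H49.MMS

variable {Λ α κ : Type} [Fintype Λ] [DecidableEq Λ] [Fintype α] [DecidableEq α]
  [Fintype κ] [DecidableEq κ]

omit [Fintype Λ] [DecidableEq Λ] [Fintype α] [DecidableEq α] [Fintype κ] [DecidableEq κ] in
theorem dP_big (P : κ × Bool ↪ Λ) (u : α → ℝ) (W V : ℝ) (a : α) (ha : V + W < |u a|)
    (e : Λ ≃ α) (p : κ × Bool) (h1 : e (P p) = a) (h2 : |u (e (P (p.1, !p.2)))| ≤ V) :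
    W < |dP P u e p.1| := by
  obtain ⟨j, b⟩ := p
  unfold dP
  cases b
  · simp only [Bool.not_false] at h2
    rw [h1]
    have := abs_sub_abs_le_abs_sub (u a) (u (e (P (j, true))))
    linarith
  · simp only [Bool.not_true] at h2
    rw [h1, abs_sub_comm]
    have := abs_sub_abs_le_abs_sub (u a) (u (e (P (j, false))))
    linarith

omit [Fintype Λ] [DecidableEq Λ] [Fintype α] [DecidableEq α] in
theorem Qg_use (P : κ × Bool ↪ Λ) (u : α → ℝ) (W : ℝ) (hW : 0 < W) (e : Λ ≃ α)
    (hQ : 1200 * W ^ 2 ≤ Qg P (gg u W) e) :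
    𝔼 s : κ → Bool, pw W (0 + ∑ j, sg (s j) * dP P u e j) ≤ 47 / 125 := by
  refine spreadR (univ.filter (fun j : κ => ¬ (2 * W < |u (e (P (j, false)))| ∨
    2 * W < |u (e (P (j, true)))|))) (dP P u e) 0 W hW ?_ ?_
  · intro j hj
    have h := (Finset.mem_filter.1 hj).2
    have := gg_le u W (e (P (j, false))) (e (P (j, true)))
    unfold gg at this
    rw [if_neg h] at this
    exact this
  · refine hQ.trans (le_of_eq ?_)
    unfold Qg
    rw [Finset.sum_filter]
    refine Finset.sum_congr rfl fun j _ => ?_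
    unfold gg dP
    by_cases h : 2 * W < |u (e (P (j, false)))| ∨ 2 * W < |u (e (P (j, true)))|
    · rw [if_pos h, if_neg (not_not.2 h)]
    · rw [if_neg h, if_pos h]

theorem pw_avg_le_one (W : ℝ) (f : (κ → Bool) → ℝ) : 𝔼 s : κ → Bool, pw W (f s) ≤ 1 := by
  calc _ ≤ 𝔼 _s : κ → Bool, (1 : ℝ) := Finset.expect_le_expect fun s _ => pw_le_one _ _
    _ = 1 := Fintype.expect_const _

/-- spread case for general pairs -/
theorem spreadP [Nonempty (Λ ≃ α)] (P : κ × Bool ↪ Λ) (u : α → ℝ) (W : ℝ) (hW : 0 < W)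
    (hn : (18 : ℝ) ≤ Fintype.card α) (μ : ℝ)
    (hμ : μ = (Fintype.card κ : ℝ) * (∑ x, ∑ y, gg u W x y) /
        ((Fintype.card α : ℝ) * ((Fintype.card α : ℝ) - 1)))
    (hμs : 1200 * W ^ 2 < μ) :
    𝔼 e : Λ ≃ α, pw W (DP P u e) ≤ 47 / 125 +
      (16 * W ^ 2 * μ + 5 / Fintype.card α * μ ^ 2) / (μ - 1200 * W ^ 2) ^ 2 := by
  have hch := Qg_cheb P (gg u W) (16 * W ^ 2) (fun x => by unfold gg; simp)
    (gg_nonneg u W) (gg_le u W) hn μ (1200 * W ^ 2) hμ hμs
  rw [expect_DP]
  calc _ ≤ 𝔼 e : Λ ≃ α, (47 / 125 + (if Qg P (gg u W) e < 1200 * W ^ 2 then (1 : ℝ) else 0)) := by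
        refine Finset.expect_le_expect fun e _ => ?_
        split_ifs with h
        · have := pw_avg_le_one W (fun s : κ → Bool => 0 + ∑ j, sg (s j) * dP P u e j)
          linarith
        · push Not at h
          have := Qg_use P u W hW e h
          linarith
    _ = 47 / 125 + 𝔼 e : Λ ≃ α, (if Qg P (gg u W) e < 1200 * W ^ 2 then (1 : ℝ) else 0) := by
        rw [Finset.expect_add_distrib, Fintype.expect_const]
    _ ≤ _ := by linarith

omit [Fintype Λ] [DecidableEq Λ] [Fintype α] in
theorem inP_flip (P : κ × Bool ↪ Λ) (a : α) (e : Λ ≃ α) (s : κ → Bool) :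
    inP P a ((fP P s).trans e) = inP P a e := by
  unfold inP
  rw [← Equiv.sum_comp (flK s) (fun p => if e (P p) = a then (1 : ℝ) else 0)]
  refine Finset.sum_congr rfl fun p _ => ?_
  obtain ⟨j, b⟩ := p
  rw [Equiv.trans_apply, fP_apply]
  rfl

/-! ### three blocks -/

/-- positions for three blocks -/
abbrev L3 (k r : ℕ) : Type := (Fin k × Bool) ⊕ (Fin k ⊕ Fin r)

theorem card_L3 (k r : ℕ) : Fintype.card (L3 k r) = 3 * k + r := by
  simp [L3, Fintype.card_sum, Fintype.card_prod]
  ring

/-- the first two blocks -/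
def P3 (k r : ℕ) : Fin k × Bool ↪ L3 k r := Function.Embedding.inl

/-- the first and the third block -/
def P13 (k r : ℕ) : Fin k × Bool ↪ L3 k r :=
  ⟨fun p => if p.2 then Sum.inr (Sum.inl p.1) else Sum.inl (p.1, false), by
    rintro ⟨i, b⟩ ⟨j, c⟩ h
    cases b <;> cases c <;> simp_all⟩

variable {k r : ℕ}

/-- the third block sum -/
noncomputable def Y3 (u : α → ℝ) (e : L3 k r ≃ α) : ℝ := ∑ j, u (e (Sum.inr (Sum.inl j)))

/-- the remainder sum -/
noncomputable def YR (u : α → ℝ) (e : L3 k r ≃ α) : ℝ := ∑ i, u (e (Sum.inr (Sum.inr i)))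

omit [DecidableEq α] in
theorem sum3 (u : α → ℝ) (e : L3 k r ≃ α) :
    ∑ a, u a = XP (P3 k r) false u e + XP (P3 k r) true u e + Y3 u e + YR u e := by
  rw [← Equiv.sum_comp e u, Fintype.sum_sum_type, Fintype.sum_sum_type, Fintype.sum_prod_type]
  unfold XP Y3 YR P3
  simp only [Fintype.sum_bool, Finset.sum_add_distrib, Function.Embedding.inl_apply]
  ring

/-- position sets of the blocks -/
def K3 (k r : ℕ) : Finset (L3 k r) :=
  univ.map ⟨fun j : Fin k => Sum.inr (Sum.inl j), fun i j h => by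
    simp only [Sum.inr.injEq, Sum.inl.injEq] at h; exact h⟩

/-- position sets of the first blocks -/
def K12 (k r : ℕ) (b : Bool) : Finset (L3 k r) :=
  univ.map ⟨fun j : Fin k => Sum.inl (j, b), fun i j h => by
    simp only [Sum.inl.injEq, Prod.mk.injEq, and_true] at h; exact h⟩

/-- position set of the remainder -/
def KR (k r : ℕ) : Finset (L3 k r) :=
  univ.map ⟨fun i : Fin r => Sum.inr (Sum.inr i), fun i j h => by
    simp only [Sum.inr.injEq] at h; exact h⟩

/-- probability that a block is good -/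
theorem block3 [Nonempty (L3 k r ≃ α)] (x : α → ℝ) (K : Finset (L3 k r)) (hK : K.card = k)
    (hcard : Fintype.card α = 3 * k + r) :
    𝔼 e : L3 k r ≃ α, (if 0 < ∑ l ∈ K, x (e l) then (1 : ℝ) else 0) =
      goodC x k / ((3 * k + r).choose k : ℝ) := by
  have h := law_set (Λ := L3 k r) (α := α) K
    (fun S => if 0 < ∑ a ∈ S, x a then (1 : ℝ) else 0)
  simp only [Finset.sum_map, Equiv.coe_toEmbedding] at h
  rw [h, hK, Finset.expect_eq_sum_div_card, Finset.card_powersetCard, Finset.card_univ, hcard]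
  rfl

/-- probability that the remainder is large -/
theorem rem3 [Nonempty (L3 k r ≃ α)] (u : α → ℝ) (W : ℝ) (hW : 0 < W) (hu : ∑ a, u a = 0)
    (hn : 2 ≤ Fintype.card α) :
    𝔼 e : L3 k r ≃ α, (if W < YR u e then (1 : ℝ) else 0) ≤
      (r : ℝ) / (Fintype.card α - 1) * (∑ a, u a ^ 2) / W ^ 2 := by
  have h2 := secMom (Λ := L3 k r) (α := α) (KR k r) u hu hn
  have hc : (KR k r).card = r := by simp [KR]
  have hs : ∀ e : L3 k r ≃ α, ∑ l ∈ KR k r, u (e l) = YR u e := by
    intro e; simp [KR, YR]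
  rw [hc] at h2
  simp only [hs] at h2
  have h3 : 𝔼 e : L3 k r ≃ α, (if W < YR u e then (1 : ℝ) else 0) ≤
      (𝔼 e : L3 k r ≃ α, (YR u e) ^ 2) / W ^ 2 := by
    rw [Finset.expect_div]
    refine Finset.expect_le_expect fun e _ => ?_
    rw [le_div_iff₀ (by positivity)]
    split_ifs with h
    · nlinarith
    · rw [zero_mul]; positivity
  refine h3.trans ?_
  rw [h2]
  refine div_le_div_of_nonneg_right ?_ (by positivity)
  refine mul_le_mul_of_nonneg_right ?_ (Finset.sum_nonneg fun _ _ => sq_nonneg _)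
  have hn2 : (2 : ℝ) ≤ Fintype.card α := by exact_mod_cast hn
  have hr0 : (0 : ℝ) ≤ r := by positivity
  rw [div_le_div_iff₀ (by nlinarith) (by linarith)]
  have h5 : (0 : ℝ) ≤ (Fintype.card α : ℝ) - 1 := by linarith
  have : (r : ℝ) * (Fintype.card α - r) * (Fintype.card α - 1) ≤
      r * (Fintype.card α * (Fintype.card α - 1)) := by
    have : (r : ℝ) * (Fintype.card α - r) ≤ r * Fintype.card α := by nlinarith
    nlinarith
  exact this

/-- all three blocks bad -/
noncomputable def bad3 (x : α → ℝ) (e : L3 k r ≃ α) : ℝ :=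
  if XP (P3 k r) false x e ≤ 0 ∧ XP (P3 k r) true x e ≤ 0 ∧ Y3 x e ≤ 0 then 1 else 0

omit [Fintype α] [DecidableEq α] in
theorem bad3_nonneg (x : α → ℝ) (e : L3 k r ≃ α) : 0 ≤ bad3 x e := by
  unfold bad3; split_ifs <;> norm_num

omit [Fintype α] [DecidableEq α] in
theorem bad3_le_one (x : α → ℝ) (e : L3 k r ≃ α) : bad3 x e ≤ 1 := by
  unfold bad3; split_ifs <;> norm_num

theorem good3 [Nonempty (L3 k r ≃ α)] (x : α → ℝ) (hcard : Fintype.card α = 3 * k + r) :
    1 - (𝔼 e : L3 k r ≃ α, bad3 x e) ≤ 3 * (goodC x k / ((3 * k + r).choose k : ℝ)) := by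
  have h1 := block3 (k := k) (r := r) x (K12 k r false) (by simp [K12]) hcard
  have h2 := block3 (k := k) (r := r) x (K12 k r true) (by simp [K12]) hcard
  have h3 := block3 (k := k) (r := r) x (K3 k r) (by simp [K3]) hcard
  have hpt : ∀ e : L3 k r ≃ α, 1 - bad3 x e ≤
      (if 0 < ∑ l ∈ K12 k r false, x (e l) then (1 : ℝ) else 0) +
      (if 0 < ∑ l ∈ K12 k r true, x (e l) then (1 : ℝ) else 0) +
      (if 0 < ∑ l ∈ K3 k r, x (e l) then (1 : ℝ) else 0) := by
    intro e
    have e1 : ∑ l ∈ K12 k r false, x (e l) = XP (P3 k r) false x e := by simp [K12, XP, P3]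
    have e2 : ∑ l ∈ K12 k r true, x (e l) = XP (P3 k r) true x e := by simp [K12, XP, P3]
    have e3 : ∑ l ∈ K3 k r, x (e l) = Y3 x e := by simp [K3, Y3]
    rw [e1, e2, e3]
    unfold bad3
    by_cases a1 : 0 < XP (P3 k r) false x e
    · rw [if_pos a1, if_neg (fun h => absurd h.1 (not_le.2 a1))]
      have : (0 : ℝ) ≤ (if 0 < XP (P3 k r) true x e then (1 : ℝ) else 0) := by
        split_ifs <;> norm_num
      have : (0 : ℝ) ≤ (if 0 < Y3 x e then (1 : ℝ) else 0) := by split_ifs <;> norm_num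
      linarith
    by_cases a2 : 0 < XP (P3 k r) true x e
    · rw [if_pos a2, if_neg a1, if_neg (fun h => absurd h.2.1 (not_le.2 a2))]
      have : (0 : ℝ) ≤ (if 0 < Y3 x e then (1 : ℝ) else 0) := by split_ifs <;> norm_num
      linarith
    by_cases a3 : 0 < Y3 x e
    · rw [if_pos a3, if_neg a1, if_neg a2, if_neg (fun h => absurd h.2.2 (not_le.2 a3))]
      norm_num
    rw [if_neg a1, if_neg a2, if_neg a3, if_pos ⟨not_lt.1 a1, not_lt.1 a2, not_lt.1 a3⟩]
    norm_num
  calc 1 - (𝔼 e : L3 k r ≃ α, bad3 x e) = 𝔼 e : L3 k r ≃ α, (1 - bad3 x e) := by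
        rw [Finset.expect_sub_distrib, Fintype.expect_const]
    _ ≤ 𝔼 e : L3 k r ≃ α, ((if 0 < ∑ l ∈ K12 k r false, x (e l) then (1 : ℝ) else 0) +
      (if 0 < ∑ l ∈ K12 k r true, x (e l) then (1 : ℝ) else 0) +
      (if 0 < ∑ l ∈ K3 k r, x (e l) then (1 : ℝ) else 0)) :=
        Finset.expect_le_expect fun e _ => hpt e
    _ = _ := by
        rw [Finset.expect_add_distrib, Finset.expect_add_distrib, h1, h2, h3]
        ring

omit [Fintype α] [DecidableEq α] in
theorem XP_shift (P : κ × Bool ↪ Λ) (b : Bool) (x u : α → ℝ) (xb : ℝ)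
    (hx : ∀ a, x a = xb + u a) (e : Λ ≃ α) :
    XP P b x e = Fintype.card κ * xb + XP P b u e := by
  unfold XP
  simp only [hx]
  rw [Finset.sum_add_distrib, Finset.sum_const, Finset.card_univ, nsmul_eq_mul]

/-- all bad forces a tie -/
theorem bad3_tie (x u : α → ℝ) (xb W : ℝ) (hxb : 0 < xb) (hx : ∀ a, x a = xb + u a)
    (hu : ∑ a, u a = 0) (e : L3 k r ≃ α) :
    bad3 x e ≤ pw W (DP (P3 k r) u e) + (if W < YR u e then (1 : ℝ) else 0) := by
  have hp := pw_nonneg W (DP (P3 k r) u e)
  unfold bad3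
  split_ifs with h hR hR
  · linarith
  · have h1 := XP_shift (P3 k r) false x u xb hx e
    have h2 := XP_shift (P3 k r) true x u xb hx e
    have h3 : Y3 x e = k * xb + Y3 u e := by
      unfold Y3
      simp only [hx]
      rw [Finset.sum_add_distrib, Finset.sum_const, Finset.card_univ, Fintype.card_fin,
        nsmul_eq_mul]
    rw [h1, h2, h3, Fintype.card_fin] at h
    have hs := sum3 u e
    rw [hu] at hs
    have hk : (0 : ℝ) ≤ k * xb := by positivity
    have : pw W (DP (P3 k r) u e) = 1 := by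
      unfold pw
      rw [if_pos]
      rw [DP_eq, abs_le]
      push Not at hR
      constructor <;> linarith [h.1, h.2.1, h.2.2]
    rw [this]; norm_num
  · linarith
  · linarith

/-- symmetry between the first and the third block -/
theorem bad3_symm (x : α → ℝ) (a : α) :
    𝔼 e : L3 k r ≃ α, bad3 x e * (∑ j : Fin k, if e (Sum.inl (j, false)) = a then (1 : ℝ) else 0) =
    𝔼 e : L3 k r ≃ α, bad3 x e * (∑ j : Fin k, if e (Sum.inr (Sum.inl j)) = a then (1 : ℝ)
      else 0) := by
  rw [← expect_pre (fP (P13 k r) (fun _ => true)) (fun e : L3 k r ≃ α =>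
    bad3 x e * (∑ j : Fin k, if e (Sum.inl (j, false)) = a then (1 : ℝ) else 0))]
  refine Finset.expect_congr rfl fun e _ => ?_
  have m1 : ∀ j : Fin k, fP (P13 k r) (fun _ => true) (Sum.inl (j, false)) =
      Sum.inr (Sum.inl j) := fun j => fP_apply (P13 k r) (fun _ => true) j false
  have m3 : ∀ j : Fin k, fP (P13 k r) (fun _ => true) (Sum.inr (Sum.inl j)) =
      Sum.inl (j, false) := fun j => fP_apply (P13 k r) (fun _ => true) j true
  have m2 : ∀ j : Fin k, fP (P13 k r) (fun _ => true) (Sum.inl (j, true)) =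
      Sum.inl (j, true) := by
    intro j
    refine fP_out (P13 k r) _ _ ?_
    rintro ⟨i, b⟩
    cases b <;> simp [P13]
  have e1 : XP (P3 k r) false x ((fP (P13 k r) (fun _ => true)).trans e) = Y3 x e := by
    unfold XP Y3 P3
    refine Finset.sum_congr rfl fun j _ => ?_
    rw [Equiv.trans_apply, Function.Embedding.inl_apply, m1]
  have e2 : XP (P3 k r) true x ((fP (P13 k r) (fun _ => true)).trans e) =
      XP (P3 k r) true x e := by
    unfold XP P3
    refine Finset.sum_congr rfl fun j _ => ?_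
    rw [Equiv.trans_apply, Function.Embedding.inl_apply, m2]
  have e3 : Y3 x ((fP (P13 k r) (fun _ => true)).trans e) = XP (P3 k r) false x e := by
    unfold XP Y3 P3
    refine Finset.sum_congr rfl fun j _ => ?_
    rw [Equiv.trans_apply, m3, Function.Embedding.inl_apply]
  have e4 : bad3 x ((fP (P13 k r) (fun _ => true)).trans e) = bad3 x e := by
    unfold bad3
    rw [e1, e2, e3]
    congr 1
    rw [eq_iff_iff]
    tauto
  rw [e4]
  congr 1
  refine Finset.sum_congr rfl fun j _ => ?_
  rw [Equiv.trans_apply, m1]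

/-- the crude bound for three blocks, normalised -/
theorem CL3n [Nonempty (L3 k r ≃ α)] (x u : α → ℝ) (xb : ℝ) (hxb : 0 < xb)
    (hx : ∀ a, x a = xb + u a)
    (hu : ∑ a, u a = 0) (hu2 : ∑ a, u a ^ 2 = 1) (hcard : Fintype.card α = 3 * k + r)
    (hn : (100000000 : ℝ) ≤ Fintype.card α) (hr : (r : ℝ) * 100000000 ≤ k) :
    𝔼 e : L3 k r ≃ α, bad3 x e ≤ 51 / 100 := by
  set n : ℝ := (Fintype.card α : ℝ) with hn'
  have hnk : n = 3 * k + r := by rw [hn', hcard]; push_cast; ring
  have hr0 : (0 : ℝ) ≤ r := by positivity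
  have hk0 : (0 : ℝ) ≤ k := by positivity
  have hW : (0 : ℝ) < 1 / 300 := by norm_num
  have hcard2 : 2 ≤ Fintype.card α := by
    have : (2 : ℝ) ≤ Fintype.card α := by rw [← hn']; linarith
    exact_mod_cast this
  have hR := rem3 (k := k) (r := r) u (1 / 300) hW hu hcard2
  rw [hu2, ← hn'] at hR
  have hR' : 𝔼 e : L3 k r ≃ α, (if (1 / 300 : ℝ) < YR u e then (1 : ℝ) else 0) ≤ 1 / 1000 := by
    refine hR.trans ?_
    have : (r : ℝ) / (n - 1) ≤ 1 / 100000000 := by
      rw [div_le_div_iff₀ (by linarith) (by norm_num)]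
      linarith
    have e1 : (r : ℝ) / (n - 1) * 1 / (1 / 300) ^ 2 = 90000 * ((r : ℝ) / (n - 1)) := by ring
    rw [e1]; linarith
  by_cases hA : ∃ a, 2 * (1 / 300 : ℝ) < |u a|
  · obtain ⟨a, ha⟩ := hA
    set B : Finset α := univ.filter (fun a => (1 / 300 : ℝ) < |u a|) with hB
    have haB : a ∈ B := by
      rw [hB, Finset.mem_filter]
      exact ⟨Finset.mem_univ _, by linarith⟩
    have hBc := card_B u hu2
    rw [← hB] at hBc
    have hnice := nice_expect (Λ := L3 k r) (P3 k r) B a haB
    have hin := inP_expect (Λ := L3 k r) (α := α) (P3 k r) a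
    rw [Fintype.card_fin, ← hn'] at hnice hin
    -- the flip estimate
    have hfl : 𝔼 e : L3 k r ≃ α, pw (1 / 300) (DP (P3 k r) u e) * inP (P3 k r) a e ≤
        (𝔼 e : L3 k r ≃ α, inP (P3 k r) a e) - 1 / 2 * 𝔼 e : L3 k r ≃ α, nice (P3 k r) B a e := by
      rw [expect_flip (P3 k r) (fun e => pw (1 / 300) (DP (P3 k r) u e) * inP (P3 k r) a e),
        Finset.mul_expect, ← Finset.expect_sub_distrib]
      refine Finset.expect_le_expect fun e _ => ?_
      have h1 : 𝔼 s : Fin k → Bool, pw (1 / 300) (DP (P3 k r) u ((fP (P3 k r) s).trans e)) *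
          inP (P3 k r) a ((fP (P3 k r) s).trans e) =
          (𝔼 s : Fin k → Bool, pw (1 / 300) (0 + ∑ j, sg (s j) * dP (P3 k r) u e j)) *
          inP (P3 k r) a e := by
        rw [Finset.expect_mul]
        refine Finset.expect_congr rfl fun s _ => ?_
        rw [inP_flip, DP_flip, zero_add]
      rw [h1]
      have hle := nice_le_inP (P3 k r) B a e
      have hn0 := nice_nonneg (P3 k r) B a e
      have hpw := pw_avg_le_one (1 / 300) (fun s : Fin k → Bool => 0 + ∑ j, sg (s j) *
        dP (P3 k r) u e j)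
      rcases nice_cases (P3 k r) B a e with h | ⟨p, p1, p2⟩
      · rw [h] at hle ⊢
        nlinarith
      · have hsm : |u (e (P3 k r (p.1, !p.2)))| ≤ 1 / 300 := by
          rw [hB, Finset.mem_filter] at p2
          push Not at p2
          exact p2 (Finset.mem_univ _)
        have := one_big (dP (P3 k r) u e) 0 (1 / 300) p.1
          (dP_big (P3 k r) u (1 / 300) (1 / 300) a (by linarith) e p p1 hsm)
        nlinarith
    -- decomposition by the block of `a`
    have hloc : ∀ e : L3 k r ≃ α, (1 : ℝ) = inP (P3 k r) a e +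
        (∑ j : Fin k, if e (Sum.inr (Sum.inl j)) = a then (1 : ℝ) else 0) +
        (∑ i : Fin r, if e (Sum.inr (Sum.inr i)) = a then (1 : ℝ) else 0) := by
      intro e
      have h := sum3 (fun b => if b = a then (1 : ℝ) else 0) e
      rw [Finset.sum_ite_eq' univ a, if_pos (Finset.mem_univ _)] at h
      refine h.trans ?_
      unfold XP Y3 YR inP P3
      rw [Fintype.sum_prod_type]
      simp only [Fintype.sum_bool, Finset.sum_add_distrib, Function.Embedding.inl_apply]
      ring
    have hinP : ∀ e : L3 k r ≃ α, inP (P3 k r) a e =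
        (∑ j : Fin k, if e (Sum.inl (j, false)) = a then (1 : ℝ) else 0) +
        (∑ j : Fin k, if e (Sum.inl (j, true)) = a then (1 : ℝ) else 0) := by
      intro e
      unfold inP P3
      rw [Fintype.sum_prod_type]
      simp only [Fintype.sum_bool, Finset.sum_add_distrib, Function.Embedding.inl_apply]
      ring
    have hsym := bad3_symm (k := k) (r := r) x a
    have hsym2 : 𝔼 e : L3 k r ≃ α, bad3 x e *
        (∑ j : Fin k, if e (Sum.inl (j, false)) = a then (1 : ℝ) else 0) =
        𝔼 e : L3 k r ≃ α, bad3 x e *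
        (∑ j : Fin k, if e (Sum.inl (j, true)) = a then (1 : ℝ) else 0) := by
      rw [← expect_pre (fP (P3 k r) (fun _ => true)) (fun e : L3 k r ≃ α =>
        bad3 x e * (∑ j : Fin k, if e (Sum.inl (j, false)) = a then (1 : ℝ) else 0))]
      refine Finset.expect_congr rfl fun e _ => ?_
      have m1 : ∀ (j : Fin k) (b : Bool), fP (P3 k r) (fun _ => true) (Sum.inl (j, b)) =
          Sum.inl (j, xor b true) := fun j b => fP_apply (P3 k r) (fun _ => true) j b
      have m3 : ∀ j : Fin k, fP (P3 k r) (fun _ => true) (Sum.inr (Sum.inl j)) =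
          Sum.inr (Sum.inl j) := by
        intro j
        refine fP_out (P3 k r) _ _ ?_
        rintro ⟨i, b⟩
        simp [P3]
      have e1 : ∀ b, XP (P3 k r) b x ((fP (P3 k r) (fun _ => true)).trans e) =
          XP (P3 k r) (!b) x e := by
        intro b
        unfold XP P3
        refine Finset.sum_congr rfl fun j _ => ?_
        rw [Equiv.trans_apply, Function.Embedding.inl_apply]
        have := m1 j b
        unfold P3 at this
        rw [this]
        simp
      have e3 : Y3 x ((fP (P3 k r) (fun _ => true)).trans e) = Y3 x e := by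
        unfold Y3
        refine Finset.sum_congr rfl fun j _ => ?_
        rw [Equiv.trans_apply, m3]
      have e4 : bad3 x ((fP (P3 k r) (fun _ => true)).trans e) = bad3 x e := by
        unfold bad3
        rw [e1, e1, e3]
        congr 1
        rw [eq_iff_iff]
        simp only [Bool.not_false, Bool.not_true]
        tauto
      rw [e4]
      congr 1
      refine Finset.sum_congr rfl fun j _ => ?_
      rw [Equiv.trans_apply, m1]
      simp
    have hdecomp : 𝔼 e : L3 k r ≃ α, bad3 x e = 3 / 2 * (𝔼 e : L3 k r ≃ α, bad3 x e *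
        inP (P3 k r) a e) + 𝔼 e : L3 k r ≃ α, bad3 x e *
        (∑ i : Fin r, if e (Sum.inr (Sum.inr i)) = a then (1 : ℝ) else 0) := by
      have h1 : 𝔼 e : L3 k r ≃ α, bad3 x e =
          (𝔼 e : L3 k r ≃ α, bad3 x e * inP (P3 k r) a e) +
          (𝔼 e : L3 k r ≃ α, bad3 x e *
            (∑ j : Fin k, if e (Sum.inr (Sum.inl j)) = a then (1 : ℝ) else 0)) +
          𝔼 e : L3 k r ≃ α, bad3 x e *
            (∑ i : Fin r, if e (Sum.inr (Sum.inr i)) = a then (1 : ℝ) else 0) := by
        rw [← Finset.expect_add_distrib, ← Finset.expect_add_distrib]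
        refine Finset.expect_congr rfl fun e _ => ?_
        rw [← mul_add, ← mul_add, ← hloc e, mul_one]
      have h2 : (𝔼 e : L3 k r ≃ α, bad3 x e * inP (P3 k r) a e) =
          2 * 𝔼 e : L3 k r ≃ α, bad3 x e *
            (∑ j : Fin k, if e (Sum.inr (Sum.inl j)) = a then (1 : ℝ) else 0) := by
        have : (𝔼 e : L3 k r ≃ α, bad3 x e * inP (P3 k r) a e) =
          (𝔼 e : L3 k r ≃ α, bad3 x e *
            (∑ j : Fin k, if e (Sum.inl (j, false)) = a then (1 : ℝ) else 0)) +
          𝔼 e : L3 k r ≃ α, bad3 x e *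
            (∑ j : Fin k, if e (Sum.inl (j, true)) = a then (1 : ℝ) else 0) := by
          rw [← Finset.expect_add_distrib]
          refine Finset.expect_congr rfl fun e _ => ?_
          rw [← mul_add, ← hinP e]
        rw [this, ← hsym2, hsym]
        ring
      linarith
    have hlast : 𝔼 e : L3 k r ≃ α, bad3 x e *
        (∑ i : Fin r, if e (Sum.inr (Sum.inr i)) = a then (1 : ℝ) else 0) ≤ (r : ℝ) / n := by
      calc _ ≤ 𝔼 e : L3 k r ≃ α,
            (∑ i : Fin r, if e (Sum.inr (Sum.inr i)) = a then (1 : ℝ) else 0) := by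
            refine Finset.expect_le_expect fun e _ => ?_
            have h0 : (0 : ℝ) ≤ ∑ i : Fin r, if e (Sum.inr (Sum.inr i)) = a then (1 : ℝ)
              else 0 := Finset.sum_nonneg fun i _ => by split_ifs <;> norm_num
            have := bad3_le_one x e
            nlinarith
        _ = _ := by
            rw [Finset.expect_sum_comm]
            have : ∀ i : Fin r, (𝔼 e : L3 k r ≃ α,
                (if e (Sum.inr (Sum.inr i)) = a then (1 : ℝ) else 0)) = 1 / n := by
              intro i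
              rw [law_one (Λ := L3 k r) (Sum.inr (Sum.inr i)) (fun x => if x = a then (1 : ℝ)
                else 0)]
              simp [hn']
            rw [Finset.sum_congr rfl fun i _ => this i, Finset.sum_const, Finset.card_univ,
              Fintype.card_fin, nsmul_eq_mul]
            ring
    have hmid : 𝔼 e : L3 k r ≃ α, bad3 x e * inP (P3 k r) a e ≤
        (𝔼 e : L3 k r ≃ α, pw (1 / 300) (DP (P3 k r) u e) * inP (P3 k r) a e) + 1 / 1000 := by
      refine le_trans ?_ (add_le_add le_rfl hR')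
      rw [← Finset.expect_add_distrib]
      refine Finset.expect_le_expect fun e _ => ?_
      have h1 := bad3_tie x u xb (1 / 300) hxb hx hu e
      have h2 := inP_le_one (P3 k r) a e
      have h3 : 0 ≤ inP (P3 k r) a e := le_trans (nice_nonneg (P3 k r) B a e)
        (nice_le_inP (P3 k r) B a e)
      have h4 : (0 : ℝ) ≤ (if (1 / 300 : ℝ) < YR u e then (1 : ℝ) else 0) := by
        split_ifs <;> norm_num
      nlinarith
    have hn1 : 0 < n - 1 := by linarith
    have hb1 : 2 * (k : ℝ) / n ≤ 2 / 3 := by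
      rw [div_le_div_iff₀ (by linarith) (by norm_num)]
      linarith
    have hb2 : (66 / 100 : ℝ) ≤ 2 * k * (n - B.card) / (n * (n - 1)) := by
      rw [le_div_iff₀ (by nlinarith)]
      have h1 : (6666 / 10000 : ℝ) * n ≤ 2 * k := by rw [hnk]; nlinarith
      have h2 : (999 / 1000 : ℝ) * (n - 1) ≤ n - B.card := by linarith
      calc (66 / 100 : ℝ) * (n * (n - 1)) ≤ ((6666 / 10000 : ℝ) * n) * ((999 / 1000) * (n - 1)) := by
            nlinarith [mul_pos (by linarith : (0:ℝ) < n) hn1]
        _ ≤ 2 * k * (n - B.card) := mul_le_mul h1 h2 (by linarith) (by linarith)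
    have hb3 : (r : ℝ) / n ≤ 1 / 1000 := by
      rw [div_le_div_iff₀ (by linarith) (by norm_num)]
      linarith
    rw [hin, hnice] at hfl
    linarith
  · push Not at hA
    have hf : univ.filter (fun a => 2 * (1 / 300 : ℝ) < |u a|) = ∅ := by
      rw [Finset.filter_eq_empty_iff]
      intro a _
      exact not_lt.2 (hA a)
    have hf2 : univ.filter (fun a => ¬ 2 * (1 / 300 : ℝ) < |u a|) = univ := by
      rw [Finset.filter_eq_self]
      intro a _
      exact not_lt.2 (hA a)
    have hG := G2_eq u (1 / 300) hu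
    rw [hf, hf2, hu2, ← hn', Finset.card_empty, Finset.sum_empty] at hG
    have hG' : ∑ x, ∑ y, gg u (1 / 300) x y = 2 * n := by
      rw [hG]; push_cast; ring
    have hs := spreadP (Λ := L3 k r) (P3 k r) u (1 / 300) hW (by rw [← hn']; linarith)
      (2 * k / (n - 1)) (by
        rw [Fintype.card_fin, hG', ← hn']
        have : n ≠ 0 := by linarith
        have : n - 1 ≠ 0 := by linarith
        field_simp) (by
        have : (6 / 10 : ℝ) ≤ 2 * k / (n - 1) := by
          rw [le_div_iff₀ (by linarith)]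
          linarith
        norm_num
        linarith)
    set μ : ℝ := 2 * k / (n - 1) with hμ
    have hμ1 : (6 / 10 : ℝ) ≤ μ := by
      rw [hμ, le_div_iff₀ (by linarith)]
      linarith
    have hμ2 : μ ≤ 7 / 10 := by
      rw [hμ, div_le_iff₀ (by linarith)]
      linarith
    have h5 : (16 * (1 / 300) ^ 2 * μ + 5 / n * μ ^ 2) / (μ - 1200 * (1 / 300) ^ 2) ^ 2 ≤
        1 / 1000 := by
      have hd : (58 / 100 : ℝ) ≤ μ - 1200 * (1 / 300) ^ 2 := by norm_num; linarith
      rw [div_le_iff₀ (by nlinarith)]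
      have : 5 / n ≤ 5 / 100000000 :=
        div_le_div_of_nonneg_left (by norm_num) (by norm_num) hn
      have : 5 / n * μ ^ 2 ≤ 5 / 100000000 * μ ^ 2 := mul_le_mul_of_nonneg_right this (sq_nonneg _)
      nlinarith
    have hall : 𝔼 e : L3 k r ≃ α, bad3 x e ≤
        (𝔼 e : L3 k r ≃ α, pw (1 / 300) (DP (P3 k r) u e)) +
        𝔼 e : L3 k r ≃ α, (if (1 / 300 : ℝ) < YR u e then (1 : ℝ) else 0) := by
      rw [← Finset.expect_add_distrib]
      exact Finset.expect_le_expect fun e _ => bad3_tie x u xb (1 / 300) hxb hx hu e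
    linarith

end Pool.Agent.H49.M4
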