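import Mathlib
import Pool.Agent.H49.M4.CL3

open Finset
open scoped BigOperators

namespace Pool.Agent.H49.M4

open Pool.Agent.H49.MMS

variable {α : Type} [Fintype α] [DecidableEq α] {k r : ℕ}

/-- the crude bound for three blocks -/
theorem CL3 (x : α → ℝ) (hcard : Fintype.card α = 3 * k + r)
    (hn : (100000000 : ℝ) ≤ Fintype.card α) (hr : (r : ℝ) * 100000000 ≤ k)
    (hx : 0 < ∑ a, x a) :
    49 / 300 * ((3 * k + r).choose k : ℝ) ≤ goodC x k := by
  have hne : Nonempty (L3 k r ≃ α) :=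
    ⟨Fintype.equivOfCardEq (by rw [card_L3, hcard])⟩
  have hch : (0 : ℝ) < ((3 * k + r).choose k : ℝ) := by
    exact_mod_cast Nat.choose_pos (by omega)
  have hnk : (Fintype.card α : ℝ) = 3 * k + r := by rw [hcard]; push_cast; ring
  have hk1 : 1 ≤ k := by
    by_contra h
    have : k = 0 := by omega
    subst this
    push_cast at hr hnk
    linarith
  rcases normalise x hx with h | ⟨c, xb, u, hc, hxb, hxu, hu, hu2⟩
  · rw [goodC_pos x k hk1 h, hcard]
    nlinarith
  rw [← goodC_scale x k c hc]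
  have h1 := CL3n (k := k) (r := r) (fun a => c * x a) u xb hxb hxu hu hu2 hcard hn hr
  have h2 := good3 (k := k) (r := r) (fun a => c * x a) hcard
  have h3 : 49 / 300 ≤ goodC (fun a => c * x a) k / ((3 * k + r).choose k : ℝ) := by linarith
  rw [le_div_iff₀ hch] at h3
  exact h3

/-- the crude bound for finsets -/
theorem CL3M (x : α → ℝ) (M : Finset α) (k r : ℕ) (hcard : M.card = 3 * k + r)
    (hn : (100000000 : ℝ) ≤ M.card) (hr : (r : ℝ) * 100000000 ≤ k)
    (hpos : 0 < ∑ a ∈ M, x a) :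
    49 / 300 * ((M.card).choose k : ℝ) ≤ cnt x M k 0 := by
  have h := CL3 (α := M) (k := k) (r := r) (fun i => x i) (by rw [Fintype.card_coe, hcard])
    (by rw [Fintype.card_coe]; exact hn) hr (by rw [Finset.sum_coe_sort M x]; exact hpos)
  rw [hcard]
  refine h.trans (le_of_eq ?_)
  unfold goodC cnt
  rw [sum_powersetCard_subtype M k (fun S => if 0 < 0 + ∑ a ∈ S, x a then (1 : ℝ) else 0)]
  refine Finset.sum_congr rfl fun S hS => ?_
  rw [Finset.sum_map, zero_add]
  rfl

end Pool.Agent.H49.M4
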