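import Mathlib
import Pool.Agent.H49.MMS.Cnt

open Finset
open scoped BigOperators

namespace Pool.Agent.H49.M4

open Pool.Agent.H49.MMS

variable {ι : Type} [DecidableEq ι]

/-- double counting of pairs `A ⊆ K ⊆ Y` -/
theorem dc_sub (Y : Finset ι) (k a : ℕ) (f : Finset ι → ℝ) :
    ∑ K ∈ Y.powersetCard k, ∑ A ∈ K.powersetCard a, f A =
      ((Y.card - a).choose (k - a) : ℝ) * ∑ A ∈ (Y.powersetCard a).filter (fun _ => a ≤ k), f A := by
  by_cases hak : a ≤ k
  swap
  · have h1 : (Y.powersetCard a).filter (fun _ => a ≤ k) = ∅ := by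
      rw [Finset.filter_eq_empty_iff]; intro _ _; exact hak
    rw [h1, Finset.sum_empty, mul_zero]
    refine Finset.sum_eq_zero fun K hK => ?_
    have : K.powersetCard a = ∅ := by
      rw [Finset.powersetCard_eq_empty, (Finset.mem_powersetCard.1 hK).2]; omega
    rw [this, Finset.sum_empty]
  have h1 : (Y.powersetCard a).filter (fun _ => a ≤ k) = Y.powersetCard a := by
    rw [Finset.filter_eq_self]; intro _ _; exact hak
  rw [h1, Finset.sum_comm' (s' := fun A => (Y.powersetCard k).filter (fun K => A ⊆ K))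
    (t' := Y.powersetCard a)]
  · rw [Finset.mul_sum]
    refine Finset.sum_congr rfl fun A hA => ?_
    obtain ⟨hAY, hAc⟩ := Finset.mem_powersetCard.1 hA
    rw [Finset.sum_const, nsmul_eq_mul]
    congr 2
    have h2 : (Y.card - a).choose (k - a) = ((Y \ A).powersetCard (k - a)).card := by
      rw [Finset.card_powersetCard, Finset.card_sdiff_of_subset hAY, hAc]
    rw [h2]
    refine Finset.card_bij' (fun K _ => K \ A) (fun B _ => B ∪ A) ?_ ?_ ?_ ?_
    · intro K hK
      rw [Finset.mem_filter, Finset.mem_powersetCard] at hK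
      rw [Finset.mem_powersetCard]
      exact ⟨Finset.sdiff_subset_sdiff hK.1.1 le_rfl, by
        rw [Finset.card_sdiff_of_subset hK.2, hK.1.2, hAc]⟩
    · intro B hB
      rw [Finset.mem_powersetCard] at hB
      have hd : Disjoint B A := Finset.disjoint_of_subset_left hB.1 Finset.sdiff_disjoint
      rw [Finset.mem_filter, Finset.mem_powersetCard]
      refine ⟨⟨Finset.union_subset (hB.1.trans Finset.sdiff_subset) hAY, ?_⟩,
        Finset.subset_union_right⟩
      rw [Finset.card_union_of_disjoint hd, hB.2, hAc]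
      omega
    · intro K hK
      rw [Finset.mem_filter] at hK
      exact Finset.sdiff_union_of_subset hK.2
    · intro B hB
      rw [Finset.mem_powersetCard] at hB
      have hd : Disjoint B A := Finset.disjoint_of_subset_left hB.1 Finset.sdiff_disjoint
      rw [Finset.union_sdiff_right, Finset.sdiff_eq_self_of_disjoint hd]
  · intro K A
    simp only [Finset.mem_powersetCard, Finset.mem_filter]
    constructor
    · rintro ⟨⟨hK, hKc⟩, hA, hAc⟩
      exact ⟨⟨⟨hK, hKc⟩, hA⟩, hA.trans hK, hAc⟩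
    · rintro ⟨⟨⟨hK, hKc⟩, hA⟩, _, hAc⟩
      exact ⟨⟨hK, hKc⟩, hA, hAc⟩

theorem dc_sub' (Y : Finset ι) (k a : ℕ) (hak : a ≤ k) (f : Finset ι → ℝ) :
    ∑ K ∈ Y.powersetCard k, ∑ A ∈ K.powersetCard a, f A =
      ((Y.card - a).choose (k - a) : ℝ) * ∑ A ∈ Y.powersetCard a, f A := by
  rw [dc_sub]
  congr 2
  rw [Finset.filter_eq_self]; intro _ _; exact hak

/-- first moment -/
theorem firstMom (Y : Finset ι) (k : ℕ) (hk : 1 ≤ k) (v : ι → ℝ) :
    ∑ K ∈ Y.powersetCard k, ∑ a ∈ K, v a =
      ((Y.card - 1).choose (k - 1) : ℝ) * ∑ a ∈ Y, v a := by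
  have h := dc_sub' Y k 1 hk (fun A => ∑ a ∈ A, v a)
  have h1 : ∀ K : Finset ι, ∑ A ∈ K.powersetCard 1, ∑ a ∈ A, v a = ∑ a ∈ K, v a := by
    intro K
    rw [Finset.powersetCard_one, Finset.sum_map]
    refine Finset.sum_congr rfl fun a _ => ?_
    simp
  rw [Finset.sum_congr rfl fun K _ => h1 K, h1 Y] at h
  exact h

theorem firstMom_zero (Y : Finset ι) (k : ℕ) (v : ι → ℝ) (hv : ∑ a ∈ Y, v a = 0) :
    ∑ K ∈ Y.powersetCard k, ∑ a ∈ K, v a = 0 := by
  by_cases hk : 1 ≤ k
  · rw [firstMom Y k hk v, hv, mul_zero]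
  · have : k = 0 := by omega
    subst this
    simp

/-- splitting the subsets by the size of the part in `J` -/
theorem split_J (M J : Finset ι) (hJ : J ⊆ M) (k j : ℕ) (hj : j ≤ k) (f : Finset ι → ℝ) :
    ∑ K ∈ (M.powersetCard k).filter (fun K => (K ∩ J).card = j), f K =
      ∑ A ∈ (M \ J).powersetCard (k - j), ∑ B ∈ J.powersetCard j, f (A ∪ B) := by
  rw [← Finset.sum_product']
  symm
  refine Finset.sum_bij' (fun p _ => p.1 ∪ p.2) (fun K _ => (K \ J, K ∩ J)) ?_ ?_ ?_ ?_ ?_
  · rintro ⟨A, B⟩ h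
    rw [Finset.mem_product, Finset.mem_powersetCard, Finset.mem_powersetCard] at h
    obtain ⟨⟨hA, hAc⟩, hB, hBc⟩ := h
    simp only at hA hAc hB hBc
    have hd : Disjoint A J := Finset.disjoint_of_subset_left hA Finset.sdiff_disjoint
    have hAB : Disjoint A B := Finset.disjoint_of_subset_right hB hd
    rw [Finset.mem_filter, Finset.mem_powersetCard]
    refine ⟨⟨Finset.union_subset (hA.trans Finset.sdiff_subset) (hB.trans hJ), ?_⟩, ?_⟩
    · rw [Finset.card_union_of_disjoint hAB, hAc, hBc]; omega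
    · rw [Finset.union_inter_distrib_right, Finset.disjoint_iff_inter_eq_empty.1 hd,
        Finset.empty_union, Finset.inter_eq_left.2 hB, hBc]
  · intro K hK
    rw [Finset.mem_filter, Finset.mem_powersetCard] at hK
    rw [Finset.mem_product, Finset.mem_powersetCard, Finset.mem_powersetCard]
    refine ⟨⟨Finset.sdiff_subset_sdiff hK.1.1 le_rfl, ?_⟩, Finset.inter_subset_right, hK.2⟩
    have := Finset.card_sdiff_add_card_inter K J
    simp only
    omega
  · rintro ⟨A, B⟩ h
    rw [Finset.mem_product, Finset.mem_powersetCard, Finset.mem_powersetCard] at h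
    obtain ⟨⟨hA, hAc⟩, hB, hBc⟩ := h
    simp only at hA hAc hB hBc
    have hd : Disjoint A J := Finset.disjoint_of_subset_left hA Finset.sdiff_disjoint
    refine Prod.ext ?_ ?_
    · simp only
      rw [Finset.union_sdiff_distrib, Finset.sdiff_eq_self_of_disjoint hd,
        Finset.sdiff_eq_empty_iff_subset.2 hB, Finset.union_empty]
    · simp only
      rw [Finset.union_inter_distrib_right, Finset.disjoint_iff_inter_eq_empty.1 hd,
        Finset.empty_union, Finset.inter_eq_left.2 hB]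
  · intro K _
    exact Finset.sdiff_union_inter K J
  · intro p _
    rfl

/-- splitting over a window of sizes -/
theorem split_W (M J : Finset ι) (hJ : J ⊆ M) (k : ℕ) (W : Finset ℕ) (hW : ∀ j ∈ W, j ≤ k)
    (f : Finset ι → ℝ) :
    ∑ K ∈ (M.powersetCard k).filter (fun K => (K ∩ J).card ∈ W), f K =
      ∑ j ∈ W, ∑ A ∈ (M \ J).powersetCard (k - j), ∑ B ∈ J.powersetCard j, f (A ∪ B) := by
  rw [← Finset.sum_fiberwise_of_maps_to (s := (M.powersetCard k).filter
    (fun K => (K ∩ J).card ∈ W)) (t := W) (g := fun K => (K ∩ J).card)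
    (fun K hK => (Finset.mem_filter.1 hK).2)]
  refine Finset.sum_congr rfl fun j hj => ?_
  rw [← split_J M J hJ k j (hW j hj) f]
  refine Finset.sum_congr ?_ fun _ _ => rfl
  ext K
  simp only [Finset.mem_filter]
  constructor
  · rintro ⟨⟨h1, _⟩, h3⟩; exact ⟨h1, h3⟩
  · rintro ⟨h1, h3⟩; exact ⟨⟨h1, h3 ▸ hj⟩, h3⟩

/-- few subsets meet `J` in more than `t` points -/
theorem markov_J (M J : Finset ι) (hJ : J ⊆ M) (k : ℕ) (hk : 1 ≤ k) (t : ℝ) (ht : 0 < t) :
    (((M.powersetCard k).filter (fun K => t < ((K ∩ J).card : ℝ))).card : ℝ) * t ≤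
      ((M.card - 1).choose (k - 1) : ℝ) * J.card := by
  have h1 := firstMom M k hk (fun a => if a ∈ J then (1 : ℝ) else 0)
  have h2 : ∀ K : Finset ι, ∑ a ∈ K, (if a ∈ J then (1 : ℝ) else 0) = ((K ∩ J).card : ℝ) := by
    intro K
    rw [Finset.sum_boole, ← Finset.filter_mem_eq_inter]
  rw [Finset.sum_congr rfl fun K _ => h2 K, h2 M, Finset.inter_eq_right.2 hJ] at h1
  rw [← h1]
  calc (((M.powersetCard k).filter (fun K => t < ((K ∩ J).card : ℝ))).card : ℝ) * t
      = ∑ K ∈ (M.powersetCard k).filter (fun K => t < ((K ∩ J).card : ℝ)), t := by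
        rw [Finset.sum_const, nsmul_eq_mul]
    _ ≤ ∑ K ∈ (M.powersetCard k).filter (fun K => t < ((K ∩ J).card : ℝ)),
          ((K ∩ J).card : ℝ) :=
        Finset.sum_le_sum fun K hK => (Finset.mem_filter.1 hK).2.le
    _ ≤ _ := Finset.sum_le_sum_of_subset_of_nonneg (Finset.filter_subset _ _)
        fun _ _ _ => by positivity

end Pool.Agent.H49.M4
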