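import Mathlib
import Pool.Agent.H49.MMS.Cnt
import Pool.Agent.H49.M4.Pair

open Finset
open scoped BigOperators

namespace Pool.Agent.H49.M4

open Pool.Agent.H49.MMS

/-- positions for four blocks -/
abbrev L4 (k r : ℕ) : Type := ((Fin k × Bool) × Bool) ⊕ Fin r

theorem card_L4 (k r : ℕ) : Fintype.card (L4 k r) = 4 * k + r := by
  simp [L4, Fintype.card_sum, Fintype.card_prod]
  ring

/-- pairs across the two halves -/
def PH (k r : ℕ) : (Fin k × Bool) × Bool ↪ L4 k r := Function.Embedding.inl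

/-- the two blocks of the half `h` -/
def PB (k r : ℕ) (h : Bool) : Fin k × Bool ↪ L4 k r :=
  ⟨fun p => Sum.inl (p, h), fun p q hpq => by
    simp only [Sum.inl.injEq, Prod.mk.injEq, and_true] at hpq; exact hpq⟩

variable {α : Type} [Fintype α] [DecidableEq α] {k r : ℕ}

/-- block sums: block `b` of half `h` -/
noncomputable def X4 (b h : Bool) (u : α → ℝ) (e : L4 k r ≃ α) : ℝ :=
  ∑ j : Fin k, u (e (Sum.inl ((j, b), h)))

/-- the remainder sum -/
noncomputable def XR (u : α → ℝ) (e : L4 k r ≃ α) : ℝ := ∑ i : Fin r, u (e (Sum.inr i))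

omit [Fintype α] [DecidableEq α] in
theorem XP_PB (h b : Bool) (u : α → ℝ) (e : L4 k r ≃ α) :
    XP (PB k r h) b u e = X4 b h u e := rfl

omit [Fintype α] [DecidableEq α] in
theorem XP_PH (h : Bool) (u : α → ℝ) (e : L4 k r ≃ α) :
    XP (PH k r) h u e = X4 false h u e + X4 true h u e := by
  unfold XP X4 PH
  rw [Fintype.sum_prod_type]
  simp only [Fintype.sum_bool, Finset.sum_add_distrib, Function.Embedding.inl_apply]
  ring

omit [DecidableEq α] in
theorem sum4 (u : α → ℝ) (e : L4 k r ≃ α) :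
    ∑ a, u a = X4 false false u e + X4 true false u e + X4 false true u e + X4 true true u e +
      XR u e := by
  rw [← Equiv.sum_comp e u, Fintype.sum_sum_type, Fintype.sum_prod_type, Fintype.sum_prod_type]
  unfold X4 XR
  simp only [Fintype.sum_bool, Finset.sum_add_distrib]
  ring

omit [Fintype α] [DecidableEq α] in
theorem X4_shift (b h : Bool) (x u : α → ℝ) (xb : ℝ) (hx : ∀ a, x a = xb + u a)
    (e : L4 k r ≃ α) : X4 b h x e = k * xb + X4 b h u e := by
  unfold X4
  simp only [hx]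
  rw [Finset.sum_add_distrib, Finset.sum_const, Finset.card_univ, Fintype.card_fin, nsmul_eq_mul]

omit [Fintype α] [DecidableEq α] in
theorem XR_flip (h : Bool) (u : α → ℝ) (e : L4 k r ≃ α) (s : Fin k → Bool) :
    XR u ((fP (PB k r h) s).trans e) = XR u e := by
  unfold XR
  refine Finset.sum_congr rfl fun i _ => ?_
  rw [out_flip]
  intro p
  simp [PB]

omit [Fintype α] [DecidableEq α] in
theorem X4_flip_ne (b h h' : Bool) (hh : h ≠ h') (u : α → ℝ) (e : L4 k r ≃ α)
    (s : Fin k → Bool) : X4 b h' u ((fP (PB k r h) s).trans e) = X4 b h' u e := by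
  unfold X4
  refine Finset.sum_congr rfl fun j _ => ?_
  rw [out_flip]
  intro p hp
  simp only [PB, Function.Embedding.coeFn_mk, Sum.inl.injEq, Prod.mk.injEq] at hp
  exact hh hp.2

/-! ### indicators -/

/-- both blocks of the half `h` are bad -/
noncomputable def bp (x : α → ℝ) (h : Bool) (e : L4 k r ≃ α) : ℝ :=
  if X4 false h x e ≤ 0 ∧ X4 true h x e ≤ 0 then 1 else 0

/-- all blocks bad -/
noncomputable def N0 (x : α → ℝ) (e : L4 k r ≃ α) : ℝ := bp x false e * bp x true e

/-- at least two good blocks -/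
noncomputable def N2 (x : α → ℝ) (e : L4 k r ≃ α) : ℝ :=
  if 2 ≤ (univ.filter (fun p : Bool × Bool => 0 < X4 p.1 p.2 x e)).card then 1 else 0

omit [Fintype α] [DecidableEq α] in
theorem bp_nonneg (x : α → ℝ) (h : Bool) (e : L4 k r ≃ α) : 0 ≤ bp x h e := by
  unfold bp; split_ifs <;> norm_num

omit [Fintype α] [DecidableEq α] in
theorem bp_le_one (x : α → ℝ) (h : Bool) (e : L4 k r ≃ α) : bp x h e ≤ 1 := by
  unfold bp; split_ifs <;> norm_num

omit [Fintype α] [DecidableEq α] in
theorem N0_nonneg (x : α → ℝ) (e : L4 k r ≃ α) : 0 ≤ N0 x e :=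
  mul_nonneg (bp_nonneg _ _ _) (bp_nonneg _ _ _)

omit [Fintype α] [DecidableEq α] in
theorem N0_le_one (x : α → ℝ) (e : L4 k r ≃ α) : N0 x e ≤ 1 :=
  mul_le_one₀ (bp_le_one _ _ _) (bp_nonneg _ _ _) (bp_le_one _ _ _)

omit [Fintype α] [DecidableEq α] in
theorem N2_nonneg (x : α → ℝ) (e : L4 k r ≃ α) : 0 ≤ N2 x e := by
  unfold N2; split_ifs <;> norm_num

omit [Fintype α] [DecidableEq α] in
theorem N2_le_one (x : α → ℝ) (e : L4 k r ≃ α) : N2 x e ≤ 1 := by
  unfold N2; split_ifs <;> norm_num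

omit [Fintype α] [DecidableEq α] in
/-- two good blocks -/
theorem N2_of (x : α → ℝ) (e : L4 k r ≃ α) (p q : Bool × Bool) (hpq : p ≠ q)
    (hp : 0 < X4 p.1 p.2 x e) (hq : 0 < X4 q.1 q.2 x e) : N2 x e = 1 := by
  unfold N2
  rw [if_pos]
  rw [show (2 : ℕ) = ({p, q} : Finset (Bool × Bool)).card from (Finset.card_pair hpq).symm]
  refine Finset.card_le_card ?_
  intro i hi
  rw [Finset.mem_insert, Finset.mem_singleton] at hi
  rw [Finset.mem_filter]
  rcases hi with rfl | rfl
  · exact ⟨Finset.mem_univ _, hp⟩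
  · exact ⟨Finset.mem_univ _, hq⟩

omit [Fintype α] [DecidableEq α] in
theorem N2_prod (x : α → ℝ) (e : L4 k r ≃ α) :
    (1 - bp x false e) * (1 - bp x true e) ≤ N2 x e := by
  have h2 := N2_nonneg x e
  unfold bp
  by_cases h0 : X4 false false x e ≤ 0 ∧ X4 true false x e ≤ 0
  · rw [if_pos h0]; linarith
  by_cases h1 : X4 false true x e ≤ 0 ∧ X4 true true x e ≤ 0
  · rw [if_pos h1]; linarith
  rw [if_neg h0, if_neg h1]
  have a0 : ∃ b, 0 < X4 b false x e := by
    by_contra hc
    push Not at hc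
    exact h0 ⟨hc false, hc true⟩
  have a1 : ∃ b, 0 < X4 b true x e := by
    by_contra hc
    push Not at hc
    exact h1 ⟨hc false, hc true⟩
  obtain ⟨b, hb⟩ := a0
  obtain ⟨c, hc⟩ := a1
  have := N2_of x e (b, false) (c, true) (by simp) hb hc
  rw [this]; norm_num

omit [Fintype α] [DecidableEq α] in
theorem count_ge (x : α → ℝ) (e : L4 k r ≃ α) :
    1 - N0 x e + N2 x e ≤ ∑ p : Bool × Bool, (if 0 < X4 p.1 p.2 x e then (1 : ℝ) else 0) := by
  rw [Finset.sum_boole]
  set c : ℕ := (univ.filter (fun p : Bool × Bool => 0 < X4 p.1 p.2 x e)).card with hc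
  have hN2 : N2 x e = if 2 ≤ c then 1 else 0 := rfl
  by_cases h0 : c = 0
  · rw [hN2, h0]
    have hall : ∀ p : Bool × Bool, X4 p.1 p.2 x e ≤ 0 := by
      intro p
      have := Finset.card_eq_zero.1 h0
      rw [Finset.filter_eq_empty_iff] at this
      exact not_lt.1 (this (Finset.mem_univ p))
    have : N0 x e = 1 := by
      unfold N0 bp
      rw [if_pos ⟨hall (false, false), hall (true, false)⟩,
        if_pos ⟨hall (false, true), hall (true, true)⟩, mul_one]
    rw [this]; norm_num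
  · have h1 : 1 ≤ c := by omega
    have hn := N0_nonneg x e
    by_cases h2 : 2 ≤ c
    · rw [hN2, if_pos h2]
      have : (2 : ℝ) ≤ c := by exact_mod_cast h2
      linarith
    · rw [hN2, if_neg h2]
      have : (1 : ℝ) ≤ c := by exact_mod_cast h1
      linarith

/-- position sets of the blocks -/
def KB (k r : ℕ) (b h : Bool) : Finset (L4 k r) :=
  univ.map ⟨fun j : Fin k => Sum.inl ((j, b), h), fun i j hij => by
    simp only [Sum.inl.injEq, Prod.mk.injEq, and_true] at hij; exact hij⟩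

/-- position set of the remainder -/
def KRr (k r : ℕ) : Finset (L4 k r) :=
  univ.map ⟨fun i : Fin r => Sum.inr i, Sum.inr_injective⟩

theorem card_KB (b h : Bool) : (KB k r b h).card = k := by simp [KB]

theorem card_KRr : (KRr k r).card = r := by simp [KRr]

omit [Fintype α] [DecidableEq α] in
theorem sum_KB (b h : Bool) (u : α → ℝ) (e : L4 k r ≃ α) :
    ∑ l ∈ KB k r b h, u (e l) = X4 b h u e := by simp [KB, X4]

omit [Fintype α] [DecidableEq α] in
theorem sum_KRr (u : α → ℝ) (e : L4 k r ≃ α) : ∑ l ∈ KRr k r, u (e l) = XR u e := by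
  simp [KRr, XR]

theorem block4 [Nonempty (L4 k r ≃ α)] (x : α → ℝ) (b h : Bool)
    (hcard : Fintype.card α = 4 * k + r) :
    𝔼 e : L4 k r ≃ α, (if 0 < X4 b h x e then (1 : ℝ) else 0) =
      goodC x k / ((4 * k + r).choose k : ℝ) := by
  have hh := law_set (Λ := L4 k r) (α := α) (KB k r b h)
    (fun S => if 0 < ∑ a ∈ S, x a then (1 : ℝ) else 0)
  simp only [Finset.sum_map, Equiv.coe_toEmbedding, sum_KB] at hh
  rw [hh, card_KB, Finset.expect_eq_sum_div_card, Finset.card_powersetCard, Finset.card_univ,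
    hcard]
  rfl

theorem good4 [Nonempty (L4 k r ≃ α)] (x : α → ℝ) (hcard : Fintype.card α = 4 * k + r) :
    1 - (𝔼 e : L4 k r ≃ α, N0 x e) + (𝔼 e : L4 k r ≃ α, N2 x e) ≤
      4 * (goodC x k / ((4 * k + r).choose k : ℝ)) := by
  calc 1 - (𝔼 e : L4 k r ≃ α, N0 x e) + (𝔼 e : L4 k r ≃ α, N2 x e)
      = 𝔼 e : L4 k r ≃ α, (1 - N0 x e + N2 x e) := by
        rw [Finset.expect_add_distrib, Finset.expect_sub_distrib, Fintype.expect_const]
    _ ≤ 𝔼 e : L4 k r ≃ α, ∑ p : Bool × Bool, (if 0 < X4 p.1 p.2 x e then (1 : ℝ) else 0) :=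
        Finset.expect_le_expect fun e _ => count_ge x e
    _ = _ := by
        rw [Finset.expect_sum_comm, Finset.sum_congr rfl fun p _ => block4 x p.1 p.2 hcard,
          Finset.sum_const, Finset.card_univ, Fintype.card_prod, Fintype.card_bool, nsmul_eq_mul]
        push_cast
        ring

/-- second moments of a block of any fixed positions -/
theorem secPos [Nonempty (L4 k r ≃ α)] (A : Finset (L4 k r)) (v : α → ℝ) (hv : ∑ a, v a = 0)
    (hn : 2 ≤ Fintype.card α) :
    𝔼 e : L4 k r ≃ α, (∑ l ∈ A, v (e l)) ^ 2 ≤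
      (A.card : ℝ) / ((Fintype.card α : ℝ) - 1) * ∑ a, v a ^ 2 := by
  rw [secMom A v hv hn]
  refine mul_le_mul_of_nonneg_right ?_ (Finset.sum_nonneg fun _ _ => sq_nonneg _)
  have hn2 : (2 : ℝ) ≤ Fintype.card α := by exact_mod_cast hn
  have hr0 : (0 : ℝ) ≤ A.card := by positivity
  rw [div_le_div_iff₀ (by nlinarith) (by linarith)]
  have h5 : (0 : ℝ) ≤ (Fintype.card α : ℝ) - 1 := by linarith
  have : (A.card : ℝ) * (Fintype.card α - A.card) ≤ A.card * Fintype.card α := by nlinarith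
  nlinarith

/-- Chebyshev for fixed positions -/
theorem chebPos [Nonempty (L4 k r ≃ α)] (A : Finset (L4 k r)) (v : α → ℝ) (hv : ∑ a, v a = 0)
    (hn : 2 ≤ Fintype.card α) (t : ℝ) (ht : 0 < t) :
    𝔼 e : L4 k r ≃ α, (if t < |∑ l ∈ A, v (e l)| then (1 : ℝ) else 0) ≤
      (A.card : ℝ) / ((Fintype.card α : ℝ) - 1) * (∑ a, v a ^ 2) / t ^ 2 := by
  rw [le_div_iff₀ (by positivity), Finset.expect_mul]
  refine le_trans (Finset.expect_le_expect fun e _ => ?_) (secPos A v hv hn)
  split_ifs with h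
  · rw [one_mul, ← sq_abs (∑ l ∈ A, v (e l))]
    nlinarith
  · rw [zero_mul]; positivity

end Pool.Agent.H49.M4
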