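import Mathlib
import Pool.Agent.H49.M4.Blk4

open Finset
open scoped BigOperators

namespace Pool.Agent.H49.M4

open Pool.Agent.H49.MMS

/-- quantiles -/
theorem quantile {Ω : Type} [Fintype Ω] [Nonempty Ω] (Y : Ω → ℝ) (η : ℝ)
    (hη : 0 ≤ η) (hpos : η < 𝔼 ω : Ω, (if 0 < Y ω then (1 : ℝ) else 0)) :
    ∃ q : ℝ, 0 < q ∧ (𝔼 ω : Ω, (if q < Y ω then (1 : ℝ) else 0)) ≤ η ∧
      η < 𝔼 ω : Ω, (if q ≤ Y ω then (1 : ℝ) else 0) := by
  classical
  set S : Finset Ω := univ.filter (fun w => 0 < Y w ∧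
    η < 𝔼 ω : Ω, (if Y w ≤ Y ω then (1 : ℝ) else 0)) with hS
  have hne : S.Nonempty := by
    have h1 : (univ.filter (fun w => 0 < Y w)).Nonempty := by
      by_contra hc
      rw [Finset.not_nonempty_iff_eq_empty, Finset.filter_eq_empty_iff] at hc
      have : 𝔼 ω : Ω, (if 0 < Y ω then (1 : ℝ) else 0) = 0 := by
        refine Finset.expect_eq_zero fun ω _ => ?_
        rw [if_neg (hc (Finset.mem_univ ω))]
      linarith
    obtain ⟨w, hw, hmin⟩ := Finset.exists_min_image _ Y h1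
    have hw' := (Finset.mem_filter.1 hw).2
    refine ⟨w, Finset.mem_filter.2 ⟨Finset.mem_univ _, hw', ?_⟩⟩
    refine lt_of_lt_of_le hpos (Finset.expect_le_expect fun ω _ => ?_)
    by_cases h : 0 < Y ω
    · rw [if_pos h, if_pos (hmin ω (Finset.mem_filter.2 ⟨Finset.mem_univ _, h⟩))]
    · rw [if_neg h]; split_ifs <;> norm_num
  obtain ⟨w, hw, hmax⟩ := Finset.exists_max_image S Y hne
  have hw' := (Finset.mem_filter.1 hw).2
  refine ⟨Y w, hw'.1, ?_, hw'.2⟩
  by_contra hc
  push Not at hc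
  have h1 : (univ.filter (fun v => Y w < Y v)).Nonempty := by
    by_contra hcc
    rw [Finset.not_nonempty_iff_eq_empty, Finset.filter_eq_empty_iff] at hcc
    have : 𝔼 ω : Ω, (if Y w < Y ω then (1 : ℝ) else 0) = 0 := by
      refine Finset.expect_eq_zero fun ω _ => ?_
      rw [if_neg (hcc (Finset.mem_univ ω))]
    linarith
  obtain ⟨v, hv, hmin⟩ := Finset.exists_min_image _ Y h1
  have hv' := (Finset.mem_filter.1 hv).2
  have hvS : v ∈ S := by
    refine Finset.mem_filter.2 ⟨Finset.mem_univ _, lt_trans hw'.1 hv', ?_⟩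
    refine lt_of_lt_of_le hc (Finset.expect_le_expect fun ω _ => ?_)
    by_cases h : Y w < Y ω
    · rw [if_pos h, if_pos (hmin ω (Finset.mem_filter.2 ⟨Finset.mem_univ _, h⟩))]
    · rw [if_neg h]; split_ifs <;> norm_num
  exact absurd (hmax v hvS) (not_le.2 hv')

variable {Λ α : Type} [Fintype Λ] [DecidableEq Λ] [Fintype α] [DecidableEq α]

/-- the law of the preimage of a fixed set -/
theorem law_preimage [Nonempty (Λ ≃ α)] (A : Finset α) (K : Finset Λ) :
    𝔼 e : Λ ≃ α, (if ∀ a ∈ A, e.symm a ∈ K then (1 : ℝ) else 0) =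
      ((K.card).choose A.card : ℝ) / ((Fintype.card Λ).choose A.card : ℝ) := by
  have e0 : Λ ≃ α := Classical.arbitrary _
  have : Nonempty (α ≃ Λ) := ⟨e0.symm⟩
  have h := law_set (Λ := α) (α := Λ) A (fun S => if S ⊆ K then (1 : ℝ) else 0)
  have h1 : 𝔼 e : Λ ≃ α, (if ∀ a ∈ A, e.symm a ∈ K then (1 : ℝ) else 0) =
      𝔼 e : α ≃ Λ, (if A.map e.toEmbedding ⊆ K then (1 : ℝ) else 0) := by
    refine Fintype.expect_equiv (Equiv.symmEquiv Λ α) _ _ ?_
    intro e
    have : (∀ a ∈ A, e.symm a ∈ K) ↔ A.map (Equiv.symmEquiv Λ α e).toEmbedding ⊆ K := by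
      constructor
      · intro hh b hb
        obtain ⟨a, ha, rfl⟩ := Finset.mem_map.1 hb
        exact hh a ha
      · intro hh a ha
        exact hh (Finset.mem_map.2 ⟨a, ha, rfl⟩)
    by_cases hc : ∀ a ∈ A, e.symm a ∈ K
    · rw [if_pos hc, if_pos (this.1 hc)]
    · rw [if_neg hc, if_neg (fun h' => hc (this.2 h'))]
  rw [h1, h, Finset.expect_eq_sum_div_card, Finset.card_powersetCard, Finset.card_univ]
  congr 1
  rw [Finset.sum_boole]
  congr 1
  rw [← Finset.card_powersetCard]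
  congr 1
  ext S
  simp only [Finset.mem_filter, Finset.mem_powersetCard, Finset.subset_univ, true_and]
  tauto

/-- ratio of binomial coefficients from below -/
theorem choose_ratio (n k h : ℕ) (hk : n ≤ 5 * (k + 1 - h)) :
    ((n.choose h : ℕ) : ℝ) ≤ 5 ^ h * ((k.choose h : ℕ) : ℝ) := by
  have h1 : n.descFactorial h ≤ n ^ h := Nat.descFactorial_le_pow n h
  have h2 : (k + 1 - h) ^ h ≤ k.descFactorial h := Nat.pow_sub_le_descFactorial k h
  rw [Nat.descFactorial_eq_factorial_mul_choose] at h1 h2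
  have h3 : n ^ h ≤ (5 * (k + 1 - h)) ^ h := Nat.pow_le_pow_left hk h
  rw [mul_pow] at h3
  have h4 : h.factorial * n.choose h ≤ h.factorial * (5 ^ h * k.choose h) := by
    calc h.factorial * n.choose h ≤ n ^ h := h1
      _ ≤ 5 ^ h * (k + 1 - h) ^ h := h3
      _ ≤ 5 ^ h * (h.factorial * k.choose h) := Nat.mul_le_mul_left _ h2
      _ = h.factorial * (5 ^ h * k.choose h) := by ring
  have h5 := Nat.le_of_mul_le_mul_left h4 (Nat.factorial_pos h)
  exact_mod_cast h5

/-- one element close to most others -/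
theorem center (g : α → α → ℝ) (c : ℝ) (hα : 0 < Fintype.card α)
    (h : ∑ x, ∑ y, g x y ≤ Fintype.card α * c) : ∃ y, ∑ x, g x y ≤ c := by
  by_contra hc
  push Not at hc
  rw [Finset.sum_comm] at h
  have hne : (univ : Finset α).Nonempty := by
    rw [← Finset.card_pos, Finset.card_univ]; exact hα
  have : ∑ _y : α, c < ∑ y, ∑ x, g x y := Finset.sum_lt_sum_of_nonempty hne (fun y _ => hc y)
  rw [Finset.sum_const, Finset.card_univ, nsmul_eq_mul] at this
  linarith

end Pool.Agent.H49.M4
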