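import Mathlib
import Pool.Agent.H49.M4.BetaA
import Pool.Agent.H49.M4.CL3

open Finset
open scoped BigOperators

namespace Pool.Agent.H49.M4

open Pool.Agent.H49.MMS

variable {α : Type} [Fintype α] [DecidableEq α] {k r : ℕ}

omit [DecidableEq α] in
/-- all blocks bad: the block sums are small negative -/
theorem N0_bound (x u : α → ℝ) (xb : ℝ) (hxb : 0 < xb) (hx : ∀ a, x a = xb + u a)
    (hu : ∑ a, u a = 0) (hk : 1 ≤ k) (e : L4 k r ≃ α) (h : N0 x e ≠ 0) (b c : Bool) :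
    X4 b c u e < 0 ∧ - XR u e ≤ X4 b c u e ∧ 0 < XR u e := by
  have hkx : (0 : ℝ) < k * xb := by
    have : (1 : ℝ) ≤ k := by exact_mod_cast hk
    nlinarith
  have h0 : bp x false e ≠ 0 := left_ne_zero_of_mul h
  have h1 : bp x true e ≠ 0 := right_ne_zero_of_mul h
  have h0' : X4 false false x e ≤ 0 ∧ X4 true false x e ≤ 0 := by
    by_contra hc
    exact h0 (if_neg hc)
  have h1' : X4 false true x e ≤ 0 ∧ X4 true true x e ≤ 0 := by
    by_contra hc
    exact h1 (if_neg hc)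
  rw [X4_shift _ _ x u xb hx, X4_shift _ _ x u xb hx] at h0' h1'
  have hs := sum4 u e
  rw [hu] at hs
  cases b <;> cases c <;> refine ⟨?_, ?_, ?_⟩ <;> linarith [h0'.1, h0'.2, h1'.1, h1'.2]

omit [DecidableEq α] in
theorem N0_cases (x : α → ℝ) (e : L4 k r ≃ α) : N0 x e = 0 ∨ N0 x e = 1 := by
  unfold N0 bp
  split_ifs <;> simp

/-- localisation -/
theorem beta_loc (ε : ℝ) (hε : 0 < ε) : ∃ c0 : ℝ, 1 ≤ c0 ∧
    ∀ (α : Type) [Fintype α] [DecidableEq α] (k r : ℕ) [Nonempty (L4 k r ≃ α)]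
      (x u : α → ℝ) (xb : ℝ), 0 < xb → (∀ a, x a = xb + u a) → ∑ a, u a = 0 →
      1 ≤ k → r ≤ k → Fintype.card α = 4 * k + r → (18 : ℝ) ≤ Fintype.card α →
      320 / ε ≤ Fintype.card α → (ε < 𝔼 e : L4 k r ≃ α, N0 x e) →
      ∃ q : ℝ, 0 < q ∧ (ε / 2 < 𝔼 e : L4 k r ≃ α, (if q ≤ XR u e then (1 : ℝ) else 0)) ∧
        ∃ y, ∑ a, min ((u a - u y) ^ 2) (q ^ 2) ≤ c0 * q ^ 2 := by
  obtain ⟨L1, hL1, hsb⟩ := smallball (ε / 8) (by positivity)
  refine ⟨5 * (2 * L1 + 64 / ε + 1), by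
    have : 0 < 64 / ε := by positivity
    linarith, ?_⟩
  intro α _ _ k r _ x u xb hxb hx hu hk hrk hcard hn18 hn hE
  set n : ℝ := (Fintype.card α : ℝ) with hn'
  have hnk : n = 4 * k + r := by rw [hn', hcard]; push_cast; ring
  have hpos : ε / 2 < 𝔼 e : L4 k r ≃ α, (if 0 < XR u e then (1 : ℝ) else 0) := by
    refine lt_of_lt_of_le (by linarith) (le_trans hE.le (Finset.expect_le_expect fun e _ => ?_))
    rcases N0_cases x e with h | h
    · rw [h]; split_ifs <;> norm_num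
    · rw [h, if_pos]
      exact (N0_bound x u xb hxb hx hu hk e (by rw [h]; norm_num) false false).2.2
  obtain ⟨q, hq, hq1, hq2⟩ := quantile (fun e : L4 k r ≃ α => XR u e) (ε / 2) (by positivity) hpos
  refine ⟨q, hq, hq2, ?_⟩
  -- the difference is small with positive probability
  have h1 : (𝔼 e : L4 k r ≃ α, N0 x e) ≤ (𝔼 e : L4 k r ≃ α, pw q (DP (PB k r false) u e)) +
      𝔼 e : L4 k r ≃ α, (if q < XR u e then (1 : ℝ) else 0) := by
    rw [← Finset.expect_add_distrib]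
    refine Finset.expect_le_expect fun e _ => ?_
    have hp := pw_nonneg q (DP (PB k r false) u e)
    rcases N0_cases x e with h | h
    · rw [h]
      have : (0 : ℝ) ≤ (if q < XR u e then (1 : ℝ) else 0) := by split_ifs <;> norm_num
      linarith
    · rw [h]
      split_ifs with hR
      · linarith
      · have b0 := N0_bound x u xb hxb hx hu hk e (by rw [h]; norm_num) false false
        have b1 := N0_bound x u xb hxb hx hu hk e (by rw [h]; norm_num) true false
        have : pw q (DP (PB k r false) u e) = 1 := by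
          unfold pw
          rw [if_pos]
          rw [DP_eq, XP_PB, XP_PB, abs_le]
          push Not at hR
          constructor <;> linarith [b0.1, b0.2.1, b1.1, b1.2.1]
        linarith
  set g : α → α → ℝ := fun a b => min ((u a - u b) ^ 2) (q ^ 2) with hg
  have hg0 : ∀ a, g a a = 0 := by
    intro a
    simp only [hg, sub_self]
    rw [min_eq_left]
    · norm_num
    · norm_num
      positivity
  have hgn : ∀ a b, 0 ≤ g a b := fun a b => le_min (sq_nonneg _) (sq_nonneg _)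
  have hgm : ∀ a b, g a b ≤ q ^ 2 := fun a b => min_le_right _ _
  have h2 : (𝔼 e : L4 k r ≃ α, pw q (DP (PB k r false) u e)) ≤
      ε / 8 + 𝔼 e : L4 k r ≃ α, (if Qg (PB k r false) g e < L1 * q ^ 2 then (1 : ℝ) else 0) := by
    rw [expect_DP (PB k r false) u (pw q)]
    calc _ ≤ 𝔼 e : L4 k r ≃ α, (ε / 8 +
          (if Qg (PB k r false) g e < L1 * q ^ 2 then (1 : ℝ) else 0)) := by
          refine Finset.expect_le_expect fun e _ => ?_
          split_ifs with h
          · have := pw_avg_le_one q (fun s : Fin k → Bool => 0 + ∑ j, sg (s j) *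
              dP (PB k r false) u e j)
            linarith
          · push Not at h
            have := hsb (Fin k) (dP (PB k r false) u e) 0 q hq h
            linarith
      _ = _ := by rw [Finset.expect_add_distrib, Fintype.expect_const]
  have h3 : 3 * ε / 8 < 𝔼 e : L4 k r ≃ α,
      (if Qg (PB k r false) g e < L1 * q ^ 2 then (1 : ℝ) else 0) := by linarith
  set μ : ℝ := (Fintype.card (Fin k) : ℝ) * (∑ a, ∑ b, g a b) / (n * (n - 1)) with hμ
  have hq2' : 0 < q ^ 2 := by positivity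
  have hμs : μ < (2 * L1 + 64 / ε + 1) * q ^ 2 := by
    by_contra hc
    push Not at hc
    have h64 : 0 < 64 / ε := by positivity
    have hμ0 : 0 < μ := lt_of_lt_of_le (by positivity) hc
    have hL : L1 * q ^ 2 ≤ μ / 2 := by nlinarith
    have := Qg_cheb (PB k r false) g (q ^ 2) hg0 hgn hgm hn18 μ (L1 * q ^ 2) hμ (by linarith)
    rw [← hn'] at this
    have h4 : (q ^ 2 * μ + 5 / n * μ ^ 2) / (μ - L1 * q ^ 2) ^ 2 ≤ ε / 8 := by
      have hn0 : 0 < n := by linarith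
      have h5 : 5 / n ≤ ε / 64 := by
        rw [div_le_iff₀ hε] at hn
        rw [div_le_div_iff₀ hn0 (by norm_num)]
        linarith
      have h6 : q ^ 2 * 64 ≤ ε * μ := by
        have : 64 / ε * q ^ 2 ≤ μ := by nlinarith
        rw [div_mul_eq_mul_div, div_le_iff₀ hε] at this
        linarith
      have h7 : (μ / 2) ^ 2 ≤ (μ - L1 * q ^ 2) ^ 2 := by
        have : μ / 2 ≤ μ - L1 * q ^ 2 := by linarith
        exact pow_le_pow_left₀ (by positivity) this 2
      rw [div_le_iff₀ (lt_of_lt_of_le (by positivity) h7)]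
      have h8 : 5 / n * μ ^ 2 ≤ ε / 64 * μ ^ 2 := mul_le_mul_of_nonneg_right h5 (sq_nonneg _)
      have h9 : q ^ 2 * μ ≤ ε / 64 * μ ^ 2 := by nlinarith
      have h10 : ε / 8 * (μ / 2) ^ 2 ≤ ε / 8 * (μ - L1 * q ^ 2) ^ 2 :=
        mul_le_mul_of_nonneg_left h7 (by positivity)
      linarith
    linarith
  refine center g _ (by omega) ?_
  rw [← hn']
  have hk1 : (1 : ℝ) ≤ k := by exact_mod_cast hk
  have hrk' : (r : ℝ) ≤ k := by exact_mod_cast hrk
  rw [hμ, Fintype.card_fin, div_lt_iff₀ (by nlinarith)] at hμs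
  have h5 : (n - 1) ≤ 5 * k := by linarith
  have hc : 0 < (2 * L1 + 64 / ε + 1) * q ^ 2 := by positivity
  have h6 : (k : ℝ) * (∑ a, ∑ b, g a b) ≤ k * (n * (5 * (2 * L1 + 64 / ε + 1) * q ^ 2)) := by
    have : (2 * L1 + 64 / ε + 1) * q ^ 2 * (n * (n - 1)) ≤
        (2 * L1 + 64 / ε + 1) * q ^ 2 * (n * (5 * k)) :=
      mul_le_mul_of_nonneg_left (mul_le_mul_of_nonneg_left h5 (by linarith)) hc.le
    linarith
  exact le_of_mul_le_mul_left h6 (by linarith)

/-- the exceptional set and the mean off it -/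
theorem localize (u : α → ℝ) (hu : ∑ a, u a = 0) (q c0 : ℝ) (hq : 0 < q) (y : α)
    (hy : ∑ a, min ((u a - u y) ^ 2) (q ^ 2) ≤ c0 * q ^ 2) :
    ∃ (A : Finset α) (m : ℝ), (A.card : ℝ) ≤ c0 ∧ (∀ a, a ∉ A → |u a - m| ≤ 2 * q) ∧
      (∀ a b, a ∉ A → b ∉ A → |u a - u b| ≤ 2 * q) ∧
      (∑ a, (if a ∈ A then 0 else u a - m)) = 0 ∧
      (∑ a, (if a ∈ A then 0 else u a - m) ^ 2) ≤ c0 * q ^ 2 ∧
      (Fintype.card α : ℝ) * m = - ∑ a ∈ A, (u a - m) := by
  set A : Finset α := univ.filter (fun a => q < |u a - u y|) with hA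
  have hyA : y ∉ A := by
    rw [hA, Finset.mem_filter]
    simp [hq.le]
  have hout : ∀ a, a ∉ A → |u a - u y| ≤ q := by
    intro a ha
    rw [hA, Finset.mem_filter] at ha
    push Not at ha
    exact ha (Finset.mem_univ _)
  set m : ℝ := (∑ a ∈ Aᶜ, u a) / (Aᶜ).card with hm
  have hyc : y ∈ Aᶜ := Finset.mem_compl.2 hyA
  have hcpos : (0 : ℝ) < (Aᶜ).card := by
    have : 0 < (Aᶜ).card := Finset.card_pos.2 ⟨y, hyc⟩
    exact_mod_cast this
  have hmc : (Aᶜ.card : ℝ) * m = ∑ a ∈ Aᶜ, u a := by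
    rw [hm]; field_simp
  have hmy : |m - u y| ≤ q := by
    have h1 : (Aᶜ.card : ℝ) * (m - u y) = ∑ a ∈ Aᶜ, (u a - u y) := by
      rw [Finset.sum_sub_distrib, Finset.sum_const, nsmul_eq_mul, ← hmc]; ring
    have h2 : |(Aᶜ.card : ℝ) * (m - u y)| ≤ Aᶜ.card * q := by
      rw [h1]
      calc _ ≤ ∑ a ∈ Aᶜ, |u a - u y| := Finset.abs_sum_le_sum_abs _ _
        _ ≤ ∑ _a ∈ Aᶜ, q := Finset.sum_le_sum fun a ha => hout a (Finset.mem_compl.1 ha)
        _ = _ := by rw [Finset.sum_const, nsmul_eq_mul]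
    rw [abs_mul, abs_of_pos hcpos] at h2
    exact le_of_mul_le_mul_left h2 hcpos
  have hsplit : ∀ f : α → ℝ, ∑ a, (if a ∈ A then 0 else f a) = ∑ a ∈ Aᶜ, f a := by
    intro f
    rw [← Finset.sum_filter_add_sum_filter_not univ (fun a => a ∈ A)]
    rw [Finset.sum_eq_zero (s := univ.filter (fun a => a ∈ A)), zero_add]
    · have : univ.filter (fun a => ¬ a ∈ A) = Aᶜ := by ext a; simp
      rw [this]
      refine Finset.sum_congr rfl fun a ha => ?_
      rw [if_neg (Finset.mem_compl.1 ha)]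
    · intro a ha
      rw [if_pos (Finset.mem_filter.1 ha).2]
  have hzero : ∑ a ∈ Aᶜ, (u a - m) = 0 := by
    rw [Finset.sum_sub_distrib, Finset.sum_const, nsmul_eq_mul, hmc, sub_self]
  have hq2 : 0 < q ^ 2 := by positivity
  have hdec : ∑ a, min ((u a - u y) ^ 2) (q ^ 2) = ∑ a ∈ A, min ((u a - u y) ^ 2) (q ^ 2) +
      ∑ a ∈ Aᶜ, min ((u a - u y) ^ 2) (q ^ 2) := (Finset.sum_add_sum_compl A _).symm
  have hinA : ∑ a ∈ A, min ((u a - u y) ^ 2) (q ^ 2) = A.card * q ^ 2 := by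
    rw [Finset.sum_congr rfl (g := fun _ => q ^ 2), Finset.sum_const, nsmul_eq_mul]
    intro a ha
    have := (Finset.mem_filter.1 ha).2
    rw [min_eq_right]
    rw [← sq_abs (u a - u y)]
    exact pow_le_pow_left₀ hq.le this.le 2
  have houtA : ∑ a ∈ Aᶜ, min ((u a - u y) ^ 2) (q ^ 2) = ∑ a ∈ Aᶜ, (u a - u y) ^ 2 := by
    refine Finset.sum_congr rfl fun a ha => ?_
    have := hout a (Finset.mem_compl.1 ha)
    rw [min_eq_left]
    rw [← sq_abs (u a - u y)]
    exact pow_le_pow_left₀ (abs_nonneg _) this 2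
  have hoff0 : 0 ≤ ∑ a ∈ Aᶜ, (u a - u y) ^ 2 := Finset.sum_nonneg fun _ _ => sq_nonneg _
  refine ⟨A, m, ?_, ?_, ?_, ?_, ?_, ?_⟩
  · have : (A.card : ℝ) * q ^ 2 ≤ c0 * q ^ 2 := by linarith
    exact le_of_mul_le_mul_right this hq2
  · intro a ha
    have h1 := hout a ha
    have h2 : u a - m = (u a - u y) - (m - u y) := by ring
    rw [h2]
    have := abs_sub (u a - u y) (m - u y)
    linarith
  · intro a b ha hb
    have h1 := hout a ha
    have h2 := hout b hb
    have h3 : u a - u b = (u a - u y) - (u b - u y) := by ring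
    rw [h3]
    have := abs_sub (u a - u y) (u b - u y)
    linarith
  · rw [hsplit (fun a => u a - m), hzero]
  · have h1 : ∀ a, (if a ∈ A then 0 else u a - m) ^ 2 = if a ∈ A then 0 else (u a - m) ^ 2 := by
      intro a
      split_ifs
      · norm_num
      · rfl
    rw [Finset.sum_congr rfl fun a _ => h1 a, hsplit (fun a => (u a - m) ^ 2)]
    have h2 : ∑ a ∈ Aᶜ, (u a - u y) ^ 2 = ∑ a ∈ Aᶜ, (u a - m) ^ 2 +
        Aᶜ.card * (m - u y) ^ 2 := by
      have h3 : ∀ a ∈ Aᶜ, (u a - u y) ^ 2 = (u a - m) ^ 2 + 2 * (m - u y) * (u a - m) +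
          (m - u y) ^ 2 := fun a _ => by ring
      rw [Finset.sum_congr rfl h3, Finset.sum_add_distrib, Finset.sum_add_distrib,
        ← Finset.mul_sum, hzero, Finset.sum_const, nsmul_eq_mul]
      ring
    have h4 : 0 ≤ (Aᶜ.card : ℝ) * (m - u y) ^ 2 := by positivity
    have h5 : (0 : ℝ) ≤ A.card * q ^ 2 := by positivity
    linarith
  · have h1 : ∑ a ∈ A, (u a - m) + ∑ a ∈ Aᶜ, (u a - m) = ∑ a, (u a - m) :=
      Finset.sum_add_sum_compl A _
    have h2 : ∑ a, (u a - m) = - ((Fintype.card α : ℝ) * m) := by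
      rw [Finset.sum_sub_distrib, hu, Finset.sum_const, Finset.card_univ, nsmul_eq_mul, zero_sub]
    rw [hzero, add_zero, h2] at h1
    linarith

end Pool.Agent.H49.M4
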