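import Mathlib
import Pool.Agent.H49.M4.BetaB

open Finset
open scoped BigOperators

namespace Pool.Agent.H49.M4

open Pool.Agent.H49.MMS

variable {α : Type} [Fintype α] [DecidableEq α] {k r : ℕ}

omit [Fintype α] [DecidableEq α] in
theorem dP_flip {Λ κ : Type} (P : κ × Bool ↪ Λ) (u : α → ℝ)
    (e : Λ ≃ α) (s : κ → Bool) (j : κ) :
    dP P u ((fP P s).trans e) j = sg (s j) * dP P u e j := by
  unfold dP
  simp only [Equiv.trans_apply, fP_apply]
  cases s j <;> simp [sg]

theorem abs_sg (b : Bool) : |sg b| = 1 := by cases b <;> simp [sg]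

/-- a big step in the half `h` -/
noncomputable def Bst (h : Bool) (u : α → ℝ) (w : ℝ) (e : L4 k r ≃ α) : ℝ :=
  if ∃ j : Fin k, 2 * w < |dP (PB k r h) u e j| then 1 else 0

omit [Fintype α] [DecidableEq α] in
theorem Bst_nonneg (h : Bool) (u : α → ℝ) (w : ℝ) (e : L4 k r ≃ α) : 0 ≤ Bst h u w e := by
  unfold Bst; split_ifs <;> norm_num

omit [Fintype α] [DecidableEq α] in
theorem Bst_le_one (h : Bool) (u : α → ℝ) (w : ℝ) (e : L4 k r ≃ α) : Bst h u w e ≤ 1 := by
  unfold Bst; split_ifs <;> norm_num

omit [Fintype α] [DecidableEq α] in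
theorem PB_out (h h' : Bool) (hh : h ≠ h') (p q : Fin k × Bool) : PB k r h p ≠ PB k r h' q := by
  intro hp
  simp only [PB, Function.Embedding.coeFn_mk, Sum.inl.injEq, Prod.mk.injEq] at hp
  exact hh hp.2

omit [Fintype α] [DecidableEq α] in
theorem flip_other (h h' : Bool) (hh : h ≠ h') (e : L4 k r ≃ α) (s : Fin k → Bool)
    (p : Fin k × Bool) : ((fP (PB k r h) s).trans e) (PB k r h' p) = e (PB k r h' p) :=
  out_flip _ _ _ _ (fun q => PB_out h h' hh q p)

omit [Fintype α] [DecidableEq α] in
theorem Bst_flip (h h' : Bool) (u : α → ℝ) (w : ℝ) (e : L4 k r ≃ α) (s : Fin k → Bool) :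
    Bst h' u w ((fP (PB k r h) s).trans e) = Bst h' u w e := by
  by_cases hh : h = h'
  · subst hh
    unfold Bst
    simp only [dP_flip, abs_mul, abs_sg, one_mul]
  · unfold Bst dP
    simp only [flip_other h h' hh]

/-- the good event for the flips -/
noncomputable def Om (u : α → ℝ) (w : ℝ) (e : L4 k r ≃ α) : ℝ :=
  Bst false u w e * Bst true u w e * (if XR u e ≤ w then 1 else 0)

omit [Fintype α] [DecidableEq α] in
theorem Om_flip (h : Bool) (u : α → ℝ) (w : ℝ) (e : L4 k r ≃ α) (s : Fin k → Bool) :
    Om u w ((fP (PB k r h) s).trans e) = Om u w e := by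
  unfold Om
  rw [Bst_flip, Bst_flip, XR_flip]

omit [Fintype α] [DecidableEq α] in
theorem Om_cases (u : α → ℝ) (w : ℝ) (e : L4 k r ≃ α) : Om u w e = 0 ∨
    (Om u w e = 1 ∧ (∀ h, ∃ j : Fin k, 2 * w < |dP (PB k r h) u e j|) ∧ XR u e ≤ w) := by
  unfold Om Bst
  by_cases h0 : ∃ j : Fin k, 2 * w < |dP (PB k r false) u e j|
  · by_cases h1 : ∃ j : Fin k, 2 * w < |dP (PB k r true) u e j|
    · by_cases h2 : XR u e ≤ w
      · right
        rw [if_pos h0, if_pos h1, if_pos h2]
        refine ⟨by norm_num, ?_, h2⟩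
        intro h
        cases h
        · exact h0
        · exact h1
      · left; rw [if_neg h2, mul_zero]
    · left; rw [if_neg h1, mul_zero, zero_mul]
  · left; rw [if_neg h0, zero_mul, zero_mul]

omit [Fintype α] [DecidableEq α] in
theorem bp_congr (x : α → ℝ) (h : Bool) (e e' : L4 k r ≃ α)
    (he : ∀ p, e (PB k r h p) = e' (PB k r h p)) : bp x h e = bp x h e' := by
  have hX : ∀ b, X4 b h x e = X4 b h x e' := by
    intro b
    unfold X4
    refine Finset.sum_congr rfl fun j _ => ?_
    have := he (j, b)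
    simp only [PB, Function.Embedding.coeFn_mk] at this
    rw [this]
  unfold bp
  rw [hX, hX]

omit [Fintype α] [DecidableEq α] in
theorem N0_double (x : α → ℝ) (e : L4 k r ≃ α) (s t : Fin k → Bool) :
    N0 x ((fP (PB k r false) s).trans ((fP (PB k r true) t).trans e)) =
      bp x false ((fP (PB k r false) s).trans e) * bp x true ((fP (PB k r true) t).trans e) := by
  unfold N0
  congr 1
  · refine bp_congr x false _ _ fun p => ?_
    rcases p with ⟨j, b⟩
    rw [Equiv.trans_apply, fP_apply, flip_other true false (by simp), Equiv.trans_apply, fP_apply]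
  · refine bp_congr x true _ _ fun p => ?_
    rw [flip_other false true (by simp)]

omit [Fintype α] [DecidableEq α] in
theorem N2_double (x : α → ℝ) (e : L4 k r ≃ α) (s t : Fin k → Bool) :
    (1 - bp x false ((fP (PB k r false) s).trans e)) *
      (1 - bp x true ((fP (PB k r true) t).trans e)) ≤
    N2 x ((fP (PB k r false) s).trans ((fP (PB k r true) t).trans e)) := by
  refine le_trans (le_of_eq ?_) (N2_prod x _)
  congr 2
  · refine bp_congr x false _ _ fun p => ?_
    rcases p with ⟨j, b⟩
    rw [Equiv.trans_apply, fP_apply, Equiv.trans_apply, fP_apply, flip_other true false (by simp)]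
  · refine bp_congr x true _ _ fun p => ?_
    rw [flip_other false true (by simp)]

theorem expect_double (F : (L4 k r ≃ α) → ℝ) :
    𝔼 e : L4 k r ≃ α, F e = 𝔼 e : L4 k r ≃ α, 𝔼 t : Fin k → Bool, 𝔼 s : Fin k → Bool,
      F ((fP (PB k r false) s).trans ((fP (PB k r true) t).trans e)) := by
  rw [expect_flip (PB k r false) F, expect_flip (PB k r true)]

omit [Fintype α] [DecidableEq α] in
theorem half_le (x u : α → ℝ) (xb : ℝ) (hxb : 0 < xb) (hx : ∀ a, x a = xb + u a) (h : Bool)
    (e : L4 k r ≃ α) (w : ℝ) (hw : 0 ≤ w) (hS : -w ≤ X4 false h u e + X4 true h u e)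
    (hB : ∃ j : Fin k, 2 * w < |dP (PB k r h) u e j|) :
    𝔼 s : Fin k → Bool, bp x h ((fP (PB k r h) s).trans e) ≤ 1 / 2 := by
  obtain ⟨j, hj⟩ := hB
  refine le_trans (Finset.expect_le_expect fun s _ => ?_)
    (one_big (dP (PB k r h) u e) 0 w j (by linarith))
  rw [zero_add, ← DP_flip]
  set e' := (fP (PB k r h) s).trans e with he'
  have hp := pw_nonneg w (DP (PB k r h) u e')
  unfold bp
  split_ifs with hb
  · rw [X4_shift _ _ x u xb hx, X4_shift _ _ x u xb hx] at hb
    have hs : X4 false h u e' + X4 true h u e' = X4 false h u e + X4 true h u e :=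
      SP_flip (PB k r h) u e s
    have hk : (0 : ℝ) ≤ k * xb := by positivity
    have : pw w (DP (PB k r h) u e') = 1 := by
      unfold pw
      rw [if_pos]
      rw [DP_eq, XP_PB, XP_PB, abs_le]
      constructor <;> linarith [hb.1, hb.2]
    rw [this]
  · exact hp

theorem OmN0_le (x u : α → ℝ) (xb : ℝ) (hxb : 0 < xb) (hx : ∀ a, x a = xb + u a)
    (hu : ∑ a, u a = 0) (w : ℝ) (hw : 0 ≤ w) :
    𝔼 e : L4 k r ≃ α, Om u w e * N0 x e ≤ 𝔼 e : L4 k r ≃ α, Om u w e * N2 x e := by
  rw [expect_double (fun e : L4 k r ≃ α => Om u w e * N0 x e),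
    expect_double (fun e : L4 k r ≃ α => Om u w e * N2 x e)]
  refine Finset.expect_le_expect fun e _ => ?_
  set a := 𝔼 s : Fin k → Bool, bp x false ((fP (PB k r false) s).trans e) with ha
  set b := 𝔼 t : Fin k → Bool, bp x true ((fP (PB k r true) t).trans e) with hb
  have e1 : (𝔼 t : Fin k → Bool, 𝔼 s : Fin k → Bool,
      Om u w ((fP (PB k r false) s).trans ((fP (PB k r true) t).trans e)) *
      N0 x ((fP (PB k r false) s).trans ((fP (PB k r true) t).trans e))) =
      Om u w e * (a * b) := by
    have : ∀ t s : Fin k → Bool,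
      Om u w ((fP (PB k r false) s).trans ((fP (PB k r true) t).trans e)) *
      N0 x ((fP (PB k r false) s).trans ((fP (PB k r true) t).trans e)) =
      bp x false ((fP (PB k r false) s).trans e) *
        (Om u w e * bp x true ((fP (PB k r true) t).trans e)) := by
      intro t s
      rw [Om_flip, Om_flip, N0_double]
      ring
    simp only [this]
    rw [Finset.expect_congr rfl fun t _ => (Finset.expect_mul _ _ _).symm, ← Finset.mul_expect,
      ← Finset.mul_expect]
    ring
  have e2 : Om u w e * ((1 - a) * (1 - b)) ≤ (𝔼 t : Fin k → Bool, 𝔼 s : Fin k → Bool,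
      Om u w ((fP (PB k r false) s).trans ((fP (PB k r true) t).trans e)) *
      N2 x ((fP (PB k r false) s).trans ((fP (PB k r true) t).trans e))) := by
    have h1 : Om u w e * ((1 - a) * (1 - b)) = 𝔼 t : Fin k → Bool, 𝔼 s : Fin k → Bool,
        (1 - bp x false ((fP (PB k r false) s).trans e)) *
        (Om u w e * (1 - bp x true ((fP (PB k r true) t).trans e))) := by
      rw [Finset.expect_congr rfl fun t _ => (Finset.expect_mul _ _ _).symm, ← Finset.mul_expect,
        ← Finset.mul_expect, Finset.expect_sub_distrib, Finset.expect_sub_distrib,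
        Fintype.expect_const]
      ring
    rw [h1]
    refine Finset.expect_le_expect fun t _ => Finset.expect_le_expect fun s _ => ?_
    rw [Om_flip, Om_flip]
    have h2 := N2_double x e s t
    have h3 : 0 ≤ Om u w e := by
      rcases Om_cases u w e with h | h
      · rw [h]
      · rw [h.1]; norm_num
    nlinarith
  rw [e1]
  refine le_trans ?_ e2
  rcases Om_cases u w e with h | ⟨h, hB, hR⟩
  · rw [h]; simp
  rw [h, one_mul, one_mul]
  have a0 : 0 ≤ a := Finset.expect_nonneg fun s _ => bp_nonneg _ _ _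
  have b0 : 0 ≤ b := Finset.expect_nonneg fun s _ => bp_nonneg _ _ _
  have a1 : a ≤ 1 := by
    calc a ≤ 𝔼 _s : Fin k → Bool, (1 : ℝ) := Finset.expect_le_expect fun s _ => bp_le_one _ _ _
      _ = 1 := Fintype.expect_const _
  have b1 : b ≤ 1 := by
    calc b ≤ 𝔼 _s : Fin k → Bool, (1 : ℝ) := Finset.expect_le_expect fun s _ => bp_le_one _ _ _
      _ = 1 := Fintype.expect_const _
  -- if the average over a half is positive, its total sum is nonpositive
  have hneg : ∀ c : Bool, (𝔼 s : Fin k → Bool, bp x c ((fP (PB k r c) s).trans e)) ≠ 0 →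
      X4 false c u e + X4 true c u e ≤ 0 := by
    intro c hc
    by_contra hcc
    push Not at hcc
    refine hc (Finset.expect_eq_zero fun s _ => ?_)
    unfold bp
    rw [if_neg]
    rintro ⟨h1, h2⟩
    rw [X4_shift _ _ x u xb hx] at h1 h2
    have hs : X4 false c u ((fP (PB k r c) s).trans e) +
        X4 true c u ((fP (PB k r c) s).trans e) = X4 false c u e + X4 true c u e :=
      SP_flip (PB k r c) u e s
    have hk : (0 : ℝ) ≤ k * xb := by positivity
    linarith
  by_cases ha0 : a = 0
  · rw [ha0]; nlinarith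
  by_cases hb0 : b = 0
  · rw [hb0]; nlinarith
  have hsum := sum4 u e
  rw [hu] at hsum
  have hna := hneg false ha0
  have hnb := hneg true hb0
  have ha2 : a ≤ 1 / 2 := half_le x u xb hxb hx false e w hw (by linarith) (hB false)
  have hb2 : b ≤ 1 / 2 := half_le x u xb hxb hx true e w hw (by linarith) (hB true)
  nlinarith

/-! ### the two parts of `u` -/

/-- part off the exceptional set -/
noncomputable def wo (u : α → ℝ) (A : Finset α) (m : ℝ) : α → ℝ :=
  fun a => if a ∈ A then 0 else u a - m

/-- part on the exceptional set -/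
noncomputable def wi (u : α → ℝ) (A : Finset α) (m : ℝ) : α → ℝ :=
  fun a => if a ∈ A then u a - m else 0

omit [Fintype α] in
theorem w_dec (u : α → ℝ) (A : Finset α) (m : ℝ) (a : α) :
    u a = m + (wo u A m a + wi u A m a) := by
  unfold wo wi; split_ifs <;> ring

omit [Fintype α] in
theorem X4_dec (b h : Bool) (u : α → ℝ) (A : Finset α) (m : ℝ) (e : L4 k r ≃ α) :
    X4 b h u e = k * m + X4 b h (wo u A m) e + X4 b h (wi u A m) e := by
  rw [X4_shift b h u (fun a => wo u A m a + wi u A m a) m (w_dec u A m)]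
  unfold X4
  rw [Finset.sum_add_distrib]
  ring

omit [Fintype α] in
theorem XR_dec (u : α → ℝ) (A : Finset α) (m : ℝ) (e : L4 k r ≃ α) :
    XR u e = r * m + XR (wo u A m) e + XR (wi u A m) e := by
  unfold XR
  rw [Finset.sum_congr rfl fun i _ => w_dec u A m (e (Sum.inr i)), Finset.sum_add_distrib,
    Finset.sum_add_distrib, Finset.sum_const, Finset.card_univ, Fintype.card_fin, nsmul_eq_mul]
  ring

/-! ### the error events -/

/-- an exceptional element in the remainder -/
noncomputable def E1 (A : Finset α) (e : L4 k r ≃ α) : ℝ :=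
  if ∃ i : Fin r, e (Sum.inr i) ∈ A then 1 else 0

/-- an exceptional pair -/
noncomputable def E4 (A : Finset α) (h : Bool) (e : L4 k r ≃ α) : ℝ :=
  if ∃ j : Fin k, e (PB k r h (j, false)) ∈ A ∧ e (PB k r h (j, true)) ∈ A then 1 else 0

theorem E1_le [Nonempty (L4 k r ≃ α)] (A : Finset α) :
    𝔼 e : L4 k r ≃ α, E1 A e ≤ r * A.card / (Fintype.card α : ℝ) := by
  calc 𝔼 e : L4 k r ≃ α, E1 A e ≤
      𝔼 e : L4 k r ≃ α, ∑ i : Fin r, (if e (Sum.inr i) ∈ A then (1 : ℝ) else 0) := by
        refine Finset.expect_le_expect fun e _ => ?_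
        unfold E1
        split_ifs with h
        · obtain ⟨i, hi⟩ := h
          have := Finset.single_le_sum (f := fun i : Fin r =>
            (if e (Sum.inr i) ∈ A then (1 : ℝ) else 0)) (fun i _ => by split_ifs <;> norm_num)
            (Finset.mem_univ i)
          simp only [if_pos hi] at this
          exact this
        · exact Finset.sum_nonneg fun i _ => by split_ifs <;> norm_num
    _ = _ := by
        rw [Finset.expect_sum_comm]
        have : ∀ i : Fin r, (𝔼 e : L4 k r ≃ α, (if e (Sum.inr i) ∈ A then (1 : ℝ) else 0)) =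
            A.card / (Fintype.card α : ℝ) := by
          intro i
          rw [law_one (Λ := L4 k r) (Sum.inr i) (fun a => if a ∈ A then (1 : ℝ) else 0)]
          congr 1
          rw [Finset.sum_boole]
          congr 2
          ext a; simp
        rw [Finset.sum_congr rfl fun i _ => this i, Finset.sum_const, Finset.card_univ,
          Fintype.card_fin, nsmul_eq_mul]
        ring

theorem E4_le [Nonempty (L4 k r ≃ α)] (A : Finset α) (h : Bool)
    (hn : (2 : ℝ) ≤ Fintype.card α) :
    𝔼 e : L4 k r ≃ α, E4 A h e ≤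
      k * (A.card : ℝ) ^ 2 / ((Fintype.card α : ℝ) * ((Fintype.card α : ℝ) - 1)) := by
  calc 𝔼 e : L4 k r ≃ α, E4 A h e ≤
      𝔼 e : L4 k r ≃ α, ∑ j : Fin k, (if e (PB k r h (j, false)) ∈ A ∧
        e (PB k r h (j, true)) ∈ A then (1 : ℝ) else 0) := by
        refine Finset.expect_le_expect fun e _ => ?_
        unfold E4
        split_ifs with h
        · obtain ⟨j, hj⟩ := h
          have := Finset.single_le_sum (f := fun j : Fin k =>
            (if e (PB k r h (j, false)) ∈ A ∧ e (PB k r h (j, true)) ∈ A then (1 : ℝ) else 0))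
            (fun i _ => by split_ifs <;> norm_num)
            (Finset.mem_univ j)
          simp only [if_pos hj] at this
          exact this
        · exact Finset.sum_nonneg fun i _ => by split_ifs <;> norm_num
    _ ≤ _ := by
        rw [Finset.expect_sum_comm]
        have : ∀ j : Fin k, (𝔼 e : L4 k r ≃ α, (if e (PB k r h (j, false)) ∈ A ∧
            e (PB k r h (j, true)) ∈ A then (1 : ℝ) else 0)) ≤
            (A.card : ℝ) ^ 2 / ((Fintype.card α : ℝ) * ((Fintype.card α : ℝ) - 1)) := by
          intro j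
          rw [law_pair (pair_ne (PB k r h) j) (fun a b => if a ∈ A ∧ b ∈ A then (1 : ℝ) else 0)]
          refine div_le_div_of_nonneg_right ?_ (by nlinarith)
          calc (∑ a, ∑ b, if a = b then (0 : ℝ) else if a ∈ A ∧ b ∈ A then (1 : ℝ) else 0)
              ≤ ∑ a, ∑ b, (if a ∈ A then (1 : ℝ) else 0) * (if b ∈ A then (1 : ℝ) else 0) := by
                refine Finset.sum_le_sum fun a _ => Finset.sum_le_sum fun b _ => ?_
                by_cases ha : a ∈ A <;> by_cases hb : b ∈ A <;> simp [ha, hb] <;>
                  split_ifs <;> norm_num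
            _ = _ := by
                rw [pow_two, ← Finset.sum_mul_sum]
                have : (∑ a, (if a ∈ A then (1 : ℝ) else 0)) = A.card := by
                  rw [Finset.sum_boole]; congr 2; ext a; simp
                rw [this]
        calc _ ≤ ∑ _j : Fin k, (A.card : ℝ) ^ 2 /
              ((Fintype.card α : ℝ) * ((Fintype.card α : ℝ) - 1)) :=
              Finset.sum_le_sum fun j _ => this j
          _ = _ := by
              rw [Finset.sum_const, Finset.card_univ, Fintype.card_fin, nsmul_eq_mul]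
              ring

end Pool.Agent.H49.M4
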