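import Mathlib
import Pool.Agent.H49.M4.BetaC

open Finset
open scoped BigOperators

namespace Pool.Agent.H49.M4

open Pool.Agent.H49.MMS

variable {α : Type} [Fintype α] [DecidableEq α] {k r : ℕ}

/-- deviation event for the remainder -/
noncomputable def E2 (v : α → ℝ) (t : ℝ) (e : L4 k r ≃ α) : ℝ :=
  if t < |XR v e| then 1 else 0

/-- deviation event for a block -/
noncomputable def E3 (v : α → ℝ) (t : ℝ) (b h : Bool) (e : L4 k r ≃ α) : ℝ :=
  if t < |X4 b h v e| then 1 else 0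

omit [Fintype α] [DecidableEq α] in
theorem E2_nonneg (v : α → ℝ) (t : ℝ) (e : L4 k r ≃ α) : 0 ≤ E2 v t e := by
  unfold E2; split_ifs <;> norm_num

omit [Fintype α] [DecidableEq α] in
theorem E3_nonneg (v : α → ℝ) (t : ℝ) (b h : Bool) (e : L4 k r ≃ α) : 0 ≤ E3 v t b h e := by
  unfold E3; split_ifs <;> norm_num

omit [Fintype α] in
theorem E1_nonneg (A : Finset α) (e : L4 k r ≃ α) : 0 ≤ E1 A e := by
  unfold E1; split_ifs <;> norm_num

omit [Fintype α] in
theorem E4_nonneg (A : Finset α) (h : Bool) (e : L4 k r ≃ α) : 0 ≤ E4 A h e := by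
  unfold E4; split_ifs <;> norm_num

/-- a big step in each half with all blocks bad -/
theorem big_step (u : α → ℝ) (A : Finset α) (m c0 q S w : ℝ) (hS : 0 < S)
    (hA : (A.card : ℝ) ≤ c0) (hq : ∀ a, a ∉ A → |u a - m| ≤ 2 * q) (hqw : q ≤ w)
    (hkm : 21 / 100 * S ≤ k * m) (hw0 : 0 ≤ w)
    (hcw : c0 * (4 * w) < 1 / 5 * S) (h : Bool) (e : L4 k r ≃ α)
    (hX : X4 false h u e ≤ 0) (h3 : ¬ S / 100 < |X4 false h (wo u A m) e|)
    (h4 : ¬ ∃ j : Fin k, e (PB k r h (j, false)) ∈ A ∧ e (PB k r h (j, true)) ∈ A) :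
    ∃ j : Fin k, 2 * w < |dP (PB k r h) u e j| := by
  push Not at h3 h4
  have hdec := X4_dec false h u A m e
  have hwi : X4 false h (wi u A m) e ≤ - (1 / 5 * S) := by
    have := (abs_le.1 h3).1
    linarith
  have hex : ∃ j : Fin k, 4 * w < |wi u A m (e (PB k r h (j, false)))| := by
    by_contra hc
    push Not at hc
    have h1 : |X4 false h (wi u A m) e| ≤ c0 * (4 * w) := by
      calc |X4 false h (wi u A m) e| ≤ ∑ j : Fin k, |wi u A m (e (PB k r h (j, false)))| :=
            Finset.abs_sum_le_sum_abs _ _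
        _ ≤ ∑ j : Fin k, (if e (PB k r h (j, false)) ∈ A then 4 * w else 0) := by
            refine Finset.sum_le_sum fun j _ => ?_
            split_ifs with hj
            · exact hc j
            · unfold wi; rw [if_neg hj, abs_zero]
        _ ≤ ∑ a ∈ (univ : Finset α), (if a ∈ A then 4 * w else 0) := by
            refine sum_pos_le ((⟨fun j : Fin k => PB k r h (j, false), fun i j hij => by
              have := (PB k r h).injective hij
              simp at this
              exact this⟩ : Fin k ↪ L4 k r)) e (fun a => if a ∈ A then 4 * w else 0)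
              (fun a => ?_) univ (fun _ => Finset.mem_univ _)
            split_ifs <;> positivity
        _ = A.card * (4 * w) := by
            rw [Finset.sum_ite_mem, Finset.univ_inter, Finset.sum_const, nsmul_eq_mul]
        _ ≤ c0 * (4 * w) := mul_le_mul_of_nonneg_right hA (by positivity)
    have h2 := neg_abs_le (X4 false h (wi u A m) e)
    linarith
  obtain ⟨j, hj⟩ := hex
  have hmem : e (PB k r h (j, false)) ∈ A := by
    by_contra hc
    unfold wi at hj
    rw [if_neg hc, abs_zero] at hj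
    linarith
  refine ⟨j, ?_⟩
  have hb := hq _ (h4 j hmem)
  unfold wi at hj
  rw [if_pos hmem] at hj
  unfold dP
  set ua := u (e (PB k r h (j, false)))
  set ub := u (e (PB k r h (j, true)))
  have h1 : ua - m = (ua - ub) + (ub - m) := by ring
  rw [h1] at hj
  have := abs_add_le (ua - ub) (ub - m)
  linarith

/-- the first pointwise estimate -/
theorem beta_pt1 (x u : α → ℝ) (xb : ℝ) (hxb : 0 < xb) (hx : ∀ a, x a = xb + u a)
    (hu : ∑ a, u a = 0) (hk : 1 ≤ k) (A : Finset α) (m c0 q S w : ℝ) (hS : 0 < S)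
    (hA : (A.card : ℝ) ≤ c0) (hq : ∀ a, a ∉ A → |u a - m| ≤ 2 * q) (hqw : q ≤ w)
    (hkm : 21 / 100 * S ≤ k * m) (hw0 : 0 ≤ w)
    (hcw : c0 * (4 * w) < 1 / 5 * S) (hrm : r * m + q / 4 ≤ w)
    (e : L4 k r ≃ α) :
    N0 x e * (1 - Om u w e) ≤ E1 A e + E2 (wo u A m) (q / 4) e +
      E3 (wo u A m) (S / 100) false false e + E3 (wo u A m) (S / 100) false true e +
      E4 A false e + E4 A true e := by
  have p1 := E1_nonneg A e
  have p2 := E2_nonneg (wo u A m) (q / 4) e
  have p3 := E3_nonneg (wo u A m) (S / 100) false false e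
  have p4 := E3_nonneg (wo u A m) (S / 100) false true e
  have p5 := E4_nonneg A false e
  have p6 := E4_nonneg A true e
  rcases N0_cases x e with h | h
  · rw [h]; linarith
  have hOm0 : 0 ≤ Om u w e := by
    rcases Om_cases u w e with h | h
    · rw [h]
    · rw [h.1]; norm_num
  rw [h]
  by_cases c1 : ∃ i : Fin r, e (Sum.inr i) ∈ A
  · have : E1 A e = 1 := if_pos c1
    linarith
  by_cases c2 : q / 4 < |XR (wo u A m) e|
  · have : E2 (wo u A m) (q / 4) e = 1 := if_pos c2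
    linarith
  by_cases c3 : S / 100 < |X4 false false (wo u A m) e|
  · have : E3 (wo u A m) (S / 100) false false e = 1 := if_pos c3
    linarith
  by_cases c4 : S / 100 < |X4 false true (wo u A m) e|
  · have : E3 (wo u A m) (S / 100) false true e = 1 := if_pos c4
    linarith
  by_cases c5 : ∃ j : Fin k, e (PB k r false (j, false)) ∈ A ∧ e (PB k r false (j, true)) ∈ A
  · have : E4 A false e = 1 := if_pos c5
    linarith
  by_cases c6 : ∃ j : Fin k, e (PB k r true (j, false)) ∈ A ∧ e (PB k r true (j, true)) ∈ A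
  · have : E4 A true e = 1 := if_pos c6
    linarith
  have hne : N0 x e ≠ 0 := by rw [h]; norm_num
  have b0 := big_step u A m c0 q S w hS hA hq hqw hkm hw0 hcw false e
    (N0_bound x u xb hxb hx hu hk e hne false false).1.le c3 c5
  have b1 := big_step u A m c0 q S w hS hA hq hqw hkm hw0 hcw true e
    (N0_bound x u xb hxb hx hu hk e hne false true).1.le c4 c6
  have hXR : XR u e ≤ w := by
    have hz : XR (wi u A m) e = 0 := by
      unfold XR wi
      refine Finset.sum_eq_zero fun i _ => ?_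
      rw [if_neg]
      exact fun hi => c1 ⟨i, hi⟩
    rw [XR_dec u A m e, hz]
    push Not at c2
    have := (abs_le.1 c2).2
    linarith
  have : Om u w e = 1 := by
    unfold Om Bst
    rw [if_pos b0, if_pos b1, if_pos hXR]
    norm_num
  rw [this]
  linarith

/-- the second pointwise estimate -/
theorem beta_pt2 (x u : α → ℝ) (xb : ℝ) (hxb : 0 < xb) (hx : ∀ a, x a = xb + u a)
    (A : Finset α) (m q S w : ℝ) (hS : 0 < S)
    (hq2 : ∀ a b, a ∉ A → b ∉ A → |u a - u b| ≤ 2 * q) (hqw : q ≤ w)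
    (hkm : 21 / 100 * S ≤ k * m) (e : L4 k r ≃ α) :
    (if ∀ a ∈ A, e.symm a ∈ KB k r false true then (1 : ℝ) else 0) ≤
      N2 x e * (1 - Om u w e) + E3 (wo u A m) (S / 100) false false e +
      E3 (wo u A m) (S / 100) true false e := by
  have p3 := E3_nonneg (wo u A m) (S / 100) false false e
  have p4 := E3_nonneg (wo u A m) (S / 100) true false e
  have hOm1 : Om u w e ≤ 1 := by
    rcases Om_cases u w e with h | h
    · rw [h]; norm_num
    · rw [h.1]
  have hN := N2_nonneg x e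
  have hprod : 0 ≤ N2 x e * (1 - Om u w e) := mul_nonneg hN (by linarith)
  split_ifs with hA
  swap
  · linarith
  by_cases c3 : S / 100 < |X4 false false (wo u A m) e|
  · have : E3 (wo u A m) (S / 100) false false e = 1 := if_pos c3
    linarith
  by_cases c4 : S / 100 < |X4 true false (wo u A m) e|
  · have : E3 (wo u A m) (S / 100) true false e = 1 := if_pos c4
    linarith
  push Not at c3 c4
  have hout : ∀ p : Fin k × Bool, e (PB k r false p) ∉ A := by
    intro p hp
    have := hA _ hp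
    rw [Equiv.symm_apply_apply] at this
    simp [KB, PB] at this
  have hz : ∀ b, X4 b false (wi u A m) e = 0 := by
    intro b
    unfold X4 wi
    refine Finset.sum_eq_zero fun j _ => ?_
    rw [if_neg]
    exact hout (j, b)
  have hkx : (0 : ℝ) ≤ k * xb := by positivity
  have g1 : 0 < X4 false false x e := by
    rw [X4_shift _ _ x u xb hx, X4_dec false false u A m e, hz]
    have := (abs_le.1 c3).1
    linarith
  have g2 : 0 < X4 true false x e := by
    rw [X4_shift _ _ x u xb hx, X4_dec true false u A m e, hz]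
    have := (abs_le.1 c4).1
    linarith
  have hN2 := N2_of x e (false, false) (true, false) (by simp) g1 g2
  have hB : Bst false u w e = 0 := by
    unfold Bst
    rw [if_neg]
    push Not
    intro j
    have := hq2 _ _ (hout (j, false)) (hout (j, true))
    unfold dP
    linarith
  have hOm : Om u w e = 0 := by unfold Om; rw [hB, zero_mul, zero_mul]
  rw [hN2, hOm]
  linarith

theorem E2_le [Nonempty (L4 k r ≃ α)] (v : α → ℝ) (hv : ∑ a, v a = 0)
    (hn : 2 ≤ Fintype.card α) (t : ℝ) (ht : 0 < t) :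
    𝔼 e : L4 k r ≃ α, E2 v t e ≤
      (r : ℝ) / ((Fintype.card α : ℝ) - 1) * (∑ a, v a ^ 2) / t ^ 2 := by
  have := chebPos (KRr k r) v hv hn t ht
  rw [card_KRr] at this
  simp only [sum_KRr] at this
  exact this

theorem E3_le [Nonempty (L4 k r ≃ α)] (v : α → ℝ) (hv : ∑ a, v a = 0)
    (hn : 2 ≤ Fintype.card α) (t : ℝ) (ht : 0 < t) (b h : Bool) :
    𝔼 e : L4 k r ≃ α, E3 v t b h e ≤
      (k : ℝ) / ((Fintype.card α : ℝ) - 1) * (∑ a, v a ^ 2) / t ^ 2 := by
  have := chebPos (KB k r b h) v hv hn t ht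
  rw [card_KB] at this
  simp only [sum_KB] at this
  exact this

/-- if all four blocks are bad with positive probability, then two good blocks are more likely -/
theorem beta (ε : ℝ) (hε : 0 < ε) : ∃ K0 : ℕ, 1000 ≤ K0 ∧
    ∀ (α : Type) [Fintype α] [DecidableEq α] (k r : ℕ) [Nonempty (L4 k r ≃ α)]
      (x u : α → ℝ) (xb : ℝ), 0 < xb → (∀ a, x a = xb + u a) → ∑ a, u a = 0 →
      1 ≤ r → K0 * r ≤ k → Fintype.card α = 4 * k + r →
      (𝔼 e : L4 k r ≃ α, N0 x e) ≤ ε ∨
      (𝔼 e : L4 k r ≃ α, N0 x e) ≤ 𝔼 e : L4 k r ≃ α, N2 x e := by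
  obtain ⟨c0, hc0, hloc⟩ := beta_loc ε hε
  obtain ⟨H, hH⟩ := exists_nat_ge c0
  obtain ⟨K1, hK1⟩ := exists_nat_ge (70000 * c0 ^ 2 * 5 ^ H + 66 * c0 / ε + 320 / ε + 40 * c0)
  refine ⟨K1 + 5 * H + 1000, by omega, ?_⟩
  intro α _ _ k r _ x u xb hxb hx hu hr hKr hcard
  by_cases hE : (𝔼 e : L4 k r ≃ α, N0 x e) ≤ ε
  · exact Or.inl hE
  right
  push Not at hE
  set n : ℝ := (Fintype.card α : ℝ) with hn'
  have hnk : n = 4 * k + r := by rw [hn', hcard]; push_cast; ring
  have hr1 : (1 : ℝ) ≤ r := by exact_mod_cast hr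
  have hKr' : ((K1 : ℝ) + 5 * H + 1000) * r ≤ k := by exact_mod_cast hKr
  have hK0 : (0 : ℝ) ≤ K1 := by positivity
  have hH0 : (0 : ℝ) ≤ H := by positivity
  have hk1000 : 1000 * (r : ℝ) ≤ k := by nlinarith
  have hkK : (K1 : ℝ) ≤ k := by nlinarith
  have hk1 : 1 ≤ k := by
    have : (1 : ℝ) ≤ k := by linarith
    exact_mod_cast this
  have hrk : r ≤ k := by
    have : (r : ℝ) ≤ k := by linarith
    exact_mod_cast this
  have hc00 : 0 < c0 := by linarith
  have t1 : 0 < 70000 * c0 ^ 2 * 5 ^ H := by positivity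
  have t2 : 0 < 66 * c0 / ε := by positivity
  have t3 : 0 < 320 / ε := by positivity
  have hn0 : 0 < n := by linarith
  have hcard2 : 2 ≤ Fintype.card α := by omega
  obtain ⟨q, hq, hqE, y, hy⟩ := hloc α k r x u xb hxb hx hu hk1 hrk hcard
    (by rw [← hn']; linarith) (by rw [← hn']; linarith) hE
  obtain ⟨A, m, hA, hA1, hA2, hA3, hA4, hA5⟩ := localize u hu q c0 hq y hy
  rw [← hn'] at hA5
  set S : ℝ := - ∑ a ∈ A, (u a - m) with hS
  have hwo : ∑ a, wo u A m a = 0 := hA3
  have hwo2 : ∑ a, wo u A m a ^ 2 ≤ c0 * q ^ 2 := hA4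
  set ρ : ℝ := r / n with hρ
  have hρ0 : 0 < ρ := by positivity
  have hρn : ρ * n = r := by rw [hρ]; field_simp
  have hmS : m = S / n := by rw [eq_div_iff hn0.ne', ← hA5]; ring
  have hKρ : (K1 : ℝ) * ρ ≤ 1 := by
    have : (K1 : ℝ) * r ≤ n := by nlinarith
    rw [← hρn] at this
    have h2 : (K1 * ρ) * n ≤ 1 * n := by linarith
    exact le_of_mul_le_mul_right h2 hn0
  have hKρ' : (70000 * c0 ^ 2 * 5 ^ H + 66 * c0 / ε + 320 / ε + 40 * c0) * ρ ≤ 1 :=
    le_trans (mul_le_mul_of_nonneg_right hK1 hρ0.le) hKρ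
  have k1 : 70000 * c0 ^ 2 * 5 ^ H * ρ ≤ 1 := by nlinarith
  have k2 : 66 * c0 * ρ ≤ ε := by
    have : 66 * c0 / ε * ρ ≤ 1 := by nlinarith
    rw [div_mul_eq_mul_div, div_le_iff₀ hε] at this
    linarith
  have k3 : 40 * c0 * ρ ≤ 1 := by nlinarith
  have hρ1 : ρ ≤ 1 := by nlinarith
  have hn1 : n / 2 ≤ n - 1 := by linarith
  have hn10 : 0 < n - 1 := by linarith
  have hrn1 : (r : ℝ) / (n - 1) ≤ 2 * ρ := by
    rw [div_le_iff₀ hn10]
    have : 2 * ρ * (n / 2) ≤ 2 * ρ * (n - 1) := mul_le_mul_of_nonneg_left hn1 (by positivity)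
    linarith
  have hE1 : 𝔼 e : L4 k r ≃ α, E1 A e ≤ c0 * ρ := by
    refine (E1_le A).trans ?_
    rw [← hn']
    have : (r : ℝ) * A.card / n = A.card * ρ := by rw [hρ]; ring
    rw [this]
    exact mul_le_mul_of_nonneg_right hA hρ0.le
  have hE2 : 𝔼 e : L4 k r ≃ α, E2 (wo u A m) (q / 4) e ≤ 32 * c0 * ρ := by
    refine (E2_le (wo u A m) hwo hcard2 (q / 4) (by positivity)).trans ?_
    rw [← hn']
    rw [div_le_iff₀ (by positivity)]
    have h1 : (r : ℝ) / (n - 1) * ∑ a, wo u A m a ^ 2 ≤ (2 * ρ) * (c0 * q ^ 2) :=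
      mul_le_mul hrn1 hwo2 (Finset.sum_nonneg fun _ _ => sq_nonneg _) (by positivity)
    refine h1.trans (le_of_eq ?_)
    ring
  -- the size of `S`
  have hqS : q ≤ 4 / 3 * ρ * S := by
    by_contra hc
    push Not at hc
    have hall : ∀ e : L4 k r ≃ α, (if q ≤ XR u e then (1 : ℝ) else 0) ≤
        E1 A e + E2 (wo u A m) (q / 4) e := by
      intro e
      have p1 := E1_nonneg A e
      have p2 := E2_nonneg (wo u A m) (q / 4) e
      split_ifs with hR
      swap
      · linarith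
      by_cases c1 : ∃ i : Fin r, e (Sum.inr i) ∈ A
      · have : E1 A e = 1 := if_pos c1
        linarith
      by_cases c2 : q / 4 < |XR (wo u A m) e|
      · have : E2 (wo u A m) (q / 4) e = 1 := if_pos c2
        linarith
      exfalso
      have hz : XR (wi u A m) e = 0 := by
        unfold XR wi
        refine Finset.sum_eq_zero fun i _ => ?_
        rw [if_neg]
        exact fun hi => c1 ⟨i, hi⟩
      rw [XR_dec u A m e, hz] at hR
      push Not at c2
      have h1 := (abs_le.1 c2).2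
      have h2 : (r : ℝ) * m = ρ * S := by rw [hmS, hρ]; ring
      rw [h2] at hR
      linarith
    have : 𝔼 e : L4 k r ≃ α, (if q ≤ XR u e then (1 : ℝ) else 0) ≤
        (𝔼 e : L4 k r ≃ α, E1 A e) + 𝔼 e : L4 k r ≃ α, E2 (wo u A m) (q / 4) e := by
      rw [← Finset.expect_add_distrib]
      exact Finset.expect_le_expect fun e _ => hall e
    linarith
  have hSpos : 0 < S := by
    by_contra hc
    push Not at hc
    have : 4 / 3 * ρ * S ≤ 0 := mul_nonpos_of_nonneg_of_nonpos (by positivity) hc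
    linarith
  set w : ℝ := 4 / 3 * ρ * S with hw
  have hw0 : 0 < w := by positivity
  have hkm : 21 / 100 * S ≤ k * m := by
    rw [hmS]
    have : (21 / 100 : ℝ) ≤ k / n := by
      rw [le_div_iff₀ hn0, hnk]; linarith
    calc 21 / 100 * S ≤ k / n * S := mul_le_mul_of_nonneg_right this hSpos.le
      _ = _ := by ring
  have hcw : c0 * (4 * w) < 1 / 5 * S := by
    rw [hw]
    have : c0 * (4 * (4 / 3 * ρ * S)) = (40 * c0 * ρ) * (2 / 15) * S := by ring
    rw [this]
    nlinarith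
  have hrm : r * m + q / 4 ≤ w := by
    have h2 : (r : ℝ) * m = ρ * S := by rw [hmS, hρ]; ring
    rw [h2]
    linarith
  have hE3 : ∀ b h, 𝔼 e : L4 k r ≃ α, E3 (wo u A m) (S / 100) b h e ≤ 10000 * c0 * ρ := by
    intro b h
    refine (E3_le (wo u A m) hwo hcard2 (S / 100) (by positivity) b h).trans ?_
    rw [← hn', div_le_iff₀ (by positivity)]
    have h0 : (k : ℝ) / (n - 1) ≤ 1 / 2 := by
      rw [div_le_div_iff₀ hn10 (by norm_num)]; linarith
    have h1 : (k : ℝ) / (n - 1) * ∑ a, wo u A m a ^ 2 ≤ (1 / 2) * (c0 * q ^ 2) :=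
      mul_le_mul h0 hwo2 (Finset.sum_nonneg fun _ _ => sq_nonneg _) (by norm_num)
    have h2 : q ^ 2 ≤ (4 / 3 * ρ * S) ^ 2 := pow_le_pow_left₀ hq.le hqS 2
    have h3 : ρ ^ 2 ≤ ρ := by nlinarith
    have h4 : (4 / 3 * ρ * S) ^ 2 ≤ 2 * ρ * S ^ 2 := by
      have : (4 / 3 * ρ * S) ^ 2 = 16 / 9 * (ρ ^ 2 * S ^ 2) := by ring
      rw [this]
      have : ρ ^ 2 * S ^ 2 ≤ ρ * S ^ 2 := mul_le_mul_of_nonneg_right h3 (sq_nonneg _)
      have : 0 ≤ ρ * S ^ 2 := by positivity
      linarith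
    have h5 : (1 / 2) * (c0 * q ^ 2) ≤ (1 / 2) * (c0 * (2 * ρ * S ^ 2)) :=
      mul_le_mul_of_nonneg_left (mul_le_mul_of_nonneg_left (h2.trans h4) hc00.le) (by norm_num)
    have h6 : 10000 * c0 * ρ * (S / 100) ^ 2 = c0 * ρ * S ^ 2 := by ring
    rw [h6]
    linarith
  have hE4 : ∀ h, 𝔼 e : L4 k r ≃ α, E4 A h e ≤ c0 ^ 2 * ρ := by
    intro h
    refine (E4_le A h (by linarith)).trans ?_
    rw [← hn', div_le_iff₀ (mul_pos hn0 hn10)]
    have h1 : (A.card : ℝ) ^ 2 ≤ c0 ^ 2 := pow_le_pow_left₀ (Nat.cast_nonneg _) hA 2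
    have h2 : c0 ^ 2 * ρ * (n * (n - 1)) = c0 ^ 2 * (r * (n - 1)) := by
      rw [← hρn]; ring
    rw [h2]
    have h3 : (k : ℝ) ≤ r * (n - 1) := by nlinarith
    have h4 : (k : ℝ) * A.card ^ 2 ≤ k * c0 ^ 2 := mul_le_mul_of_nonneg_left h1 (by positivity)
    have h5 : (k : ℝ) * c0 ^ 2 ≤ (r * (n - 1)) * c0 ^ 2 :=
      mul_le_mul_of_nonneg_right h3 (by positivity)
    linarith
  -- the probability that all exceptional elements are in one block
  have hP : (1 : ℝ) / 5 ^ H ≤ 𝔼 e : L4 k r ≃ α,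
      (if ∀ a ∈ A, e.symm a ∈ KB k r false true then (1 : ℝ) else 0) := by
    rw [law_preimage A (KB k r false true), card_KB, card_L4]
    have hAH : A.card ≤ H := by
      have : (A.card : ℝ) ≤ H := hA.trans hH
      exact_mod_cast this
    have hrat := choose_ratio (4 * k + r) k A.card (by
      have : 5 * (H : ℝ) + r ≤ k := by nlinarith
      have : 5 * H + r ≤ k := by exact_mod_cast this
      omega)
    have hch : (0 : ℝ) < ((4 * k + r).choose A.card : ℝ) := by
      have : 0 < (4 * k + r).choose A.card := Nat.choose_pos (by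
        rw [← hcard]; exact Finset.card_le_univ A)
      exact_mod_cast this
    rw [div_le_div_iff₀ (by positivity) hch, one_mul]
    have h5 : (5 : ℝ) ^ A.card ≤ 5 ^ H := pow_le_pow_right₀ (by norm_num) hAH
    have h6 : (0 : ℝ) ≤ (k.choose A.card : ℝ) := by positivity
    nlinarith
  have hA' := OmN0_le (k := k) (r := r) x u xb hxb hx hu w hw0.le
  have hpt1 : (𝔼 e : L4 k r ≃ α, N0 x e * (1 - Om u w e)) ≤
      (𝔼 e : L4 k r ≃ α, E1 A e) + (𝔼 e : L4 k r ≃ α, E2 (wo u A m) (q / 4) e) +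
      (𝔼 e : L4 k r ≃ α, E3 (wo u A m) (S / 100) false false e) +
      (𝔼 e : L4 k r ≃ α, E3 (wo u A m) (S / 100) false true e) +
      (𝔼 e : L4 k r ≃ α, E4 A false e) + 𝔼 e : L4 k r ≃ α, E4 A true e := by
    rw [← Finset.expect_add_distrib, ← Finset.expect_add_distrib, ← Finset.expect_add_distrib,
      ← Finset.expect_add_distrib, ← Finset.expect_add_distrib]
    exact Finset.expect_le_expect fun e _ => beta_pt1 x u xb hxb hx hu hk1 A m c0 q S w hSpos hA
      hA1 hqS hkm hw0.le hcw hrm e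
  have hpt2 : (𝔼 e : L4 k r ≃ α,
      (if ∀ a ∈ A, e.symm a ∈ KB k r false true then (1 : ℝ) else 0)) ≤
      (𝔼 e : L4 k r ≃ α, N2 x e * (1 - Om u w e)) +
      (𝔼 e : L4 k r ≃ α, E3 (wo u A m) (S / 100) false false e) +
      (𝔼 e : L4 k r ≃ α, E3 (wo u A m) (S / 100) true false e) := by
    rw [← Finset.expect_add_distrib, ← Finset.expect_add_distrib]
    exact Finset.expect_le_expect fun e _ => beta_pt2 x u xb hxb hx A m q S w hSpos hA2 hqS hkm e
  have hsp0 : (𝔼 e : L4 k r ≃ α, N0 x e) = (𝔼 e : L4 k r ≃ α, Om u w e * N0 x e) +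
      𝔼 e : L4 k r ≃ α, N0 x e * (1 - Om u w e) := by
    rw [← Finset.expect_add_distrib]
    exact Finset.expect_congr rfl fun e _ => by ring
  have hsp2 : (𝔼 e : L4 k r ≃ α, N2 x e) = (𝔼 e : L4 k r ≃ α, Om u w e * N2 x e) +
      𝔼 e : L4 k r ≃ α, N2 x e * (1 - Om u w e) := by
    rw [← Finset.expect_add_distrib]
    exact Finset.expect_congr rfl fun e _ => by ring
  have hsmall : 40033 * c0 * ρ + 2 * c0 ^ 2 * ρ ≤ 1 / 5 ^ H := by
    rw [le_div_iff₀ (by positivity)]
    have h1 : c0 * ρ ≤ c0 ^ 2 * ρ := by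
      refine mul_le_mul_of_nonneg_right ?_ hρ0.le
      have := mul_le_mul_of_nonneg_left hc0 hc00.le
      linarith
    have h2 : (0 : ℝ) < 5 ^ H := by positivity
    have h3 : 0 ≤ c0 ^ 2 * ρ := by positivity
    calc (40033 * c0 * ρ + 2 * c0 ^ 2 * ρ) * 5 ^ H ≤ (70000 * (c0 ^ 2 * ρ)) * 5 ^ H :=
          mul_le_mul_of_nonneg_right (by linarith) h2.le
      _ = 70000 * c0 ^ 2 * 5 ^ H * ρ := by ring
      _ ≤ 1 := k1
  have a1 := hE3 false false
  have a2 := hE3 false true
  have a3 := hE3 true false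
  have a4 := hE4 false
  have a5 := hE4 true
  linarith

end Pool.Agent.H49.M4
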