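import Mathlib
import Pool.Agent.H49.M4.Blk4

open Finset
open scoped BigOperators

namespace Pool.Agent.H49.M4

open Pool.Agent.H49.MMS

/-! ### elementary symmetric functions -/

/-- elementary symmetric function of the values `v` -/
noncomputable def es {Q : Type} [Fintype Q] (v : Q → ℝ) (m : ℕ) : ℝ :=
  ∑ S ∈ (univ : Finset Q).powersetCard m, ∏ a ∈ S, v a

/-- power sum of the values `v` -/
noncomputable def ps {Q : Type} [Fintype Q] (v : Q → ℝ) (m : ℕ) : ℝ := ∑ a, v a ^ m

theorem eval_esymm {Q : Type} [Fintype Q] (v : Q → ℝ) (m : ℕ) :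
    MvPolynomial.aeval v (MvPolynomial.esymm Q ℝ m) = es v m := by
  unfold MvPolynomial.esymm es
  rw [map_sum]
  refine Finset.sum_congr rfl fun S _ => ?_
  rw [map_prod]
  simp

theorem eval_psum {Q : Type} [Fintype Q] (v : Q → ℝ) (m : ℕ) :
    MvPolynomial.aeval v (MvPolynomial.psum Q ℝ m) = ps v m := by
  unfold MvPolynomial.psum ps
  rw [map_sum]
  refine Finset.sum_congr rfl fun a _ => ?_
  simp

theorem newton {Q : Type} [Fintype Q] (v : Q → ℝ) (m : ℕ) :
    (m : ℝ) * es v m = (-1) ^ (m + 1) *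
      ∑ a ∈ antidiagonal m with a.1 < m, (-1) ^ a.1 * es v a.1 * ps v a.2 := by
  have h := congrArg (MvPolynomial.aeval v) (MvPolynomial.mul_esymm_eq_sum Q ℝ m)
  rw [map_mul, map_mul, map_sum, map_pow, map_neg, map_one, map_natCast, eval_esymm] at h
  rw [h]
  congr 1
  refine Finset.sum_congr rfl fun a _ => ?_
  rw [map_mul, map_mul, map_pow, map_neg, map_one, eval_esymm, eval_psum]

theorem es_zero {Q : Type} [Fintype Q] (v : Q → ℝ) : es v 0 = 1 := by
  simp [es]

theorem es_one {Q : Type} [Fintype Q] (v : Q → ℝ) : es v 1 = ps v 1 := by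
  have h := newton v 1
  have : (antidiagonal 1).filter (fun a : ℕ × ℕ => a.1 < 1) = {(0, 1)} := by decide
  rw [this, Finset.sum_singleton, es_zero] at h
  simp at h
  exact h

theorem es_two {Q : Type} [Fintype Q] (v : Q → ℝ) : 2 * es v 2 = ps v 1 ^ 2 - ps v 2 := by
  have h := newton v 2
  have : (antidiagonal 2).filter (fun a : ℕ × ℕ => a.1 < 2) = {(0, 2), (1, 1)} := by decide
  rw [this, Finset.sum_pair (by decide), es_zero, es_one] at h
  push_cast at h
  linarith

theorem es_three {Q : Type} [Fintype Q] (v : Q → ℝ) :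
    6 * es v 3 = ps v 1 ^ 3 - 3 * ps v 1 * ps v 2 + 2 * ps v 3 := by
  have h := newton v 3
  have : (antidiagonal 3).filter (fun a : ℕ × ℕ => a.1 < 3) = {(0, 3), (1, 2), (2, 1)} := by
    decide
  rw [this, Finset.sum_insert (by decide), Finset.sum_pair (by decide), es_zero, es_one] at h
  have h2 := es_two v
  push_cast at h
  linear_combination 2 * h + ps v 1 * h2

theorem es_four {Q : Type} [Fintype Q] (v : Q → ℝ) :
    24 * es v 4 = ps v 1 ^ 4 - 6 * ps v 1 ^ 2 * ps v 2 + 8 * ps v 1 * ps v 3 +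
      3 * ps v 2 ^ 2 - 6 * ps v 4 := by
  have h := newton v 4
  have : (antidiagonal 4).filter (fun a : ℕ × ℕ => a.1 < 4) =
      {(0, 4), (1, 3), (2, 2), (3, 1)} := by
    decide
  rw [this, Finset.sum_insert (by decide), Finset.sum_insert (by decide),
    Finset.sum_pair (by decide), es_zero, es_one] at h
  have h2 := es_two v
  have h3 := es_three v
  push_cast at h
  linear_combination 6 * h + ps v 1 * h3 - 3 * ps v 2 * h2

/-! ### laws of products -/

variable {Q : Type} [Fintype Q] [DecidableEq Q]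

theorem law_prod (A : Finset Q) (v : Q → ℝ) :
    𝔼 σ : Equiv.Perm Q, ∏ l ∈ A, v (σ l) = es v A.card / ((Fintype.card Q).choose A.card : ℝ) := by
  have : Nonempty (Q ≃ Q) := ⟨Equiv.refl Q⟩
  have h := law_set (Λ := Q) (α := Q) A (fun S => ∏ a ∈ S, v a)
  simp only [Finset.prod_map, Equiv.coe_toEmbedding] at h
  rw [h, Finset.expect_eq_sum_div_card, Finset.card_powersetCard, Finset.card_univ]
  rfl

theorem law_prod4 (v : Q → ℝ) (a b c d : Q) (hab : a ≠ b) (hac : a ≠ c) (had : a ≠ d)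
    (hbc : b ≠ c) (hbd : b ≠ d) (hcd : c ≠ d) :
    𝔼 σ : Equiv.Perm Q, v (σ a) * v (σ b) * v (σ c) * v (σ d) =
      es v 4 / ((Fintype.card Q).choose 4 : ℝ) := by
  have hcard : ({a, b, c, d} : Finset Q).card = 4 := by
    rw [Finset.card_insert_of_notMem (by simp [hab, hac, had]),
      Finset.card_insert_of_notMem (by simp [hbc, hbd]), Finset.card_pair hcd]
  have h := law_prod {a, b, c, d} v
  rw [hcard] at h
  rw [← h]
  refine Finset.expect_congr rfl fun σ _ => ?_
  rw [Finset.prod_insert (by simp [hab, hac, had]), Finset.prod_insert (by simp [hbc, hbd]),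
    Finset.prod_pair hcd]
  ring

theorem law_prod3 (v : Q → ℝ) (a b c : Q) (hab : a ≠ b) (hac : a ≠ c) (hbc : b ≠ c) :
    𝔼 σ : Equiv.Perm Q, v (σ a) * v (σ b) * v (σ c) =
      es v 3 / ((Fintype.card Q).choose 3 : ℝ) := by
  have hcard : ({a, b, c} : Finset Q).card = 3 := by
    rw [Finset.card_insert_of_notMem (by simp [hab, hac]), Finset.card_pair hbc]
  have h := law_prod {a, b, c} v
  rw [hcard] at h
  rw [← h]
  refine Finset.expect_congr rfl fun σ _ => ?_
  rw [Finset.prod_insert (by simp [hab, hac]), Finset.prod_pair hbc]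
  ring

theorem law_sum4 (k : ℕ) (v : Q → ℝ) (f1 f2 f3 f4 : Fin k → Q)
    (h12 : ∀ i j, f1 i ≠ f2 j) (h13 : ∀ i j, f1 i ≠ f3 j) (h14 : ∀ i j, f1 i ≠ f4 j)
    (h23 : ∀ i j, f2 i ≠ f3 j) (h24 : ∀ i j, f2 i ≠ f4 j) (h34 : ∀ i j, f3 i ≠ f4 j) :
    𝔼 σ : Equiv.Perm Q, (∑ j, v (σ (f1 j))) * (∑ j, v (σ (f2 j))) * (∑ j, v (σ (f3 j))) *
      (∑ j, v (σ (f4 j))) = (k : ℝ) ^ 4 * (es v 4 / ((Fintype.card Q).choose 4 : ℝ)) := by
  have h1 : ∀ σ : Equiv.Perm Q, (∑ j, v (σ (f1 j))) * (∑ j, v (σ (f2 j))) *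
      (∑ j, v (σ (f3 j))) * (∑ j, v (σ (f4 j))) =
      ∑ i, ∑ j, ∑ l, ∑ m, v (σ (f1 i)) * v (σ (f2 j)) * v (σ (f3 l)) * v (σ (f4 m)) := by
    intro σ
    rw [Finset.sum_mul_sum, Finset.sum_mul, Finset.sum_mul]
    refine Finset.sum_congr rfl fun i _ => ?_
    rw [Finset.sum_mul, Finset.sum_mul]
    refine Finset.sum_congr rfl fun j _ => ?_
    rw [mul_assoc, Finset.sum_mul_sum, Finset.mul_sum]
    refine Finset.sum_congr rfl fun l _ => ?_
    rw [Finset.mul_sum]
    refine Finset.sum_congr rfl fun m _ => ?_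
    ring
  simp only [h1]
  have h2 : ∀ i j l m : Fin k, 𝔼 σ : Equiv.Perm Q,
      v (σ (f1 i)) * v (σ (f2 j)) * v (σ (f3 l)) * v (σ (f4 m)) =
      es v 4 / ((Fintype.card Q).choose 4 : ℝ) := fun i j l m =>
    law_prod4 v _ _ _ _ (h12 _ _) (h13 _ _) (h14 _ _) (h23 _ _) (h24 _ _) (h34 _ _)
  rw [Finset.expect_sum_comm]
  calc _ = ∑ i : Fin k, ∑ j : Fin k, ∑ l : Fin k, ∑ m : Fin k, 𝔼 σ : Equiv.Perm Q,
        v (σ (f1 i)) * v (σ (f2 j)) * v (σ (f3 l)) * v (σ (f4 m)) := by
        refine Finset.sum_congr rfl fun i _ => ?_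
        rw [Finset.expect_sum_comm]
        refine Finset.sum_congr rfl fun j _ => ?_
        rw [Finset.expect_sum_comm]
        refine Finset.sum_congr rfl fun l _ => ?_
        rw [Finset.expect_sum_comm]
    _ = _ := by
        simp only [h2, Finset.sum_const, Finset.card_univ, Fintype.card_fin, nsmul_eq_mul]
        ring

theorem law_sum3 (k : ℕ) (v : Q → ℝ) (f1 f2 f3 : Fin k → Q)
    (h12 : ∀ i j, f1 i ≠ f2 j) (h13 : ∀ i j, f1 i ≠ f3 j) (h23 : ∀ i j, f2 i ≠ f3 j) :
    𝔼 σ : Equiv.Perm Q, (∑ j, v (σ (f1 j))) * (∑ j, v (σ (f2 j))) * (∑ j, v (σ (f3 j))) =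
      (k : ℝ) ^ 3 * (es v 3 / ((Fintype.card Q).choose 3 : ℝ)) := by
  have h1 : ∀ σ : Equiv.Perm Q, (∑ j, v (σ (f1 j))) * (∑ j, v (σ (f2 j))) *
      (∑ j, v (σ (f3 j))) =
      ∑ i, ∑ j, ∑ l, v (σ (f1 i)) * v (σ (f2 j)) * v (σ (f3 l)) := by
    intro σ
    rw [Finset.sum_mul_sum, Finset.sum_mul]
    refine Finset.sum_congr rfl fun i _ => ?_
    rw [Finset.sum_mul]
    refine Finset.sum_congr rfl fun j _ => ?_
    rw [Finset.mul_sum]
  simp only [h1]
  have h2 : ∀ i j l : Fin k, 𝔼 σ : Equiv.Perm Q,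
      v (σ (f1 i)) * v (σ (f2 j)) * v (σ (f3 l)) =
      es v 3 / ((Fintype.card Q).choose 3 : ℝ) := fun i j l =>
    law_prod3 v _ _ _ (h12 _ _) (h13 _ _) (h23 _ _)
  rw [Finset.expect_sum_comm]
  calc _ = ∑ i : Fin k, ∑ j : Fin k, ∑ l : Fin k, 𝔼 σ : Equiv.Perm Q,
        v (σ (f1 i)) * v (σ (f2 j)) * v (σ (f3 l)) := by
        refine Finset.sum_congr rfl fun i _ => ?_
        rw [Finset.expect_sum_comm]
        refine Finset.sum_congr rfl fun j _ => ?_
        rw [Finset.expect_sum_comm]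
    _ = _ := by
        simp only [h2, Finset.sum_const, Finset.card_univ, Fintype.card_fin, nsmul_eq_mul]
        ring

/-! ### permuting the block positions only -/

variable {α : Type} [Fintype α] [DecidableEq α] {k r : ℕ}

/-- permutation of the block positions -/
def inn (σ : Equiv.Perm ((Fin k × Bool) × Bool)) : Equiv.Perm (L4 k r) :=
  Equiv.Perm.sumCongr σ (Equiv.refl (Fin r))

theorem expect_inn (F : (L4 k r ≃ α) → ℝ) :
    𝔼 e : L4 k r ≃ α, F e = 𝔼 e : L4 k r ≃ α, 𝔼 σ : Equiv.Perm ((Fin k × Bool) × Bool),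
      F ((inn σ).trans e) := by
  calc 𝔼 e : L4 k r ≃ α, F e =
      𝔼 _σ : Equiv.Perm ((Fin k × Bool) × Bool), 𝔼 e : L4 k r ≃ α, F e := by
        rw [Fintype.expect_const]
    _ = 𝔼 σ : Equiv.Perm ((Fin k × Bool) × Bool), 𝔼 e : L4 k r ≃ α, F ((inn σ).trans e) :=
        Finset.expect_congr rfl fun σ _ => (expect_pre (inn σ) F).symm
    _ = _ := Finset.expect_comm _ _ _

omit [Fintype α] [DecidableEq α] in
theorem XR_inn (u : α → ℝ) (e : L4 k r ≃ α) (σ : Equiv.Perm ((Fin k × Bool) × Bool)) :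
    XR u ((inn σ).trans e) = XR u e := rfl

/-- the values at the block positions -/
def vin (u : α → ℝ) (e : L4 k r ≃ α) : (Fin k × Bool) × Bool → ℝ := fun p => u (e (Sum.inl p))

omit [Fintype α] [DecidableEq α] in
theorem X4_inn (b h : Bool) (u : α → ℝ) (e : L4 k r ≃ α)
    (σ : Equiv.Perm ((Fin k × Bool) × Bool)) :
    X4 b h u ((inn σ).trans e) = ∑ j : Fin k, vin u e (σ ((j, b), h)) := rfl

/-- the fourth mixed moment given the remainder -/
theorem mix4 (u : α → ℝ) (e : L4 k r ≃ α) :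
    𝔼 σ : Equiv.Perm ((Fin k × Bool) × Bool),
      X4 false false u ((inn σ).trans e) * X4 true false u ((inn σ).trans e) *
      X4 false true u ((inn σ).trans e) * X4 true true u ((inn σ).trans e) =
      (k : ℝ) ^ 4 * (es (vin u e) 4 / ((4 * k).choose 4 : ℝ)) := by
  have h := law_sum4 (Q := (Fin k × Bool) × Bool) k (vin u e) (fun j => ((j, false), false))
    (fun j => ((j, true), false)) (fun j => ((j, false), true)) (fun j => ((j, true), true))
    (by simp) (by simp) (by simp) (by simp) (by simp) (by simp)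
  have hc : Fintype.card ((Fin k × Bool) × Bool) = 4 * k := by
    simp [Fintype.card_prod]; ring
  rw [hc] at h
  exact h

/-- the third mixed moments given the remainder -/
theorem mix3 (u : α → ℝ) (e : L4 k r ≃ α) :
    𝔼 σ : Equiv.Perm ((Fin k × Bool) × Bool),
      (X4 false false u ((inn σ).trans e) * X4 true false u ((inn σ).trans e) *
        X4 false true u ((inn σ).trans e) +
      X4 false false u ((inn σ).trans e) * X4 true false u ((inn σ).trans e) *
        X4 true true u ((inn σ).trans e) +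
      X4 false false u ((inn σ).trans e) * X4 false true u ((inn σ).trans e) *
        X4 true true u ((inn σ).trans e) +
      X4 true false u ((inn σ).trans e) * X4 false true u ((inn σ).trans e) *
        X4 true true u ((inn σ).trans e)) =
      4 * ((k : ℝ) ^ 3 * (es (vin u e) 3 / ((4 * k).choose 3 : ℝ))) := by
  have hc : Fintype.card ((Fin k × Bool) × Bool) = 4 * k := by
    simp [Fintype.card_prod]; ring
  have h1 := law_sum3 (Q := (Fin k × Bool) × Bool) k (vin u e) (fun j => ((j, false), false))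
    (fun j => ((j, true), false)) (fun j => ((j, false), true)) (by simp) (by simp) (by simp)
  have h2 := law_sum3 (Q := (Fin k × Bool) × Bool) k (vin u e) (fun j => ((j, false), false))
    (fun j => ((j, true), false)) (fun j => ((j, true), true)) (by simp) (by simp) (by simp)
  have h3 := law_sum3 (Q := (Fin k × Bool) × Bool) k (vin u e) (fun j => ((j, false), false))
    (fun j => ((j, false), true)) (fun j => ((j, true), true)) (by simp) (by simp) (by simp)
  have h4 := law_sum3 (Q := (Fin k × Bool) × Bool) k (vin u e) (fun j => ((j, true), false))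
    (fun j => ((j, false), true)) (fun j => ((j, true), true)) (by simp) (by simp) (by simp)
  rw [hc] at h1 h2 h3 h4
  rw [Finset.expect_add_distrib, Finset.expect_add_distrib, Finset.expect_add_distrib]
  simp only [X4_inn]
  rw [h1, h2, h3, h4]
  ring

omit [DecidableEq α] in
/-- power sums over the block positions -/
theorem ps_vin (u : α → ℝ) (e : L4 k r ≃ α) (m : ℕ) :
    ps (vin u e) m = ∑ a, u a ^ m - ∑ i : Fin r, u (e (Sum.inr i)) ^ m := by
  unfold ps vin
  rw [← Equiv.sum_comp e (fun a => u a ^ m), Fintype.sum_sum_type]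
  ring

end Pool.Agent.H49.M4
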