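import Mathlib
import Pool.Agent.H49.M4.StrA
import Pool.Agent.H49.M4.BetaC

open Finset
open scoped BigOperators

namespace Pool.Agent.H49.M4

open Pool.Agent.H49.MMS

/-! ### real inequalities -/

theorem three_neg (a b c d R w : ℝ) (ha : a ≤ 0) (hb : b ≤ 0) (hc : c ≤ 0)
    (hs : a + b + c + d + R = 0) (hR : |R| ≤ w) :
    a * b * c * d ≤ w ^ 4 ∧
      -(w * (a ^ 2 + b ^ 2 + c ^ 2 + d ^ 2)) ≤ a * b * c + a * b * d + a * c * d + b * c * d := by
  have hR' := abs_le.1 hR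
  have hw : 0 ≤ w := le_trans (abs_nonneg _) hR
  have hab : 0 ≤ a * b := mul_nonneg_of_nonpos_of_nonpos ha hb
  have hac : 0 ≤ a * c := mul_nonneg_of_nonpos_of_nonpos ha hc
  have hbc : 0 ≤ b * c := mul_nonneg_of_nonpos_of_nonpos hb hc
  have habc : a * b * c ≤ 0 := mul_nonpos_of_nonneg_of_nonpos hab hc
  constructor
  · by_cases hd : 0 ≤ d
    · have : a * b * c * d ≤ 0 := mul_nonpos_of_nonpos_of_nonneg habc hd
      have : 0 ≤ w ^ 4 := by positivity
      linarith
    · push Not at hd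
      have a1 : -a ≤ w := by linarith
      have b1 : -b ≤ w := by linarith
      have c1 : -c ≤ w := by linarith
      have d1 : -d ≤ w := by linarith
      have e : a * b * c * d = (-a) * (-b) * ((-c) * (-d)) := by ring
      rw [e]
      have h1 : (-a) * (-b) ≤ w * w := mul_le_mul a1 b1 (by linarith) hw
      have h2 : (-c) * (-d) ≤ w * w := mul_le_mul c1 d1 (by linarith) hw
      have h3 : 0 ≤ (-c) * (-d) := mul_nonneg (by linarith) (by linarith)
      calc (-a) * (-b) * ((-c) * (-d)) ≤ (w * w) * (w * w) :=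
            mul_le_mul h1 h2 h3 (by positivity)
        _ = w ^ 4 := by ring
  · have hd : d = -a - b - c - R := by linarith
    set E : ℝ := a * b + a * c + b * c with hE
    have hE0 : 0 ≤ E := by linarith
    have h1 : a * b * c + a * b * d + a * c * d + b * c * d =
        (a * b * c + (-a - b - c) * E) - R * E := by rw [hd, hE]; ring
    rw [h1]
    have h2 : 0 ≤ a * b * c + (-a - b - c) * E := by
      have : a * b * c + (-a - b - c) * E = (-a) * (a * b) + (-a) * (a * c) + (-b) * (a * b) +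
        (-b) * (b * c) + (-c) * (a * c) + (-c) * (b * c) + (-a) * (b * c) + (-a) * (b * c) := by
        rw [hE]; ring
      rw [this]
      have t1 := mul_nonneg (neg_nonneg.2 ha) hab
      have t2 := mul_nonneg (neg_nonneg.2 ha) hac
      have t3 := mul_nonneg (neg_nonneg.2 hb) hab
      have t4 := mul_nonneg (neg_nonneg.2 hb) hbc
      have t5 := mul_nonneg (neg_nonneg.2 hc) hac
      have t6 := mul_nonneg (neg_nonneg.2 hc) hbc
      have t7 := mul_nonneg (neg_nonneg.2 ha) hbc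
      linarith
    have h3 : R * E ≤ w * E := mul_le_mul_of_nonneg_right hR'.2 hE0
    have h4 : E ≤ a ^ 2 + b ^ 2 + c ^ 2 + d ^ 2 := by
      rw [hE]
      nlinarith [sq_nonneg (a - b), sq_nonneg (a - c), sq_nonneg (b - c), sq_nonneg d]
    have h5 : w * E ≤ w * (a ^ 2 + b ^ 2 + c ^ 2 + d ^ 2) := mul_le_mul_of_nonneg_left h4 hw
    linarith

/-- the square of a product of two numbers by sum and difference -/
theorem prod_sq (a b : ℝ) : (a * b) ^ 2 ≤ ((a + b) ^ 4 + (a - b) ^ 4) / 16 := by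
  have : ((a + b) ^ 4 + (a - b) ^ 4) / 16 - (a * b) ^ 2 = (a + b) ^ 2 * (a - b) ^ 2 / 8 := by ring
  have h : 0 ≤ (a + b) ^ 2 * (a - b) ^ 2 / 8 := by positivity
  linarith

theorem half4 (D R w : ℝ) (hR : |R| ≤ w) (hw : w ≤ 1) : ((D - R) / 2) ^ 4 ≤ (D ^ 4 + 1) / 2 := by
  have h1 : R ^ 2 ≤ 1 := by
    rw [← sq_abs]
    have := abs_nonneg R
    nlinarith
  have h2 : R ^ 4 ≤ 1 := by
    have : R ^ 4 = (R ^ 2) ^ 2 := by ring
    rw [this]
    have := sq_nonneg R
    nlinarith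
  have h3 : (D - R) ^ 4 ≤ 8 * (D ^ 4 + R ^ 4) := by
    have a1 : (D - R) ^ 2 ≤ 2 * (D ^ 2 + R ^ 2) := by nlinarith [sq_nonneg (D + R)]
    have a2 : (D - R) ^ 4 = ((D - R) ^ 2) ^ 2 := by ring
    rw [a2]
    have a3 : ((D - R) ^ 2) ^ 2 ≤ (2 * (D ^ 2 + R ^ 2)) ^ 2 :=
      pow_le_pow_left₀ (sq_nonneg _) a1 2
    nlinarith [sq_nonneg (D ^ 2 - R ^ 2)]
  have h4 : ((D - R) / 2) ^ 4 = (D - R) ^ 4 / 16 := by ring
  rw [h4]
  linarith

theorem half2 (D R w : ℝ) (hR : |R| ≤ w) (hw : w ≤ 1) : ((D - R) / 2) ^ 2 ≤ (D ^ 2 + 1) / 2 := by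
  have h1 : R ^ 2 ≤ 1 := by
    rw [← sq_abs]
    have := abs_nonneg R
    nlinarith
  nlinarith [sq_nonneg (D + R)]

variable {α : Type} [Fintype α] [DecidableEq α] {k r : ℕ}

/-- the sum over a half -/
noncomputable def S4 (h : Bool) (u : α → ℝ) (e : L4 k r ≃ α) : ℝ :=
  X4 false h u e + X4 true h u e

/-- the event that the remainder is small -/
noncomputable def gi (w : ℝ) (u : α → ℝ) (e : L4 k r ≃ α) : ℝ := if |XR u e| ≤ w then 1 else 0

omit [Fintype α] [DecidableEq α] in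
theorem gi_cases (w : ℝ) (u : α → ℝ) (e : L4 k r ≃ α) :
    gi w u e = 0 ∨ (gi w u e = 1 ∧ |XR u e| ≤ w) := by
  unfold gi
  split_ifs with h
  · exact Or.inr ⟨rfl, h⟩
  · exact Or.inl rfl

omit [Fintype α] [DecidableEq α] in
theorem gi_nonneg (w : ℝ) (u : α → ℝ) (e : L4 k r ≃ α) : 0 ≤ gi w u e := by
  unfold gi; split_ifs <;> norm_num

omit [Fintype α] [DecidableEq α] in
theorem gi_flip (h : Bool) (w : ℝ) (u : α → ℝ) (e : L4 k r ≃ α) (s : Fin k → Bool) :
    gi w u ((fP (PB k r h) s).trans e) = gi w u e := by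
  unfold gi; rw [XR_flip]

omit [Fintype α] [DecidableEq α] in
theorem S4_flip (h h' : Bool) (u : α → ℝ) (e : L4 k r ≃ α) (s : Fin k → Bool) :
    S4 h' u ((fP (PB k r h) s).trans e) = S4 h' u e := by
  by_cases hh : h = h'
  · subst hh
    exact SP_flip (PB k r h) u e s
  · unfold S4
    rw [X4_flip_ne _ _ _ hh, X4_flip_ne _ _ _ hh]

omit [Fintype α] [DecidableEq α] in
theorem DP_flip_other (h h' : Bool) (hh : h ≠ h') (u : α → ℝ) (e : L4 k r ≃ α)
    (s : Fin k → Bool) :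
    DP (PB k r h') u ((fP (PB k r h) s).trans e) = DP (PB k r h') u e := by
  rw [DP_eq, DP_eq, XP_PB, XP_PB, XP_PB, XP_PB, X4_flip_ne _ _ _ hh, X4_flip_ne _ _ _ hh]

theorem dP_sum_le (h : Bool) (u : α → ℝ) (hu2 : ∑ a, u a ^ 2 = 1) (e : L4 k r ≃ α) :
    ∑ j, dP (PB k r h) u e j ^ 2 ≤ 2 := by
  have := sum_dP_sq (PB k r h) u e univ (fun _ => Finset.mem_univ _)
  rw [hu2] at this
  linarith

theorem dP_sum_le' (u : α → ℝ) (hu2 : ∑ a, u a ^ 2 = 1) (e : L4 k r ≃ α) :
    ∑ j, dP (PH k r) u e j ^ 2 ≤ 2 := by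
  have := sum_dP_sq (PH k r) u e univ (fun _ => Finset.mem_univ _)
  rw [hu2] at this
  linarith

/-- averaging out the differences inside the halves -/
theorem avg_halves (u : α → ℝ) (hu2 : ∑ a, u a ^ 2 = 1) (w : ℝ) :
    𝔼 e : L4 k r ≃ α, gi w u e * ((S4 false u e ^ 4 + DP (PB k r false) u e ^ 4) *
      (S4 true u e ^ 4 + DP (PB k r true) u e ^ 4)) ≤
    𝔼 e : L4 k r ≃ α, gi w u e * ((S4 false u e ^ 4 + 12) * (S4 true u e ^ 4 + 12)) := by
  rw [expect_double (fun e : L4 k r ≃ α => gi w u e * ((S4 false u e ^ 4 +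
    DP (PB k r false) u e ^ 4) * (S4 true u e ^ 4 + DP (PB k r true) u e ^ 4)))]
  refine Finset.expect_le_expect fun e _ => ?_
  have hm : ∀ h, 𝔼 s : Fin k → Bool, (∑ j, sg (s j) * dP (PB k r h) u e j) ^ 4 ≤ 12 := by
    intro h
    have h1 := mom4 univ (dP (PB k r h) u e)
    have h2 := dP_sum_le h u hu2 e
    have h3 : 0 ≤ ∑ j, dP (PB k r h) u e j ^ 2 := Finset.sum_nonneg fun _ _ => sq_nonneg _
    nlinarith
  have e1 : ∀ t s : Fin k → Bool, DP (PB k r false) u
      ((fP (PB k r false) s).trans ((fP (PB k r true) t).trans e)) =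
      ∑ j, sg (s j) * dP (PB k r false) u e j := by
    intro t s
    rw [DP_flip]
    refine Finset.sum_congr rfl fun j _ => ?_
    unfold dP
    rw [flip_other true false (by simp), flip_other true false (by simp)]
  have e2 : ∀ t s : Fin k → Bool, DP (PB k r true) u
      ((fP (PB k r false) s).trans ((fP (PB k r true) t).trans e)) =
      ∑ j, sg (t j) * dP (PB k r true) u e j := by
    intro t s
    rw [DP_flip_other false true (by simp), DP_flip]
  simp only [gi_flip, S4_flip, e1, e2]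
  set A := 𝔼 s : Fin k → Bool, (∑ j, sg (s j) * dP (PB k r false) u e j) ^ 4 with hA
  set B := 𝔼 s : Fin k → Bool, (∑ j, sg (s j) * dP (PB k r true) u e j) ^ 4 with hB
  have hA' : A ≤ 12 := hm false
  have hB' : B ≤ 12 := hm true
  have hA0 : 0 ≤ A := Finset.expect_nonneg fun s _ => by positivity
  have hB0 : 0 ≤ B := Finset.expect_nonneg fun s _ => by positivity
  have e3 : ∀ t : Fin k → Bool, (𝔼 s : Fin k → Bool, gi w u e * ((S4 false u e ^ 4 +
      (∑ j, sg (s j) * dP (PB k r false) u e j) ^ 4) * (S4 true u e ^ 4 +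
      (∑ j, sg (t j) * dP (PB k r true) u e j) ^ 4))) =
      gi w u e * (S4 false u e ^ 4 + A) * (S4 true u e ^ 4 +
      (∑ j, sg (t j) * dP (PB k r true) u e j) ^ 4) := by
    intro t
    rw [← Finset.mul_expect, ← Finset.expect_mul, Finset.expect_add_distrib,
      Fintype.expect_const]
    ring
  rw [Finset.expect_congr rfl fun t _ => e3 t, ← Finset.mul_expect, Finset.expect_add_distrib,
    Fintype.expect_const, ← hB]
  have hg := gi_nonneg w u e
  have s0 : 0 ≤ S4 false u e ^ 4 := by positivity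
  have s1 : 0 ≤ S4 true u e ^ 4 := by positivity
  have h1 : (S4 false u e ^ 4 + A) * (S4 true u e ^ 4 + B) ≤
      (S4 false u e ^ 4 + 12) * (S4 true u e ^ 4 + 12) :=
    mul_le_mul (by linarith) (by linarith) (by linarith) (by linarith)
  calc gi w u e * (S4 false u e ^ 4 + A) * (S4 true u e ^ 4 + B) =
      gi w u e * ((S4 false u e ^ 4 + A) * (S4 true u e ^ 4 + B)) := by ring
    _ ≤ _ := mul_le_mul_of_nonneg_left h1 hg

/-- averaging out one difference -/
theorem avg_one (h : Bool) (u : α → ℝ) (hu2 : ∑ a, u a ^ 2 = 1) (w : ℝ) :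
    𝔼 e : L4 k r ≃ α, gi w u e * ((S4 h u e ^ 4 + DP (PB k r h) u e ^ 4) * S4 (!h) u e ^ 2) ≤
    𝔼 e : L4 k r ≃ α, gi w u e * ((S4 h u e ^ 4 + 12) * S4 (!h) u e ^ 2) := by
  rw [expect_flip (PB k r h) (fun e : L4 k r ≃ α => gi w u e * ((S4 h u e ^ 4 +
    DP (PB k r h) u e ^ 4) * S4 (!h) u e ^ 2))]
  refine Finset.expect_le_expect fun e _ => ?_
  have h1 := mom4 univ (dP (PB k r h) u e)
  have h2 := dP_sum_le h u hu2 e
  have h3 : 0 ≤ ∑ j, dP (PB k r h) u e j ^ 2 := Finset.sum_nonneg fun _ _ => sq_nonneg _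
  simp only [gi_flip, S4_flip, DP_flip]
  rw [← Finset.mul_expect, ← Finset.expect_mul, Finset.expect_add_distrib, Fintype.expect_const]
  have hg := gi_nonneg w u e
  refine mul_le_mul_of_nonneg_left (mul_le_mul_of_nonneg_right ?_ (by positivity)) hg
  nlinarith

omit [Fintype α] [DecidableEq α] in
theorem DH_eq (u : α → ℝ) (e : L4 k r ≃ α) :
    DP (PH k r) u e = S4 false u e - S4 true u e := by
  rw [DP_eq, XP_PH, XP_PH]; rfl

omit [DecidableEq α] in
theorem S4_eq (h : Bool) (u : α → ℝ) (hu : ∑ a, u a = 0) (e : L4 k r ≃ α) :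
    ∃ D : ℝ, D ^ 4 = DP (PH k r) u e ^ 4 ∧ D ^ 2 = DP (PH k r) u e ^ 2 ∧
      S4 h u e = (D - XR u e) / 2 := by
  have h1 := sum4 u e
  rw [hu] at h1
  have h2 := DH_eq u e
  unfold S4 at h2 ⊢
  cases h
  · exact ⟨DP (PH k r) u e, rfl, rfl, by linarith⟩
  · exact ⟨-DP (PH k r) u e, by ring, by ring, by linarith⟩

theorem DH8 (u : α → ℝ) (hu2 : ∑ a, u a ^ 2 = 1) :
    𝔼 e : L4 k r ≃ α, DP (PH k r) u e ^ 8 ≤ 1680 * 𝔼 _e : L4 k r ≃ α, (1 : ℝ) := by
  rw [expect_DP (PH k r) u (fun x => x ^ 8), Finset.mul_expect]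
  refine Finset.expect_le_expect fun e _ => ?_
  simp only [zero_add]
  have h1 := mom8 univ (dP (PH k r) u e)
  have h2 := dP_sum_le' u hu2 e
  have h3 : 0 ≤ ∑ j, dP (PH k r) u e j ^ 2 := Finset.sum_nonneg fun _ _ => sq_nonneg _
  have h4 : (∑ j, dP (PH k r) u e j ^ 2) ^ 4 ≤ 2 ^ 4 := pow_le_pow_left₀ h3 h2 4
  linarith

theorem DH6 (u : α → ℝ) (hu2 : ∑ a, u a ^ 2 = 1) :
    𝔼 e : L4 k r ≃ α, DP (PH k r) u e ^ 6 ≤ 120 * 𝔼 _e : L4 k r ≃ α, (1 : ℝ) := by
  rw [expect_DP (PH k r) u (fun x => x ^ 6), Finset.mul_expect]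
  refine Finset.expect_le_expect fun e _ => ?_
  simp only [zero_add]
  have h1 := mom6 univ (dP (PH k r) u e)
  have h2 := dP_sum_le' u hu2 e
  have h3 : 0 ≤ ∑ j, dP (PH k r) u e j ^ 2 := Finset.sum_nonneg fun _ _ => sq_nonneg _
  have h4 : (∑ j, dP (PH k r) u e j ^ 2) ^ 3 ≤ 2 ^ 3 := pow_le_pow_left₀ h3 h2 3
  linarith

theorem DH4 (u : α → ℝ) (hu2 : ∑ a, u a ^ 2 = 1) :
    𝔼 e : L4 k r ≃ α, DP (PH k r) u e ^ 4 ≤ 12 * 𝔼 _e : L4 k r ≃ α, (1 : ℝ) := by
  rw [expect_DP (PH k r) u (fun x => x ^ 4), Finset.mul_expect]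
  refine Finset.expect_le_expect fun e _ => ?_
  simp only [zero_add]
  have h1 := mom4 univ (dP (PH k r) u e)
  have h2 := dP_sum_le' u hu2 e
  have h3 : 0 ≤ ∑ j, dP (PH k r) u e j ^ 2 := Finset.sum_nonneg fun _ _ => sq_nonneg _
  nlinarith

theorem DH2 (u : α → ℝ) (hu2 : ∑ a, u a ^ 2 = 1) :
    𝔼 e : L4 k r ≃ α, DP (PH k r) u e ^ 2 ≤ 2 * 𝔼 _e : L4 k r ≃ α, (1 : ℝ) := by
  rw [expect_DP (PH k r) u (fun x => x ^ 2), Finset.mul_expect]
  refine Finset.expect_le_expect fun e _ => ?_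
  simp only [zero_add]
  have h1 := mom2 univ (dP (PH k r) u e)
  have h2 := dP_sum_le' u hu2 e
  linarith

/-- product of the four block sums -/
noncomputable def Z4 (u : α → ℝ) (e : L4 k r ≃ α) : ℝ :=
  X4 false false u e * X4 true false u e * X4 false true u e * X4 true true u e

/-- third elementary symmetric function of the block sums -/
noncomputable def Y4 (u : α → ℝ) (e : L4 k r ≃ α) : ℝ :=
  X4 false false u e * X4 true false u e * X4 false true u e +
  X4 false false u e * X4 true false u e * X4 true true u e +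
  X4 false false u e * X4 false true u e * X4 true true u e +
  X4 true false u e * X4 false true u e * X4 true true u e

theorem Z4_sq [Nonempty (L4 k r ≃ α)] (u : α → ℝ) (hu : ∑ a, u a = 0) (hu2 : ∑ a, u a ^ 2 = 1)
    (w : ℝ) (hw : w ≤ 1) :
    𝔼 e : L4 k r ≃ α, gi w u e * Z4 u e ^ 2 ≤ 3 := by
  have h1 : 𝔼 e : L4 k r ≃ α, gi w u e * Z4 u e ^ 2 ≤
      1 / 256 * 𝔼 e : L4 k r ≃ α, gi w u e * ((S4 false u e ^ 4 + DP (PB k r false) u e ^ 4) *
      (S4 true u e ^ 4 + DP (PB k r true) u e ^ 4)) := by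
    rw [Finset.mul_expect]
    refine Finset.expect_le_expect fun e _ => ?_
    have hg := gi_nonneg w u e
    have a1 := prod_sq (X4 false false u e) (X4 true false u e)
    have a2 := prod_sq (X4 false true u e) (X4 true true u e)
    have d1 : DP (PB k r false) u e = X4 false false u e - X4 true false u e := DP_eq _ _ _
    have d2 : DP (PB k r true) u e = X4 false true u e - X4 true true u e := DP_eq _ _ _
    unfold S4
    rw [d1, d2]
    have e1 : Z4 u e ^ 2 = (X4 false false u e * X4 true false u e) ^ 2 *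
        (X4 false true u e * X4 true true u e) ^ 2 := by unfold Z4; ring
    rw [e1]
    have h3 := mul_le_mul a1 a2 (sq_nonneg _) (by positivity)
    calc _ ≤ gi w u e * (((X4 false false u e + X4 true false u e) ^ 4 +
          (X4 false false u e - X4 true false u e) ^ 4) / 16 *
          (((X4 false true u e + X4 true true u e) ^ 4 +
          (X4 false true u e - X4 true true u e) ^ 4) / 16)) :=
          mul_le_mul_of_nonneg_left h3 hg
      _ = _ := by ring
  have h2 := avg_halves (k := k) (r := r) u hu2 w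
  have h3 : 𝔼 e : L4 k r ≃ α, gi w u e * ((S4 false u e ^ 4 + 12) * (S4 true u e ^ 4 + 12)) ≤
      𝔼 e : L4 k r ≃ α, (1 / 4 * DP (PH k r) u e ^ 8 + 25 / 2 * DP (PH k r) u e ^ 4 + 157) := by
    refine Finset.expect_le_expect fun e _ => ?_
    have p8 : 0 ≤ DP (PH k r) u e ^ 8 := by positivity
    have p4 : 0 ≤ DP (PH k r) u e ^ 4 := by positivity
    rcases gi_cases w u e with h | ⟨h, hR⟩
    · rw [h]; linarith
    rw [h, one_mul]
    obtain ⟨D0, d0, _, s0⟩ := S4_eq (k := k) (r := r) false u hu e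
    obtain ⟨D1, d1, _, s1⟩ := S4_eq (k := k) (r := r) true u hu e
    rw [s0, s1]
    have b0 := half4 D0 (XR u e) w hR hw
    have b1 := half4 D1 (XR u e) w hR hw
    rw [d0] at b0
    rw [d1] at b1
    set D := DP (PH k r) u e
    have q0 : 0 ≤ ((D0 - XR u e) / 2) ^ 4 := by positivity
    have q1 : 0 ≤ ((D1 - XR u e) / 2) ^ 4 := by positivity
    calc _ ≤ ((D ^ 4 + 1) / 2 + 12) * ((D ^ 4 + 1) / 2 + 12) :=
          mul_le_mul (by linarith) (by linarith) (by linarith) (by linarith)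
      _ ≤ _ := by
        have : D ^ 8 = D ^ 4 * D ^ 4 := by ring
        rw [this]
        nlinarith
  rw [Finset.expect_add_distrib, Finset.expect_add_distrib, Fintype.expect_const,
    ← Finset.mul_expect, ← Finset.mul_expect] at h3
  have m8 := DH8 (k := k) (r := r) u hu2
  have m4 := DH4 (k := k) (r := r) u hu2
  rw [Fintype.expect_const] at m8 m4
  linarith

theorem Y4_sq [Nonempty (L4 k r ≃ α)] (u : α → ℝ) (hu : ∑ a, u a = 0) (hu2 : ∑ a, u a ^ 2 = 1)
    (w : ℝ) (hw : w ≤ 1) :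
    𝔼 e : L4 k r ≃ α, gi w u e * Y4 u e ^ 2 ≤ 13 := by
  have h1 : 𝔼 e : L4 k r ≃ α, gi w u e * Y4 u e ^ 2 ≤
      1 / 8 * (𝔼 e : L4 k r ≃ α, gi w u e * ((S4 false u e ^ 4 + DP (PB k r false) u e ^ 4) *
        S4 (!false) u e ^ 2)) +
      1 / 8 * (𝔼 e : L4 k r ≃ α, gi w u e * ((S4 true u e ^ 4 + DP (PB k r true) u e ^ 4) *
        S4 (!true) u e ^ 2)) := by
    rw [Finset.mul_expect, Finset.mul_expect, ← Finset.expect_add_distrib]
    refine Finset.expect_le_expect fun e _ => ?_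
    have hg := gi_nonneg w u e
    have a1 := prod_sq (X4 false false u e) (X4 true false u e)
    have a2 := prod_sq (X4 false true u e) (X4 true true u e)
    have d1 : DP (PB k r false) u e = X4 false false u e - X4 true false u e := DP_eq _ _ _
    have d2 : DP (PB k r true) u e = X4 false true u e - X4 true true u e := DP_eq _ _ _
    unfold S4 Y4
    rw [d1, d2]
    simp only [Bool.not_false, Bool.not_true]
    set a := X4 false false u e
    set b := X4 true false u e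
    set c := X4 false true u e
    set d := X4 true true u e
    have e1 : a * b * c + a * b * d + a * c * d + b * c * d =
        (a * b) * (c + d) + (c * d) * (a + b) := by ring
    rw [e1]
    have h3 : ((a * b) * (c + d) + (c * d) * (a + b)) ^ 2 ≤
        2 * ((a * b) ^ 2 * (c + d) ^ 2) + 2 * ((c * d) ^ 2 * (a + b) ^ 2) := by
      nlinarith [sq_nonneg ((a * b) * (c + d) - (c * d) * (a + b))]
    have h4 : (a * b) ^ 2 * (c + d) ^ 2 ≤ ((a + b) ^ 4 + (a - b) ^ 4) / 16 * (c + d) ^ 2 :=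
      mul_le_mul_of_nonneg_right a1 (sq_nonneg _)
    have h5 : (c * d) ^ 2 * (a + b) ^ 2 ≤ ((c + d) ^ 4 + (c - d) ^ 4) / 16 * (a + b) ^ 2 :=
      mul_le_mul_of_nonneg_right a2 (sq_nonneg _)
    calc _ ≤ gi w u e * (2 * (((a + b) ^ 4 + (a - b) ^ 4) / 16 * (c + d) ^ 2) +
          2 * (((c + d) ^ 4 + (c - d) ^ 4) / 16 * (a + b) ^ 2)) :=
          mul_le_mul_of_nonneg_left (by linarith) hg
      _ = _ := by ring
  have h2 := avg_one (k := k) (r := r) false u hu2 w
  have h2' := avg_one (k := k) (r := r) true u hu2 w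
  have h3 : ∀ h : Bool, 𝔼 e : L4 k r ≃ α, gi w u e * ((S4 h u e ^ 4 + 12) * S4 (!h) u e ^ 2) ≤
      𝔼 e : L4 k r ≃ α, (1 / 4 * DP (PH k r) u e ^ 6 + 1 / 4 * DP (PH k r) u e ^ 4 +
        25 / 4 * DP (PH k r) u e ^ 2 + 25 / 4) := by
    intro h
    refine Finset.expect_le_expect fun e _ => ?_
    have p6 : 0 ≤ DP (PH k r) u e ^ 6 := by positivity
    have p4 : 0 ≤ DP (PH k r) u e ^ 4 := by positivity
    have p2 : 0 ≤ DP (PH k r) u e ^ 2 := by positivity
    rcases gi_cases w u e with hgi | ⟨hgi, hR⟩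
    · rw [hgi]; linarith
    rw [hgi, one_mul]
    obtain ⟨D0, d0, _, s0⟩ := S4_eq (k := k) (r := r) h u hu e
    obtain ⟨D1, _, d1, s1⟩ := S4_eq (k := k) (r := r) (!h) u hu e
    rw [s0, s1]
    have b0 := half4 D0 (XR u e) w hR hw
    have b1 := half2 D1 (XR u e) w hR hw
    rw [d0] at b0
    rw [d1] at b1
    set D := DP (PH k r) u e
    have q0 : 0 ≤ ((D0 - XR u e) / 2) ^ 4 := by positivity
    have q1 : 0 ≤ ((D1 - XR u e) / 2) ^ 2 := by positivity
    calc _ ≤ ((D ^ 4 + 1) / 2 + 12) * ((D ^ 2 + 1) / 2) :=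
          mul_le_mul (by linarith) b1 q1 (by linarith)
      _ = _ := by ring
  have h3a := h3 false
  have h3b := h3 true
  rw [Finset.expect_add_distrib, Finset.expect_add_distrib, Finset.expect_add_distrib,
    Fintype.expect_const, ← Finset.mul_expect, ← Finset.mul_expect, ← Finset.mul_expect] at h3a h3b
  have m6 := DH6 (k := k) (r := r) u hu2
  have m4 := DH4 (k := k) (r := r) u hu2
  have m2 := DH2 (k := k) (r := r) u hu2
  rw [Fintype.expect_const] at m6 m4 m2
  linarith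

end Pool.Agent.H49.M4
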