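import Mathlib
import Pool.Agent.H49.M4.StrB
import Pool.Agent.H49.M4.BetaD

open Finset
open scoped BigOperators

namespace Pool.Agent.H49.M4

open Pool.Agent.H49.MMS

variable {α : Type} [Fintype α] [DecidableEq α] {k r : ℕ}

omit [Fintype α] [DecidableEq α] in
theorem N2_cases (x : α → ℝ) (e : L4 k r ≃ α) : N2 x e = 0 ∨ N2 x e = 1 := by
  unfold N2
  split_ifs <;> simp

omit [DecidableEq α] in
/-- at most one good block -/
theorem N2_zero (x u : α → ℝ) (xb : ℝ) (hxb : 0 < xb) (hx : ∀ a, x a = xb + u a)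
    (hu : ∑ a, u a = 0) (e : L4 k r ≃ α) (h : N2 x e = 0) (w : ℝ) (hR : |XR u e| ≤ w) :
    Z4 u e ≤ w ^ 4 ∧ -(w * (X4 false false u e ^ 2 + X4 true false u e ^ 2 +
      X4 false true u e ^ 2 + X4 true true u e ^ 2)) ≤ Y4 u e := by
  have hkx : (0 : ℝ) ≤ k * xb := by positivity
  have hneg : ∀ b c, ¬ 0 < X4 b c x e → X4 b c u e ≤ 0 := by
    intro b c hc
    rw [X4_shift _ _ x u xb hx] at hc
    push Not at hc
    linarith
  have hpair : ∀ p q : Bool × Bool, p ≠ q → 0 < X4 p.1 p.2 x e → ¬ 0 < X4 q.1 q.2 x e := by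
    intro p q hpq hp hq
    have := N2_of x e p q hpq hp hq
    rw [h] at this
    norm_num at this
  have hs := sum4 u e
  rw [hu] at hs
  unfold Z4 Y4
  by_cases g1 : 0 < X4 false false x e
  · have n2 := hneg _ _ (hpair (false, false) (true, false) (by simp) g1)
    have n3 := hneg _ _ (hpair (false, false) (false, true) (by simp) g1)
    have n4 := hneg _ _ (hpair (false, false) (true, true) (by simp) g1)
    have := three_neg _ _ _ (X4 false false u e) (XR u e) w n2 n3 n4 (by linarith) hR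
    constructor
    · refine le_trans (le_of_eq ?_) this.1
      ring
    · refine le_trans (le_trans (le_of_eq ?_) this.2) (le_of_eq ?_) <;> ring
  have n1 := hneg _ _ g1
  by_cases g2 : 0 < X4 true false x e
  · have n3 := hneg _ _ (hpair (true, false) (false, true) (by simp) g2)
    have n4 := hneg _ _ (hpair (true, false) (true, true) (by simp) g2)
    have := three_neg _ _ _ (X4 true false u e) (XR u e) w n1 n3 n4 (by linarith) hR
    constructor
    · refine le_trans (le_of_eq ?_) this.1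
      ring
    · refine le_trans (le_trans (le_of_eq ?_) this.2) (le_of_eq ?_) <;> ring
  have n2 := hneg _ _ g2
  by_cases g3 : 0 < X4 false true x e
  · have n4 := hneg _ _ (hpair (false, true) (true, true) (by simp) g3)
    have := three_neg _ _ _ (X4 false true u e) (XR u e) w n1 n2 n4 (by linarith) hR
    constructor
    · refine le_trans (le_of_eq ?_) this.1
      ring
    · refine le_trans (le_trans (le_of_eq ?_) this.2) (le_of_eq ?_) <;> ring
  have n3 := hneg _ _ g3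
  have := three_neg _ _ _ (X4 true true u e) (XR u e) w n1 n2 n3 (by linarith) hR
  constructor
  · refine le_trans (le_of_eq ?_) this.1
    ring
  · refine le_trans (le_trans (le_of_eq ?_) this.2) (le_of_eq ?_) <;> ring

theorem amgm (z lam : ℝ) (hlam : 0 < lam) : z ≤ lam / 2 * z ^ 2 + 1 / (2 * lam) := by
  have h : lam / 2 * z ^ 2 + 1 / (2 * lam) - z = (lam * z - 1) ^ 2 / (2 * lam) := by
    field_simp
    ring
  have : 0 ≤ (lam * z - 1) ^ 2 / (2 * lam) := by positivity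
  linarith

theorem Z4_upper [Nonempty (L4 k r ≃ α)] (x u : α → ℝ) (xb : ℝ) (hxb : 0 < xb)
    (hx : ∀ a, x a = xb + u a)
    (hu : ∑ a, u a = 0) (hu2 : ∑ a, u a ^ 2 = 1) (w lam ε : ℝ) (hw0 : 0 ≤ w) (hw : w ≤ 1)
    (hlam : 0 < lam) (hε : (𝔼 e : L4 k r ≃ α, N2 x e) ≤ ε) :
    𝔼 e : L4 k r ≃ α, gi w u e * Z4 u e ≤ w ^ 4 + 3 / 2 * lam + ε / (2 * lam) := by
  have h1 : 𝔼 e : L4 k r ≃ α, gi w u e * Z4 u e ≤
      𝔼 e : L4 k r ≃ α, (w ^ 4 + lam / 2 * (gi w u e * Z4 u e ^ 2) + 1 / (2 * lam) * N2 x e) := by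
    refine Finset.expect_le_expect fun e _ => ?_
    have hN := N2_nonneg x e
    have hw4 : 0 ≤ w ^ 4 := by positivity
    have hl : 0 < 1 / (2 * lam) := by positivity
    rcases gi_cases w u e with h | ⟨h, hR⟩
    · rw [h]
      have : 0 ≤ 1 / (2 * lam) * N2 x e := by positivity
      linarith
    rw [h, one_mul, one_mul]
    rcases N2_cases x e with h2 | h2
    · have := (N2_zero x u xb hxb hx hu e h2 w hR).1
      have hz : 0 ≤ lam / 2 * Z4 u e ^ 2 := by positivity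
      rw [h2]
      linarith
    · rw [h2]
      have := amgm (Z4 u e) lam hlam
      linarith
  rw [Finset.expect_add_distrib, Finset.expect_add_distrib, Fintype.expect_const,
    ← Finset.mul_expect, ← Finset.mul_expect] at h1
  have h2 := Z4_sq (k := k) (r := r) u hu hu2 w hw
  have h3 : lam / 2 * (𝔼 e : L4 k r ≃ α, gi w u e * Z4 u e ^ 2) ≤ lam / 2 * 3 :=
    mul_le_mul_of_nonneg_left h2 (by positivity)
  have h4 : 1 / (2 * lam) * (𝔼 e : L4 k r ≃ α, N2 x e) ≤ 1 / (2 * lam) * ε :=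
    mul_le_mul_of_nonneg_left hε (by positivity)
  have h5 : 1 / (2 * lam) * ε = ε / (2 * lam) := by ring
  linarith

theorem X4_sec [Nonempty (L4 k r ≃ α)] (b h : Bool) (u : α → ℝ) (hu : ∑ a, u a = 0)
    (hu2 : ∑ a, u a ^ 2 = 1) (hn : 2 ≤ Fintype.card α) :
    𝔼 e : L4 k r ≃ α, X4 b h u e ^ 2 ≤ (k : ℝ) / ((Fintype.card α : ℝ) - 1) := by
  have := secPos (KB k r b h) u hu hn
  rw [card_KB, hu2, mul_one] at this
  simp only [sum_KB] at this
  exact this

theorem Y4_lower [Nonempty (L4 k r ≃ α)] (x u : α → ℝ) (xb : ℝ) (hxb : 0 < xb)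
    (hx : ∀ a, x a = xb + u a)
    (hu : ∑ a, u a = 0) (hu2 : ∑ a, u a ^ 2 = 1) (w lam ε : ℝ) (hw0 : 0 ≤ w) (hw : w ≤ 1)
    (hlam : 0 < lam) (hε : (𝔼 e : L4 k r ≃ α, N2 x e) ≤ ε) (hn : 2 ≤ Fintype.card α)
    (hk : (k : ℝ) / ((Fintype.card α : ℝ) - 1) ≤ 1 / 2) :
    -(2 * w + 13 / 2 * lam + ε / (2 * lam)) ≤ 𝔼 e : L4 k r ≃ α, gi w u e * Y4 u e := by
  have h1 : 𝔼 e : L4 k r ≃ α, (-(w * (X4 false false u e ^ 2 + X4 true false u e ^ 2 +
      X4 false true u e ^ 2 + X4 true true u e ^ 2)) - lam / 2 * (gi w u e * Y4 u e ^ 2) -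
      1 / (2 * lam) * N2 x e) ≤ 𝔼 e : L4 k r ≃ α, gi w u e * Y4 u e := by
    refine Finset.expect_le_expect fun e _ => ?_
    have hN := N2_nonneg x e
    have hl : 0 < 1 / (2 * lam) := by positivity
    have hX : 0 ≤ w * (X4 false false u e ^ 2 + X4 true false u e ^ 2 +
      X4 false true u e ^ 2 + X4 true true u e ^ 2) := by positivity
    rcases gi_cases w u e with h | ⟨h, hR⟩
    · rw [h]
      have : 0 ≤ 1 / (2 * lam) * N2 x e := by positivity
      linarith
    rw [h, one_mul, one_mul]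
    have hz : 0 ≤ lam / 2 * Y4 u e ^ 2 := by positivity
    rcases N2_cases x e with h2 | h2
    · have := (N2_zero x u xb hxb hx hu e h2 w hR).2
      rw [h2]
      linarith
    · rw [h2]
      have := amgm (-Y4 u e) lam hlam
      have e1 : (-Y4 u e) ^ 2 = Y4 u e ^ 2 := by ring
      rw [e1] at this
      linarith
  rw [Finset.expect_sub_distrib, Finset.expect_sub_distrib, Finset.expect_neg_distrib,
    ← Finset.mul_expect, ← Finset.mul_expect, ← Finset.mul_expect, Finset.expect_add_distrib,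
    Finset.expect_add_distrib, Finset.expect_add_distrib] at h1
  have h2 := Y4_sq (k := k) (r := r) u hu hu2 w hw
  have h3 : lam / 2 * (𝔼 e : L4 k r ≃ α, gi w u e * Y4 u e ^ 2) ≤ lam / 2 * 13 :=
    mul_le_mul_of_nonneg_left h2 (by positivity)
  have h4 : 1 / (2 * lam) * (𝔼 e : L4 k r ≃ α, N2 x e) ≤ 1 / (2 * lam) * ε :=
    mul_le_mul_of_nonneg_left hε (by positivity)
  have h5 : 1 / (2 * lam) * ε = ε / (2 * lam) := by ring
  have s1 := X4_sec (k := k) (r := r) false false u hu hu2 hn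
  have s2 := X4_sec (k := k) (r := r) true false u hu hu2 hn
  have s3 := X4_sec (k := k) (r := r) false true u hu hu2 hn
  have s4 := X4_sec (k := k) (r := r) true true u hu hu2 hn
  have h6 : w * ((𝔼 e : L4 k r ≃ α, X4 false false u e ^ 2) +
      (𝔼 e : L4 k r ≃ α, X4 true false u e ^ 2) + (𝔼 e : L4 k r ≃ α, X4 false true u e ^ 2) +
      (𝔼 e : L4 k r ≃ α, X4 true true u e ^ 2)) ≤ w * 2 :=
    mul_le_mul_of_nonneg_left (by linarith) hw0
  linarith

/-- squares over the remainder -/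
noncomputable def qR (u : α → ℝ) (e : L4 k r ≃ α) : ℝ := ∑ i : Fin r, u (e (Sum.inr i)) ^ 2

theorem qR_expect [Nonempty (L4 k r ≃ α)] (u : α → ℝ) (hu2 : ∑ a, u a ^ 2 = 1) :
    𝔼 e : L4 k r ≃ α, qR u e = r / (Fintype.card α : ℝ) := by
  unfold qR
  rw [Finset.expect_sum_comm]
  have : ∀ i : Fin r, (𝔼 e : L4 k r ≃ α, u (e (Sum.inr i)) ^ 2) = 1 / (Fintype.card α : ℝ) := by
    intro i
    rw [law_one (Λ := L4 k r) (Sum.inr i) (fun a => u a ^ 2), hu2]
  rw [Finset.sum_congr rfl fun i _ => this i, Finset.sum_const, Finset.card_univ,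
    Fintype.card_fin, nsmul_eq_mul]
  ring

omit [Fintype α] [DecidableEq α] in
theorem qR_nonneg (u : α → ℝ) (e : L4 k r ≃ α) : 0 ≤ qR u e :=
  Finset.sum_nonneg fun _ _ => sq_nonneg _

omit [DecidableEq α] in
theorem u_le_one (u : α → ℝ) (hu2 : ∑ a, u a ^ 2 = 1) (a : α) : |u a| ≤ 1 := by
  have h : u a ^ 2 ≤ 1 := by
    rw [← hu2]
    exact Finset.single_le_sum (f := fun a => u a ^ 2) (fun _ _ => sq_nonneg _)
      (Finset.mem_univ a)
  rw [← sq_abs] at h
  have := abs_nonneg (u a)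
  nlinarith

/-- the power sums over the block positions -/
theorem ps_facts (u : α → ℝ) (hu : ∑ a, u a = 0) (hu2 : ∑ a, u a ^ 2 = 1) (e : L4 k r ≃ α) :
    ps (vin u e) 1 = - XR u e ∧ ps (vin u e) 2 = 1 - qR u e ∧ 0 ≤ ps (vin u e) 2 ∧
      |ps (vin u e) 3| ≤ 1 ∧ ps (vin u e) 3 ≤ ∑ a, u a ^ 3 + qR u e ∧
      ps (vin u e) 4 ≤ ∑ a, u a ^ 4 := by
  have h3 : ∀ a, |u a ^ 3| ≤ u a ^ 2 := by
    intro a
    have h := u_le_one u hu2 a
    rw [abs_pow, ← sq_abs (u a)]
    have := abs_nonneg (u a)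
    have e1 : |u a| ^ 3 = |u a| * |u a| ^ 2 := by ring
    rw [e1]
    nlinarith [sq_nonneg |u a|]
  have p2 : ps (vin u e) 2 = 1 - qR u e := by rw [ps_vin, hu2]; rfl
  refine ⟨?_, p2, ?_, ?_, ?_, ?_⟩
  · rw [ps_vin]
    simp only [pow_one, hu]
    unfold XR
    ring
  · exact Finset.sum_nonneg fun _ _ => sq_nonneg _
  · have h1 : |ps (vin u e) 3| ≤ ps (vin u e) 2 := by
      unfold ps vin
      refine (Finset.abs_sum_le_sum_abs _ _).trans ?_
      exact Finset.sum_le_sum fun p _ => h3 _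
    have := qR_nonneg u e
    linarith
  · rw [ps_vin]
    have h1 : - qR u e ≤ ∑ i : Fin r, u (e (Sum.inr i)) ^ 3 := by
      unfold qR
      rw [← Finset.sum_neg_distrib]
      exact Finset.sum_le_sum fun i _ => (abs_le.1 (h3 _)).1 |> fun h => by linarith
    linarith
  · rw [ps_vin]
    have : 0 ≤ ∑ i : Fin r, u (e (Sum.inr i)) ^ 4 :=
      Finset.sum_nonneg fun i _ => by positivity
    linarith

theorem choose4_le (k : ℕ) : (24 : ℝ) * ((4 * k).choose 4 : ℝ) ≤ 256 * (k : ℝ) ^ 4 := by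
  have h1 : (4 * k).descFactorial 4 ≤ (4 * k) ^ 4 := Nat.descFactorial_le_pow _ _
  rw [Nat.descFactorial_eq_factorial_mul_choose] at h1
  have h2 : (Nat.factorial 4 : ℕ) = 24 := rfl
  rw [h2] at h1
  have h3 : ((24 * (4 * k).choose 4 : ℕ) : ℝ) ≤ (((4 * k) ^ 4 : ℕ) : ℝ) := by exact_mod_cast h1
  push_cast at h3
  linarith

theorem choose3_le (k : ℕ) : (6 : ℝ) * ((4 * k).choose 3 : ℝ) ≤ 64 * (k : ℝ) ^ 3 := by
  have h1 : (4 * k).descFactorial 3 ≤ (4 * k) ^ 3 := Nat.descFactorial_le_pow _ _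
  rw [Nat.descFactorial_eq_factorial_mul_choose] at h1
  have h2 : (Nat.factorial 3 : ℕ) = 6 := rfl
  rw [h2] at h1
  have h3 : ((6 * (4 * k).choose 3 : ℕ) : ℝ) ≤ (((4 * k) ^ 3 : ℕ) : ℝ) := by exact_mod_cast h1
  push_cast at h3
  linarith

theorem gi_prob [Nonempty (L4 k r ≃ α)] (u : α → ℝ) (hu : ∑ a, u a = 0)
    (hu2 : ∑ a, u a ^ 2 = 1) (hn : 2 ≤ Fintype.card α) (w : ℝ) (hw : 0 < w)
    (hr : (r : ℝ) / ((Fintype.card α : ℝ) - 1) ≤ w ^ 2 / 100) :
    99 / 100 ≤ 𝔼 e : L4 k r ≃ α, gi w u e := by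
  have h1 := E2_le (k := k) (r := r) u hu hn w hw
  rw [hu2, mul_one] at h1
  have h2 : (r : ℝ) / ((Fintype.card α : ℝ) - 1) / w ^ 2 ≤ 1 / 100 := by
    rw [div_le_iff₀ (by positivity)]
    linarith
  have h3 : (𝔼 e : L4 k r ≃ α, gi w u e) = 1 - 𝔼 e : L4 k r ≃ α, E2 u w e := by
    rw [← Fintype.expect_const (ι := L4 k r ≃ α) (1 : ℝ), ← Finset.expect_sub_distrib]
    refine Finset.expect_congr rfl fun e _ => ?_
    unfold gi E2
    by_cases h : |XR u e| ≤ w
    · rw [if_pos h, if_neg (not_lt.2 h)]; norm_num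
    · rw [if_neg h, if_pos (not_le.1 h)]; norm_num
  rw [h3]
  linarith

/-- the fourth moment is large -/
theorem P4_large [Nonempty (L4 k r ≃ α)] (x u : α → ℝ) (xb : ℝ) (hxb : 0 < xb)
    (hx : ∀ a, x a = xb + u a)
    (hu : ∑ a, u a = 0) (hu2 : ∑ a, u a ^ 2 = 1) (hk : 1 ≤ k)
    (hn : 2 ≤ Fintype.card α)
    (hr : (r : ℝ) / ((Fintype.card α : ℝ) - 1) ≤ 1 / 10 ^ 12)
    (hε : (𝔼 e : L4 k r ≃ α, N2 x e) ≤ 1 / 10 ^ 14) :
    4999 / 10000 ≤ ∑ a, u a ^ 4 := by
  by_contra hc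
  push Not at hc
  set P4 : ℝ := ∑ a, u a ^ 4 with hP4
  have hg := gi_prob (k := k) (r := r) u hu hu2 hn (1 / 10 ^ 5) (by positivity)
    (hr.trans (by norm_num))
  have hup := Z4_upper (k := k) (r := r) x u xb hxb hx hu hu2 (1 / 10 ^ 5) (1 / 10 ^ 7)
    (1 / 10 ^ 14) (by positivity) (by norm_num) (by positivity) hε
  obtain ⟨w, hw⟩ : ∃ w : ℝ, w = 1 / 10 ^ 5 := ⟨_, rfl⟩
  rw [← hw] at hg hup
  have hC := choose4_le k
  have hCpos : (0 : ℝ) < ((4 * k).choose 4 : ℝ) := by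
    have : 0 < (4 * k).choose 4 := Nat.choose_pos (by omega)
    exact_mod_cast this
  -- exact evaluation
  have hev : 𝔼 e : L4 k r ≃ α, gi w u e * Z4 u e =
      (k : ℝ) ^ 4 / (24 * ((4 * k).choose 4 : ℝ)) *
        𝔼 e : L4 k r ≃ α, gi w u e * (24 * es (vin u e) 4) := by
    rw [expect_inn (fun e : L4 k r ≃ α => gi w u e * Z4 u e), Finset.mul_expect]
    refine Finset.expect_congr rfl fun e _ => ?_
    have h1 := mix4 u e
    have h2 : (𝔼 σ : Equiv.Perm ((Fin k × Bool) × Bool),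
        gi w u ((inn σ).trans e) * Z4 u ((inn σ).trans e)) =
        gi w u e * 𝔼 σ : Equiv.Perm ((Fin k × Bool) × Bool),
          X4 false false u ((inn σ).trans e) * X4 true false u ((inn σ).trans e) *
          X4 false true u ((inn σ).trans e) * X4 true true u ((inn σ).trans e) := by
      rw [Finset.mul_expect]
      rfl
    rw [h2, h1]
    field_simp
  have hlow : 𝔼 e : L4 k r ≃ α, (gi w u e * (5 / 10000) - 6 * qR u e) ≤
      𝔼 e : L4 k r ≃ α, gi w u e * (24 * es (vin u e) 4) := by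
    refine Finset.expect_le_expect fun e _ => ?_
    have hq := qR_nonneg u e
    rcases gi_cases w u e with h | ⟨h, hR⟩
    · rw [h]; linarith
    rw [h, one_mul, one_mul, es_four]
    obtain ⟨p1, p2, p2', p3, _, p4⟩ := ps_facts u hu hu2 e
    rw [← hP4] at p4
    have hp1 : |ps (vin u e) 1| ≤ w := by rw [p1, abs_neg]; exact hR
    set s1 := ps (vin u e) 1
    set s2 := ps (vin u e) 2
    set s3 := ps (vin u e) 3
    set s4 := ps (vin u e) 4
    have a1 : 0 ≤ s1 ^ 4 := by positivity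
    have a2 : s1 ^ 2 ≤ w ^ 2 := by
      rw [← sq_abs]; exact pow_le_pow_left₀ (abs_nonneg _) hp1 2
    have a3 : s1 ^ 2 * s2 ≤ w ^ 2 := by
      have : s2 ≤ 1 := by linarith
      nlinarith [sq_nonneg s1]
    have a4 : -w ≤ s1 * s3 := by
      have : |s1 * s3| ≤ w * 1 := by
        rw [abs_mul]
        exact mul_le_mul hp1 p3 (abs_nonneg _) (by positivity)
      linarith [(abs_le.1 this).1]
    have a5 : 1 - 2 * qR u e ≤ s2 ^ 2 := by
      rw [p2]; nlinarith [sq_nonneg (qR u e)]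
    have hwv : 6 * w ^ 2 + 8 * w ≤ 9 / 100000 := by rw [hw]; norm_num
    linarith
  rw [Finset.expect_sub_distrib, ← Finset.expect_mul, ← Finset.mul_expect,
    qR_expect u hu2] at hlow
  have hn2 : (2 : ℝ) ≤ Fintype.card α := by exact_mod_cast hn
  have hrn : (r : ℝ) / (Fintype.card α : ℝ) ≤ 1 / 10 ^ 12 := by
    refine le_trans ?_ hr
    have : (0 : ℝ) ≤ r := by positivity
    exact div_le_div_of_nonneg_left this (by linarith) (by linarith)
  have hlow' : (4 : ℝ) / 10000 ≤ 𝔼 e : L4 k r ≃ α, gi w u e * (24 * es (vin u e) 4) := by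
    norm_num at hrn
    linarith
  have hcoef : (1 : ℝ) / 256 ≤ (k : ℝ) ^ 4 / (24 * ((4 * k).choose 4 : ℝ)) := by
    rw [div_le_div_iff₀ (by norm_num) (by positivity)]
    linarith
  have hfin : (1 : ℝ) / 256 * (4 / 10000) ≤ 𝔼 e : L4 k r ≃ α, gi w u e * Z4 u e := by
    rw [hev]
    exact mul_le_mul hcoef hlow' (by norm_num) (by positivity)
  have hval : w ^ 4 + 3 / 2 * (1 / 10 ^ 7) + 1 / 10 ^ 14 / (2 * (1 / 10 ^ 7)) <
      (1 : ℝ) / 256 * (4 / 10000) := by
    rw [hw]; norm_num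
  linarith

/-- the third moment is not very negative -/
theorem P3_large [Nonempty (L4 k r ≃ α)] (x u : α → ℝ) (xb : ℝ) (hxb : 0 < xb)
    (hx : ∀ a, x a = xb + u a)
    (hu : ∑ a, u a = 0) (hu2 : ∑ a, u a ^ 2 = 1) (hk : 1 ≤ k)
    (hn : 2 ≤ Fintype.card α)
    (hkn : (k : ℝ) / ((Fintype.card α : ℝ) - 1) ≤ 1 / 2)
    (hr : (r : ℝ) / ((Fintype.card α : ℝ) - 1) ≤ 1 / 10 ^ 12)
    (hε : (𝔼 e : L4 k r ≃ α, N2 x e) ≤ 1 / 10 ^ 14) :
    - (1 / 1000) ≤ ∑ a, u a ^ 3 := by
  by_contra hc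
  push Not at hc
  set P3 : ℝ := ∑ a, u a ^ 3 with hP3
  have hg := gi_prob (k := k) (r := r) u hu hu2 hn (1 / 10 ^ 5) (by positivity)
    (hr.trans (by norm_num))
  have hlo := Y4_lower (k := k) (r := r) x u xb hxb hx hu hu2 (1 / 10 ^ 5) (1 / 10 ^ 7)
    (1 / 10 ^ 14) (by positivity) (by norm_num) (by positivity) hε hn hkn
  obtain ⟨w, hw⟩ : ∃ w : ℝ, w = 1 / 10 ^ 5 := ⟨_, rfl⟩
  rw [← hw] at hg hlo
  have hC := choose3_le k
  have hCpos : (0 : ℝ) < ((4 * k).choose 3 : ℝ) := by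
    have : 0 < (4 * k).choose 3 := Nat.choose_pos (by omega)
    exact_mod_cast this
  have hev : 𝔼 e : L4 k r ≃ α, gi w u e * Y4 u e =
      4 * (k : ℝ) ^ 3 / (6 * ((4 * k).choose 3 : ℝ)) *
        𝔼 e : L4 k r ≃ α, gi w u e * (6 * es (vin u e) 3) := by
    rw [expect_inn (fun e : L4 k r ≃ α => gi w u e * Y4 u e), Finset.mul_expect]
    refine Finset.expect_congr rfl fun e _ => ?_
    have h1 := mix3 u e
    have h2 : (𝔼 σ : Equiv.Perm ((Fin k × Bool) × Bool),
        gi w u ((inn σ).trans e) * Y4 u ((inn σ).trans e)) =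
        gi w u e * 𝔼 σ : Equiv.Perm ((Fin k × Bool) × Bool),
      (X4 false false u ((inn σ).trans e) * X4 true false u ((inn σ).trans e) *
        X4 false true u ((inn σ).trans e) +
      X4 false false u ((inn σ).trans e) * X4 true false u ((inn σ).trans e) *
        X4 true true u ((inn σ).trans e) +
      X4 false false u ((inn σ).trans e) * X4 false true u ((inn σ).trans e) *
        X4 true true u ((inn σ).trans e) +
      X4 true false u ((inn σ).trans e) * X4 false true u ((inn σ).trans e) *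
        X4 true true u ((inn σ).trans e)) := by
      rw [Finset.mul_expect]
      rfl
    rw [h2, h1]
    field_simp
  have hup : 𝔼 e : L4 k r ≃ α, gi w u e * (6 * es (vin u e) 3) ≤
      𝔼 e : L4 k r ≃ α, (2 * qR u e - gi w u e * (19 / 10000)) := by
    refine Finset.expect_le_expect fun e _ => ?_
    have hq := qR_nonneg u e
    rcases gi_cases w u e with h | ⟨h, hR⟩
    · rw [h]; linarith
    rw [h, one_mul, one_mul, es_three]
    obtain ⟨p1, p2, p2', _, p3, _⟩ := ps_facts u hu hu2 e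
    rw [← hP3] at p3
    have hp1 : |ps (vin u e) 1| ≤ w := by rw [p1, abs_neg]; exact hR
    set s1 := ps (vin u e) 1
    set s2 := ps (vin u e) 2
    set s3 := ps (vin u e) 3
    have hw0 : 0 ≤ w := by rw [hw]; positivity
    have hw1 : w ≤ 1 := by rw [hw]; norm_num
    have a1 : s1 ^ 3 ≤ w := by
      have h1 : |s1 ^ 3| ≤ w := by
        rw [abs_pow]
        calc |s1| ^ 3 ≤ w ^ 3 := pow_le_pow_left₀ (abs_nonneg _) hp1 3
          _ ≤ w ^ 1 := pow_le_pow_of_le_one hw0 hw1 (by norm_num)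
          _ = w := pow_one w
      exact (abs_le.1 h1).2
    have a2 : -w ≤ s1 * s2 := by
      have h1 : |s1 * s2| ≤ w * 1 := by
        rw [abs_mul, abs_of_nonneg p2']
        exact mul_le_mul hp1 (by linarith) p2' hw0
      linarith [(abs_le.1 h1).1]
    have hwv : 4 * w ≤ 4 / 100000 := by rw [hw]; norm_num
    linarith
  rw [Finset.expect_sub_distrib, ← Finset.expect_mul, ← Finset.mul_expect,
    qR_expect u hu2] at hup
  have hn2 : (2 : ℝ) ≤ Fintype.card α := by exact_mod_cast hn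
  have hrn : (r : ℝ) / (Fintype.card α : ℝ) ≤ 1 / 10 ^ 12 := by
    refine le_trans ?_ hr
    have : (0 : ℝ) ≤ r := by positivity
    exact div_le_div_of_nonneg_left this (by linarith) (by linarith)
  have hup' : 𝔼 e : L4 k r ≃ α, gi w u e * (6 * es (vin u e) 3) ≤ -(18 / 10000 : ℝ) := by
    norm_num at hrn
    linarith
  have hcoef : (1 : ℝ) / 16 ≤ 4 * (k : ℝ) ^ 3 / (6 * ((4 * k).choose 3 : ℝ)) := by
    rw [div_le_div_iff₀ (by norm_num) (by positivity)]
    linarith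
  have hfin : 𝔼 e : L4 k r ≃ α, gi w u e * Y4 u e ≤ (1 : ℝ) / 16 * -(18 / 10000) := by
    rw [hev]
    set c : ℝ := 4 * (k : ℝ) ^ 3 / (6 * ((4 * k).choose 3 : ℝ))
    set E : ℝ := 𝔼 e : L4 k r ≃ α, gi w u e * (6 * es (vin u e) 3)
    nlinarith
  have hval : 2 * w + 13 / 2 * (1 / 10 ^ 7) + 1 / 10 ^ 14 / (2 * (1 / 10 ^ 7)) <
      (1 : ℝ) / 16 * (18 / 10000) := by
    rw [hw]; norm_num
  linarith

omit [DecidableEq α] in
/-- a dominating element -/
theorem dominating (u : α → ℝ) (hu2 : ∑ a, u a ^ 2 = 1) (h4 : 4999 / 10000 ≤ ∑ a, u a ^ 4)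
    (h3 : - (1 / 1000) ≤ ∑ a, u a ^ 3) : ∃ a, 0 < u a ∧ 49 / 100 ≤ u a ^ 2 := by
  classical
  have hb : ∃ b, 4999 / 10000 ≤ u b ^ 2 := by
    by_contra hc
    push Not at hc
    have h1 : ∀ a, u a ^ 4 ≤ 4999 / 10000 * u a ^ 2 := by
      intro a
      have := hc a
      have e : u a ^ 4 = u a ^ 2 * u a ^ 2 := by ring
      rw [e]
      nlinarith [sq_nonneg (u a)]
    by_cases hne : ∃ a, u a ≠ 0
    · obtain ⟨a, ha⟩ := hne
      have h2 : ∑ a, u a ^ 4 < ∑ a, 4999 / 10000 * u a ^ 2 := by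
        refine Finset.sum_lt_sum (fun a _ => h1 a) ⟨a, Finset.mem_univ _, ?_⟩
        have := hc a
        have e : u a ^ 4 = u a ^ 2 * u a ^ 2 := by ring
        rw [e]
        have hp : 0 < u a ^ 2 := by positivity
        nlinarith
      rw [← Finset.mul_sum, hu2] at h2
      linarith
    · push Not at hne
      simp [hne] at hu2
  obtain ⟨b, hb⟩ := hb
  by_cases hpos : 0 < u b
  · exact ⟨b, hpos, by linarith⟩
  push Not at hpos
  have hb7 : u b ≤ -(707 / 1000) := by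
    by_contra hc
    push Not at hc
    nlinarith
  have hb3 : u b ^ 3 ≤ -(3534 / 10000) := by
    have e : u b ^ 3 = u b * u b ^ 2 := by ring
    rw [e]
    nlinarith
  have hsum3 : 3524 / 10000 ≤ ∑ a ∈ univ.erase b, u a ^ 3 := by
    have := Finset.add_sum_erase univ (fun a => u a ^ 3) (Finset.mem_univ b)
    linarith
  have hsum2 : ∑ a ∈ univ.erase b, u a ^ 2 ≤ 5001 / 10000 := by
    have := Finset.add_sum_erase univ (fun a => u a ^ 2) (Finset.mem_univ b)
    linarith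
  by_contra hc
  push Not at hc
  have h1 : ∀ a ∈ univ.erase b, u a ^ 3 ≤ 7 / 10 * u a ^ 2 := by
    intro a _
    have h7 : u a ≤ 7 / 10 := by
      by_contra hcc
      push Not at hcc
      have := hc a (by linarith)
      nlinarith
    have e : u a ^ 3 = u a * u a ^ 2 := by ring
    rw [e]
    exact mul_le_mul_of_nonneg_right h7 (sq_nonneg _)
  have h2 : ∑ a ∈ univ.erase b, u a ^ 3 ≤ 7 / 10 * ∑ a ∈ univ.erase b, u a ^ 2 := by
    rw [Finset.mul_sum]; exact Finset.sum_le_sum h1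
  linarith

/-- the total is not too large -/
theorem T_le [Nonempty (L4 k r ≃ α)] (x u : α → ℝ) (xb : ℝ) (hx : ∀ a, x a = xb + u a)
    (hu : ∑ a, u a = 0) (hu2 : ∑ a, u a ^ 2 = 1)
    (hn : 2 ≤ Fintype.card α)
    (hkn : (k : ℝ) / ((Fintype.card α : ℝ) - 1) ≤ 1 / 2)
    (hε : (𝔼 e : L4 k r ≃ α, N2 x e) ≤ 1 / 10 ^ 14) : (k : ℝ) * xb ≤ 24 / 10 := by
  by_contra hc
  push Not at hc
  have h1 := E3_le (k := k) (r := r) u hu hn (24 / 10) (by norm_num) false false
  have h2 := E3_le (k := k) (r := r) u hu hn (24 / 10) (by norm_num) true false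
  rw [hu2, mul_one] at h1 h2
  have h3 : 𝔼 e : L4 k r ≃ α, (1 - E3 u (24 / 10) false false e - E3 u (24 / 10) true false e) ≤
      𝔼 e : L4 k r ≃ α, N2 x e := by
    refine Finset.expect_le_expect fun e _ => ?_
    have p1 := E3_nonneg u (24 / 10) false false e
    have p2 := E3_nonneg u (24 / 10) true false e
    have hN := N2_nonneg x e
    by_cases c1 : (24 / 10 : ℝ) < |X4 false false u e|
    · have : E3 u (24 / 10) false false e = 1 := if_pos c1
      linarith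
    by_cases c2 : (24 / 10 : ℝ) < |X4 true false u e|
    · have : E3 u (24 / 10) true false e = 1 := if_pos c2
      linarith
    push Not at c1 c2
    have g1 : 0 < X4 false false x e := by
      rw [X4_shift _ _ x u xb hx]
      linarith [(abs_le.1 c1).1]
    have g2 : 0 < X4 true false x e := by
      rw [X4_shift _ _ x u xb hx]
      linarith [(abs_le.1 c2).1]
    rw [N2_of x e (false, false) (true, false) (by simp) g1 g2]
    linarith
  rw [Finset.expect_sub_distrib, Finset.expect_sub_distrib, Fintype.expect_const] at h3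
  have h4 : (k : ℝ) / ((Fintype.card α : ℝ) - 1) / (24 / 10) ^ 2 ≤ 1 / 2 / (24 / 10) ^ 2 :=
    div_le_div_of_nonneg_right hkn (by positivity)
  have h5 : (1 : ℝ) / 2 / (24 / 10) ^ 2 ≤ 1 / 10 := by norm_num
  have h6 := hε.trans (by norm_num : (1 : ℝ) / 10 ^ 14 ≤ 1 / 100)
  linarith

end Pool.Agent.H49.M4
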