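import Mathlib
import Pool.Agent.H49.M4.StrC

open Finset
open scoped BigOperators

namespace Pool.Agent.H49.M4

open Pool.Agent.H49.MMS

section pairs

variable {Λ α : Type} [Fintype Λ] [DecidableEq Λ] [Fintype α] [DecidableEq α]

/-- disjoint pairs of sets of given sizes -/
def dpairs (X : Type) [Fintype X] [DecidableEq X] (a b : ℕ) : Finset (Finset X × Finset X) :=
  (((univ : Finset X).powersetCard a) ×ˢ ((univ : Finset X).powersetCard b)).filter
    (fun p => Disjoint p.1 p.2)

theorem mem_dpairs (a b : ℕ) (p : Finset Λ × Finset Λ) :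
    p ∈ dpairs Λ a b ↔ p.1.card = a ∧ p.2.card = b ∧ Disjoint p.1 p.2 := by
  unfold dpairs
  rw [Finset.mem_filter, Finset.mem_product, Finset.mem_powersetCard, Finset.mem_powersetCard]
  simp [and_assoc]

/-- two pairs of disjoint sets of the same sizes are related by a permutation -/
theorem exists_perm_pair (A B A' B' : Finset Λ) (hAB : Disjoint A B) (hAB' : Disjoint A' B')
    (hA : A.card = A'.card) (hB : B.card = B'.card) :
    ∃ π : Equiv.Perm Λ, A.map π.toEmbedding = A' ∧ B.map π.toEmbedding = B' := by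
  let eA := Finset.equivOfCardEq hA
  let eB := Finset.equivOfCardEq hB
  obtain ⟨π, hπ⟩ := Equiv.Perm.exists_extending_pair
    (Sum.elim (fun a : A => (a : Λ)) (fun b : B => (b : Λ)))
    (Sum.elim (fun a : A => ((eA a : A') : Λ)) (fun b : B => ((eB b : B') : Λ)))
    (by
      rintro (a | a) (b | b) h
      · simp only [Sum.elim_inl] at h
        rw [Subtype.ext h]
      · simp only [Sum.elim_inl, Sum.elim_inr] at h
        exact absurd (h ▸ b.2) (Finset.disjoint_left.1 hAB a.2)
      · simp only [Sum.elim_inl, Sum.elim_inr] at h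
        exact absurd (h ▸ a.2) (Finset.disjoint_left.1 hAB b.2)
      · simp only [Sum.elim_inr] at h
        rw [Subtype.ext h])
    (by
      rintro (a | a) (b | b) h
      · simp only [Sum.elim_inl] at h
        rw [eA.injective (Subtype.ext h)]
      · simp only [Sum.elim_inl, Sum.elim_inr] at h
        exact absurd (h ▸ (eB b).2) (Finset.disjoint_left.1 hAB' (eA a).2)
      · simp only [Sum.elim_inl, Sum.elim_inr] at h
        exact absurd (h ▸ (eB a).2) (Finset.disjoint_left.1 hAB' (eA b).2)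
      · simp only [Sum.elim_inr] at h
        rw [eB.injective (Subtype.ext h)])
  refine ⟨π, ?_, ?_⟩
  · refine Finset.eq_of_subset_of_card_le ?_ (by rw [Finset.card_map, hA])
    intro x hx
    obtain ⟨a, ha, rfl⟩ := Finset.mem_map.1 hx
    have := hπ (Sum.inl ⟨a, ha⟩)
    simp only [Sum.elim_inl] at this
    rw [Equiv.coe_toEmbedding, this]
    exact (eA _).2
  · refine Finset.eq_of_subset_of_card_le ?_ (by rw [Finset.card_map, hB])
    intro x hx
    obtain ⟨a, ha, rfl⟩ := Finset.mem_map.1 hx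
    have := hπ (Sum.inr ⟨a, ha⟩)
    simp only [Sum.elim_inr] at this
    rw [Equiv.coe_toEmbedding, this]
    exact (eB _).2

theorem sum_dpairs (a b : ℕ) (F : Finset α → Finset α → ℝ) :
    ∑ p ∈ dpairs α a b, F p.1 p.2 =
      ∑ S ∈ (univ : Finset α).powersetCard a, ∑ T ∈ (Sᶜ).powersetCard b, F S T := by
  unfold dpairs
  rw [Finset.sum_filter, Finset.sum_product]
  refine Finset.sum_congr rfl fun S _ => ?_
  rw [← Finset.sum_filter]
  refine Finset.sum_congr ?_ fun _ _ => rfl
  ext T
  rw [Finset.mem_filter, Finset.mem_powersetCard, Finset.mem_powersetCard]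
  constructor
  · rintro ⟨⟨_, h2⟩, h3⟩
    exact ⟨fun x hx => Finset.mem_compl.2 (Finset.disjoint_right.1 h3 hx), h2⟩
  · rintro ⟨h1, h2⟩
    exact ⟨⟨Finset.subset_univ _, h2⟩, Finset.disjoint_left.2 fun x hx hx' =>
      (Finset.mem_compl.1 (h1 hx')) hx⟩

theorem card_dpairs (a b : ℕ) : ((dpairs α a b).card : ℝ) =
    ((Fintype.card α).choose a : ℝ) * ((Fintype.card α - a).choose b : ℝ) := by
  have h := sum_dpairs (α := α) a b (fun _ _ => (1 : ℝ))
  rw [Finset.sum_const, nsmul_eq_mul, mul_one] at h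
  rw [h]
  calc ∑ S ∈ (univ : Finset α).powersetCard a, ∑ T ∈ (Sᶜ).powersetCard b, (1 : ℝ)
      = ∑ S ∈ (univ : Finset α).powersetCard a, ((Fintype.card α - a).choose b : ℝ) := by
        refine Finset.sum_congr rfl fun S hS => ?_
        rw [Finset.sum_const, Finset.card_powersetCard, Finset.card_compl,
          (Finset.mem_powersetCard.1 hS).2, nsmul_eq_mul, mul_one]
    _ = _ := by
        rw [Finset.sum_const, Finset.card_powersetCard, Finset.card_univ, nsmul_eq_mul]

/-- the law of the images of two disjoint sets -/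
theorem law_set2 [Nonempty (Λ ≃ α)] (A B : Finset Λ) (hAB : Disjoint A B)
    (F : Finset α → Finset α → ℝ) :
    𝔼 e : Λ ≃ α, F (A.map e.toEmbedding) (B.map e.toEmbedding) =
      (∑ S ∈ (univ : Finset α).powersetCard A.card, ∑ T ∈ (Sᶜ).powersetCard B.card, F S T) /
      (((Fintype.card α).choose A.card : ℝ) * ((Fintype.card α - A.card).choose B.card : ℝ)) := by
  have key : ∀ p ∈ dpairs Λ A.card B.card,
      𝔼 e : Λ ≃ α, F (p.1.map e.toEmbedding) (p.2.map e.toEmbedding) =
      𝔼 e : Λ ≃ α, F (A.map e.toEmbedding) (B.map e.toEmbedding) := by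
    intro p hp
    rw [mem_dpairs] at hp
    obtain ⟨π, h1, h2⟩ := exists_perm_pair A B p.1 p.2 hAB hp.2.2 hp.1.symm hp.2.1.symm
    rw [← expect_pre π (fun e : Λ ≃ α => F (A.map e.toEmbedding) (B.map e.toEmbedding))]
    refine Finset.expect_congr rfl fun e _ => ?_
    rw [← h1, ← h2, Finset.map_map, Finset.map_map]
    rfl
  have hne : (dpairs Λ A.card B.card).Nonempty :=
    ⟨(A, B), (mem_dpairs _ _ _).2 ⟨rfl, rfl, hAB⟩⟩
  calc 𝔼 e : Λ ≃ α, F (A.map e.toEmbedding) (B.map e.toEmbedding)
      = 𝔼 _p ∈ dpairs Λ A.card B.card,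
          𝔼 e : Λ ≃ α, F (A.map e.toEmbedding) (B.map e.toEmbedding) := by
        rw [Finset.expect_const hne]
    _ = 𝔼 p ∈ dpairs Λ A.card B.card,
          𝔼 e : Λ ≃ α, F (p.1.map e.toEmbedding) (p.2.map e.toEmbedding) :=
        Finset.expect_congr rfl fun p h => (key p h).symm
    _ = 𝔼 e : Λ ≃ α, 𝔼 p ∈ dpairs Λ A.card B.card,
          F (p.1.map e.toEmbedding) (p.2.map e.toEmbedding) := Finset.expect_comm _ _ _
    _ = 𝔼 _e : Λ ≃ α, 𝔼 q ∈ dpairs α A.card B.card, F q.1 q.2 := by
        refine Finset.expect_congr rfl fun e _ => ?_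
        refine Finset.expect_equiv (Equiv.prodCongr (Equiv.finsetCongr e)
          (Equiv.finsetCongr e)) ?_ ?_
        · intro q
          rw [mem_dpairs, mem_dpairs]
          simp [Equiv.finsetCongr]
        · intro q _
          rfl
    _ = 𝔼 q ∈ dpairs α A.card B.card, F q.1 q.2 := Fintype.expect_const _
    _ = _ := by
        rw [Finset.expect_eq_sum_div_card, card_dpairs, sum_dpairs]

end pairs

end Pool.Agent.H49.M4
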