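import Mathlib
import Pool.Agent.H49.M4.GamA

open Finset
open scoped BigOperators

namespace Pool.Agent.H49.M4

open Pool.Agent.H49.MMS

/-- three blocks shifted: if the total is large then often a shifted block is positive -/
theorem shift3 {Y : Type} [Fintype Y] [DecidableEq Y] (K r' : ℕ) (x : Y → ℝ) (c W : ℝ)
    (hK : 1 ≤ K) (hcard : Fintype.card Y = 3 * K + r') (hW : 0 < W)
    (hn : 2 ≤ Fintype.card Y)
    (hT : W + r' * ((∑ a, x a) / Fintype.card Y) < ∑ a, x a + 3 * c)
    (hV : (r' : ℝ) / (Fintype.card Y - 1) *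
      (∑ a, (x a - (∑ a, x a) / Fintype.card Y) ^ 2) / W ^ 2 ≤ 1 / 10) :
    3 / 10 * ((3 * K + r').choose K : ℝ) ≤
      ∑ S ∈ (univ : Finset Y).powersetCard K, (if 0 < c + ∑ a ∈ S, x a then (1 : ℝ) else 0) := by
  have hne : Nonempty (L3 K r' ≃ Y) := ⟨Fintype.equivOfCardEq (by rw [card_L3, hcard])⟩
  have hK0 : (0 : ℝ) < K := by exact_mod_cast hK
  have hN : (0 : ℝ) < Fintype.card Y := by
    have : 0 < Fintype.card Y := by omega
    exact_mod_cast this
  set μ : ℝ := (∑ a, x a) / Fintype.card Y with hμ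
  have hμN : (Fintype.card Y : ℝ) * μ = ∑ a, x a := by rw [hμ]; field_simp
  have hg := good3 (k := K) (r := r') (fun a => x a + c / K) hcard
  have hv : ∑ a, (x a - μ) = 0 := by
    rw [Finset.sum_sub_distrib, Finset.sum_const, Finset.card_univ, nsmul_eq_mul, hμN, sub_self]
  have hr3 := rem3 (k := K) (r := r') (fun a => x a - μ) W hW hv hn
  have hsh : ∀ S ∈ (univ : Finset Y).powersetCard K, ∑ a ∈ S, (x a + c / K) = c + ∑ a ∈ S, x a := by
    intro S hS
    rw [Finset.sum_add_distrib, Finset.sum_const, (Finset.mem_powersetCard.1 hS).2, nsmul_eq_mul]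
    field_simp
    ring
  have hgood : goodC (fun a => x a + c / K) K =
      ∑ S ∈ (univ : Finset Y).powersetCard K, (if 0 < c + ∑ a ∈ S, x a then (1 : ℝ) else 0) := by
    unfold goodC
    exact Finset.sum_congr rfl fun S hS => by rw [hsh S hS]
  have hbad : 𝔼 e : L3 K r' ≃ Y, bad3 (fun a => x a + c / K) e ≤
      𝔼 e : L3 K r' ≃ Y, (if W < YR (fun a => x a - μ) e then (1 : ℝ) else 0) := by
    refine Finset.expect_le_expect fun e _ => ?_
    unfold bad3
    split_ifs with h1 h2 h2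
    · exact le_rfl
    · exfalso
      obtain ⟨b1, b2, b3⟩ := h1
      have s := sum3 x e
      have e1 : XP (P3 K r') false (fun a => x a + c / K) e = c + XP (P3 K r') false x e := by
        rw [XP_shift (P3 K r') false (fun a => x a + c / K) x (c / K) (fun a => by ring) e,
          Fintype.card_fin]
        field_simp
      have e2 : XP (P3 K r') true (fun a => x a + c / K) e = c + XP (P3 K r') true x e := by
        rw [XP_shift (P3 K r') true (fun a => x a + c / K) x (c / K) (fun a => by ring) e,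
          Fintype.card_fin]
        field_simp
      have e3 : Y3 (fun a => x a + c / K) e = c + Y3 x e := by
        unfold Y3
        rw [Finset.sum_add_distrib, Finset.sum_const, Finset.card_univ, Fintype.card_fin,
          nsmul_eq_mul]
        field_simp
        ring
      have e4 : YR (fun a => x a - μ) e = YR x e - r' * μ := by
        unfold YR
        rw [Finset.sum_sub_distrib, Finset.sum_const, Finset.card_univ, Fintype.card_fin,
          nsmul_eq_mul]
      rw [e1] at b1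
      rw [e2] at b2
      rw [e3] at b3
      rw [e4] at h2
      apply h2
      linarith
    · norm_num
    · exact le_rfl
  have hch : (0 : ℝ) < ((3 * K + r').choose K : ℝ) := by
    exact_mod_cast Nat.choose_pos (by omega)
  rw [hgood] at hg
  have h5 : 3 / 10 ≤ (∑ S ∈ (univ : Finset Y).powersetCard K,
      (if 0 < c + ∑ a ∈ S, x a then (1 : ℝ) else 0)) / ((3 * K + r').choose K : ℝ) := by
    linarith
  rw [le_div_iff₀ hch] at h5
  exact h5

variable {α : Type} [Fintype α] [DecidableEq α] {k r : ℕ}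

omit [Fintype α] in
theorem var_le (Y : Finset α) (x u : α → ℝ) (xb : ℝ) (hx : ∀ a, x a = xb + u a) :
    ∑ a ∈ Y, (x a - (∑ a ∈ Y, x a) / Y.card) ^ 2 ≤ ∑ a ∈ Y, u a ^ 2 := by
  by_cases hY : Y.card = 0
  · rw [Finset.card_eq_zero] at hY
    subst hY; simp
  have hN : (0 : ℝ) < Y.card := by exact_mod_cast Nat.pos_of_ne_zero hY
  set μ : ℝ := (∑ a ∈ Y, u a) / Y.card with hμ
  have hμN : (Y.card : ℝ) * μ = ∑ a ∈ Y, u a := by rw [hμ]; field_simp
  have h1 : ∀ a ∈ Y, (x a - (∑ a ∈ Y, x a) / Y.card) ^ 2 = u a ^ 2 - 2 * μ * u a + μ ^ 2 := by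
    intro a _
    have : (∑ a ∈ Y, x a) / Y.card = xb + μ := by
      rw [Finset.sum_congr rfl fun a _ => hx a, Finset.sum_add_distrib, Finset.sum_const,
        nsmul_eq_mul, hμ]
      field_simp
    rw [this, hx a]; ring
  rw [Finset.sum_congr rfl h1, Finset.sum_add_distrib, Finset.sum_sub_distrib, ← Finset.mul_sum,
    ← hμN, Finset.sum_const, nsmul_eq_mul]
  have := mul_nonneg hN.le (sq_nonneg μ)
  linarith

/-- many positive sets through the big element avoiding a fixed set of small positive sum -/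
theorem beta70 (x u : α → ℝ) (xb : ℝ) (hxb : 0 < xb) (hx : ∀ a, x a = xb + u a)
    (hu : ∑ a, u a = 0) (hu2 : ∑ a, u a ^ 2 = 1)
    (hcard : Fintype.card α = 4 * k + r) (hk : (10 : ℝ) ^ 6 ≤ k)
    (hr : (r : ℝ) * 10 ^ 6 ≤ k) (hT : (k : ℝ) * xb ≤ 24 / 10)
    (a1 : α) (ha : 0 < u a1) (ha2 : 49 / 100 ≤ u a1 ^ 2)
    (S : Finset α) (hS : S.card = k) (haS : a1 ∉ S) (hS0 : 0 < ∑ a ∈ S, x a)
    (hS1 : ∑ a ∈ S, x a < 19 / 10 * x a1) :
    3 / 10 * ((3 * k + r - 1).choose (k - 1) : ℝ) ≤ cnt x (Sᶜ.erase a1) (k - 1) (x a1) := by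
  have hk1 : 1 ≤ k := by
    have : (1 : ℝ) ≤ k := le_trans (by norm_num) hk
    exact_mod_cast this
  have hk6 : 10 ^ 6 ≤ k := by exact_mod_cast hk
  have hx1 : 7 / 10 ≤ x a1 := by
    rw [hx]
    nlinarith
  set Y : Finset α := Sᶜ.erase a1 with hY
  have ha1 : a1 ∈ Sᶜ := Finset.mem_compl.2 haS
  have hYc : Y.card = 3 * (k - 1) + (r + 2) := by
    rw [hY, Finset.card_erase_of_mem ha1, Finset.card_compl, hcard, hS]
    omega
  have hYc' : Y.card = 3 * k + r - 1 := by rw [hYc]; omega
  have hYR : (Y.card : ℝ) = 3 * k + r - 1 := by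
    rw [hYc]
    have : ((k - 1 : ℕ) : ℝ) = k - 1 := by push_cast [Nat.cast_sub hk1]; ring
    push_cast
    rw [this]; ring
  have hr0 : (0 : ℝ) ≤ r := by positivity
  have hsumY : ∑ a ∈ Y, x a = (4 * k + r) * xb - x a1 - ∑ a ∈ S, x a := by
    have h1 := Finset.sum_erase_add (Sᶜ) x ha1
    have h2 := Finset.sum_add_sum_compl S x
    have h3 : ∑ a, x a = (4 * k + r) * xb := by
      rw [Finset.sum_congr rfl fun a _ => hx a, Finset.sum_add_distrib, hu, Finset.sum_const,
        Finset.card_univ, hcard, nsmul_eq_mul]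
      push_cast; ring
    rw [← hY] at h1
    linarith
  have hTT : (4 * k + r) * xb ≤ 10 := by
    have : (r : ℝ) * xb ≤ k * xb / 10 := by nlinarith
    linarith
  have hTpos : 0 < (4 * k + r) * xb := by positivity
  have hmain := shift3 (Y := Y) (k - 1) (r + 2) (fun a => x a) (x a1) (6 / 100) (by omega)
    (by rw [Fintype.card_coe, hYc]) (by norm_num) (by rw [Fintype.card_coe, hYc]; omega)
    (by
      rw [Fintype.card_coe, Finset.sum_coe_sort Y x, hYR]
      have h1 : ((r + 2 : ℕ) : ℝ) * ((∑ a ∈ Y, x a) / (3 * k + r - 1)) ≤ 1 / 100 := by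
        have h2 : ∑ a ∈ Y, x a ≤ 10 := by linarith
        have h3 : (0 : ℝ) < 3 * k + r - 1 := by linarith
        rw [mul_div_assoc', div_le_iff₀ h3]
        push_cast
        have : ((r : ℝ) + 2) * ∑ a ∈ Y, x a ≤ (r + 2) * 10 :=
          mul_le_mul_of_nonneg_left h2 (by positivity)
        linarith
      linarith)
    (by
      rw [Fintype.card_coe, Finset.sum_coe_sort Y x, hYR]
      have h1 : ∑ a : Y, ((a : α) |> x |> fun t => (t - (∑ a ∈ Y, x a) / (3 * k + r - 1)) ^ 2) ≤ 1 := by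
        have h2 := var_le Y x u xb hx
        rw [hYR] at h2
        have h3 : ∑ a ∈ Y, u a ^ 2 ≤ 1 := by
          rw [← hu2]
          exact Finset.sum_le_sum_of_subset_of_nonneg (Finset.subset_univ _)
            fun _ _ _ => sq_nonneg _
        rw [← Finset.sum_coe_sort Y] at h2
        exact h2.trans h3
      have h4 : ((r + 2 : ℕ) : ℝ) / (3 * k + r - 1 - 1) ≤ 1 / 10 ^ 5 := by
        rw [div_le_div_iff₀ (by linarith) (by norm_num)]
        push_cast
        linarith
      have h5 : (0 : ℝ) ≤ ((r + 2 : ℕ) : ℝ) / (3 * k + r - 1 - 1) :=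
        div_nonneg (by positivity) (by linarith)
      rw [div_le_iff₀ (by norm_num)]
      calc _ ≤ 1 / 10 ^ 5 * (1 : ℝ) := by
            refine mul_le_mul h4 h1 ?_ (by norm_num)
            exact Finset.sum_nonneg fun _ _ => sq_nonneg _
        _ ≤ _ := by norm_num)
  have e1 : 3 * (k - 1) + (r + 2) = 3 * k + r - 1 := by omega
  rw [e1] at hmain
  refine hmain.trans (le_of_eq ?_)
  unfold cnt
  rw [sum_powersetCard_subtype Y (k - 1) (fun S => if 0 < x a1 + ∑ a ∈ S, x a then (1 : ℝ) else 0)]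
  refine Finset.sum_congr rfl fun S hS => ?_
  rw [Finset.sum_map]
  rfl

/-- indicator of a positive sum -/
noncomputable def gd (x : α → ℝ) (S : Finset α) : ℝ := if 0 < ∑ a ∈ S, x a then 1 else 0

omit [Fintype α] [DecidableEq α] in
theorem gd_nonneg (x : α → ℝ) (S : Finset α) : 0 ≤ gd x S := by
  unfold gd; split_ifs <;> norm_num

/-- indicator: avoids the big element and has small positive sum -/
noncomputable def g19 (x : α → ℝ) (a1 : α) (S : Finset α) : ℝ :=
  if a1 ∉ S ∧ 0 < ∑ a ∈ S, x a ∧ ∑ a ∈ S, x a < 19 / 10 * x a1 then 1 else 0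

omit [Fintype α] in
theorem g19_nonneg (x : α → ℝ) (a1 : α) (S : Finset α) : 0 ≤ g19 x a1 S := by
  unfold g19; split_ifs <;> norm_num

theorem map_KB (b h : Bool) (x : α → ℝ) (e : L4 k r ≃ α) :
    ∑ a ∈ (KB k r b h).map e.toEmbedding, x a = X4 b h x e := by
  rw [Finset.sum_map]
  exact sum_KB b h x e

theorem N2_pairs [Nonempty (L4 k r ≃ α)] (x : α → ℝ) (hcard : Fintype.card α = 4 * k + r) :
    ∑ S ∈ (univ : Finset α).powersetCard k, ∑ T ∈ (Sᶜ).powersetCard k, gd x S * gd x T ≤
      (𝔼 e : L4 k r ≃ α, N2 x e) *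
        (((4 * k + r).choose k : ℝ) * ((3 * k + r).choose k : ℝ)) := by
  have hdis : Disjoint (KB k r false false) (KB k r true false) := by
    rw [Finset.disjoint_left]
    intro l hl hl'
    simp only [KB, Finset.mem_map, Finset.mem_univ, true_and, Function.Embedding.coeFn_mk] at hl hl'
    obtain ⟨j, rfl⟩ := hl
    obtain ⟨i, hi⟩ := hl'
    simp at hi
  have h := law_set2 (Λ := L4 k r) (α := α) (KB k r false false) (KB k r true false) hdis
    (fun S T => gd x S * gd x T)
  rw [card_KB, card_KB, hcard] at h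
  have e1 : 4 * k + r - k = 3 * k + r := by omega
  rw [e1] at h
  have h2 : 𝔼 e : L4 k r ≃ α, gd x ((KB k r false false).map e.toEmbedding) *
      gd x ((KB k r true false).map e.toEmbedding) ≤ 𝔼 e : L4 k r ≃ α, N2 x e := by
    refine Finset.expect_le_expect fun e _ => ?_
    unfold gd
    rw [map_KB, map_KB]
    have hN := N2_nonneg x e
    by_cases g1 : 0 < X4 false false x e
    · by_cases g2 : 0 < X4 true false x e
      · rw [N2_of x e (false, false) (true, false) (by simp) g1 g2, if_pos g1, if_pos g2]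
        norm_num
      · rw [if_neg g2, mul_zero]; exact hN
    · rw [if_neg g1, zero_mul]; exact hN
  rw [h] at h2
  have hpos : (0 : ℝ) < ((4 * k + r).choose k : ℝ) * ((3 * k + r).choose k : ℝ) := by
    have a1 : 0 < (4 * k + r).choose k := Nat.choose_pos (by omega)
    have a2 : 0 < (3 * k + r).choose k := Nat.choose_pos (by omega)
    have : 0 < (4 * k + r).choose k * (3 * k + r).choose k := Nat.mul_pos a1 a2
    exact_mod_cast this
  rwa [div_le_iff₀ hpos] at h2

/-- few sets avoiding the big element have small positive sum -/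
theorem n19_le [Nonempty (L4 k r ≃ α)] (x u : α → ℝ) (xb : ℝ) (hxb : 0 < xb)
    (hx : ∀ a, x a = xb + u a)
    (hu : ∑ a, u a = 0) (hu2 : ∑ a, u a ^ 2 = 1)
    (hcard : Fintype.card α = 4 * k + r) (hk : (10 : ℝ) ^ 6 ≤ k)
    (hr : (r : ℝ) * 10 ^ 6 ≤ k) (hT : (k : ℝ) * xb ≤ 24 / 10)
    (a1 : α) (ha : 0 < u a1) (ha2 : 49 / 100 ≤ u a1 ^ 2) (ε : ℝ)
    (hε : (𝔼 e : L4 k r ≃ α, N2 x e) ≤ ε) :
    ∑ S ∈ (univ : Finset α).powersetCard k, g19 x a1 S ≤ 11 * ε * ((4 * k + r).choose k : ℝ) := by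
  have hk1 : 1 ≤ k := by
    have : (1 : ℝ) ≤ k := le_trans (by norm_num) hk
    exact_mod_cast this
  have hε0 : 0 ≤ ε := le_trans (Finset.expect_nonneg fun e _ => N2_nonneg x e) hε
  have hN := N2_pairs (k := k) (r := r) x hcard
  have hlow : ∑ S ∈ (univ : Finset α).powersetCard k, g19 x a1 S *
      (3 / 10 * ((3 * k + r - 1).choose (k - 1) : ℝ)) ≤
      ∑ S ∈ (univ : Finset α).powersetCard k, ∑ T ∈ (Sᶜ).powersetCard k, gd x S * gd x T := by
    refine Finset.sum_le_sum fun S hS => ?_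
    have hSc := (Finset.mem_powersetCard.1 hS).2
    unfold g19
    split_ifs with h
    · rw [one_mul]
      refine (beta70 x u xb hxb hx hu hu2 hcard hk hr hT a1 ha ha2 S hSc h.1 h.2.1 h.2.2).trans ?_
      have h1 : gd x S = 1 := if_pos h.2.1
      have h2 : ∑ T ∈ (Sᶜ).powersetCard k, gd x S * gd x T = cnt x (Sᶜ) k 0 := by
        rw [h1]
        unfold cnt gd
        simp only [one_mul, zero_add]
      rw [h2]
      have ha1 : a1 ∈ Sᶜ := Finset.mem_compl.2 h.1
      have h3 := cnt_insert x (Sᶜ.erase a1) (k - 1) 0 a1 (Finset.notMem_erase _ _)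
      rw [Finset.insert_erase ha1, Nat.sub_add_cancel hk1, zero_add] at h3
      rw [h3]
      have := cnt_nonneg x (Sᶜ.erase a1) k 0
      linarith
    · rw [zero_mul]
      exact Finset.sum_nonneg fun T _ => mul_nonneg (gd_nonneg _ _) (gd_nonneg _ _)
  rw [← Finset.sum_mul] at hlow
  set n19 : ℝ := ∑ S ∈ (univ : Finset α).powersetCard k, g19 x a1 S with hn19
  set C1 : ℝ := ((4 * k + r).choose k : ℝ)
  set C2 : ℝ := ((3 * k + r).choose k : ℝ)
  set C3 : ℝ := ((3 * k + r - 1).choose (k - 1) : ℝ) with hC3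
  have hC1 : 0 ≤ C1 := by positivity
  have hC2 : 0 ≤ C2 := by positivity
  have hrel : (3 * k + r : ℝ) * C3 = C2 * k := by
    have h := Nat.add_one_mul_choose_eq (3 * k + r - 1) (k - 1)
    have e1 : 3 * k + r - 1 + 1 = 3 * k + r := by omega
    have e2 : k - 1 + 1 = k := by omega
    rw [e1, e2] at h
    have h' : (((3 * k + r) * (3 * k + r - 1).choose (k - 1) : ℕ) : ℝ) =
      (((3 * k + r).choose k * k : ℕ) : ℝ) := by rw [h]
    push_cast at h'
    exact h'
  have hC3pos : 0 < C3 := by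
    have : 0 < (3 * k + r - 1).choose (k - 1) := Nat.choose_pos (by omega)
    rw [hC3]
    exact_mod_cast this
  have hk0 : (0 : ℝ) < k := by
    have : 0 < k := hk1
    exact_mod_cast this
  have hn0 : 0 ≤ n19 := Finset.sum_nonneg fun S _ => g19_nonneg _ _ _
  have h4 : n19 * (3 / 10 * C3) ≤ ε * (C1 * C2) :=
    hlow.trans (hN.trans (mul_le_mul_of_nonneg_right hε (by positivity)))
  have h5 : C2 = (3 * k + r) * C3 / k := by
    rw [hrel]; field_simp
  rw [h5] at h4
  have h6 : (3 * k + r : ℝ) / k ≤ 33 / 10 := by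
    rw [div_le_iff₀ hk0]
    linarith
  have h7 : n19 * (3 / 10 * C3) ≤ (33 / 10 * ε * C1) * C3 := by
    refine h4.trans ?_
    have : ε * (C1 * ((3 * k + r) * C3 / k)) = (ε * C1 * C3) * ((3 * k + r) / k) := by ring
    rw [this]
    have h8 : 0 ≤ ε * C1 * C3 := by positivity
    calc (ε * C1 * C3) * ((3 * k + r) / k) ≤ (ε * C1 * C3) * (33 / 10) :=
          mul_le_mul_of_nonneg_left h6 h8
      _ = _ := by ring
  have h8 : (n19 * (3 / 10)) * C3 ≤ (33 / 10 * ε * C1) * C3 := by linarith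
  have h9 := le_of_mul_le_mul_right h8 hC3pos
  linarith

end Pool.Agent.H49.M4
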