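import Mathlib
import Pool.Agent.H49.M4.GamB

open Finset
open scoped BigOperators

namespace Pool.Agent.H49.M4

open Pool.Agent.H49.MMS

variable {α : Type} [Fintype α] [DecidableEq α] {k r : ℕ}

/-- the big element is in the second half and both of its blocks are bad -/
noncomputable def FF (x : α → ℝ) (a1 : α) (e : L4 k r ≃ α) : ℝ :=
  inP (PB k r true) a1 e * bp x true e

omit [Fintype α] in
theorem inP_cases (h : Bool) (a1 : α) (e : L4 k r ≃ α) :
    inP (PB k r h) a1 e = 0 ∨ (inP (PB k r h) a1 e = 1 ∧ ∃ p, e (PB k r h p) = a1) := by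
  by_cases hex : ∃ p, e (PB k r h p) = a1
  · right
    refine ⟨?_, hex⟩
    obtain ⟨p, hp⟩ := hex
    refine le_antisymm (inP_le_one _ _ _) ?_
    unfold inP
    have := Finset.single_le_sum (f := fun p : Fin k × Bool =>
      (if e (PB k r h p) = a1 then (1 : ℝ) else 0)) (fun i _ => by split_ifs <;> norm_num)
      (Finset.mem_univ p)
    simp only [if_pos hp] at this
    exact this
  · left
    push Not at hex
    unfold inP
    exact Finset.sum_eq_zero fun p _ => if_neg (hex p)

omit [Fintype α] in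
theorem FF_cases (x : α → ℝ) (a1 : α) (e : L4 k r ≃ α) :
    FF x a1 e = 0 ∨ (FF x a1 e = 1 ∧ (∃ p, e (PB k r true p) = a1) ∧
      X4 false true x e ≤ 0 ∧ X4 true true x e ≤ 0) := by
  unfold FF
  rcases inP_cases true a1 e with h | ⟨h, hp⟩
  · left; rw [h, zero_mul]
  · rw [h, one_mul]
    unfold bp
    split_ifs with hb
    · exact Or.inr ⟨rfl, hp, hb⟩
    · exact Or.inl rfl

omit [Fintype α] in
theorem inP_flip_other (h h' : Bool) (hh : h ≠ h') (a1 : α) (e : L4 k r ≃ α)
    (s : Fin k → Bool) :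
    inP (PB k r h') a1 ((fP (PB k r h) s).trans e) = inP (PB k r h') a1 e := by
  unfold inP
  simp only [flip_other h h' hh]

omit [Fintype α] in
theorem FF_flip (x : α → ℝ) (a1 : α) (e : L4 k r ≃ α) (s : Fin k → Bool) :
    FF x a1 ((fP (PB k r false) s).trans e) = FF x a1 e := by
  unfold FF
  rw [inP_flip_other false true (by simp),
    bp_congr x true _ e (fun p => flip_other false true (by simp) e s p)]

/-- the second moment of the difference on the event `FF` -/
theorem FF_sq (x u : α → ℝ) (hu2 : ∑ a, u a ^ 2 = 1) (a1 : α) (ha2 : 49 / 100 ≤ u a1 ^ 2) :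
    𝔼 e : L4 k r ≃ α, FF x a1 e * DP (PB k r false) u e ^ 2 ≤
      102 / 100 * 𝔼 e : L4 k r ≃ α, FF x a1 e := by
  rw [expect_flip (PB k r false) (fun e : L4 k r ≃ α => FF x a1 e * DP (PB k r false) u e ^ 2),
    Finset.mul_expect]
  refine Finset.expect_le_expect fun e _ => ?_
  simp only [FF_flip, DP_flip]
  rw [← Finset.mul_expect, mom2]
  rcases FF_cases x a1 e with h | ⟨h, ⟨p, hp⟩, _⟩
  · rw [h]; simp
  rw [h, one_mul, mul_one]
  have h1 := sum_dP_sq (PB k r false) u e (univ.erase a1) (by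
    intro q
    refine Finset.mem_erase.2 ⟨?_, Finset.mem_univ _⟩
    intro hq
    have := e.injective (hq.trans hp.symm)
    exact PB_out false true (by simp) q p this)
  have h2 := Finset.add_sum_erase univ (fun a => u a ^ 2) (Finset.mem_univ a1)
  rw [hu2] at h2
  linarith

/-- the indicator `g19` for the block `b` of the first half -/
noncomputable def q19 (x : α → ℝ) (a1 : α) (b : Bool) (e : L4 k r ≃ α) : ℝ :=
  g19 x a1 ((KB k r b false).map e.toEmbedding)

theorem q19_expect [Nonempty (L4 k r ≃ α)] (x : α → ℝ) (a1 : α) (b : Bool)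
    (hcard : Fintype.card α = 4 * k + r) :
    𝔼 e : L4 k r ≃ α, q19 x a1 b e =
      (∑ S ∈ (univ : Finset α).powersetCard k, g19 x a1 S) / ((4 * k + r).choose k : ℝ) := by
  have h := law_set (Λ := L4 k r) (α := α) (KB k r b false) (fun S => g19 x a1 S)
  rw [card_KB] at h
  unfold q19
  rw [h, Finset.expect_eq_sum_div_card, Finset.card_powersetCard, Finset.card_univ, hcard]

theorem FF_pt (x u : α → ℝ) (xb : ℝ) (hx : ∀ a, x a = xb + u a)
    (a1 : α) (hx1 : 0 < x a1) (e : L4 k r ≃ α) :
    FF x a1 e ≤ N0 x e + N2 x e + q19 x a1 false e + q19 x a1 true e +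
      (FF x a1 e * DP (PB k r false) u e ^ 2) / (19 / 10 * x a1) ^ 2 := by
  have n0 := N0_nonneg x e
  have n2 := N2_nonneg x e
  have q0 : 0 ≤ q19 x a1 false e := g19_nonneg _ _ _
  have q1 : 0 ≤ q19 x a1 true e := g19_nonneg _ _ _
  rcases FF_cases x a1 e with h | ⟨h, ⟨p, hp⟩, b1, b2⟩
  · rw [h, zero_mul, zero_div]; linarith
  rw [h, one_mul]
  have hd : 0 ≤ DP (PB k r false) u e ^ 2 / (19 / 10 * x a1) ^ 2 := by positivity
  have hD : DP (PB k r false) u e = X4 false false x e - X4 true false x e := by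
    rw [X4_shift false false x u xb hx, X4_shift true false x u xb hx, DP_eq, XP_PB, XP_PB]
    ring
  have hnot : ∀ b, a1 ∉ (KB k r b false).map e.toEmbedding := by
    intro b hb
    rw [Finset.mem_map] at hb
    obtain ⟨l, hl, hl2⟩ := hb
    simp only [KB, Finset.mem_map, Finset.mem_univ, true_and, Function.Embedding.coeFn_mk] at hl
    obtain ⟨j, rfl⟩ := hl
    have := e.injective (hl2.trans hp.symm)
    exact PB_out false true (by simp) (j, b) p this
  by_cases g1 : 0 < X4 false false x e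
  · by_cases g2 : 0 < X4 true false x e
    · rw [N2_of x e (false, false) (true, false) (by simp) g1 g2]
      linarith
    · by_cases hs : X4 false false x e < 19 / 10 * x a1
      · have : q19 x a1 false e = 1 := by
          unfold q19 g19
          rw [map_KB, if_pos ⟨hnot false, g1, hs⟩]
        linarith
      · push Not at hs g2
        have h1 : 1 ≤ DP (PB k r false) u e ^ 2 / (19 / 10 * x a1) ^ 2 := by
          rw [le_div_iff₀ (by positivity), one_mul]
          refine pow_le_pow_left₀ (by positivity) ?_ 2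
          rw [hD]; linarith
        linarith
  · by_cases g2 : 0 < X4 true false x e
    · by_cases hs : X4 true false x e < 19 / 10 * x a1
      · have : q19 x a1 true e = 1 := by
          unfold q19 g19
          rw [map_KB, if_pos ⟨hnot true, g2, hs⟩]
        linarith
      · push Not at hs g1
        have h1 : 1 ≤ DP (PB k r false) u e ^ 2 / (19 / 10 * x a1) ^ 2 := by
          rw [le_div_iff₀ (by positivity), one_mul, ← sq_abs (DP (PB k r false) u e)]
          refine pow_le_pow_left₀ (by positivity) ?_ 2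
          rw [hD, abs_of_nonpos (by linarith)]
          linarith
        linarith
    · push Not at g1 g2
      have : N0 x e = 1 := by
        unfold N0 bp
        rw [if_pos ⟨g1, g2⟩, if_pos ⟨b1, b2⟩, mul_one]
      linarith

theorem FF_le [Nonempty (L4 k r ≃ α)] (x u : α → ℝ) (xb : ℝ) (hxb : 0 < xb)
    (hx : ∀ a, x a = xb + u a)
    (hu : ∑ a, u a = 0) (hu2 : ∑ a, u a ^ 2 = 1)
    (hcard : Fintype.card α = 4 * k + r) (hk : (10 : ℝ) ^ 6 ≤ k)
    (hr : (r : ℝ) * 10 ^ 6 ≤ k) (hT : (k : ℝ) * xb ≤ 24 / 10)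
    (a1 : α) (ha : 0 < u a1) (ha2 : 49 / 100 ≤ u a1 ^ 2) (ε : ℝ)
    (hε0 : (𝔼 e : L4 k r ≃ α, N0 x e) ≤ ε)
    (hε : (𝔼 e : L4 k r ≃ α, N2 x e) ≤ ε) :
    𝔼 e : L4 k r ≃ α, FF x a1 e ≤ 57 * ε := by
  have hx1 : 7 / 10 ≤ x a1 := by
    rw [hx]
    nlinarith
  have hx2 : 49 / 100 ≤ x a1 ^ 2 := by
    rw [hx]
    nlinarith
  have hn19 := n19_le (k := k) (r := r) x u xb hxb hx hu hu2 hcard hk hr hT a1 ha ha2 ε hε
  have hq : ∀ b, 𝔼 e : L4 k r ≃ α, q19 x a1 b e ≤ 11 * ε := by
    intro b
    have hpos : (0 : ℝ) < ((4 * k + r).choose k : ℝ) := by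
      have : 0 < (4 * k + r).choose k := Nat.choose_pos (by omega)
      exact_mod_cast this
    rw [q19_expect x a1 b hcard, div_le_iff₀ hpos]
    exact hn19
  have h1 : 𝔼 e : L4 k r ≃ α, FF x a1 e ≤ 𝔼 e : L4 k r ≃ α, (N0 x e + N2 x e +
      q19 x a1 false e + q19 x a1 true e +
      (FF x a1 e * DP (PB k r false) u e ^ 2) / (19 / 10 * x a1) ^ 2) :=
    Finset.expect_le_expect fun e _ => FF_pt x u xb hx a1 (by linarith) e
  rw [Finset.expect_add_distrib, Finset.expect_add_distrib, Finset.expect_add_distrib,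
    Finset.expect_add_distrib, ← Finset.expect_div] at h1
  have h2 := FF_sq (k := k) (r := r) x u hu2 a1 ha2
  have hF0 : 0 ≤ 𝔼 e : L4 k r ≃ α, FF x a1 e := by
    refine Finset.expect_nonneg fun e _ => ?_
    rcases FF_cases x a1 e with h | ⟨h, _⟩ <;> rw [h]
    norm_num
  set E := 𝔼 e : L4 k r ≃ α, FF x a1 e
  have h3 : (𝔼 e : L4 k r ≃ α, FF x a1 e * DP (PB k r false) u e ^ 2) / (19 / 10 * x a1) ^ 2 ≤
      577 / 1000 * E := by
    rw [div_le_iff₀ (by positivity)]
    have e1 : (19 / 10 * x a1) ^ 2 = 361 / 100 * x a1 ^ 2 := by ring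
    rw [e1]
    nlinarith
  have h4 := hq false
  have h5 := hq true
  linarith

/-- few positive sets avoid the big element -/
theorem gamma_le [Nonempty (L4 k r ≃ α)] (x u : α → ℝ) (xb : ℝ) (hxb : 0 < xb)
    (hx : ∀ a, x a = xb + u a)
    (hu : ∑ a, u a = 0) (hu2 : ∑ a, u a ^ 2 = 1)
    (hcard : Fintype.card α = 4 * k + r) (hk : (10 : ℝ) ^ 6 ≤ k)
    (hr : (r : ℝ) * 10 ^ 6 ≤ k) (hT : (k : ℝ) * xb ≤ 24 / 10)
    (a1 : α) (ha : 0 < u a1) (ha2 : 49 / 100 ≤ u a1 ^ 2) (ε : ℝ)
    (hε0 : (𝔼 e : L4 k r ≃ α, N0 x e) ≤ ε)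
    (hε : (𝔼 e : L4 k r ≃ α, N2 x e) ≤ ε) :
    cnt x (univ.erase a1) k 0 ≤ 120 * ε * ((4 * k + r - 1).choose k : ℝ) := by
  have hk1 : 1 ≤ k := by
    have : (1 : ℝ) ≤ k := le_trans (by norm_num) hk
    exact_mod_cast this
  have hk0 : (0 : ℝ) < k := by
    have : 0 < k := hk1
    exact_mod_cast this
  have hε00 : 0 ≤ ε := le_trans (Finset.expect_nonneg fun e _ => N2_nonneg x e) hε
  have hFF := FF_le (k := k) (r := r) x u xb hxb hx hu hu2 hcard hk hr hT a1 ha ha2 ε hε0 hε
  -- positive first block with the big element in the second half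
  have hGG : 𝔼 e : L4 k r ≃ α, (if 0 < X4 false false x e then (1 : ℝ) else 0) *
      inP (PB k r true) a1 e ≤ 58 * ε := by
    have h1 : 𝔼 e : L4 k r ≃ α, (if 0 < X4 false false x e then (1 : ℝ) else 0) *
        inP (PB k r true) a1 e ≤ 𝔼 e : L4 k r ≃ α, (FF x a1 e + N2 x e) := by
      refine Finset.expect_le_expect fun e _ => ?_
      have hN := N2_nonneg x e
      have hF0 : 0 ≤ FF x a1 e := by
        rcases FF_cases x a1 e with h | ⟨h, _⟩ <;> rw [h]
        norm_num
      rcases inP_cases true a1 e with h | ⟨h, hp⟩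
      · rw [h, mul_zero]; linarith
      split_ifs with hg
      · rw [h, one_mul]
        by_cases g3 : 0 < X4 false true x e
        · rw [N2_of x e (false, false) (false, true) (by simp) hg g3]; linarith
        by_cases g4 : 0 < X4 true true x e
        · rw [N2_of x e (false, false) (true, true) (by simp) hg g4]; linarith
        have : FF x a1 e = 1 := by
          unfold FF bp
          rw [h, if_pos ⟨not_lt.1 g3, not_lt.1 g4⟩, one_mul]
        linarith
      · rw [zero_mul]; linarith
    rw [Finset.expect_add_distrib] at h1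
    linarith
  -- symmetry of the position of the big element
  set G : (L4 k r ≃ α) → ℝ := fun e => if 0 < X4 false false x e then (1 : ℝ) else 0 with hG
  have hsym : ∀ l l' : L4 k r, l ∉ KB k r false false → l' ∉ KB k r false false →
      𝔼 e : L4 k r ≃ α, G e * (if e l = a1 then (1 : ℝ) else 0) =
      𝔼 e : L4 k r ≃ α, G e * (if e l' = a1 then (1 : ℝ) else 0) := by
    intro l l' hl hl'
    rw [← expect_pre (Equiv.swap l l') (fun e : L4 k r ≃ α =>
      G e * (if e l = a1 then (1 : ℝ) else 0))]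
    refine Finset.expect_congr rfl fun e _ => ?_
    have h1 : X4 false false x ((Equiv.swap l l').trans e) = X4 false false x e := by
      rw [← sum_KB, ← sum_KB]
      refine Finset.sum_congr rfl fun m hm => ?_
      rw [Equiv.trans_apply, Equiv.swap_apply_of_ne_of_ne]
      · rintro rfl; exact hl hm
      · rintro rfl; exact hl' hm
    simp only [hG, h1, Equiv.trans_apply, Equiv.swap_apply_left]
  have hl0 : 0 < k := hk1
  set l0 : L4 k r := Sum.inl ((⟨0, hl0⟩, false), true) with hl0'
  have hl0m : l0 ∉ KB k r false false := by simp [KB, hl0']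
  set c : ℝ := 𝔼 e : L4 k r ≃ α, G e * (if e l0 = a1 then (1 : ℝ) else 0) with hc
  have h2k : 𝔼 e : L4 k r ≃ α, G e * inP (PB k r true) a1 e = 2 * k * c := by
    unfold inP
    simp only [Finset.mul_sum]
    rw [Finset.expect_sum_comm]
    have : ∀ p : Fin k × Bool, 𝔼 e : L4 k r ≃ α,
        G e * (if e (PB k r true p) = a1 then (1 : ℝ) else 0) = c := by
      intro p
      refine hsym _ _ ?_ hl0m
      simp [KB, PB]
    rw [Finset.sum_congr rfl fun p _ => this p, Finset.sum_const, Finset.card_univ,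
      Fintype.card_prod, Fintype.card_bool, Fintype.card_fin, nsmul_eq_mul]
    push_cast; ring
  have h3k : 𝔼 e : L4 k r ≃ α, (∑ l ∈ (KB k r false false)ᶜ, G e *
      (if e l = a1 then (1 : ℝ) else 0)) = (3 * k + r) * c := by
    rw [Finset.expect_sum_comm, Finset.sum_congr rfl fun l hl =>
      hsym l l0 (Finset.mem_compl.1 hl) hl0m, Finset.sum_const, Finset.card_compl, card_KB,
      card_L4, nsmul_eq_mul]
    have : 4 * k + r - k = 3 * k + r := by omega
    rw [this]
    push_cast; ring
  have hpt : ∀ e : L4 k r ≃ α, (∑ l ∈ (KB k r false false)ᶜ, G e *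
      (if e l = a1 then (1 : ℝ) else 0)) =
      (fun S : Finset α => gd x S * (if a1 ∉ S then (1 : ℝ) else 0))
        ((KB k r false false).map e.toEmbedding) := by
    intro e
    rw [← Finset.mul_sum]
    simp only [gd, map_KB]
    congr 1
    have h1 : (∑ l ∈ (KB k r false false)ᶜ, (if e l = a1 then (1 : ℝ) else 0)) =
        if e.symm a1 ∈ (KB k r false false)ᶜ then 1 else 0 := by
      have : ∀ l, (if e l = a1 then (1 : ℝ) else 0) = if e.symm a1 = l then 1 else 0 := by
        intro l
        by_cases h : e l = a1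
        · rw [if_pos h, if_pos (by rw [← h, Equiv.symm_apply_apply])]
        · rw [if_neg h, if_neg (fun h' => h (by rw [← h', Equiv.apply_symm_apply]))]
      rw [Finset.sum_congr rfl fun l _ => this l, Finset.sum_ite_eq]
    rw [h1]
    have h2 : e.symm a1 ∈ (KB k r false false)ᶜ ↔
        a1 ∉ (KB k r false false).map e.toEmbedding := by
      rw [Finset.mem_compl, not_iff_not, Finset.mem_map]
      constructor
      · intro h; exact ⟨e.symm a1, h, by simp⟩
      · rintro ⟨l, hl, hl2⟩
        have : e.symm a1 = l := by rw [← hl2]; simp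
        rw [this]; exact hl
    by_cases h : a1 ∉ (KB k r false false).map e.toEmbedding
    · rw [if_pos h, if_pos (h2.2 h)]
    · rw [if_neg h, if_neg (fun h' => h (h2.1 h'))]
  have hlaw : 𝔼 e : L4 k r ≃ α, (fun S : Finset α => gd x S * (if a1 ∉ S then (1 : ℝ) else 0))
      ((KB k r false false).map e.toEmbedding) =
      (∑ S ∈ (univ : Finset α).powersetCard k, gd x S * (if a1 ∉ S then (1 : ℝ) else 0)) /
        ((4 * k + r).choose k : ℝ) := by
    rw [law_set (Λ := L4 k r) (α := α) (KB k r false false)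
      (fun S : Finset α => gd x S * (if a1 ∉ S then (1 : ℝ) else 0)), card_KB,
      Finset.expect_eq_sum_div_card ((univ : Finset α).powersetCard k), Finset.card_powersetCard,
      Finset.card_univ, hcard]
  have hcnt : ∑ S ∈ (univ : Finset α).powersetCard k, gd x S * (if a1 ∉ S then (1 : ℝ) else 0) =
      cnt x (univ.erase a1) k 0 := by
    unfold cnt gd
    have h1 : ∀ S : Finset α, (if 0 < ∑ a ∈ S, x a then (1 : ℝ) else 0) *
        (if a1 ∉ S then (1 : ℝ) else 0) =
        if a1 ∉ S then (if 0 < 0 + ∑ a ∈ S, x a then (1 : ℝ) else 0) else 0 := by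
      intro S
      rw [zero_add]
      split_ifs <;> norm_num
    rw [Finset.sum_congr rfl fun S _ => h1 S, ← Finset.sum_filter]
    refine Finset.sum_congr ?_ fun _ _ => rfl
    ext S
    rw [Finset.mem_filter, Finset.mem_powersetCard, Finset.mem_powersetCard]
    constructor
    · rintro ⟨⟨_, h1⟩, h2⟩
      exact ⟨fun y hy => Finset.mem_erase.2 ⟨fun h => h2 (h ▸ hy), Finset.mem_univ _⟩, h1⟩
    · rintro ⟨h1, h2⟩
      exact ⟨⟨Finset.subset_univ _, h2⟩, fun h => Finset.notMem_erase a1 univ (h1 h)⟩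
  rw [hcnt] at hlaw
  have hEq : cnt x (univ.erase a1) k 0 / ((4 * k + r).choose k : ℝ) = (3 * k + r) * c := by
    rw [← hlaw, ← h3k]
    exact Finset.expect_congr rfl fun e _ => (hpt e).symm
  have hC : (0 : ℝ) < ((4 * k + r).choose k : ℝ) := by
    have : 0 < (4 * k + r).choose k := Nat.choose_pos (by omega)
    exact_mod_cast this
  rw [div_eq_iff hC.ne'] at hEq
  rw [hEq]
  have hG2 : 2 * k * c ≤ 58 * ε := by rw [← h2k]; exact hGG
  -- relation of binomial coefficients
  have hrel : (3 * k + r : ℝ) * ((4 * k + r).choose k : ℝ) =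
      (4 * k + r) * ((4 * k + r - 1).choose k : ℝ) := by
    have h1 := Nat.choose_mul_succ_eq (4 * k + r - 1) k
    have e1 : (4 * k + r - 1).succ = 4 * k + r := by omega
    have e2 : 4 * k + r - 1 + 1 = 4 * k + r := by omega
    have e3 : 4 * k + r - k = 3 * k + r := by omega
    rw [e2, e3] at h1
    have h' : (((4 * k + r - 1).choose k * (4 * k + r) : ℕ) : ℝ) =
      (((4 * k + r).choose k * (3 * k + r) : ℕ) : ℝ) := by rw [h1]
    push_cast at h'
    linarith
  have hC' : (0 : ℝ) ≤ ((4 * k + r - 1).choose k : ℝ) := by positivity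
  have hck : c ≤ 29 * ε / k := by
    rw [le_div_iff₀ hk0]
    linarith
  have hr0 : (0 : ℝ) ≤ r := by positivity
  calc (3 * k + r : ℝ) * c * ((4 * k + r).choose k : ℝ)
      = c * ((4 * k + r) * ((4 * k + r - 1).choose k : ℝ)) := by rw [← hrel]; ring
    _ ≤ (29 * ε / k) * ((4 * k + r) * ((4 * k + r - 1).choose k : ℝ)) :=
        mul_le_mul_of_nonneg_right hck (by positivity)
    _ = (29 * ε) * ((4 * k + r) / k) * ((4 * k + r - 1).choose k : ℝ) := by ring
    _ ≤ (29 * ε) * (41 / 10) * ((4 * k + r - 1).choose k : ℝ) := by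
        refine mul_le_mul_of_nonneg_right (mul_le_mul_of_nonneg_left ?_ (by positivity)) hC'
        rw [div_le_iff₀ hk0]
        linarith
    _ ≤ _ := by
        refine mul_le_mul_of_nonneg_right ?_ hC'
        linarith

end Pool.Agent.H49.M4
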