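import Mathlib
import Pool.Agent.H49.M4.Cmb
import Pool.Agent.H49.M4.GamC

open Finset
open scoped BigOperators

namespace Pool.Agent.H49.M4

open Pool.Agent.H49.MMS

variable {α : Type} [Fintype α] [DecidableEq α] {k r : ℕ}

theorem ind_quad (z lam : ℝ) (hl : 0 < lam) :
    2 * lam * z - lam ^ 2 * z ^ 2 ≤ if 0 < z then (1 : ℝ) else 0 := by
  split_ifs with h
  · nlinarith [sq_nonneg (lam * z - 1)]
  · push Not at h
    have h1 : lam * z ≤ 0 := mul_nonpos_of_nonneg_of_nonpos hl.le h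
    have h2 : 0 ≤ lam ^ 2 * z ^ 2 := by positivity
    linarith

/-- expansion of a double sum of a quadratic polynomial -/
theorem two_sum {ι κ : Type} (SA : Finset ι) (SB : Finset κ) (p : ι → ℝ) (q : κ → ℝ)
    (lam m : ℝ) (hp : ∑ a ∈ SA, p a = 0) (hq : ∑ b ∈ SB, q b = 0) :
    ∑ a ∈ SA, ∑ b ∈ SB, (2 * lam * (m + p a + q b) - lam ^ 2 * (m + p a + q b) ^ 2) =
      2 * lam * ((SA.card : ℝ) * SB.card * m) - lam ^ 2 * ((SA.card : ℝ) * SB.card * m ^ 2 +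
        SB.card * ∑ a ∈ SA, p a ^ 2 + SA.card * ∑ b ∈ SB, q b ^ 2) := by
  have h1 : ∀ a b, 2 * lam * (m + p a + q b) - lam ^ 2 * (m + p a + q b) ^ 2 =
      (2 * lam * m - lam ^ 2 * m ^ 2) + (2 * lam - 2 * lam ^ 2 * m) * p a +
      (-lam ^ 2) * p a ^ 2 + (2 * lam - 2 * lam ^ 2 * m) * q b + (-lam ^ 2) * q b ^ 2 +
      (-(2 * lam ^ 2) * p a) * q b := by
    intro a b; ring
  have h2 : ∀ a, ∑ b ∈ SB, ((2 * lam * m - lam ^ 2 * m ^ 2) + (2 * lam - 2 * lam ^ 2 * m) * p a +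
      (-lam ^ 2) * p a ^ 2 + (2 * lam - 2 * lam ^ 2 * m) * q b + (-lam ^ 2) * q b ^ 2 +
      (-(2 * lam ^ 2) * p a) * q b) =
      (SB.card * (2 * lam * m - lam ^ 2 * m ^ 2) + (-lam ^ 2) * ∑ b ∈ SB, q b ^ 2) +
      (SB.card * (2 * lam - 2 * lam ^ 2 * m)) * p a + (SB.card * (-lam ^ 2)) * p a ^ 2 := by
    intro a
    have q1 : ∑ b ∈ SB, (2 * lam - 2 * lam ^ 2 * m) * q b = 0 := by
      rw [← Finset.mul_sum, hq, mul_zero]
    have q2 : ∑ b ∈ SB, (-lam ^ 2) * q b ^ 2 = (-lam ^ 2) * ∑ b ∈ SB, q b ^ 2 := by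
      rw [← Finset.mul_sum]
    have q3 : ∑ b ∈ SB, (-(2 * lam ^ 2) * p a) * q b = 0 := by
      rw [← Finset.mul_sum, hq, mul_zero]
    rw [Finset.sum_add_distrib, Finset.sum_add_distrib, Finset.sum_add_distrib,
      Finset.sum_add_distrib, Finset.sum_add_distrib, q1, q2, q3]
    simp only [Finset.sum_const, nsmul_eq_mul]
    ring
  simp only [h1, h2]
  rw [Finset.sum_add_distrib, Finset.sum_add_distrib, ← Finset.mul_sum, ← Finset.mul_sum, hp]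
  simp only [Finset.sum_const, nsmul_eq_mul]
  ring

omit [Fintype α] in
/-- thinning: a random union of parts of two sets is often positive -/
theorem thin_one (x u : α → ℝ) (xb : ℝ) (hx : ∀ a, x a = xb + u a) (K J : Finset α)
    (hd : Disjoint K J) (a b : ℕ) (haK : a ≤ K.card) (hbJ : b ≤ J.card) (hK2 : 2 ≤ K.card)
    (hJ2 : 2 ≤ J.card) (m V : ℝ)
    (hm : m = a * ((∑ i ∈ K, x i) / K.card) + b * ((∑ i ∈ J, x i) / J.card)) (hm0 : 0 < m)
    (hV0 : 0 < V)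
    (hV : ((a : ℝ) * ((K.card : ℝ) - a)) / ((K.card : ℝ) * ((K.card : ℝ) - 1)) *
        ∑ i ∈ K, u i ^ 2 +
      ((b : ℝ) * ((J.card : ℝ) - b)) / ((J.card : ℝ) * ((J.card : ℝ) - 1)) *
        ∑ i ∈ J, u i ^ 2 ≤ V) :
    m ^ 2 / (m ^ 2 + V) * (((K.card).choose a : ℝ) * ((J.card).choose b : ℝ)) ≤
      ∑ A ∈ K.powersetCard a, ∑ B ∈ J.powersetCard b, gd x (A ∪ B) := by
  set μ1 : ℝ := (∑ i ∈ K, x i) / K.card with hμ1
  set μ2 : ℝ := (∑ i ∈ J, x i) / J.card with hμ2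
  have hKp : (0 : ℝ) < K.card := by
    have : 0 < K.card := by omega
    exact_mod_cast this
  have hJp : (0 : ℝ) < J.card := by
    have : 0 < J.card := by omega
    exact_mod_cast this
  have hK2' : (2 : ℝ) ≤ K.card := by exact_mod_cast hK2
  have hJ2' : (2 : ℝ) ≤ J.card := by exact_mod_cast hJ2
  have haK' : (a : ℝ) ≤ K.card := by exact_mod_cast haK
  have hbJ' : (b : ℝ) ≤ J.card := by exact_mod_cast hbJ
  have hv1 : ∑ i ∈ K, (x i - μ1) = 0 := by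
    rw [Finset.sum_sub_distrib, Finset.sum_const, nsmul_eq_mul, hμ1]; field_simp; ring
  have hv2 : ∑ i ∈ J, (x i - μ2) = 0 := by
    rw [Finset.sum_sub_distrib, Finset.sum_const, nsmul_eq_mul, hμ2]; field_simp; ring
  have f1 := firstMom_zero K a (fun i => x i - μ1) hv1
  have f2 := firstMom_zero J b (fun i => x i - μ2) hv2
  have s1 := secMom_fin K a haK (fun i => x i - μ1) hv1 hK2
  have s2 := secMom_fin J b hbJ (fun i => x i - μ2) hv2 hJ2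
  have w1 := var_le K x u xb hx
  have w2 := var_le J x u xb hx
  rw [← hμ1] at w1
  rw [← hμ2] at w2
  set CA : ℝ := ((K.card).choose a : ℝ) with hCA
  set CB : ℝ := ((J.card).choose b : ℝ) with hCB
  have hCA0 : 0 ≤ CA := by positivity
  have hCB0 : 0 ≤ CB := by positivity
  set c1 : ℝ := ((a : ℝ) * ((K.card : ℝ) - a)) / ((K.card : ℝ) * ((K.card : ℝ) - 1)) with hc1
  set c2 : ℝ := ((b : ℝ) * ((J.card : ℝ) - b)) / ((J.card : ℝ) * ((J.card : ℝ) - 1)) with hc2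
  have hc10 : 0 ≤ c1 := div_nonneg (mul_nonneg (by positivity) (by linarith))
    (mul_nonneg (by linarith) (by linarith))
  have hc20 : 0 ≤ c2 := div_nonneg (mul_nonneg (by positivity) (by linarith))
    (mul_nonneg (by linarith) (by linarith))
  set lam : ℝ := m / (m ^ 2 + V) with hlam
  have hmV : 0 < m ^ 2 + V := by positivity
  have hl0 : 0 < lam := by positivity
  have hpt : ∀ A ∈ K.powersetCard a, ∀ B ∈ J.powersetCard b,
      2 * lam * (m + ∑ i ∈ A, (x i - μ1) + ∑ i ∈ B, (x i - μ2)) -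
        lam ^ 2 * (m + ∑ i ∈ A, (x i - μ1) + ∑ i ∈ B, (x i - μ2)) ^ 2 ≤ gd x (A ∪ B) := by
    intro A hA B hB
    obtain ⟨hA1, hA2⟩ := Finset.mem_powersetCard.1 hA
    obtain ⟨hB1, hB2⟩ := Finset.mem_powersetCard.1 hB
    have hAB : Disjoint A B :=
      Finset.disjoint_of_subset_left hA1 (Finset.disjoint_of_subset_right hB1 hd)
    have hz : ∑ i ∈ A ∪ B, x i = m + ∑ i ∈ A, (x i - μ1) + ∑ i ∈ B, (x i - μ2) := by
      rw [Finset.sum_union hAB, Finset.sum_sub_distrib, Finset.sum_sub_distrib,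
        Finset.sum_const, Finset.sum_const, hA2, hB2, nsmul_eq_mul, nsmul_eq_mul, hm]
      ring
    unfold gd
    rw [hz]
    exact ind_quad _ lam hl0
  have hsum : ∑ A ∈ K.powersetCard a, ∑ B ∈ J.powersetCard b,
      (2 * lam * (m + ∑ i ∈ A, (x i - μ1) + ∑ i ∈ B, (x i - μ2)) -
        lam ^ 2 * (m + ∑ i ∈ A, (x i - μ1) + ∑ i ∈ B, (x i - μ2)) ^ 2) =
      2 * lam * (CA * CB * m) - lam ^ 2 * (CA * CB * m ^ 2 +
        CB * ∑ A ∈ K.powersetCard a, (∑ i ∈ A, (x i - μ1)) ^ 2 +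
        CA * ∑ B ∈ J.powersetCard b, (∑ i ∈ B, (x i - μ2)) ^ 2) := by
    have h := two_sum (K.powersetCard a) (J.powersetCard b) (fun A => ∑ i ∈ A, (x i - μ1))
      (fun B => ∑ i ∈ B, (x i - μ2)) lam m f1 f2
    rw [Finset.card_powersetCard, Finset.card_powersetCard] at h
    exact h
  have hle : ∑ A ∈ K.powersetCard a, ∑ B ∈ J.powersetCard b,
      (2 * lam * (m + ∑ i ∈ A, (x i - μ1) + ∑ i ∈ B, (x i - μ2)) -
        lam ^ 2 * (m + ∑ i ∈ A, (x i - μ1) + ∑ i ∈ B, (x i - μ2)) ^ 2) ≤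
      ∑ A ∈ K.powersetCard a, ∑ B ∈ J.powersetCard b, gd x (A ∪ B) :=
    Finset.sum_le_sum fun A hA => Finset.sum_le_sum fun B hB => hpt A hA B hB
  rw [hsum, s1, s2] at hle
  refine le_trans ?_ hle
  have k1 : CB * (CA * (c1 * ∑ i ∈ K, (x i - μ1) ^ 2)) +
      CA * (CB * (c2 * ∑ i ∈ J, (x i - μ2) ^ 2)) ≤ CA * CB * V := by
    have t1 : c1 * ∑ i ∈ K, (x i - μ1) ^ 2 ≤ c1 * ∑ i ∈ K, u i ^ 2 :=
      mul_le_mul_of_nonneg_left w1 hc10
    have t2 : c2 * ∑ i ∈ J, (x i - μ2) ^ 2 ≤ c2 * ∑ i ∈ J, u i ^ 2 :=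
      mul_le_mul_of_nonneg_left w2 hc20
    have t3 : c1 * ∑ i ∈ K, (x i - μ1) ^ 2 + c2 * ∑ i ∈ J, (x i - μ2) ^ 2 ≤ V := by linarith
    calc _ = CA * CB * (c1 * ∑ i ∈ K, (x i - μ1) ^ 2 + c2 * ∑ i ∈ J, (x i - μ2) ^ 2) := by ring
      _ ≤ _ := mul_le_mul_of_nonneg_left t3 (by positivity)
  have k2 : m ^ 2 / (m ^ 2 + V) * (CA * CB) =
      2 * lam * (CA * CB * m) - lam ^ 2 * (CA * CB * m ^ 2 + CA * CB * V) := by
    rw [hlam]
    field_simp
    ring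
  rw [k2]
  have hl2 : 0 ≤ lam ^ 2 := sq_nonneg _
  have k3 : lam ^ 2 * (CA * CB * m ^ 2 + CB * (CA * (c1 * ∑ i ∈ K, (x i - μ1) ^ 2)) +
      CA * (CB * (c2 * ∑ i ∈ J, (x i - μ2) ^ 2))) ≤
      lam ^ 2 * (CA * CB * m ^ 2 + CA * CB * V) := mul_le_mul_of_nonneg_left (by linarith) hl2
  linarith

end Pool.Agent.H49.M4
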