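import Mathlib
import Pool.Agent.H49.M4.ThinA

open Finset
open scoped BigOperators

namespace Pool.Agent.H49.M4

open Pool.Agent.H49.MMS

variable {α : Type} [Fintype α] [DecidableEq α] {k r : ℕ}

/-- the window of sizes -/
def Wn (k : ℕ) : Finset ℕ := (range (k + 1)).filter (fun j => 10000 * j ≤ 2505 * k)

theorem mem_Wn (k j : ℕ) : j ∈ Wn k ↔ j ≤ k ∧ 10000 * j ≤ 2505 * k := by
  unfold Wn
  rw [Finset.mem_filter, Finset.mem_range, Nat.lt_succ_iff]

omit [Fintype α] in
/-- one step of the thinning -/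
theorem thin_step (x u : α → ℝ) (xb : ℝ) (hx : ∀ a, x a = xb + u a) (K J : Finset α)
    (hd : Disjoint K J) (hk : (10 : ℝ) ^ 6 ≤ k) (hKc : K.card = k) (hJc : J.card = k - 1)
    (hu2 : ∑ i ∈ K, u i ^ 2 + ∑ i ∈ J, u i ^ 2 ≤ 51 / 100) (x1 T : ℝ) (hx1 : 7 / 10 ≤ x1)
    (hT : 0 ≤ T)
    (hbad : x1 + ∑ i ∈ J, x i ≤ 0)
    (hup : 35 / 100 * x1 + T + 3 * (- ∑ i ∈ J, x i - x1) ≤ ∑ i ∈ K, x i)
    (j : ℕ) (hj : j ∈ Wn k) :
    3 / 10000 * ((k.choose (k - j) : ℝ) * ((k - 1).choose j : ℝ)) ≤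
      ∑ A ∈ K.powersetCard (k - j), ∑ B ∈ J.powersetCard j, gd x (A ∪ B) := by
  rw [mem_Wn] at hj
  obtain ⟨hjk, hjw⟩ := hj
  have hk6 : 10 ^ 6 ≤ k := by exact_mod_cast hk
  have hj1 : j ≤ k - 1 := by omega
  have hjR : (j : ℝ) ≤ 2505 / 10000 * k := by
    have : (10000 : ℝ) * j ≤ 2505 * k := by exact_mod_cast hjw
    linarith
  have hj0 : (0 : ℝ) ≤ j := by positivity
  have hkj : ((k - j : ℕ) : ℝ) = k - j := by push_cast [Nat.cast_sub hjk]; ring
  have hk1 : ((k - 1 : ℕ) : ℝ) = k - 1 := by push_cast [Nat.cast_sub (by omega : 1 ≤ k)]; ring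
  have hk0 : (0 : ℝ) < k := by linarith
  have hk10 : (0 : ℝ) < (k : ℝ) - 1 := by linarith
  set m : ℝ := ((k - j : ℕ) : ℝ) * ((∑ i ∈ K, x i) / K.card) +
    (j : ℝ) * ((∑ i ∈ J, x i) / J.card) with hm
  set s : ℝ := - ∑ i ∈ J, x i with hs
  have hs1 : x1 ≤ s := by linarith
  have hm7 : 7 / 1000 ≤ m := by
    rw [hm, hKc, hJc, hkj, hk1]
    have e1 : (∑ i ∈ J, x i) = - s := by rw [hs]; ring
    rw [e1]
    have h1 : (7495 / 10000 : ℝ) ≤ (k - j) / k := by
      rw [le_div_iff₀ hk0]; linarith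
    have h2 : (j : ℝ) / (k - 1) ≤ 2506 / 10000 := by
      rw [div_le_iff₀ hk10]; linarith
    have h3 : (0 : ℝ) ≤ 35 / 100 * x1 + T + 3 * (s - x1) := by linarith
    have h4 : 7495 / 10000 * (35 / 100 * x1 + T + 3 * (s - x1)) ≤
        (k - j) / k * ∑ i ∈ K, x i := by
      refine mul_le_mul h1 hup h3 (by linarith)
    have h5 : (j : ℝ) / (k - 1) * s ≤ 2506 / 10000 * s :=
      mul_le_mul_of_nonneg_right h2 (by linarith)
    have e2 : ((k : ℝ) - j) * ((∑ i ∈ K, x i) / k) + (j : ℝ) * (-s / (k - 1)) =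
        (k - j) / k * ∑ i ∈ K, x i - (j : ℝ) / (k - 1) * s := by ring
    rw [e2]
    linarith
  have h := thin_one x u xb hx K J hd (k - j) j (by omega) (by omega) (by omega) (by omega) m
    (1326 / 10000) hm (by linarith) (by norm_num) (by
      rw [hKc, hJc, hkj, hk1]
      have c1 : ((k : ℝ) - j) * ((k : ℝ) - (k - j)) / ((k : ℝ) * ((k : ℝ) - 1)) ≤ 26 / 100 := by
        rw [div_le_iff₀ (by positivity)]
        nlinarith [sq_nonneg ((k : ℝ) - 2 * j)]
      have c2 : (j : ℝ) * ((k : ℝ) - 1 - j) / (((k : ℝ) - 1) * ((k : ℝ) - 1 - 1)) ≤ 26 / 100 := by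
        have : (0 : ℝ) < (k : ℝ) - 1 - 1 := by linarith
        rw [div_le_iff₀ (by positivity)]
        nlinarith [sq_nonneg ((k : ℝ) - 1 - 2 * j)]
      have q1 : 0 ≤ ∑ i ∈ K, u i ^ 2 := Finset.sum_nonneg fun _ _ => sq_nonneg _
      have q2 : 0 ≤ ∑ i ∈ J, u i ^ 2 := Finset.sum_nonneg fun _ _ => sq_nonneg _
      have d1 := mul_le_mul_of_nonneg_right c1 q1
      have d2 := mul_le_mul_of_nonneg_right c2 q2
      linarith)
  rw [hKc, hJc] at h
  refine le_trans (mul_le_mul_of_nonneg_right ?_ (by positivity)) h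
  rw [le_div_iff₀ (by positivity)]
  nlinarith

theorem many_in_window (M J : Finset α) (hJ : J ⊆ M) (hk : (10 : ℝ) ^ 6 ≤ k)
    (hM : M.card = 4 * k + r - 1) (hJc : J.card = k - 1) :
    19 / 10000 * ((4 * k + r - 1).choose k : ℝ) ≤
      (((M.powersetCard k).filter (fun K => (K ∩ J).card ∈ Wn k)).card : ℝ) := by
  have hk6 : 10 ^ 6 ≤ k := by exact_mod_cast hk
  have hk0 : (0 : ℝ) < k := by linarith
  have hmar := markov_J M J hJ k (by omega) (2505 / 10000 * k) (by positivity)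
  rw [hM, hJc] at hmar
  have hk1 : ((k - 1 : ℕ) : ℝ) = k - 1 := by push_cast [Nat.cast_sub (by omega : 1 ≤ k)]; ring
  rw [hk1] at hmar
  have hcompl : ((4 * k + r - 1).choose k : ℝ) ≤
      (((M.powersetCard k).filter (fun K => (K ∩ J).card ∈ Wn k)).card : ℝ) +
      (((M.powersetCard k).filter (fun K => (2505 / 10000 * k : ℝ) < ((K ∩ J).card : ℝ))).card : ℝ)
      := by
    rw [← hM, ← Finset.card_powersetCard]
    have h1 : M.powersetCard k ⊆ (M.powersetCard k).filter (fun K => (K ∩ J).card ∈ Wn k) ∪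
        (M.powersetCard k).filter (fun K => (2505 / 10000 * k : ℝ) < ((K ∩ J).card : ℝ)) := by
      intro K hK
      rw [Finset.mem_union, Finset.mem_filter, Finset.mem_filter]
      by_cases h : (K ∩ J).card ∈ Wn k
      · exact Or.inl ⟨hK, h⟩
      · right
        refine ⟨hK, ?_⟩
        rw [mem_Wn] at h
        have hKc := (Finset.mem_powersetCard.1 hK).2
        have h2 : (K ∩ J).card ≤ k := by
          rw [← hKc]; exact Finset.card_le_card Finset.inter_subset_left
        have h3 : 2505 * k < 10000 * (K ∩ J).card := by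
          by_contra hc
          exact h ⟨h2, by omega⟩
        have h4 : (2505 : ℝ) * k < 10000 * ((K ∩ J).card : ℝ) := by exact_mod_cast h3
        linarith
    have h5 := (Finset.card_le_card h1).trans (Finset.card_union_le _ _)
    exact_mod_cast h5
  -- relation of binomials
  have hrel : (4 * k + r - 1 : ℝ) * ((4 * k + r - 1 - 1).choose (k - 1) : ℝ) =
      ((4 * k + r - 1).choose k : ℝ) * k := by
    have h := Nat.add_one_mul_choose_eq (4 * k + r - 1 - 1) (k - 1)
    have e1 : 4 * k + r - 1 - 1 + 1 = 4 * k + r - 1 := by omega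
    have e2 : k - 1 + 1 = k := by omega
    rw [e1, e2] at h
    have h' : (((4 * k + r - 1) * (4 * k + r - 1 - 1).choose (k - 1) : ℕ) : ℝ) =
      (((4 * k + r - 1).choose k * k : ℕ) : ℝ) := by rw [h]
    have e3 : ((4 * k + r - 1 : ℕ) : ℝ) = 4 * k + r - 1 := by
      push_cast [Nat.cast_sub (by omega : 1 ≤ 4 * k + r)]; ring
    rw [Nat.cast_mul, Nat.cast_mul, e3] at h'
    exact h'
  set C : ℝ := ((4 * k + r - 1).choose k : ℝ) with hC
  set C' : ℝ := ((4 * k + r - 1 - 1).choose (k - 1) : ℝ) with hC'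
  set B : ℝ := (((M.powersetCard k).filter
    (fun K => (2505 / 10000 * k : ℝ) < ((K ∩ J).card : ℝ))).card : ℝ) with hB
  have hC0 : 0 ≤ C := by positivity
  have hC0' : 0 ≤ C' := by positivity
  have hr0 : (0 : ℝ) ≤ r := by positivity
  have h6 : C' * (k - 1) ≤ C * k / 4 := by
    rw [← hrel]
    nlinarith
  have h7 : B * (2505 / 10000) ≤ C / 4 := by
    have : (B * (2505 / 10000)) * k ≤ (C / 4) * k := by linarith
    exact le_of_mul_le_mul_right this hk0
  linarith

/-- few sets are much larger than the complement of a bad set -/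
theorem up_le (x u : α → ℝ) (xb : ℝ) (hxb : 0 < xb) (hx : ∀ a, x a = xb + u a)
    (hu2 : ∑ a, u a ^ 2 = 1)
    (hcard : Fintype.card α = 4 * k + r) (hk : (10 : ℝ) ^ 6 ≤ k)
    (a1 : α) (ha : 0 < u a1) (ha2 : 49 / 100 ≤ u a1 ^ 2) (γ : ℝ)
    (hγ : cnt x (univ.erase a1) k 0 ≤ γ * ((4 * k + r - 1).choose k : ℝ))
    (J : Finset α) (hJ : J ⊆ univ.erase a1) (hJc : J.card = k - 1)
    (hbad : x a1 + ∑ i ∈ J, x i ≤ 0) (T : ℝ) (hT : 0 ≤ T) :
    57 / 10 ^ 8 * ((((univ.erase a1 \ J).powersetCard k).filter (fun K =>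
      35 / 100 * x a1 + T + 3 * (- ∑ i ∈ J, x i - x a1) ≤ ∑ i ∈ K, x i)).card : ℝ) ≤
      γ * ((3 * k + r).choose k : ℝ) := by
  have hk6 : 10 ^ 6 ≤ k := by exact_mod_cast hk
  have hx1 : 7 / 10 ≤ x a1 := by
    rw [hx]
    nlinarith
  set M : Finset α := univ.erase a1 with hM
  have hMc : M.card = 4 * k + r - 1 := by
    rw [hM, Finset.card_erase_of_mem (Finset.mem_univ _), Finset.card_univ, hcard]
  set Y : Finset α := M \ J with hY
  have hYc : Y.card = 3 * k + r := by
    rw [hY, Finset.card_sdiff_of_subset hJ, hMc, hJc]; omega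
  set Up : Finset (Finset α) := (Y.powersetCard k).filter (fun K =>
      35 / 100 * x a1 + T + 3 * (- ∑ i ∈ J, x i - x a1) ≤ ∑ i ∈ K, x i) with hUp
  have hVM : ∑ i ∈ M, u i ^ 2 ≤ 51 / 100 := by
    have := Finset.add_sum_erase univ (fun a => u a ^ 2) (Finset.mem_univ a1)
    linarith
  have hCY : (0 : ℝ) < ((3 * k + r).choose k : ℝ) := by
    have : 0 < (3 * k + r).choose k := Nat.choose_pos (by omega)
    exact_mod_cast this
  have hstep : ∀ j ∈ Wn k, 3 / 10000 * (Up.card : ℝ) *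
      (((3 * k + r).choose (k - j) : ℝ) * ((k - 1).choose j : ℝ)) ≤
      ((3 * k + r).choose k : ℝ) * ∑ A ∈ Y.powersetCard (k - j),
        ∑ B ∈ J.powersetCard j, gd x (A ∪ B) := by
    intro j hj
    have hj' := (mem_Wn k j).1 hj
    have h1 := dc_sub' Y k (k - j) (by omega) (fun A => ∑ B ∈ J.powersetCard j, gd x (A ∪ B))
    rw [hYc] at h1
    have e1 : k - (k - j) = j := by omega
    rw [e1] at h1
    have h2 : (Up.card : ℝ) * (3 / 10000 * ((k.choose (k - j) : ℝ) * ((k - 1).choose j : ℝ))) ≤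
        ∑ K ∈ Y.powersetCard k, ∑ A ∈ K.powersetCard (k - j),
          ∑ B ∈ J.powersetCard j, gd x (A ∪ B) := by
      calc (Up.card : ℝ) * (3 / 10000 * ((k.choose (k - j) : ℝ) * ((k - 1).choose j : ℝ)))
          = ∑ K ∈ Up, 3 / 10000 * ((k.choose (k - j) : ℝ) * ((k - 1).choose j : ℝ)) := by
            rw [Finset.sum_const, nsmul_eq_mul]
        _ ≤ ∑ K ∈ Up, ∑ A ∈ K.powersetCard (k - j),
          ∑ B ∈ J.powersetCard j, gd x (A ∪ B) := by
            refine Finset.sum_le_sum fun K hK => ?_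
            rw [hUp, Finset.mem_filter, Finset.mem_powersetCard] at hK
            obtain ⟨⟨hKY, hKc⟩, hKup⟩ := hK
            have hd : Disjoint K J :=
              Finset.disjoint_of_subset_left hKY Finset.sdiff_disjoint
            refine thin_step x u xb hx K J hd hk hKc hJc ?_ (x a1) T hx1 hT hbad hKup j hj
            rw [← Finset.sum_union hd]
            refine le_trans (Finset.sum_le_sum_of_subset_of_nonneg ?_ fun _ _ _ => sq_nonneg _) hVM
            exact Finset.union_subset (hKY.trans Finset.sdiff_subset) hJ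
        _ ≤ _ := Finset.sum_le_sum_of_subset_of_nonneg (Finset.filter_subset _ _)
            fun K _ _ => Finset.sum_nonneg fun A _ => Finset.sum_nonneg fun B _ => gd_nonneg _ _
    rw [h1] at h2
    have hch := Nat.choose_mul (n := 3 * k + r) (k := k) (s := k - j) (by omega)
    rw [e1] at hch
    have hch' : ((3 * k + r).choose k : ℝ) * (k.choose (k - j) : ℝ) =
        ((3 * k + r).choose (k - j) : ℝ) * ((3 * k + r - (k - j)).choose j : ℝ) := by
      exact_mod_cast hch
    have hpos : (0 : ℝ) < ((3 * k + r - (k - j)).choose j : ℝ) := by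
      have : 0 < (3 * k + r - (k - j)).choose j := Nat.choose_pos (by omega)
      exact_mod_cast this
    set S := ∑ A ∈ Y.powersetCard (k - j), ∑ B ∈ J.powersetCard j, gd x (A ∪ B)
    refine le_of_mul_le_mul_right ?_ hpos
    calc 3 / 10000 * (Up.card : ℝ) * (((3 * k + r).choose (k - j) : ℝ) *
          ((k - 1).choose j : ℝ)) * ((3 * k + r - (k - j)).choose j : ℝ)
        = ((3 * k + r).choose k : ℝ) * ((Up.card : ℝ) * (3 / 10000 *
          ((k.choose (k - j) : ℝ) * ((k - 1).choose j : ℝ)))) := by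
          linear_combination (-(3 / 10000 * (Up.card : ℝ) * ((k - 1).choose j : ℝ))) * hch'
      _ ≤ ((3 * k + r).choose k : ℝ) * (((3 * k + r - (k - j)).choose j : ℝ) * S) :=
          mul_le_mul_of_nonneg_left h2 hCY.le
      _ = _ := by ring
  have hW : ∀ j ∈ Wn k, j ≤ k := fun j hj => ((mem_Wn k j).1 hj).1
  have hs1 := split_W M J hJ k (Wn k) hW (gd x)
  have hs2 := split_W M J hJ k (Wn k) hW (fun _ => (1 : ℝ))
  have hwin := many_in_window (k := k) (r := r) M J hJ hk hMc hJc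
  have hone : ∑ j ∈ Wn k, (((3 * k + r).choose (k - j) : ℝ) * ((k - 1).choose j : ℝ)) =
      (((M.powersetCard k).filter (fun K => (K ∩ J).card ∈ Wn k)).card : ℝ) := by
    rw [Finset.sum_const, nsmul_eq_mul, mul_one] at hs2
    rw [hs2]
    refine Finset.sum_congr rfl fun j _ => ?_
    simp only [Finset.sum_const, Finset.card_powersetCard, nsmul_eq_mul, mul_one]
    rw [← hY, hYc, hJc]
  have hsum := Finset.sum_le_sum hstep
  rw [← Finset.mul_sum, ← Finset.mul_sum, hone, hY, ← hs1] at hsum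
  have hcnt : ∑ K ∈ (M.powersetCard k).filter (fun K => (K ∩ J).card ∈ Wn k), gd x K ≤
      cnt x M k 0 := by
    have e : cnt x M k 0 = ∑ K ∈ M.powersetCard k, gd x K := by
      unfold cnt gd
      simp only [zero_add]
    rw [e]
    exact Finset.sum_le_sum_of_subset_of_nonneg (Finset.filter_subset _ _)
      fun K _ _ => gd_nonneg _ _
  have hC1 : (0 : ℝ) < ((4 * k + r - 1).choose k : ℝ) := by
    have : 0 < (4 * k + r - 1).choose k := Nat.choose_pos (by omega)
    exact_mod_cast this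
  have hUp0 : (0 : ℝ) ≤ Up.card := by positivity
  refine le_of_mul_le_mul_right ?_ hC1
  calc 57 / 10 ^ 8 * (Up.card : ℝ) * ((4 * k + r - 1).choose k : ℝ)
      = 3 / 10000 * (Up.card : ℝ) * (19 / 10000 * ((4 * k + r - 1).choose k : ℝ)) := by ring
    _ ≤ 3 / 10000 * (Up.card : ℝ) *
        (((M.powersetCard k).filter (fun K => (K ∩ J).card ∈ Wn k)).card : ℝ) :=
        mul_le_mul_of_nonneg_left hwin (by positivity)
    _ ≤ _ := hsum
    _ ≤ ((3 * k + r).choose k : ℝ) * (γ * ((4 * k + r - 1).choose k : ℝ)) :=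
        mul_le_mul_of_nonneg_left (hcnt.trans hγ) hCY.le
    _ = _ := by ring

end Pool.Agent.H49.M4
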