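import Mathlib
import Pool.Agent.H49.M4.ThinB
import Pool.Agent.H49.M4.CL3M

open Finset
open scoped BigOperators

namespace Pool.Agent.H49.M4

open Pool.Agent.H49.MMS

variable {α : Type} [Fintype α] [DecidableEq α] {k r : ℕ}

omit [Fintype α] in
/-- exchange of summation over disjoint pairs -/
theorem swap2 (M : Finset α) (k m : ℕ) (f : Finset α → Finset α → ℝ) :
    ∑ J ∈ M.powersetCard m, ∑ K ∈ (M \ J).powersetCard k, f J K =
      ∑ K ∈ M.powersetCard k, ∑ J ∈ (M \ K).powersetCard m, f J K := by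
  refine Finset.sum_comm' ?_
  intro J K
  simp only [Finset.mem_powersetCard]
  constructor
  · rintro ⟨⟨hK, hKc⟩, hJ, hJc⟩
    refine ⟨⟨?_, hKc⟩, hJ.trans Finset.sdiff_subset, hJc⟩
    intro i hi
    rw [Finset.mem_sdiff]
    exact ⟨hK hi, fun h => (Finset.mem_sdiff.1 (hJ h)).2 hi⟩
  · rintro ⟨⟨hK, hKc⟩, hJ, hJc⟩
    refine ⟨⟨hK.trans Finset.sdiff_subset, hKc⟩, ?_, hJc⟩
    intro i hi
    rw [Finset.mem_sdiff]
    exact ⟨hJ hi, fun h => (Finset.mem_sdiff.1 (hK h)).2 hi⟩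

omit [Fintype α] in
/-- Cantelli's inequality for random subsets -/
theorem cantelli (Z : Finset α) (m : ℕ) (hm : m ≤ Z.card) (hZ : 2 ≤ Z.card) (v : α → ℝ)
    (hv : ∑ a ∈ Z, v a = 0) (lam c q : ℝ) (hc : 0 < lam + c)
    (hq : ((m : ℝ) * ((Z.card : ℝ) - m)) / ((Z.card : ℝ) * ((Z.card : ℝ) - 1)) *
      ∑ a ∈ Z, v a ^ 2 ≤ q) :
    ∑ J ∈ Z.powersetCard m, (if lam ≤ - ∑ a ∈ J, v a then (1 : ℝ) else 0) ≤
      (q + c ^ 2) / (lam + c) ^ 2 * ((Z.card).choose m : ℝ) := by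
  have f1 := firstMom_zero Z m v hv
  have s1 := secMom_fin Z m hm v hv hZ
  have hC0 : (0 : ℝ) ≤ ((Z.card).choose m : ℝ) := by positivity
  have h1 : (∑ J ∈ Z.powersetCard m, (if lam ≤ - ∑ a ∈ J, v a then (1 : ℝ) else 0)) *
      (lam + c) ^ 2 ≤ ∑ J ∈ Z.powersetCard m, (-(∑ a ∈ J, v a) + c) ^ 2 := by
    rw [Finset.sum_mul]
    refine Finset.sum_le_sum fun J _ => ?_
    split_ifs with h
    · rw [one_mul]
      exact pow_le_pow_left₀ hc.le (by linarith) 2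
    · rw [zero_mul]; positivity
  have h2 : ∑ J ∈ Z.powersetCard m, (-(∑ a ∈ J, v a) + c) ^ 2 =
      ∑ J ∈ Z.powersetCard m, (∑ a ∈ J, v a) ^ 2 + ((Z.card).choose m : ℝ) * c ^ 2 := by
    have h3 : ∀ J : Finset α, (-(∑ a ∈ J, v a) + c) ^ 2 =
        (∑ a ∈ J, v a) ^ 2 + (-(2 * c)) * (∑ a ∈ J, v a) + c ^ 2 := by intro J; ring
    rw [Finset.sum_congr rfl fun J _ => h3 J, Finset.sum_add_distrib, Finset.sum_add_distrib,
      ← Finset.mul_sum, f1, Finset.sum_const, Finset.card_powersetCard, nsmul_eq_mul]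
    ring
  rw [h2, s1] at h1
  have h4 : 0 < (lam + c) ^ 2 := by positivity
  have h5 := mul_le_mul_of_nonneg_left hq hC0
  rw [div_mul_eq_mul_div, le_div_iff₀ h4]
  linarith

/-- weight of a disjoint pair -/
noncomputable def wt (x : α → ℝ) (x1 T : ℝ) (J K : Finset α) : ℝ :=
  if x1 + ∑ i ∈ J, x i ≤ 0 ∧ 0 < ∑ i ∈ K, x i ∧
    ∑ i ∈ K, x i < 35 / 100 * x1 + T + 3 * (- ∑ i ∈ J, x i - x1) then 1 else 0

omit [Fintype α] [DecidableEq α] in
theorem wt_nonneg (x : α → ℝ) (x1 T : ℝ) (J K : Finset α) : 0 ≤ wt x x1 T J K := by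
  unfold wt; split_ifs <;> norm_num

/-- the sums over the bad sets -/
theorem A_lower (x u : α → ℝ) (xb : ℝ) (hxb : 0 < xb) (hx : ∀ a, x a = xb + u a)
    (hu : ∑ a, u a = 0) (hu2 : ∑ a, u a ^ 2 = 1)
    (hcard : Fintype.card α = 4 * k + r) (hk : (10 : ℝ) ^ 8 ≤ k)
    (hr : (r : ℝ) * 10 ^ 8 ≤ k)
    (a1 : α) (ha : 0 < u a1) (ha2 : 49 / 100 ≤ u a1 ^ 2)
    (hγ : cnt x (univ.erase a1) k 0 ≤ 1 / 10 ^ 10 * ((4 * k + r - 1).choose k : ℝ))
    (J : Finset α) (hJ : J ⊆ univ.erase a1) (hJc : J.card = k - 1)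
    (hbad : x a1 + ∑ i ∈ J, x i ≤ 0) :
    158 / 1000 * ((3 * k + r).choose k : ℝ) ≤
      ∑ K ∈ (univ.erase a1 \ J).powersetCard k, wt x (x a1) (∑ a, x a) J K := by
  have hk8 : 10 ^ 8 ≤ k := by exact_mod_cast hk
  set M : Finset α := univ.erase a1 with hM
  have hMc : M.card = 4 * k + r - 1 := by
    rw [hM, Finset.card_erase_of_mem (Finset.mem_univ _), Finset.card_univ, hcard]
  have hYc : (M \ J).card = 3 * k + r := by
    rw [Finset.card_sdiff_of_subset hJ, hMc, hJc]; omega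
  have hT : ∑ a, x a = (4 * k + r) * xb := by
    rw [Finset.sum_congr rfl fun a _ => hx a, Finset.sum_add_distrib, hu, Finset.sum_const,
      Finset.card_univ, hcard, nsmul_eq_mul]
    push_cast; ring
  have hk0 : (0 : ℝ) < k := by linarith
  have hT0 : 0 < ∑ a, x a := by rw [hT]; positivity
  have hsumY : ∑ a ∈ M \ J, x a = ∑ a, x a - x a1 - ∑ a ∈ J, x a := by
    have h1 := Finset.sum_erase_add univ x (Finset.mem_univ a1)
    have h2 := Finset.sum_sdiff (f := x) hJ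
    rw [← hM] at h1
    linarith
  have hr0 : (0 : ℝ) ≤ r := by positivity
  have hcl := CL3M x (M \ J) k r hYc (by
      rw [hYc]; push_cast; linarith) (by linarith) (by rw [hsumY]; linarith)
  rw [hYc] at hcl
  have hup := up_le (k := k) (r := r) x u xb hxb hx hu2 hcard (by linarith) a1 ha ha2 _ hγ J hJ hJc
    hbad (∑ a, x a) hT0.le
  set Up : Finset (Finset α) := ((M \ J).powersetCard k).filter (fun K =>
      35 / 100 * x a1 + ∑ a, x a + 3 * (- ∑ i ∈ J, x i - x a1) ≤ ∑ i ∈ K, x i) with hUp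
  have hC0 : (0 : ℝ) ≤ ((3 * k + r).choose k : ℝ) := by positivity
  have hUps : (Up.card : ℝ) ≤ 5 / 1000 * ((3 * k + r).choose k : ℝ) := by
    have h1 : (1 : ℝ) / 10 ^ 10 * ((3 * k + r).choose k : ℝ) ≤
        57 / 10 ^ 8 * (5 / 1000 * ((3 * k + r).choose k : ℝ)) := by
      have : (1 : ℝ) / 10 ^ 10 ≤ 57 / 10 ^ 8 * (5 / 1000) := by norm_num
      nlinarith
    have h2 := hup.trans h1
    exact le_of_mul_le_mul_left h2 (by norm_num)
  have hpt : cnt x (M \ J) k 0 ≤ ∑ K ∈ (M \ J).powersetCard k, wt x (x a1) (∑ a, x a) J K +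
      (Up.card : ℝ) := by
    unfold cnt
    have : (Up.card : ℝ) = ∑ K ∈ (M \ J).powersetCard k, (if 35 / 100 * x a1 + ∑ a, x a +
        3 * (- ∑ i ∈ J, x i - x a1) ≤ ∑ i ∈ K, x i then (1 : ℝ) else 0) := by
      rw [Finset.sum_boole]
    rw [this, ← Finset.sum_add_distrib]
    refine Finset.sum_le_sum fun K _ => ?_
    rw [zero_add]
    unfold wt
    by_cases h1 : 0 < ∑ i ∈ K, x i
    · rw [if_pos h1]
      by_cases h2 : 35 / 100 * x a1 + ∑ a, x a + 3 * (- ∑ i ∈ J, x i - x a1) ≤ ∑ i ∈ K, x i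
      · rw [if_pos h2]
        split_ifs <;> norm_num
      · rw [if_neg h2, if_pos ⟨hbad, h1, not_le.1 h2⟩]
        norm_num
    · rw [if_neg h1]
      split_ifs <;> norm_num
  linarith

/-- the sums over the good sets -/
theorem B_upper (x u : α → ℝ) (xb : ℝ) (hxb : 0 < xb) (hx : ∀ a, x a = xb + u a)
    (hu : ∑ a, u a = 0) (hu2 : ∑ a, u a ^ 2 = 1)
    (hcard : Fintype.card α = 4 * k + r) (hk : (10 : ℝ) ^ 8 ≤ k)
    (hr : (r : ℝ) * 10 ^ 8 ≤ k) (hT : (k : ℝ) * xb ≤ 24 / 10)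
    (a1 : α) (ha : 0 < u a1) (ha2 : 49 / 100 ≤ u a1 ^ 2)
    (K : Finset α) (hK : K ⊆ univ.erase a1) (hKc : K.card = k) :
    ∑ J ∈ (univ.erase a1 \ K).powersetCard (k - 1), wt x (x a1) (∑ a, x a) J K ≤
      435 / 1000 * ((3 * k + r - 1).choose (k - 1) : ℝ) * gd x K := by
  have hk8 : 10 ^ 8 ≤ k := by exact_mod_cast hk
  by_cases hgood : 0 < ∑ i ∈ K, x i
  swap
  · have : ∑ J ∈ (univ.erase a1 \ K).powersetCard (k - 1), wt x (x a1) (∑ a, x a) J K = 0 := by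
      refine Finset.sum_eq_zero fun J _ => ?_
      unfold wt
      rw [if_neg (fun h => hgood h.2.1)]
    rw [this]
    unfold gd
    rw [if_neg hgood, mul_zero]
  have hg1 : gd x K = 1 := if_pos hgood
  rw [hg1, mul_one]
  have hx1 : 7 / 10 ≤ x a1 := by
    rw [hx]
    nlinarith
  set M : Finset α := univ.erase a1 with hM
  have hMc : M.card = 4 * k + r - 1 := by
    rw [hM, Finset.card_erase_of_mem (Finset.mem_univ _), Finset.card_univ, hcard]
  set Z : Finset α := M \ K with hZ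
  have hZc : Z.card = 3 * k + r - 1 := by
    rw [hZ, Finset.card_sdiff_of_subset hK, hMc, hKc]; omega
  have hZR : (Z.card : ℝ) = 3 * k + r - 1 := by
    rw [hZc]; push_cast [Nat.cast_sub (by omega : 1 ≤ 3 * k + r)]; ring
  have hTe : ∑ a, x a = (4 * k + r) * xb := by
    rw [Finset.sum_congr rfl fun a _ => hx a, Finset.sum_add_distrib, hu, Finset.sum_const,
      Finset.card_univ, hcard, nsmul_eq_mul]
    push_cast; ring
  have hk0 : (0 : ℝ) < k := by linarith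
  have hr0 : (0 : ℝ) ≤ r := by positivity
  have hT10 : ∑ a, x a ≤ 10 := by
    rw [hTe]
    have : (r : ℝ) * xb ≤ k * xb / 10 := by nlinarith
    linarith
  have hT0 : 0 < ∑ a, x a := by rw [hTe]; positivity
  have hsumZ : ∑ a ∈ Z, x a = ∑ a, x a - x a1 - ∑ a ∈ K, x a := by
    have h1 := Finset.sum_erase_add univ x (Finset.mem_univ a1)
    have h2 := Finset.sum_sdiff (f := x) hK
    rw [← hM] at h1
    linarith
  have hVM : ∑ i ∈ Z, u i ^ 2 ≤ 51 / 100 := by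
    have h1 := Finset.add_sum_erase univ (fun a => u a ^ 2) (Finset.mem_univ a1)
    have h2 : ∑ i ∈ Z, u i ^ 2 ≤ ∑ i ∈ M, u i ^ 2 :=
      Finset.sum_le_sum_of_subset_of_nonneg Finset.sdiff_subset fun _ _ _ => sq_nonneg _
    rw [← hM] at h1
    linarith
  have hk1 : ((k - 1 : ℕ) : ℝ) = k - 1 := by push_cast [Nat.cast_sub (by omega : 1 ≤ k)]; ring
  have hNp : (0 : ℝ) < 3 * k + r - 1 := by linarith
  set μ : ℝ := (∑ a ∈ Z, x a) / Z.card with hμ
  have hv : ∑ a ∈ Z, (x a - μ) = 0 := by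
    rw [Finset.sum_sub_distrib, Finset.sum_const, nsmul_eq_mul, hμ]
    have : (Z.card : ℝ) ≠ 0 := by rw [hZR]; exact hNp.ne'
    field_simp
    ring
  have hvar := var_le Z x u xb hx
  rw [← hμ] at hvar
  have hcan := cantelli Z (k - 1) (by omega) (by omega) (fun a => x a - μ) hv
    (384 / 1000) (295 / 1000) (11338 / 100000) (by norm_num) (by
      rw [hZR, hk1]
      have h1 : ((k : ℝ) - 1) * (3 * k + r - 1 - (k - 1)) / ((3 * k + r - 1) *
          (3 * k + r - 1 - 1)) ≤ 22223 / 100000 := by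
        rw [div_le_iff₀ (mul_pos hNp (by linarith))]
        have h2 : (2 : ℝ) * k + r ≤ 20001 / 10000 * k := by linarith
        have h3 : ((k : ℝ) - 1) * (3 * k + r - 1 - (k - 1)) ≤ k * (20001 / 10000 * k) :=
          mul_le_mul (by linarith) (by linarith) (by linarith) (by linarith)
        have h4 : ((3 : ℝ) * k - 1) * (3 * k - 2) ≤ (3 * k + r - 1) * (3 * k + r - 1 - 1) :=
          mul_le_mul (by linarith) (by linarith) (by linarith) (by linarith)
        nlinarith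
      have h5 : 0 ≤ ∑ a ∈ Z, (x a - μ) ^ 2 := Finset.sum_nonneg fun _ _ => sq_nonneg _
      calc _ ≤ 22223 / 100000 * ∑ a ∈ Z, (x a - μ) ^ 2 := mul_le_mul_of_nonneg_right h1 h5
        _ ≤ 22223 / 100000 * (51 / 100) := mul_le_mul_of_nonneg_left (hvar.trans hVM) (by norm_num)
        _ ≤ _ := by norm_num)
  rw [hZc] at hcan
  have hC0 : (0 : ℝ) ≤ ((3 * k + r - 1).choose (k - 1) : ℝ) := by positivity
  have hnum : ((11338 / 100000 + (295 / 1000) ^ 2) / (384 / 1000 + 295 / 1000) ^ 2 : ℝ) ≤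
      435 / 1000 := by norm_num
  refine le_trans ?_ (hcan.trans (mul_le_mul_of_nonneg_right hnum hC0))
  refine Finset.sum_le_sum fun J hJ => ?_
  obtain ⟨hJZ, hJc⟩ := Finset.mem_powersetCard.1 hJ
  unfold wt
  split_ifs with h1 h2
  · exact le_rfl
  · exfalso
    apply h2
    obtain ⟨b1, b2, b3⟩ := h1
    rw [Finset.sum_sub_distrib, Finset.sum_const, hJc, nsmul_eq_mul, hk1]
    set s : ℝ := ∑ i ∈ J, x i with hs
    set xK : ℝ := ∑ i ∈ K, x i with hxK
    set T : ℝ := ∑ a, x a with hT'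
    have hμe : ((k : ℝ) - 1) * μ = (k - 1) / (3 * k + r - 1) * (T - x a1 - xK) := by
      rw [hμ, hsumZ, hZR]; ring
    set ρ : ℝ := (k - 1) / (3 * k + r - 1) with hρ
    have hρ1 : ρ ≤ 1 / 3 := by
      rw [hρ, div_le_div_iff₀ hNp (by norm_num)]; linarith
    have hρ2 : 1 / 3 - ρ ≤ 1 / 10 ^ 6 := by
      have : 1 / 3 - 1 / 10 ^ 6 ≤ ρ := by
        rw [hρ, le_div_iff₀ hNp]
        norm_num
        linarith
      linarith
    have h3 : -(1 / 10 ^ 5) ≤ (1 / 3 - ρ) * (xK - T) := by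
      have h4 : (1 / 3 - ρ) * (T - xK) ≤ 1 / 10 ^ 6 * 10 := by
        by_cases hc : 0 ≤ T - xK
        · exact mul_le_mul hρ2 (by linarith) hc (by norm_num)
        · push Not at hc
          have : (1 / 3 - ρ) * (T - xK) ≤ 0 :=
            mul_nonpos_of_nonneg_of_nonpos (by linarith) hc.le
          have h5 : (0 : ℝ) ≤ 1 / 10 ^ 6 * 10 := by norm_num
          linarith
      have h5 : (1 / 3 - ρ) * (xK - T) = -((1 / 3 - ρ) * (T - xK)) := by ring
      rw [h5]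
      norm_num at h4 ⊢
      linarith
    have h6 : -(s - ((k : ℝ) - 1) * μ) = -s + ρ * (T - x a1 - xK) := by rw [hμe]; ring
    rw [h6]
    have h7 : -s ≥ x a1 + (xK - T - 35 / 100 * x a1) / 3 := by linarith
    have h8 : (1 / 3 - ρ) * x a1 ≥ 0 := mul_nonneg (by linarith) (by linarith)
    have h9 : -s + ρ * (T - x a1 - xK) ≥ 55 / 100 * x a1 + (1 / 3 - ρ) * x a1 +
        (1 / 3 - ρ) * (xK - T) := by linarith
    have h10 : -(1 / 10 ^ 5 : ℝ) ≥ - (1 / 1000) := by norm_num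
    linarith
  · norm_num
  · exact le_rfl

end Pool.Agent.H49.M4
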