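import Mathlib
import Pool.Agent.H49.M4.FinA
import Pool.Agent.H49.MMS.Fin

open Finset
open scoped BigOperators

namespace Pool.Agent.H49.M4

open Pool.Agent.H49.MMS

variable {α : Type} [Fintype α] [DecidableEq α] {k r : ℕ}

omit [Fintype α] in
theorem cnt_gd (x : α → ℝ) (M : Finset α) (k : ℕ) : cnt x M k 0 = ∑ K ∈ M.powersetCard k, gd x K := by
  unfold cnt gd
  simp only [zero_add]

/-- indicator of a bad set -/
noncomputable def bd (x : α → ℝ) (x1 : ℝ) (J : Finset α) : ℝ :=
  if x1 + ∑ i ∈ J, x i ≤ 0 then 1 else 0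

omit [Fintype α] in
theorem bd_cnt (x : α → ℝ) (M : Finset α) (m : ℕ) (z : ℝ) :
    ∑ J ∈ M.powersetCard m, bd x z J + cnt x M m z = ((M.card).choose m : ℝ) := by
  unfold bd cnt
  rw [← Finset.sum_add_distrib, ← Finset.card_powersetCard, Finset.cast_card]
  refine Finset.sum_congr rfl fun J _ => ?_
  by_cases h : z + ∑ i ∈ J, x i ≤ 0
  · rw [if_pos h, if_neg (not_lt.2 h)]; norm_num
  · rw [if_neg h, if_pos (not_le.1 h)]; norm_num

/-- it is enough that the bad sets are at most as many as the good sets avoiding an element -/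
theorem enough (x : α → ℝ) (a1 : α) (k : ℕ) (hk : 1 ≤ k)
    (h : ∑ J ∈ (univ.erase a1).powersetCard (k - 1), bd x (x a1) J ≤ cnt x (univ.erase a1) k 0) :
    ((Fintype.card α - 1).choose (k - 1) : ℝ) ≤ goodC x k := by
  have h1 := cnt_insert x (univ.erase a1) (k - 1) 0 a1 (Finset.notMem_erase _ _)
  rw [Finset.insert_erase (Finset.mem_univ _), Nat.sub_add_cancel hk, zero_add] at h1
  have h2 := bd_cnt x (univ.erase a1) (k - 1) (x a1)
  rw [Finset.card_erase_of_mem (Finset.mem_univ _), Finset.card_univ] at h2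
  rw [goodC_eq, h1]
  linarith

/-- the case of a dominating element -/
theorem final_case [Nonempty (L4 k r ≃ α)] (x u : α → ℝ) (xb : ℝ) (hxb : 0 < xb)
    (hx : ∀ a, x a = xb + u a)
    (hu : ∑ a, u a = 0) (hu2 : ∑ a, u a ^ 2 = 1)
    (hcard : Fintype.card α = 4 * k + r) (hr1 : 1 ≤ r)
    (hr : 10 ^ 12 * r ≤ k)
    (hε0 : (𝔼 e : L4 k r ≃ α, N0 x e) ≤ 1 / 10 ^ 14)
    (hε : (𝔼 e : L4 k r ≃ α, N2 x e) ≤ 1 / 10 ^ 14) :
    ((4 * k + r - 1).choose (k - 1) : ℝ) ≤ goodC x k := by
  have hrR : (10 : ℝ) ^ 12 * r ≤ k := by exact_mod_cast hr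
  have hr1R : (1 : ℝ) ≤ r := by exact_mod_cast hr1
  have hk12 : (10 : ℝ) ^ 12 ≤ k := le_trans (by nlinarith) hrR
  have hk1 : 1 ≤ k := by
    have : (1 : ℝ) ≤ k := le_trans (by norm_num) hk12
    exact_mod_cast this
  have hk0 : (0 : ℝ) < k := by linarith
  have hnR : (Fintype.card α : ℝ) = 4 * k + r := by rw [hcard]; push_cast; ring
  have hn2 : 2 ≤ Fintype.card α := by omega
  have hkn : (k : ℝ) / ((Fintype.card α : ℝ) - 1) ≤ 1 / 2 := by
    rw [hnR, div_le_div_iff₀ (by linarith) (by norm_num)]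
    linarith
  have hrn : (r : ℝ) / ((Fintype.card α : ℝ) - 1) ≤ 1 / 10 ^ 12 := by
    rw [hnR, div_le_div_iff₀ (by linarith) (by norm_num)]
    linarith
  have hP4 := P4_large (k := k) (r := r) x u xb hxb hx hu hu2 hk1 hn2 hrn hε
  have hP3 := P3_large (k := k) (r := r) x u xb hxb hx hu hu2 hk1 hn2 hkn hrn hε
  obtain ⟨a1, ha, ha2⟩ := dominating u hu2 hP4 hP3
  have hT := T_le (k := k) (r := r) x u xb hx hu hu2 hn2 hkn hε
  have hk6 : (10 : ℝ) ^ 6 ≤ k := le_trans (by norm_num) hk12
  have hk8 : (10 : ℝ) ^ 8 ≤ k := le_trans (by norm_num) hk12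
  have hr6 : (r : ℝ) * 10 ^ 6 ≤ k := le_trans (by nlinarith) hrR
  have hr8 : (r : ℝ) * 10 ^ 8 ≤ k := le_trans (by nlinarith) hrR
  have hγ := gamma_le (k := k) (r := r) x u xb hxb hx hu hu2 hcard hk6 hr6 hT a1 ha ha2 _ hε0 hε
  have hγ' : cnt x (univ.erase a1) k 0 ≤ 1 / 10 ^ 10 * ((4 * k + r - 1).choose k : ℝ) := by
    refine hγ.trans (mul_le_mul_of_nonneg_right (by norm_num) (by positivity))
  have hres := enough x a1 k hk1 (by
    have hswap := swap2 (univ.erase a1) k (k - 1) (fun J K => wt x (x a1) (∑ a, x a) J K)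
    have hA : 158 / 1000 * ((3 * k + r).choose k : ℝ) *
        ∑ J ∈ (univ.erase a1).powersetCard (k - 1), bd x (x a1) J ≤
        ∑ J ∈ (univ.erase a1).powersetCard (k - 1), ∑ K ∈ (univ.erase a1 \ J).powersetCard k,
          wt x (x a1) (∑ a, x a) J K := by
      rw [Finset.mul_sum]
      refine Finset.sum_le_sum fun J hJ => ?_
      obtain ⟨hJs, hJc⟩ := Finset.mem_powersetCard.1 hJ
      unfold bd
      split_ifs with hb
      · rw [mul_one]
        exact A_lower (k := k) (r := r) x u xb hxb hx hu hu2 hcard hk8 hr8 a1 ha ha2 hγ' J hJs hJc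
          hb
      · rw [mul_zero]
        exact Finset.sum_nonneg fun K _ => wt_nonneg _ _ _ _ _
    have hB : ∑ K ∈ (univ.erase a1).powersetCard k,
        ∑ J ∈ (univ.erase a1 \ K).powersetCard (k - 1), wt x (x a1) (∑ a, x a) J K ≤
        435 / 1000 * ((3 * k + r - 1).choose (k - 1) : ℝ) * cnt x (univ.erase a1) k 0 := by
      rw [cnt_gd, Finset.mul_sum]
      refine Finset.sum_le_sum fun K hK => ?_
      obtain ⟨hKs, hKc⟩ := Finset.mem_powersetCard.1 hK
      exact B_upper (k := k) (r := r) x u xb hxb hx hu hu2 hcard hk8 hr8 hT a1 ha ha2 K hKs hKc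
    rw [hswap] at hA
    have hAB := hA.trans hB
    have hrel : (3 * k + r : ℝ) * ((3 * k + r - 1).choose (k - 1) : ℝ) =
        ((3 * k + r).choose k : ℝ) * k := by
      have h := Nat.add_one_mul_choose_eq (3 * k + r - 1) (k - 1)
      have e1 : 3 * k + r - 1 + 1 = 3 * k + r := by omega
      have e2 : k - 1 + 1 = k := by omega
      rw [e1, e2] at h
      have h' : (((3 * k + r) * (3 * k + r - 1).choose (k - 1) : ℕ) : ℝ) =
        (((3 * k + r).choose k * k : ℕ) : ℝ) := by rw [h]
      push_cast at h'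
      exact h'
    set C : ℝ := ((3 * k + r).choose k : ℝ) with hC
    set C' : ℝ := ((3 * k + r - 1).choose (k - 1) : ℝ) with hC'
    have hCpos : 0 < C := by
      have : 0 < (3 * k + r).choose k := Nat.choose_pos (by omega)
      rw [hC]; exact_mod_cast this
    have hC'0 : 0 ≤ C' := by positivity
    have hC3 : C' ≤ C / 3 := by
      have : C' * (3 * k) ≤ (C / 3) * (3 * k) := by nlinarith
      exact le_of_mul_le_mul_right this (by positivity)
    set B := ∑ J ∈ (univ.erase a1).powersetCard (k - 1), bd x (x a1) J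
    set G := cnt x (univ.erase a1) k 0
    have hG0 : 0 ≤ G := cnt_nonneg _ _ _ _
    have h1 : 158 / 1000 * C * B ≤ 158 / 1000 * C * G := by
      refine hAB.trans ?_
      have : 435 / 1000 * C' ≤ 158 / 1000 * C := by linarith
      exact mul_le_mul_of_nonneg_right this hG0
    exact le_of_mul_le_mul_left h1 (by positivity))
  rw [hcard] at hres
  exact hres

/-- the lower bound for a given pair `n, k` -/
def LB (n k : ℕ) : Prop := ∀ (α : Type) [Fintype α] [DecidableEq α] (x : α → ℝ),
  Fintype.card α = n → 0 < ∑ a, x a → ((n - 1).choose (k - 1) : ℝ) ≤ goodC x k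

theorem quarter (k r : ℕ) (hk : 1 ≤ k) :
    4 * ((4 * k + r - 1).choose (k - 1) : ℝ) ≤ ((4 * k + r).choose k : ℝ) := by
  have h := Nat.add_one_mul_choose_eq (4 * k + r - 1) (k - 1)
  have e1 : 4 * k + r - 1 + 1 = 4 * k + r := by omega
  have e2 : k - 1 + 1 = k := by omega
  rw [e1, e2] at h
  have h' : (((4 * k + r) * (4 * k + r - 1).choose (k - 1) : ℕ) : ℝ) =
    (((4 * k + r).choose k * k : ℕ) : ℝ) := by rw [h]
  push_cast at h'
  have hk0 : (0 : ℝ) < k := by exact_mod_cast hk
  have hr0 : (0 : ℝ) ≤ r := by positivity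
  have hC : (0 : ℝ) ≤ ((4 * k + r - 1).choose (k - 1) : ℝ) := by positivity
  refine le_of_mul_le_mul_right ?_ hk0
  rw [← h']
  nlinarith

/-- the base case `n = 4k` -/
theorem base0 (k : ℕ) (hk : 1 ≤ k) : LB (4 * k) k := by
  intro α _ _ x hcard hxs
  have hne : Nonempty (L4 k 0 ≃ α) := ⟨Fintype.equivOfCardEq (by rw [card_L4, hcard]; rfl)⟩
  have h4 := good4 (k := k) (r := 0) x (by rw [hcard]; rfl)
  have hN0 : (𝔼 e : L4 k 0 ≃ α, N0 x e) = 0 := by
    refine Finset.expect_eq_zero fun e _ => ?_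
    by_contra hne0
    have h0 : bp x false e ≠ 0 := left_ne_zero_of_mul hne0
    have h1 : bp x true e ≠ 0 := right_ne_zero_of_mul hne0
    have h0' : X4 false false x e ≤ 0 ∧ X4 true false x e ≤ 0 := by
      by_contra hc
      exact h0 (if_neg hc)
    have h1' : X4 false true x e ≤ 0 ∧ X4 true true x e ≤ 0 := by
      by_contra hc
      exact h1 (if_neg hc)
    have hs := sum4 x e
    have hR : XR x e = 0 := by unfold XR; simp
    linarith [h0'.1, h0'.2, h1'.1, h1'.2]
  have hN2 : 0 ≤ 𝔼 e : L4 k 0 ≃ α, N2 x e := Finset.expect_nonneg fun e _ => N2_nonneg x e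
  have hC : (0 : ℝ) < ((4 * k + 0).choose k : ℝ) := by
    have : 0 < (4 * k + 0).choose k := Nat.choose_pos (by omega)
    exact_mod_cast this
  have h5 : 1 / 4 ≤ goodC x k / ((4 * k + 0).choose k : ℝ) := by linarith
  rw [le_div_iff₀ hC] at h5
  have hq := quarter k 0 hk
  rw [Nat.add_zero] at hq h5
  linarith

/-- the base case `n = 4k + r` -/
theorem base4 : ∃ K0 : ℕ, 1 ≤ K0 ∧ ∀ k r : ℕ, 1 ≤ r → K0 * r ≤ k → LB (4 * k + r) k := by
  obtain ⟨K1, hK1, hbeta⟩ := beta (1 / 10 ^ 14) (by positivity)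
  refine ⟨K1 + 10 ^ 12, by omega, ?_⟩
  intro k r hr1 hKr α _ _ x hcard hxs
  have hKr1 : K1 * r ≤ k := by nlinarith
  have hKr2 : 10 ^ 12 * r ≤ k := by nlinarith
  have hk1 : 1 ≤ k := by nlinarith
  have hne : Nonempty (L4 k r ≃ α) := ⟨Fintype.equivOfCardEq (by rw [card_L4, hcard])⟩
  have hq := quarter k r hk1
  have hC0 : (0 : ℝ) ≤ ((4 * k + r - 1).choose (k - 1) : ℝ) := by positivity
  rcases normalise x hxs with h | ⟨c, xb, u, hc, hxb, hxu, hu, hu2⟩
  · rw [goodC_pos x k hk1 h, hcard]
    linarith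
  rw [← goodC_scale x k c hc]
  set y : α → ℝ := fun a => c * x a with hy
  have hC : (0 : ℝ) < ((4 * k + r).choose k : ℝ) := by
    have : 0 < (4 * k + r).choose k := Nat.choose_pos (by omega)
    exact_mod_cast this
  have h4 := good4 (k := k) (r := r) y hcard
  by_cases h02 : (𝔼 e : L4 k r ≃ α, N0 y e) ≤ 𝔼 e : L4 k r ≃ α, N2 y e
  · have h5 : 1 / 4 ≤ goodC y k / ((4 * k + r).choose k : ℝ) := by linarith
    rw [le_div_iff₀ hC] at h5
    linarith
  · push Not at h02
    have hε0 : (𝔼 e : L4 k r ≃ α, N0 y e) ≤ 1 / 10 ^ 14 := by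
      rcases hbeta α k r y u xb hxb hxu hu hr1 hKr1 hcard with h | h
      · exact h
      · exact absurd h (not_le.2 h02)
    exact final_case (k := k) (r := r) y u xb hxb hxu hu hu2 hcard hr1 hKr2 hε0
      (h02.le.trans hε0)

/-- from `n` to `n + k` -/
theorem step_k (n k : ℕ) (hk : 1 ≤ k) (hkn : k ≤ n) (h : LB n k) : LB (n + k) k := by
  intro α _ _ x hcard hxs
  have hne : Nonempty α := by
    rw [← Fintype.card_pos_iff, hcard]; omega
  obtain ⟨a1⟩ := hne
  have hres := enough x a1 k hk (by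
    set M : Finset α := univ.erase a1 with hM
    have hMc : M.card = n + k - 1 := by
      rw [hM, Finset.card_erase_of_mem (Finset.mem_univ _), Finset.card_univ, hcard]
    have hswap := swap2 M k (k - 1) (fun J K => bd x (x a1) J * gd x K)
    have hCpos : (0 : ℝ) < ((n - 1).choose (k - 1) : ℝ) := by
      have : 0 < (n - 1).choose (k - 1) := Nat.choose_pos (by omega)
      exact_mod_cast this
    have hA : ((n - 1).choose (k - 1) : ℝ) * ∑ J ∈ M.powersetCard (k - 1), bd x (x a1) J ≤
        ∑ J ∈ M.powersetCard (k - 1), ∑ K ∈ (M \ J).powersetCard k,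
          bd x (x a1) J * gd x K := by
      rw [Finset.mul_sum]
      refine Finset.sum_le_sum fun J hJ => ?_
      obtain ⟨hJs, hJc⟩ := Finset.mem_powersetCard.1 hJ
      rw [← Finset.mul_sum, mul_comm]
      unfold bd
      split_ifs with hb
      · rw [one_mul, one_mul]
        have hsumY : ∑ a ∈ M \ J, x a = ∑ a, x a - x a1 - ∑ a ∈ J, x a := by
          have h1 := Finset.sum_erase_add univ x (Finset.mem_univ a1)
          have h2 := Finset.sum_sdiff (f := x) hJs
          rw [← hM] at h1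
          linarith
        have h1 := h (↥(M \ J)) (fun i => x i) (by
          rw [Fintype.card_coe, Finset.card_sdiff_of_subset hJs, hMc, hJc]; omega)
          (by rw [Finset.sum_coe_sort (M \ J) x, hsumY]; linarith)
        refine h1.trans (le_of_eq ?_)
        unfold goodC gd
        rw [sum_powersetCard_subtype (M \ J) k (fun S => if 0 < ∑ a ∈ S, x a then (1 : ℝ) else 0)]
        refine Finset.sum_congr rfl fun S _ => ?_
        rw [Finset.sum_map]
        rfl
      · rw [zero_mul, zero_mul]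
    have hB : ∑ K ∈ M.powersetCard k, ∑ J ∈ (M \ K).powersetCard (k - 1),
        bd x (x a1) J * gd x K ≤ ((n - 1).choose (k - 1) : ℝ) * cnt x M k 0 := by
      rw [cnt_gd, Finset.mul_sum]
      refine Finset.sum_le_sum fun K hK => ?_
      obtain ⟨hKs, hKc⟩ := Finset.mem_powersetCard.1 hK
      rw [← Finset.sum_mul]
      refine mul_le_mul_of_nonneg_right ?_ (gd_nonneg _ _)
      calc ∑ J ∈ (M \ K).powersetCard (k - 1), bd x (x a1) J ≤
          ∑ _J ∈ (M \ K).powersetCard (k - 1), (1 : ℝ) := by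
            refine Finset.sum_le_sum fun J _ => ?_
            unfold bd; split_ifs <;> norm_num
        _ = _ := by
            rw [Finset.sum_const, Finset.card_powersetCard, Finset.card_sdiff_of_subset hKs, hMc,
              hKc, nsmul_eq_mul, mul_one]
            have : n + k - 1 - k = n - 1 := by omega
            rw [this]
    rw [hswap] at hA
    exact le_of_mul_le_mul_left (hA.trans hB) hCpos)
  rw [hcard] at hres
  exact hres

theorem steps (n k : ℕ) (hk : 1 ≤ k) (hkn : k ≤ n) (h : LB n k) (j : ℕ) : LB (n + j * k) k := by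
  induction j with
  | zero => simpa using h
  | succ j ih =>
    have := step_k (n + j * k) k hk (by omega) ih
    have e : n + (j + 1) * k = n + j * k + k := by ring
    rw [e]
    exact this

/-- the lower bound for all `n ≥ 4k` with a small residue -/
theorem all4 : ∃ K0 : ℕ, 1 ≤ K0 ∧ ∀ n k : ℕ, 1 ≤ k → 4 * k ≤ n → K0 * (n % k) ≤ k → LB n k := by
  obtain ⟨K0, hK0, hb⟩ := base4
  refine ⟨K0, hK0, ?_⟩
  intro n k hk hn hr
  have hdiv := Nat.div_add_mod n k
  have h4 : 4 ≤ n / k := (Nat.le_div_iff_mul_le (by omega)).2 hn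
  obtain ⟨j, hj⟩ := Nat.exists_eq_add_of_le h4
  have e : n = 4 * k + n % k + j * k := by
    rw [hj] at hdiv
    nlinarith
  have hbase : LB (4 * k + n % k) k := by
    by_cases h0 : n % k = 0
    · rw [h0]; exact base0 k hk
    · exact hb k (n % k) (by omega) hr
  rw [e]
  have e2 : (4 * k + n % k + j * k) % k = n % k := by rw [← e]
  exact steps _ k hk (by omega) hbase j

/-- the star configuration -/
theorem star (n k : ℕ) (hk : 1 ≤ k) (hkn : k ≤ n) :
    ∃ x : Fin n → ℝ, 0 < ∑ i, x i ∧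
      ((Finset.univ.powersetCard k).filter
        (fun S : Finset (Fin n) => 0 < ∑ i ∈ S, x i)).card = (n - 1).choose (k - 1) := by
  have hn : 0 < n := by omega
  set a : Fin n := ⟨0, hn⟩ with ha
  set x : Fin n → ℝ := fun i => if i = a then (n : ℝ) - 1 / 2 else -1 with hx
  have hxa : x a = (n : ℝ) - 1 / 2 := by rw [hx]; simp
  have hxo : ∀ i, i ≠ a → x i = -1 := by intro i hi; rw [hx]; simp [hi]
  have hsum : ∀ S : Finset (Fin n), a ∈ S → ∑ i ∈ S, x i = (n : ℝ) - 1 / 2 - (S.card - 1) := by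
    intro S hS
    rw [← Finset.add_sum_erase S x hS, hxa,
      Finset.sum_congr rfl (fun i hi => hxo i (Finset.mem_erase.1 hi).1), Finset.sum_const,
      Finset.card_erase_of_mem hS, nsmul_eq_mul]
    have : 1 ≤ S.card := Finset.card_pos.2 ⟨a, hS⟩
    push_cast [Nat.cast_sub this]
    ring
  have hsum' : ∀ S : Finset (Fin n), a ∉ S → ∑ i ∈ S, x i = - (S.card : ℝ) := by
    intro S hS
    rw [Finset.sum_congr rfl (fun i hi => hxo i (fun h => hS (h ▸ hi))), Finset.sum_const,
      nsmul_eq_mul]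
    ring
  refine ⟨x, ?_, ?_⟩
  · rw [hsum univ (Finset.mem_univ a), Finset.card_univ, Fintype.card_fin]
    linarith
  · have hset : (univ.powersetCard k).filter (fun S : Finset (Fin n) => 0 < ∑ i ∈ S, x i) =
        (((univ : Finset (Fin n)).erase a).powersetCard (k - 1)).image (insert a) := by
      ext S
      rw [Finset.mem_filter, Finset.mem_powersetCard, Finset.mem_image]
      constructor
      · rintro ⟨⟨_, hSc⟩, hpos⟩
        have haS : a ∈ S := by
          by_contra hc
          rw [hsum' S hc] at hpos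
          have : (0 : ℝ) ≤ S.card := by positivity
          linarith
        refine ⟨S.erase a, ?_, Finset.insert_erase haS⟩
        rw [Finset.mem_powersetCard]
        exact ⟨Finset.erase_subset_erase a (Finset.subset_univ _), by
          rw [Finset.card_erase_of_mem haS, hSc]⟩
      · rintro ⟨T, hT, rfl⟩
        rw [Finset.mem_powersetCard] at hT
        have haT : a ∉ T := fun h => Finset.notMem_erase a univ (hT.1 h)
        have hc : (insert a T).card = k := by
          rw [Finset.card_insert_of_notMem haT, hT.2]; omega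
        refine ⟨⟨Finset.subset_univ _, hc⟩, ?_⟩
        rw [hsum _ (Finset.mem_insert_self _ _), hc]
        have : (k : ℝ) ≤ n := by exact_mod_cast hkn
        linarith
    rw [hset, Finset.card_image_of_injOn, Finset.card_powersetCard,
      Finset.card_erase_of_mem (Finset.mem_univ _), Finset.card_univ, Fintype.card_fin]
    intro S hS T hT hST
    have hS' := (Finset.mem_powersetCard.1 (Finset.mem_coe.1 hS)).1
    have hT' := (Finset.mem_powersetCard.1 (Finset.mem_coe.1 hT)).1
    have haS : a ∉ S := fun h => Finset.notMem_erase a univ (hS' h)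
    have haT : a ∉ T := fun h => Finset.notMem_erase a univ (hT' h)
    rw [← Finset.erase_insert haS, ← Finset.erase_insert haT]
    rw [hST]

/-- the exact value from the lower bound -/
theorem least (n k : ℕ) (hk : 1 ≤ k) (hkn : k ≤ n) (h : LB n k) :
    IsLeast {v : ℕ | ∃ x : Fin n → ℝ, 0 < ∑ i, x i ∧
      ((Finset.univ.powersetCard k).filter
        (fun S : Finset (Fin n) => 0 < ∑ i ∈ S, x i)).card = v} ((n - 1).choose (k - 1)) := by
  constructor
  · exact star n k hk hkn
  · rintro v ⟨x, hx, rfl⟩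
    have h1 := h (Fin n) x (Fintype.card_fin n) hx
    have h2 := posSums_eq n k x
    rw [← h2] at h1
    exact_mod_cast h1

end Pool.Agent.H49.M4
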